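import Pool.Agent.KPC.BopFacts

/-!
# Project KPC, F3: `A` is an isometry; the matrix of `A`
-/

open Finset BigOperators

namespace KPC

section Calc

variable {J X Y Ω : Type} [Fintype J] [DecidableEq J] [Fintype X] [Fintype Y] [DecidableEq Y]
  [Fintype Ω] [DecidableEq Ω] {e : ℕ} {δ : ℝ} (w : WeylSys J X Y e δ) (S : J → Finset Ω)

namespace AopFacts_

omit [Fintype Ω] in
theorem PiOp_add (x : X) (σ : CC J e) (F G : Ω × Y → ℝ) :
    PiOp w S x σ (F + G) = PiOp w S x σ F + PiOp w S x σ G := by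
  funext p
  simp only [PiOp, Pi.add_apply]
  rw [← mul_add, ← Finset.sum_add_distrib]
  congr 1
  refine Finset.sum_congr rfl fun c _ => ?_
  have h : (fun y => F (p.1, y) + G (p.1, y)) = (fun y => F (p.1, y)) + fun y => G (p.1, y) := rfl
  rw [h, Matrix.mulVec_add, Pi.add_apply, mul_add]

omit [Fintype Ω] in
theorem PiOp_smul (x : X) (σ : CC J e) (c : ℝ) (F : Ω × Y → ℝ) :
    PiOp w S x σ (c • F) = c • PiOp w S x σ F := by
  funext p
  have key : ∀ d : CC J e, ((w.W x d).mulVec fun y => (c • F) (p.1, y)) p.2 =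
      c * ((w.W x d).mulVec fun y => F (p.1, y)) p.2 := by
    intro d
    have h : (fun y => (c • F) (p.1, y)) = c • fun y => F (p.1, y) := rfl
    rw [h, Matrix.mulVec_smul, Pi.smul_apply, smul_eq_mul]
  have h2 : ∑ d ∈ lab e S p.1, chi d σ * ((w.W x d).mulVec fun y => (c • F) (p.1, y)) p.2 =
      c * ∑ d ∈ lab e S p.1, chi d σ * ((w.W x d).mulVec fun y => F (p.1, y)) p.2 := by
    rw [Finset.mul_sum]
    refine Finset.sum_congr rfl fun d _ => ?_
    rw [key]
    ring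
  show (Real.sqrt ((lab e S p.1).card : ℝ))⁻¹ * _ = c * ((Real.sqrt _)⁻¹ * _)
  rw [h2]
  ring

end AopFacts_

theorem Bop_add (F G : Ω × Y → ℝ) : Bop w S (F + G) = Bop w S F + Bop w S G := by
  funext ξ
  simp only [Bop, Pi.add_apply]
  rw [← Finset.sum_add_distrib]
  refine Finset.sum_congr rfl fun p _ => ?_
  rw [AopFacts_.PiOp_add, Pi.add_apply, mul_add]

theorem Bop_smul (c : ℝ) (F : Ω × Y → ℝ) : Bop w S (c • F) = c • Bop w S F := by
  funext ξ
  simp only [Bop, Pi.smul_apply, smul_eq_mul]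
  rw [Finset.mul_sum]
  refine Finset.sum_congr rfl fun p _ => ?_
  rw [AopFacts_.PiOp_smul, Pi.smul_apply, smul_eq_mul]
  ring

theorem Bop_sub (F G : Ω × Y → ℝ) : Bop w S (F - G) = Bop w S F - Bop w S G := by
  have h : F - G = F + (-1 : ℝ) • G := by
    funext p
    simp [sub_eq_add_neg]
  rw [h, Bop_add, Bop_smul]
  funext p
  simp [sub_eq_add_neg]

theorem Bop_sum {α : Type*} (s : Finset α) (f : α → Ω × Y → ℝ) :
    Bop w S (∑ i ∈ s, f i) = ∑ i ∈ s, Bop w S (f i) := by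
  classical
  induction s using Finset.induction_on with
  | empty =>
    have h := Bop_smul w S 0 (0 : Ω × Y → ℝ)
    rw [zero_smul, zero_smul] at h
    rw [Finset.sum_empty, Finset.sum_empty, h]
  | insert a s ha ih => rw [Finset.sum_insert ha, Finset.sum_insert ha, Bop_add, ih]

namespace AopFacts_

theorem Aop_eq (F : Ω × Y → ℝ) :
    Aop w S F = (Real.sqrt (Fintype.card (Xi J X Y Ω e) : ℝ))⁻¹ • Bop w S F := rfl

end AopFacts_

theorem Aop_add (F G : Ω × Y → ℝ) : Aop w S (F + G) = Aop w S F + Aop w S G := by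
  rw [AopFacts_.Aop_eq, AopFacts_.Aop_eq, AopFacts_.Aop_eq, Bop_add, smul_add]

theorem Aop_sub (F G : Ω × Y → ℝ) : Aop w S (F - G) = Aop w S F - Aop w S G := by
  rw [AopFacts_.Aop_eq, AopFacts_.Aop_eq, AopFacts_.Aop_eq, Bop_sub, smul_sub]

theorem Aop_smul (c : ℝ) (F : Ω × Y → ℝ) : Aop w S (c • F) = c • Aop w S F := by
  rw [AopFacts_.Aop_eq, AopFacts_.Aop_eq, Bop_smul, smul_comm]

theorem Aop_sum {α : Type*} (s : Finset α) (f : α → Ω × Y → ℝ) :
    Aop w S (∑ i ∈ s, f i) = ∑ i ∈ s, Aop w S (f i) := by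
  rw [AopFacts_.Aop_eq, Bop_sum, Finset.smul_sum]
  rfl

/-- linear structure of `Aop` and `Amat` -/
theorem Amat_mulVec (F : Ω × Y → ℝ) : (Amat w S).mulVec F = Aop w S F := by
  have h : F = ∑ p : Ω × Y, F p • (Pi.single p 1 : Ω × Y → ℝ) := by
    funext q
    rw [Finset.sum_apply, Finset.sum_eq_single q]
    · simp
    · intro p _ hp
      simp [Ne.symm hp]
    · intro hq
      exact absurd (Finset.mem_univ q) hq
  have h2 : Aop w S F = ∑ p : Ω × Y, F p • Aop w S (Pi.single p 1) := by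
    conv_lhs => rw [h]
    rw [Aop_sum]
    exact Finset.sum_congr rfl fun p _ => Aop_smul w S _ _
  rw [h2]
  funext ξ
  rw [Finset.sum_apply]
  show ∑ p, Amat w S ξ p * F p = _
  refine Finset.sum_congr rfl fun p _ => ?_
  rw [Pi.smul_apply, smul_eq_mul, mul_comm]
  rfl

theorem Aop_ip [Nonempty X] (F G : Ω × Y → ℝ) : ip (Aop w S F) (Aop w S G) = ip F G := by
  have hD : (0 : ℝ) < Fintype.card (Xi J X Y Ω e) := by
    exact_mod_cast Fintype.card_pos
  have h := Bop_ip w S F G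
  have h1 : ip (Bop w S F) (Bop w S G) = Fintype.card (Xi J X Y Ω e) * ip F G := h
  rw [AopFacts_.Aop_eq, AopFacts_.Aop_eq, ip_smul_left, ip_smul_right, h1]
  have h2 : Real.sqrt (Fintype.card (Xi J X Y Ω e) : ℝ) *
      Real.sqrt (Fintype.card (Xi J X Y Ω e) : ℝ) = Fintype.card (Xi J X Y Ω e) :=
    Real.mul_self_sqrt hD.le
  have h3 : Real.sqrt (Fintype.card (Xi J X Y Ω e) : ℝ) ≠ 0 := (Real.sqrt_pos.2 hD).ne'
  have h4 : (Real.sqrt (Fintype.card (Xi J X Y Ω e) : ℝ))⁻¹ *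
      ((Real.sqrt (Fintype.card (Xi J X Y Ω e) : ℝ))⁻¹ *
        (Fintype.card (Xi J X Y Ω e) : ℝ)) = 1 := by
    set r := Real.sqrt (Fintype.card (Xi J X Y Ω e) : ℝ) with hr
    rw [← h2]
    field_simp
  calc _ = (Real.sqrt (Fintype.card (Xi J X Y Ω e) : ℝ))⁻¹ *
      ((Real.sqrt (Fintype.card (Xi J X Y Ω e) : ℝ))⁻¹ *
        (Fintype.card (Xi J X Y Ω e) : ℝ)) * ip F G := by ring
    _ = ip F G := by rw [h4, one_mul]

theorem nrm_Aop [Nonempty X] (F : Ω × Y → ℝ) : nrm (Aop w S F) = nrm F := by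
  unfold nrm
  rw [nsq_eq_ip, nsq_eq_ip, Aop_ip]

theorem Amat_adj [Nonempty X] (F : Ω × Y → ℝ) :
    (Amat w S).transpose.mulVec (Aop w S F) = F := by
  funext p
  have h1 : ip ((Amat w S).transpose.mulVec (Aop w S F)) (Pi.single p 1) =
      ip (Aop w S F) ((Amat w S).mulVec (Pi.single p 1)) := by
    rw [ip_mulVec]
  rw [ip_single, Amat_mulVec, Aop_ip, ip_single] at h1
  exact h1

theorem Amat_le [Nonempty X] : OpLe (Amat w S) 1 := fun F => by
  rw [Amat_mulVec, nrm_Aop, one_mul]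

theorem AmatT_le [Nonempty X] : OpLe (Amat w S).transpose 1 :=
  OpLe.transpose zero_le_one (Amat_le w S)

end Calc

end KPC
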