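import Pool.Agent.KPC.Defs

/-!
# Basic facts about `nsq`, `nrm`, `ip`, `OpLe`, `ten`
-/

open Finset BigOperators

namespace KPC

section Basic

variable {ι κ ν : Type*} [Fintype ι] [Fintype κ] [Fintype ν]

theorem nsq_nonneg (x : ι → ℝ) : 0 ≤ nsq x := Finset.sum_nonneg fun _ _ => sq_nonneg _

theorem nrm_nonneg (x : ι → ℝ) : 0 ≤ nrm x := Real.sqrt_nonneg _

theorem nrm_sq (x : ι → ℝ) : nrm x ^ 2 = nsq x := Real.sq_sqrt (nsq_nonneg x)

theorem nsq_eq_ip (x : ι → ℝ) : nsq x = ip x x := by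
  unfold nsq ip; exact Finset.sum_congr rfl fun i _ => by ring

@[simp] theorem nsq_zero : nsq (0 : ι → ℝ) = 0 := by simp [nsq]

@[simp] theorem nrm_zero : nrm (0 : ι → ℝ) = 0 := by simp [nrm]

theorem nrm_eq_norm (x : ι → ℝ) : nrm x = ‖WithLp.toLp 2 x‖ := by
  rw [EuclideanSpace.norm_eq]; unfold nrm nsq; congr 1
  exact Finset.sum_congr rfl fun i _ => by simp

theorem nrm_eq_zero {x : ι → ℝ} : nrm x = 0 ↔ x = 0 := by
  rw [nrm_eq_norm, norm_eq_zero]; simp

theorem nrm_smul (c : ℝ) (x : ι → ℝ) : nrm (c • x) = |c| * nrm x := by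
  rw [nrm_eq_norm, nrm_eq_norm, WithLp.toLp_smul, norm_smul, Real.norm_eq_abs]

theorem nsq_smul (c : ℝ) (x : ι → ℝ) : nsq (c • x) = c ^ 2 * nsq x := by
  unfold nsq; rw [Finset.mul_sum]
  exact Finset.sum_congr rfl fun i _ => by simp [mul_pow]

theorem nrm_add_le (x y : ι → ℝ) : nrm (x + y) ≤ nrm x + nrm y := by
  rw [nrm_eq_norm, nrm_eq_norm, nrm_eq_norm, WithLp.toLp_add]; exact norm_add_le _ _

theorem nrm_neg (x : ι → ℝ) : nrm (-x) = nrm x := by
  rw [nrm_eq_norm, nrm_eq_norm, WithLp.toLp_neg, norm_neg]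

theorem nsq_neg (x : ι → ℝ) : nsq (-x) = nsq x := by
  rw [← nrm_sq, ← nrm_sq, nrm_neg]

theorem nrm_sub_le (x y : ι → ℝ) : nrm (x - y) ≤ nrm x + nrm y := by
  rw [nrm_eq_norm, nrm_eq_norm, nrm_eq_norm, WithLp.toLp_sub]; exact norm_sub_le _ _

theorem nrm_sub_rev (x y : ι → ℝ) : nrm (x - y) = nrm (y - x) := by
  rw [← nrm_neg, neg_sub]

theorem nrm_sum_le {α : Type*} (s : Finset α) (f : α → ι → ℝ) :
    nrm (∑ i ∈ s, f i) ≤ ∑ i ∈ s, nrm (f i) := by
  classical
  induction s using Finset.induction_on with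
  | empty => simp
  | insert a s ha ih =>
    rw [Finset.sum_insert ha, Finset.sum_insert ha]
    exact (nrm_add_le _ _).trans (by linarith)

theorem nrm_le_of_nsq_le {x : ι → ℝ} {C : ℝ} (hC : 0 ≤ C) (h : nsq x ≤ C ^ 2) : nrm x ≤ C := by
  unfold nrm
  exact (Real.sqrt_le_sqrt h).trans (by rw [Real.sqrt_sq hC])

theorem nsq_le_of_nrm_le {x : ι → ℝ} {C : ℝ} (h : nrm x ≤ C) : nsq x ≤ C ^ 2 := by
  rw [← nrm_sq]; exact pow_le_pow_left₀ (nrm_nonneg x) h 2

theorem ip_comm (x y : ι → ℝ) : ip x y = ip y x := by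
  unfold ip; exact Finset.sum_congr rfl fun i _ => mul_comm _ _

theorem ip_add_left (x y z : ι → ℝ) : ip (x + y) z = ip x z + ip y z := by
  unfold ip; rw [← Finset.sum_add_distrib]
  exact Finset.sum_congr rfl fun i _ => by simp [add_mul]

theorem ip_add_right (x y z : ι → ℝ) : ip x (y + z) = ip x y + ip x z := by
  rw [ip_comm, ip_add_left, ip_comm y, ip_comm z]

theorem ip_neg_left (x y : ι → ℝ) : ip (-x) y = -ip x y := by
  unfold ip; rw [← Finset.sum_neg_distrib]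
  exact Finset.sum_congr rfl fun i _ => by simp

theorem ip_neg_right (x y : ι → ℝ) : ip x (-y) = -ip x y := by
  rw [ip_comm, ip_neg_left, ip_comm]

theorem ip_sub_left (x y z : ι → ℝ) : ip (x - y) z = ip x z - ip y z := by
  rw [sub_eq_add_neg, ip_add_left, ip_neg_left, sub_eq_add_neg]

theorem ip_sub_right (x y z : ι → ℝ) : ip x (y - z) = ip x y - ip x z := by
  rw [sub_eq_add_neg, ip_add_right, ip_neg_right, sub_eq_add_neg]

theorem ip_smul_left (c : ℝ) (x y : ι → ℝ) : ip (c • x) y = c * ip x y := by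
  unfold ip; rw [Finset.mul_sum]
  exact Finset.sum_congr rfl fun i _ => by simp [mul_assoc]

theorem ip_smul_right (c : ℝ) (x y : ι → ℝ) : ip x (c • y) = c * ip x y := by
  rw [ip_comm, ip_smul_left, ip_comm]

@[simp] theorem ip_zero_left (x : ι → ℝ) : ip 0 x = 0 := by simp [ip]

@[simp] theorem ip_zero_right (x : ι → ℝ) : ip x 0 = 0 := by simp [ip]

theorem ip_sum_left {α : Type*} (s : Finset α) (f : α → ι → ℝ) (y : ι → ℝ) :
    ip (∑ i ∈ s, f i) y = ∑ i ∈ s, ip (f i) y := by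
  classical
  induction s using Finset.induction_on with
  | empty => simp
  | insert a s ha ih => rw [Finset.sum_insert ha, Finset.sum_insert ha, ip_add_left, ih]

theorem ip_sum_right {α : Type*} (s : Finset α) (f : α → ι → ℝ) (y : ι → ℝ) :
    ip y (∑ i ∈ s, f i) = ∑ i ∈ s, ip y (f i) := by
  rw [ip_comm, ip_sum_left]; exact Finset.sum_congr rfl fun i _ => ip_comm _ _

theorem abs_ip_le (x y : ι → ℝ) : |ip x y| ≤ nrm x * nrm y := by
  have h : (ip x y) ^ 2 ≤ nsq x * nsq y := by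
    unfold ip nsq
    exact Finset.sum_mul_sq_le_sq_mul_sq _ _ _
  unfold nrm
  rw [← Real.sqrt_mul (nsq_nonneg x), ← Real.sqrt_sq_eq_abs]
  exact Real.sqrt_le_sqrt h

theorem ip_self (x : ι → ℝ) : ip x x = nrm x ^ 2 := by rw [nrm_sq, nsq_eq_ip]

/-- duality formula for the norm (upper bound) -/
theorem nrm_le_of_ip {x : ι → ℝ} {C : ℝ} (hC : 0 ≤ C)
    (h : ∀ y : ι → ℝ, nrm y = 1 → |ip x y| ≤ C) : nrm x ≤ C := by
  by_cases hx : nrm x = 0
  · rw [hx]; exact hC
  · have hx' : 0 < nrm x := lt_of_le_of_ne (nrm_nonneg x) (Ne.symm hx)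
    have h1 : nrm ((nrm x)⁻¹ • x) = 1 := by
      rw [nrm_smul, abs_of_pos (inv_pos.mpr hx')]; exact inv_mul_cancel₀ hx
    have h2 := h _ h1
    rw [ip_smul_right, ip_self] at h2
    have h3 : (nrm x)⁻¹ * nrm x ^ 2 = nrm x := by field_simp
    rw [h3, abs_of_pos hx'] at h2
    exact h2

theorem nsq_add (x y : ι → ℝ) : nsq (x + y) = nsq x + 2 * ip x y + nsq y := by
  rw [nsq_eq_ip, nsq_eq_ip, nsq_eq_ip, ip_add_left, ip_add_right, ip_add_right, ip_comm y x]; ring

theorem ip_single [DecidableEq ι] (i : ι) (x : ι → ℝ) : ip x (Pi.single i 1) = x i := by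
  unfold ip; simp [Pi.single_apply]

theorem ip_mulVec (M : Matrix ι κ ℝ) (x : κ → ℝ) (y : ι → ℝ) :
    ip y (M.mulVec x) = ip (M.transpose.mulVec y) x := by
  unfold ip Matrix.mulVec dotProduct
  simp only [Finset.mul_sum, Finset.sum_mul, Matrix.transpose_apply]
  rw [Finset.sum_comm]
  exact Finset.sum_congr rfl fun i _ => Finset.sum_congr rfl fun j _ => by ring

theorem OpLe.mono {M : Matrix ι κ ℝ} {C C' : ℝ} (h : OpLe M C) (hC : C ≤ C') : OpLe M C' :=
  fun x => (h x).trans (mul_le_mul_of_nonneg_right hC (nrm_nonneg x))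

theorem OpLe.ip_le {M : Matrix ι κ ℝ} {C : ℝ} (h : OpLe M C) (x : κ → ℝ) (y : ι → ℝ) :
    |ip y (M.mulVec x)| ≤ C * nrm y * nrm x := by
  have h1 := abs_ip_le y (M.mulVec x)
  have h2 := mul_le_mul_of_nonneg_left (h x) (nrm_nonneg y)
  nlinarith

theorem OpLe.of_ip {M : Matrix ι κ ℝ} {C : ℝ} (hC : 0 ≤ C)
    (h : ∀ x y, |ip y (M.mulVec x)| ≤ C * nrm y * nrm x) : OpLe M C := by
  intro x
  apply nrm_le_of_ip (mul_nonneg hC (nrm_nonneg x))
  intro y hy
  rw [ip_comm]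
  have := h x y
  rw [hy, mul_one] at this
  exact this

theorem OpLe.transpose {M : Matrix ι κ ℝ} {C : ℝ} (hC : 0 ≤ C) (h : OpLe M C) :
    OpLe M.transpose C := by
  apply OpLe.of_ip hC
  intro x y
  rw [ip_mulVec, Matrix.transpose_transpose, ip_comm]
  have := h.ip_le y x
  nlinarith

theorem OpLe.of_transpose {M : Matrix ι κ ℝ} {C : ℝ} (hC : 0 ≤ C) (h : OpLe M.transpose C) :
    OpLe M C := by
  have := OpLe.transpose hC h
  rwa [Matrix.transpose_transpose] at this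

/-- it suffices to test unit vectors -/
theorem OpLe.of_unit {M : Matrix ι κ ℝ} {C : ℝ} (hC : 0 ≤ C)
    (h : ∀ x y, nrm x = 1 → nrm y = 1 → |ip y (M.mulVec x)| ≤ C) : OpLe M C := by
  intro x
  by_cases hx : nrm x = 0
  · have : x = 0 := nrm_eq_zero.mp hx
    subst this; simp
  · have hx' : 0 < nrm x := lt_of_le_of_ne (nrm_nonneg x) (Ne.symm hx)
    have h1 : nrm ((nrm x)⁻¹ • x) = 1 := by
      rw [nrm_smul, abs_of_pos (inv_pos.mpr hx')]; exact inv_mul_cancel₀ hx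
    have h2 : nrm (M.mulVec ((nrm x)⁻¹ • x)) ≤ C := by
      apply nrm_le_of_ip hC
      intro y hy
      rw [ip_comm]
      exact h _ y h1 hy
    rw [Matrix.mulVec_smul, nrm_smul, abs_of_pos (inv_pos.mpr hx')] at h2
    rw [inv_mul_le_iff₀ hx'] at h2
    linarith

theorem OpLe.add {M N : Matrix ι κ ℝ} {C C' : ℝ} (h : OpLe M C) (h' : OpLe N C') :
    OpLe (M + N) (C + C') := by
  intro x
  rw [Matrix.add_mulVec, add_mul]
  exact (nrm_add_le _ _).trans (add_le_add (h x) (h' x))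

theorem OpLe.neg {M : Matrix ι κ ℝ} {C : ℝ} (h : OpLe M C) : OpLe (-M) C := by
  intro x
  rw [Matrix.neg_mulVec, nrm_neg]; exact h x

theorem OpLe.sub {M N : Matrix ι κ ℝ} {C C' : ℝ} (h : OpLe M C) (h' : OpLe N C') :
    OpLe (M - N) (C + C') := by
  rw [sub_eq_add_neg]; exact h.add h'.neg

theorem OpLe.smul {M : Matrix ι κ ℝ} {C : ℝ} (h : OpLe M C) (c : ℝ) : OpLe (c • M) (|c| * C) := by
  intro x
  rw [Matrix.smul_mulVec, nrm_smul, mul_assoc]
  exact mul_le_mul_of_nonneg_left (h x) (abs_nonneg c)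

theorem OpLe.mul {M : Matrix ι κ ℝ} {N : Matrix κ ν ℝ} {C C' : ℝ} (hC : 0 ≤ C) (h : OpLe M C)
    (h' : OpLe N C') : OpLe (M * N) (C * C') := by
  intro x
  rw [← Matrix.mulVec_mulVec, mul_assoc]
  exact (h _).trans (mul_le_mul_of_nonneg_left (h' x) hC)

end Basic

section Tensor

variable {Y Ω : Type} [Fintype Y] [DecidableEq Y] [Fintype Ω] [DecidableEq Ω]

omit [DecidableEq Y] [DecidableEq Ω] in
theorem ip_ten (a b : Ω → ℝ) (f g : Y → ℝ) : ip (ten a f) (ten b g) = ip a b * ip f g := by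
  unfold ip ten
  rw [Fintype.sum_prod_type, Finset.sum_mul_sum]
  exact Finset.sum_congr rfl fun i _ => Finset.sum_congr rfl fun j _ => by ring

omit [DecidableEq Y] [DecidableEq Ω] in
theorem nsq_ten (a : Ω → ℝ) (f : Y → ℝ) : nsq (ten a f) = nsq a * nsq f := by
  rw [nsq_eq_ip, ip_ten, ← nsq_eq_ip, ← nsq_eq_ip]

omit [DecidableEq Y] [DecidableEq Ω] in
theorem nrm_ten (a : Ω → ℝ) (f : Y → ℝ) : nrm (ten a f) = nrm a * nrm f := by
  unfold nrm; rw [nsq_ten, Real.sqrt_mul (nsq_nonneg a)]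

omit [Fintype Y] [DecidableEq Y] [Fintype Ω] [DecidableEq Ω] in
theorem ten_add_left (a b : Ω → ℝ) (f : Y → ℝ) : ten (a + b) f = ten a f + ten b f := by
  funext p; simp [ten, add_mul]

omit [Fintype Y] [DecidableEq Y] [Fintype Ω] [DecidableEq Ω] in
theorem ten_sub_left (a b : Ω → ℝ) (f : Y → ℝ) : ten (a - b) f = ten a f - ten b f := by
  funext p; simp [ten, sub_mul]

omit [Fintype Y] [DecidableEq Y] [Fintype Ω] [DecidableEq Ω] in
theorem ten_smul_left (c : ℝ) (a : Ω → ℝ) (f : Y → ℝ) : ten (c • a) f = c • ten a f := by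
  funext p; simp [ten, mul_assoc]

omit [Fintype Y] [DecidableEq Y] [Fintype Ω] [DecidableEq Ω] in
@[simp] theorem ten_zero_left (f : Y → ℝ) : ten (0 : Ω → ℝ) f = 0 := by
  funext p; simp [ten]

omit [DecidableEq Ω] in
theorem tm_mulVec (t : Matrix Ω Ω ℝ) (F : Ω × Y → ℝ) (p : Ω × Y) :
    (tm Y t).mulVec F p = (t.mulVec fun ω => F (ω, p.2)) p.1 := by
  unfold tm Matrix.mulVec dotProduct
  rw [Fintype.sum_prod_type]
  apply Finset.sum_congr rfl
  intro ω _
  simp

omit [DecidableEq Ω] in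
theorem tm_mulVec_ten (t : Matrix Ω Ω ℝ) (a : Ω → ℝ) (f : Y → ℝ) :
    (tm Y t).mulVec (ten a f) = ten (t.mulVec a) f := by
  funext p
  rw [tm_mulVec]
  unfold ten Matrix.mulVec dotProduct
  rw [Finset.sum_mul]
  exact Finset.sum_congr rfl fun ω _ => by ring

omit [DecidableEq Ω] in
theorem nsq_prod (F : Ω × Y → ℝ) : nsq F = ∑ y, nsq fun ω => F (ω, y) := by
  unfold nsq
  rw [Fintype.sum_prod_type_right]

omit [DecidableEq Ω] in
theorem nsq_prod' (F : Ω × Y → ℝ) : nsq F = ∑ ω, nsq fun y => F (ω, y) := by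
  unfold nsq
  rw [Fintype.sum_prod_type]

omit [DecidableEq Ω] in
theorem OpLe.tm {t : Matrix Ω Ω ℝ} {C : ℝ} (hC : 0 ≤ C) (h : OpLe t C) : OpLe (tm Y t) C := by
  intro F
  apply nrm_le_of_nsq_le (mul_nonneg hC (nrm_nonneg F))
  rw [mul_pow, nrm_sq, nsq_prod, nsq_prod F, Finset.mul_sum]
  apply Finset.sum_le_sum
  intro y _
  have h1 : (fun ω => (KPC.tm Y t).mulVec F (ω, y)) = t.mulVec fun ω => F (ω, y) := by
    funext ω; rw [tm_mulVec]
  rw [h1]
  have h2 := nsq_le_of_nrm_le (h fun ω => F (ω, y))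
  rwa [mul_pow, nrm_sq] at h2

omit [Fintype Y] [Fintype Ω] [DecidableEq Ω] in
theorem tm_transpose (t : Matrix Ω Ω ℝ) : (tm Y t).transpose = tm Y t.transpose := by
  funext p q; simp [tm, Matrix.transpose_apply, eq_comm]

omit [Fintype Y] [Fintype Ω] [DecidableEq Ω] in
theorem tm_sub (t u : Matrix Ω Ω ℝ) : tm Y (t - u) = tm Y t - tm Y u := by
  funext p q; by_cases h : p.2 = q.2 <;> simp [tm, h]

theorem dproj_mulVec (s : Finset Ω) (a : Ω → ℝ) :
    (dproj s).mulVec a = fun ω => if ω ∈ s then a ω else 0 := by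
  funext ω; simp [dproj, Matrix.mulVec_diagonal]

theorem dproj_transpose (s : Finset Ω) : (dproj s).transpose = dproj s := by
  simp [dproj]

theorem OpLe_dproj (s : Finset Ω) : OpLe (dproj s) 1 := by
  intro x
  rw [one_mul, dproj_mulVec]
  apply nrm_le_of_nsq_le (nrm_nonneg x)
  rw [nrm_sq]
  apply Finset.sum_le_sum
  intro ω _
  by_cases h : ω ∈ s
  · simp [h]
  · simp [h]; positivity

end Tensor

section Signs

theorem sg_sq (a : ZMod 2) : sg a ^ 2 = 1 := by unfold sg; split_ifs <;> norm_num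

theorem sg_mul_self (a : ZMod 2) : sg a * sg a = 1 := by unfold sg; split_ifs <;> norm_num

@[simp] theorem sg_zero : sg 0 = 1 := by simp [sg]

theorem sg_add (a b : ZMod 2) : sg (a + b) = sg a * sg b := by
  have : ∀ a b : ZMod 2, sg (a + b) = sg a * sg b := by
    intro a b
    have ha : a = 0 ∨ a = 1 := by revert a; decide
    have hb : b = 0 ∨ b = 1 := by revert b; decide
    rcases ha with rfl | rfl <;> rcases hb with rfl | rfl
    · simp
    · simp
    · simp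
    · have h : (1 : ZMod 2) + 1 = 0 := by decide
      rw [h]; unfold sg; norm_num
  exact this a b

theorem abs_sg (a : ZMod 2) : |sg a| = 1 := by unfold sg; split_ifs <;> norm_num

theorem card_CC (J : Type) [Fintype J] [DecidableEq J] (e : ℕ) :
    (Fintype.card (CC J e) : ℝ) = ((2 : ℝ) ^ e) ^ Fintype.card J := by
  simp [Fintype.card_pi, ZMod.card]

end Signs

end KPC
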