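import Pool.Agent.KPC.Basic

/-! Orthogonality of characters, completeness of the bases, Parseval. -/

open Finset BigOperators

namespace KPC

section Calc

variable {J X Y Ω : Type} [Fintype J] [DecidableEq J] [Fintype X] [Fintype Y] [DecidableEq Y]
  [Fintype Ω] [DecidableEq Ω] {e : ℕ} {δ : ℝ} (w : WeylSys J X Y e δ) (S : J → Finset Ω)

theorem Orth_shift (c σ : CC J e) (j : J) (α : Fin e) :
    chi c (σ + Pi.single j (Pi.single α 1)) = chi c σ * sg (c j α) := by
  unfold chi
  rw [← sg_add]
  congr 1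
  have h : ∀ i, ∑ β, c i β * (σ + Pi.single j (Pi.single α 1) : CC J e) i β =
      ∑ β, c i β * σ i β + (if i = j then c j α else 0) := by
    intro i
    have h1 : ∀ β, c i β * (σ + Pi.single j (Pi.single α 1) : CC J e) i β =
        c i β * σ i β + c i β * ((Pi.single j (Pi.single α 1) : CC J e) i β) := by
      intro β
      rw [Pi.add_apply, Pi.add_apply, mul_add]
    rw [Finset.sum_congr rfl fun β _ => h1 β, Finset.sum_add_distrib]
    congr 1
    by_cases hi : i = j
    · subst hi
      rw [if_pos rfl, Finset.sum_eq_single α]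
      · rw [Pi.single_eq_same, Pi.single_eq_same, mul_one]
      · intro β _ hβ
        rw [Pi.single_eq_same, Pi.single_eq_of_ne hβ, mul_zero]
      · intro h
        exact absurd (Finset.mem_univ α) h
    · rw [if_neg hi]
      refine Finset.sum_eq_zero fun β _ => ?_
      rw [Pi.single_eq_of_ne hi, Pi.zero_apply, mul_zero]
  rw [Finset.sum_congr rfl fun i _ => h i, Finset.sum_add_distrib]
  congr 1
  rw [Finset.sum_ite_eq' Finset.univ j fun _ => c j α]
  simp

theorem Orth_sg_ne (a b : ZMod 2) (h : a ≠ b) : sg a * sg b = -1 := by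
  have h1 : a + b ≠ 0 := by
    intro h2
    apply h
    have := CharTwo.add_eq_zero.mp h2
    exact this
  rw [← sg_add, sg, if_neg h1]

theorem Orth_sum {G : Type*} [AddCommGroup G] [Fintype G] (v : G) (g : G → ℝ) :
    ∑ σ, g (σ + v) = ∑ σ, g σ :=
  Equiv.sum_comp (Equiv.addRight v) g

/-- orthogonality of characters -/
theorem chi_orth (c d : CC J e) :
    ∑ σ : CC J e, chi c σ * chi d σ = if c = d then (Fintype.card (CC J e) : ℝ) else 0 := by
  by_cases hcd : c = d
  · subst hcd
    rw [if_pos rfl]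
    have h : ∀ σ : CC J e, chi c σ * chi c σ = 1 := fun σ => sg_mul_self _
    rw [Finset.sum_congr rfl fun σ _ => h σ]
    simp
  · rw [if_neg hcd]
    obtain ⟨j, hj⟩ := Function.ne_iff.mp hcd
    obtain ⟨α, hα⟩ := Function.ne_iff.mp hj
    have h1 : ∑ σ : CC J e, chi c σ * chi d σ =
        ∑ σ : CC J e, chi c (σ + Pi.single j (Pi.single α 1)) *
          chi d (σ + Pi.single j (Pi.single α 1)) :=
      (Orth_sum (Pi.single j (Pi.single α 1) : CC J e) fun σ => chi c σ * chi d σ).symm
    have h2 : ∀ σ : CC J e, chi c (σ + Pi.single j (Pi.single α 1)) *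
        chi d (σ + Pi.single j (Pi.single α 1)) = -(chi c σ * chi d σ) := by
      intro σ
      rw [Orth_shift, Orth_shift]
      have h3 := Orth_sg_ne _ _ hα
      calc chi c σ * sg (c j α) * (chi d σ * sg (d j α))
          = chi c σ * chi d σ * (sg (c j α) * sg (d j α)) := by ring
        _ = -(chi c σ * chi d σ) := by rw [h3]; ring
    rw [Finset.sum_congr rfl fun σ _ => h2 σ, Finset.sum_neg_distrib] at h1
    linarith

/-- completeness of the bases -/
theorem phi_complete (j : J) (y y' : Y) :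
    ∑ τ, w.φ j τ y * w.φ j τ y' = if y = y' then 1 else 0 := by
  have h1 : (Matrix.of fun τ y => w.φ j τ y) * (Matrix.of fun τ y => w.φ j τ y).transpose =
      (1 : Matrix Y Y ℝ) := by
    ext τ τ'
    rw [Matrix.mul_apply, Matrix.one_apply, ← w.φ_on j τ τ']
    rfl
  have h2 := mul_eq_one_comm.mp h1
  have h3 := congrFun (congrFun h2 y) y'
  rw [Matrix.mul_apply, Matrix.one_apply] at h3
  exact h3

theorem Orth_parseval (j : J) (f : Y → ℝ) : ∑ τ, ip (w.φ j τ) f ^ 2 = nsq f := by
  have h : ∀ τ, ip (w.φ j τ) f ^ 2 =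
      ∑ y, ∑ y', f y * f y' * (w.φ j τ y * w.φ j τ y') := by
    intro τ
    rw [ip, sq, Finset.sum_mul_sum]
    refine Finset.sum_congr rfl fun y _ => Finset.sum_congr rfl fun y' _ => ?_
    ring
  rw [Finset.sum_congr rfl fun τ _ => h τ, Finset.sum_comm, nsq]
  refine Finset.sum_congr rfl fun y _ => ?_
  rw [Finset.sum_comm]
  have h2 : ∀ y', ∑ τ, f y * f y' * (w.φ j τ y * w.φ j τ y') =
      if y = y' then f y * f y' else 0 := by
    intro y'
    rw [← Finset.mul_sum, phi_complete]
    split_ifs <;> simp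
  rw [Finset.sum_congr rfl fun y' _ => h2 y', Finset.sum_ite_eq, if_pos (Finset.mem_univ y)]
  ring

/-- Parseval, vector valued -/
theorem parseval (j : J) (F : Ω × Y → ℝ) : ∑ τ, nsq (coef w j τ F) = nsq F := by
  rw [nsq_prod']
  have h : ∀ τ, nsq (coef w j τ F) = ∑ ω, ip (w.φ j τ) (fun y => F (ω, y)) ^ 2 := fun τ => rfl
  rw [Finset.sum_congr rfl fun τ _ => h τ, Finset.sum_comm]
  exact Finset.sum_congr rfl fun ω _ => Orth_parseval w j _

end Calc

end KPC
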