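import Pool.Agent.KPC.Synth
import Pool.Agent.KPC.Orth

/-!
# KPC-F2: Bessel inequality for nearly orthonormal families, number of large coefficients
-/

open Finset BigOperators

namespace KPC

section Calc

variable {J X Y Ω : Type} [Fintype J] [DecidableEq J] [Fintype X] [Fintype Y] [DecidableEq Y]
  [Fintype Ω] [DecidableEq Ω] {e : ℕ} {δ : ℝ} (w : WeylSys J X Y e δ) (S : J → Finset Ω)

omit [DecidableEq Ω] in
theorem Bessel_ip (j : J) (τ : Y) (F : Ω × Y → ℝ) (a : Ω → ℝ) :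
    ip F (ten a (w.φ j τ)) = ip (coef w j τ F) a := by
  unfold ip ten coef
  rw [Fintype.sum_prod_type]
  refine Finset.sum_congr rfl fun ω _ => ?_
  unfold ip
  rw [Finset.sum_mul]
  exact Finset.sum_congr rfl fun y _ => by ring

/-- Bessel inequality for nearly orthonormal families -/
theorem bessel [Nonempty X] (hδ : 0 ≤ δ) (I : Finset (J × Y)) (F : Ω × Y → ℝ) :
    ∑ i ∈ I, nsq (coef w i.1 i.2 F) ≤ (1 + I.card * δ) * nsq F := by
  have hs := synth w hδ I fun i => coef w i.1 i.2 F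
  have h1 : ip F (∑ i ∈ I, ten (coef w i.1 i.2 F) (w.φ i.1 i.2)) =
      ∑ i ∈ I, nsq (coef w i.1 i.2 F) := by
    rw [ip_sum_right]
    refine Finset.sum_congr rfl fun i _ => ?_
    rw [Bessel_ip, ← nsq_eq_ip]
  have h2 := abs_ip_le F (∑ i ∈ I, ten (coef w i.1 i.2 F) (w.φ i.1 i.2))
  have h3 : (∑ i ∈ I, nsq (coef w i.1 i.2 F)) ^ 2 ≤
      nsq F * nsq (∑ i ∈ I, ten (coef w i.1 i.2 F) (w.φ i.1 i.2)) := by
    rw [← nrm_sq F, ← nrm_sq (∑ i ∈ I, ten (coef w i.1 i.2 F) (w.φ i.1 i.2)), ← mul_pow, ← h1,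
      ← sq_abs]
    exact pow_le_pow_left₀ (abs_nonneg _) h2 2
  have hB : 0 ≤ ∑ i ∈ I, nsq (coef w i.1 i.2 F) := Finset.sum_nonneg fun i _ => nsq_nonneg _
  have hF := nsq_nonneg F
  generalize (∑ i ∈ I, nsq (coef w i.1 i.2 F)) = B at *
  have h4 : B ^ 2 ≤ nsq F * ((1 + I.card * δ) * B) := h3.trans (mul_le_mul_of_nonneg_left hs hF)
  rcases hB.eq_or_lt with h0 | h0
  · rw [← h0]
    have : 0 ≤ (I.card : ℝ) * δ := mul_nonneg (Nat.cast_nonneg _) hδ
    positivity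
  · have h5 : B * B ≤ ((1 + I.card * δ) * nsq F) * B := by nlinarith
    exact le_of_mul_le_mul_right h5 h0

open Classical in
theorem card_large (c : ℝ) (hc : 0 ≤ c) (F : Ω × Y → ℝ) (hF : nsq F ≤ 1) :
    ((univ.filter fun i : J × Y => 1 ≤ c * nsq (coef w i.1 i.2 F)).card : ℝ) ≤
      Fintype.card J * c := by
  have h1 : ((univ.filter fun i : J × Y => 1 ≤ c * nsq (coef w i.1 i.2 F)).card : ℝ) ≤
      ∑ i : J × Y, c * nsq (coef w i.1 i.2 F) := by
    rw [Finset.card_filter, Nat.cast_sum]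
    refine Finset.sum_le_sum fun i _ => ?_
    split_ifs with h
    · rw [Nat.cast_one]; exact h
    · rw [Nat.cast_zero]; exact mul_nonneg hc (nsq_nonneg _)
  refine h1.trans ?_
  rw [Fintype.sum_prod_type]
  have h2 : ∀ j : J, ∑ τ : Y, c * nsq (coef w j τ F) ≤ c := by
    intro j
    rw [← Finset.mul_sum, parseval]
    exact mul_le_of_le_one_right hc hF
  calc ∑ j : J, ∑ τ : Y, c * nsq (coef w j τ F) ≤ ∑ _j : J, c :=
        Finset.sum_le_sum fun j _ => h2 j
    _ = Fintype.card J * c := by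
        rw [Finset.sum_const, nsmul_eq_mul, Finset.card_univ]

end Calc

end KPC
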