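import Pool.Agent.KPC.Basic

/-!
# Second and fourth moment of sign sums
-/

open Finset BigOperators

namespace KPC

section Khin

variable {P : Type*} [Fintype P] [DecidableEq P]

set_option linter.unusedSectionVars false

private theorem Khin_sg_one_add (a : ZMod 2) : sg (a + 1) = - sg a := by
  rw [sg_add]
  have : sg (1 : ZMod 2) = -1 := by unfold sg; norm_num
  rw [this]; ring

/-- a function which is odd under the flip of the coordinate `q` has sum zero -/
private theorem Khin_flip (q : P) (f : (P → ZMod 2) → ℝ)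
    (hf : ∀ ε, f (ε + Pi.single q 1) = - f ε) : ∑ ε, f ε = 0 := by
  have h := Equiv.sum_comp (Equiv.addRight (Pi.single q (1 : ZMod 2))) f
  have h2 : ∑ ε, f ((Equiv.addRight (Pi.single q (1 : ZMod 2))) ε) = - ∑ ε, f ε := by
    rw [← Finset.sum_neg_distrib]
    exact Finset.sum_congr rfl fun ε _ => hf ε
  linarith

private theorem Khin_flip_same (q : P) (ε : P → ZMod 2) :
    sg ((ε + Pi.single q 1 : P → ZMod 2) q) = - sg (ε q) := by
  rw [Pi.add_apply, Pi.single_eq_same, Khin_sg_one_add]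

private theorem Khin_flip_ne {p q : P} (h : p ≠ q) (ε : P → ZMod 2) :
    sg ((ε + Pi.single q 1 : P → ZMod 2) p) = sg (ε p) := by
  rw [Pi.add_apply, Pi.single_eq_of_ne h, add_zero]

private theorem Khin_orth (p q : P) :
    ∑ ε : P → ZMod 2, sg (ε p) * sg (ε q) =
      if p = q then (Fintype.card (P → ZMod 2) : ℝ) else 0 := by
  split_ifs with h
  · subst h
    simp only [sg_mul_self, Finset.sum_const, Finset.card_univ, nsmul_eq_mul, mul_one]
  · refine Khin_flip q _ fun ε => ?_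
    rw [Khin_flip_same, Khin_flip_ne h]; ring

theorem khintchine_two {P : Type*} [Fintype P] [DecidableEq P] (v w : P → ℝ) :
    ∑ ε : P → ZMod 2, (∑ p, sg (ε p) * v p) * (∑ p, sg (ε p) * w p) =
      Fintype.card (P → ZMod 2) * ip v w := by
  have h1 : ∀ ε : P → ZMod 2, (∑ p, sg (ε p) * v p) * (∑ p, sg (ε p) * w p) =
      ∑ p, ∑ q, (v p * w q) * (sg (ε p) * sg (ε q)) := by
    intro ε
    rw [Finset.sum_mul_sum]
    exact Finset.sum_congr rfl fun p _ => Finset.sum_congr rfl fun q _ => by ring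
  simp only [h1]
  rw [Finset.sum_comm]
  have h2 : ∀ p : P, ∑ ε : P → ZMod 2, ∑ q, (v p * w q) * (sg (ε p) * sg (ε q)) =
      v p * w p * (Fintype.card (P → ZMod 2) : ℝ) := by
    intro p
    rw [Finset.sum_comm]
    have h3 : ∀ q : P, ∑ ε : P → ZMod 2, (v p * w q) * (sg (ε p) * sg (ε q)) =
        if p = q then v p * w q * (Fintype.card (P → ZMod 2) : ℝ) else 0 := by
      intro q
      rw [← Finset.mul_sum, Khin_orth]
      split_ifs <;> simp
    simp only [h3]
    rw [Finset.sum_ite_eq]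
    simp
  simp only [h2]
  rw [← Finset.sum_mul, mul_comm]
  rfl

private theorem Khin_four (w : P → ℝ) (s : Finset P) :
    ∑ ε : P → ZMod 2, (∑ p ∈ s, sg (ε p) * w p) ^ 2 =
        Fintype.card (P → ZMod 2) * (∑ p ∈ s, w p ^ 2) ∧
    ∑ ε : P → ZMod 2, (∑ p ∈ s, sg (ε p) * w p) ^ 4 ≤
        3 * Fintype.card (P → ZMod 2) * (∑ p ∈ s, w p ^ 2) ^ 2 := by
  induction s using Finset.induction_on with
  | empty => simp
  | insert a s ha ih =>
    obtain ⟨ih2, ih4⟩ := ih
    set X : (P → ZMod 2) → ℝ := fun ε => ∑ p ∈ s, sg (ε p) * w p with hX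
    have hXf : ∀ ε : P → ZMod 2, X (ε + Pi.single a 1) = X ε := by
      intro ε
      refine Finset.sum_congr rfl fun p hp => ?_
      have hpa : p ≠ a := by
        rintro rfl
        exact ha hp
      rw [Khin_flip_ne hpa]
    have hodd1 : ∑ ε : P → ZMod 2, X ε * (sg (ε a) * w a) = 0 :=
      Khin_flip a _ fun ε => by rw [hXf, Khin_flip_same]; ring
    have hodd3 : ∑ ε : P → ZMod 2, X ε ^ 3 * (sg (ε a) * w a) = 0 :=
      Khin_flip a _ fun ε => by rw [hXf, Khin_flip_same]; ring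
    have e2 : ∀ ε : P → ZMod 2, (∑ p ∈ insert a s, sg (ε p) * w p) ^ 2 =
        X ε ^ 2 + 2 * (X ε * (sg (ε a) * w a)) + w a ^ 2 := by
      intro ε
      rw [Finset.sum_insert ha]
      have h := sg_sq (ε a)
      change (sg (ε a) * w a + X ε) ^ 2 = _
      linear_combination (w a ^ 2) * h
    have e4 : ∀ ε : P → ZMod 2, (∑ p ∈ insert a s, sg (ε p) * w p) ^ 4 =
        X ε ^ 4 + 4 * (X ε ^ 3 * (sg (ε a) * w a)) + 6 * w a ^ 2 * X ε ^ 2 +
          4 * w a ^ 2 * (X ε * (sg (ε a) * w a)) + w a ^ 4 := by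
      intro ε
      rw [Finset.sum_insert ha]
      have h := sg_sq (ε a)
      change (sg (ε a) * w a + X ε) ^ 4 = _
      linear_combination (6 * w a ^ 2 * X ε ^ 2 + 4 * w a ^ 3 * X ε * sg (ε a) +
        w a ^ 4 * (sg (ε a) ^ 2 + 1)) * h
    have hN : (0 : ℝ) ≤ Fintype.card (P → ZMod 2) := Nat.cast_nonneg _
    have hA : 0 ≤ ∑ p ∈ s, w p ^ 2 := Finset.sum_nonneg fun _ _ => sq_nonneg _
    have ih2' : ∑ ε : P → ZMod 2, X ε ^ 2 = Fintype.card (P → ZMod 2) * (∑ p ∈ s, w p ^ 2) := ih2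
    have ih4' : ∑ ε : P → ZMod 2, X ε ^ 4 ≤
      3 * Fintype.card (P → ZMod 2) * (∑ p ∈ s, w p ^ 2) ^ 2 := ih4
    constructor
    · simp only [e2]
      rw [Finset.sum_add_distrib, Finset.sum_add_distrib, ← Finset.mul_sum, hodd1, ih2',
        Finset.sum_insert ha, Finset.sum_const, Finset.card_univ, nsmul_eq_mul]
      ring
    · simp only [e4]
      rw [Finset.sum_add_distrib, Finset.sum_add_distrib, Finset.sum_add_distrib,
        Finset.sum_add_distrib, ← Finset.mul_sum, ← Finset.mul_sum, ← Finset.mul_sum,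
        hodd1, hodd3, ih2', Finset.sum_insert ha, Finset.sum_const, Finset.card_univ,
        nsmul_eq_mul]
      nlinarith [mul_nonneg hN (pow_nonneg (sq_nonneg (w a)) 2)]

theorem khintchine_four {P : Type*} [Fintype P] [DecidableEq P] (w : P → ℝ) :
    ∑ ε : P → ZMod 2, (∑ p, sg (ε p) * w p) ^ 4 ≤
      3 * Fintype.card (P → ZMod 2) * nsq w ^ 2 :=
  (Khin_four w Finset.univ).2

end Khin

end KPC
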