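import Pool.Agent.KPC.SumQf
import Pool.Agent.KPC.Khin

/-! Moments of the randomized measurement `Bop` (KPC-E10). -/

open Finset BigOperators

namespace KPC

section Calc

variable {J X Y Ω : Type} [Fintype J] [DecidableEq J] [Fintype X] [Fintype Y] [DecidableEq Y]
  [Fintype Ω] [DecidableEq Ω] {e : ℕ} {δ : ℝ} (w : WeylSys J X Y e δ) (S : J → Finset Ω)


theorem Bop_ip (F G : Ω × Y → ℝ) :
    ∑ ξ, Bop w S F ξ * Bop w S G ξ = Fintype.card (Xi J X Y Ω e) * ip F G := by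
  have h1 : ∀ (x : X) (σ : CC J e),
      ∑ ε : Ω × Y → ZMod 2, Bop w S F (x, σ, ε) * Bop w S G (x, σ, ε) =
        Fintype.card (Ω × Y → ZMod 2) * qf w S x σ F G := fun x σ => by
    have := khintchine_two (PiOp w S x σ F) (PiOp w S x σ G)
    simpa only [Bop, qf] using this
  have h2 : ∑ ξ : Xi J X Y Ω e, Bop w S F ξ * Bop w S G ξ =
      ∑ x : X, ∑ σ : CC J e, ∑ ε : Ω × Y → ZMod 2,
        Bop w S F (x, σ, ε) * Bop w S G (x, σ, ε) := by
    rw [Fintype.sum_prod_type]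
    refine Finset.sum_congr rfl fun x _ => ?_
    rw [Fintype.sum_prod_type]
  rw [h2]
  have h3 : ∀ x : X, ∑ σ : CC J e, ∑ ε : Ω × Y → ZMod 2,
        Bop w S F (x, σ, ε) * Bop w S G (x, σ, ε) =
      (Fintype.card (Ω × Y → ZMod 2) : ℝ) * (Fintype.card (CC J e) * ip F G) := fun x => by
    rw [← sum_qf w S x F G, Finset.mul_sum]
    exact Finset.sum_congr rfl fun σ _ => h1 x σ
  rw [Finset.sum_congr rfl fun x _ => h3 x, Finset.sum_const, Finset.card_univ, nsmul_eq_mul]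
  have h4 : (Fintype.card (Xi J X Y Ω e) : ℝ) =
      Fintype.card X * (Fintype.card (CC J e) * Fintype.card (Ω × Y → ZMod 2)) := by
    rw [Fintype.card_prod, Fintype.card_prod]
    push_cast
    ring
  rw [h4]
  ring

theorem Bop_abs (F : Ω × Y → ℝ) :
    ∑ ξ, |Bop w S F ξ| ≤
      Fintype.card (Ω × Y → ZMod 2) * ∑ x, ∑ σ, nrm (PiOp w S x σ F) := by
  have h1 : ∀ (x : X) (σ : CC J e),
      ∑ ε : Ω × Y → ZMod 2, |Bop w S F (x, σ, ε)| ≤
        Fintype.card (Ω × Y → ZMod 2) * nrm (PiOp w S x σ F) := fun x σ => by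
    have hk : ∑ ε : Ω × Y → ZMod 2, Bop w S F (x, σ, ε) ^ 2 =
        Fintype.card (Ω × Y → ZMod 2) * nrm (PiOp w S x σ F) ^ 2 := by
      have := khintchine_two (PiOp w S x σ F) (PiOp w S x σ F)
      rw [nrm_sq, nsq_eq_ip, ← this]
      exact Finset.sum_congr rfl fun ε _ => by simp only [Bop]; ring
    have hcs := sq_sum_le_card_mul_sum_sq (s := (univ : Finset (Ω × Y → ZMod 2)))
      (f := fun ε => |Bop w S F (x, σ, ε)|)
    simp only [sq_abs] at hcs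
    rw [hk, Finset.card_univ] at hcs
    have h0 : 0 ≤ (Fintype.card (Ω × Y → ZMod 2) : ℝ) * nrm (PiOp w S x σ F) :=
      mul_nonneg (Nat.cast_nonneg _) (nrm_nonneg _)
    refine (abs_le_of_sq_le_sq' ?_ h0).2
    calc (∑ ε : Ω × Y → ZMod 2, |Bop w S F (x, σ, ε)|) ^ 2
        ≤ _ := hcs
      _ = _ := by ring
  have h2 : ∑ ξ : Xi J X Y Ω e, |Bop w S F ξ| =
      ∑ x : X, ∑ σ : CC J e, ∑ ε : Ω × Y → ZMod 2, |Bop w S F (x, σ, ε)| := by
    rw [Fintype.sum_prod_type]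
    refine Finset.sum_congr rfl fun x _ => ?_
    rw [Fintype.sum_prod_type]
  rw [h2, Finset.mul_sum]
  refine Finset.sum_le_sum fun x _ => ?_
  rw [Finset.mul_sum]
  exact Finset.sum_le_sum fun σ _ => h1 x σ

theorem Bop_four (F : Ω × Y → ℝ) :
    ∑ ξ, (Bop w S F ξ) ^ 4 ≤
      3 * Fintype.card (Ω × Y → ZMod 2) * ∑ x, ∑ σ, (qf w S x σ F F) ^ 2 := by
  have h1 : ∀ (x : X) (σ : CC J e),
      ∑ ε : Ω × Y → ZMod 2, Bop w S F (x, σ, ε) ^ 4 ≤
        3 * Fintype.card (Ω × Y → ZMod 2) * (qf w S x σ F F) ^ 2 := fun x σ => by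
    have := khintchine_four (PiOp w S x σ F)
    rw [nsq_eq_ip] at this
    simpa only [Bop, qf] using this
  have h2 : ∑ ξ : Xi J X Y Ω e, (Bop w S F ξ) ^ 4 =
      ∑ x : X, ∑ σ : CC J e, ∑ ε : Ω × Y → ZMod 2, Bop w S F (x, σ, ε) ^ 4 := by
    rw [Fintype.sum_prod_type]
    refine Finset.sum_congr rfl fun x _ => ?_
    rw [Fintype.sum_prod_type]
  rw [h2, Finset.mul_sum]
  refine Finset.sum_le_sum fun x _ => ?_
  rw [Finset.mul_sum]
  exact Finset.sum_le_sum fun σ _ => h1 x σ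

end Calc

end KPC
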