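import Mathlib

/-!
# Kalton–Peck pairs (project KPC, problem MP_4b9f26_an): definitions

Finite part: euclidean norm of functions on a finite type, operator bounds of matrices,
Kalton–Peck map on a finite type, Weyl systems, the randomized measurement operators.
Infinite part: `H = ℓ₂`, the Kalton–Peck map `kp`.
-/

open Finset BigOperators

namespace KPC

section Basic

variable {ι κ : Type*} [Fintype ι] [Fintype κ]

/-- squared euclidean norm -/
def nsq (x : ι → ℝ) : ℝ := ∑ i, x i ^ 2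

/-- euclidean norm -/
noncomputable def nrm (x : ι → ℝ) : ℝ := Real.sqrt (nsq x)

/-- euclidean inner product -/
def ip (x y : ι → ℝ) : ℝ := ∑ i, x i * y i

/-- the matrix `M` has operator norm at most `C` -/
def OpLe (M : Matrix ι κ ℝ) (C : ℝ) : Prop := ∀ x : κ → ℝ, nrm (M.mulVec x) ≤ C * nrm x

/-- the Kalton–Peck map on `ℝ^ι` -/
noncomputable def kpf (x : ι → ℝ) : ι → ℝ := fun i => x i * Real.log (|x i| / nrm x)

/-- the non-homogeneous variant `f log (√D |f|)` -/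
noncomputable def K1 (D : ℝ) (x : ι → ℝ) : ι → ℝ := fun i => x i * Real.log (Real.sqrt D * |x i|)

end Basic

section Weyl

/-- the sign character of `ZMod 2` -/
def sg (a : ZMod 2) : ℝ := if a = 0 then 1 else -1

/-- labels: `(F_2^e)^J` -/
abbrev CC (J : Type) (e : ℕ) : Type := J → Fin e → ZMod 2

/-- the pairing character on `F_2^e` -/
def chi1 {e : ℕ} (a b : Fin e → ZMod 2) : ℝ := sg (∑ α, a α * b α)

/-- the pairing character on `(F_2^e)^J` -/
def chi {J : Type} [Fintype J] {e : ℕ} (c σ : CC J e) : ℝ := sg (∑ j, ∑ α, c j α * σ j α)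

/-- A Weyl system: random (parameter `x : X`) commuting symmetric involutions `W x c` on `ℝ^Y`,
and nearly mutually unbiased orthonormal bases `φ j` (`j : J`) such that `W x (c at j)` is diagonal
in the basis `φ j`, with random eigenvalue labels `h x j τ`. -/
structure WeylSys (J X Y : Type) [Fintype J] [DecidableEq J] [Fintype X] [Fintype Y]
    [DecidableEq Y] (e : ℕ) (δ : ℝ) where
  W : X → CC J e → Matrix Y Y ℝ
  φ : J → Y → Y → ℝ
  h : X → J → Y → (Fin e → ZMod 2)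
  W_zero : ∀ x, W x 0 = 1
  W_add : ∀ x c d, W x (c + d) = W x c * W x d
  W_symm : ∀ x c, (W x c).transpose = W x c
  φ_on : ∀ j τ τ', ip (φ j τ) (φ j τ') = if τ = τ' then 1 else 0
  W_φ : ∀ x j a τ, (W x (Pi.single j a)).mulVec (φ j τ) = chi1 a (h x j τ) • φ j τ
  coll : ∀ j τ τ', τ ≠ τ' →
    ((univ.filter fun x => h x j τ = h x j τ').card : ℝ) ≤ (1 / 2 ^ e + δ) * Fintype.card X
  multi : ∀ c : CC J e, (∃ j l, j ≠ l ∧ c j ≠ 0 ∧ c l ≠ 0) → ∀ f : Y → ℝ,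
    ∑ x, (ip f ((W x c).mulVec f)) ^ 2 ≤ δ * Fintype.card X * (nsq f) ^ 2
  mub : ∀ x c j l τ τ', j ≠ l → |ip (φ j τ) ((W x c).mulVec (φ l τ'))| ≤ δ

end Weyl

section Model

variable {J X Y Ω : Type} [Fintype J] [DecidableEq J] [Fintype X] [Fintype Y] [DecidableEq Y]
  [Fintype Ω] [DecidableEq Ω] {e : ℕ} {δ : ℝ}

/-- the tensor `a ⊗ f` -/
def ten (a : Ω → ℝ) (f : Y → ℝ) : Ω × Y → ℝ := fun p => a p.1 * f p.2

/-- the matrix `t ⊗ 1` -/
def tm (Y : Type) [DecidableEq Y] (t : Matrix Ω Ω ℝ) : Matrix (Ω × Y) (Ω × Y) ℝ :=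
  fun p q => if p.2 = q.2 then t p.1 q.1 else 0

/-- the diagonal projection onto the coordinates in `s` -/
def dproj (s : Finset Ω) : Matrix Ω Ω ℝ := Matrix.diagonal fun ω => if ω ∈ s then 1 else 0

/-- the allowed labels at `ω` : those supported on `{j | ω ∈ S j}` -/
def lab (e : ℕ) (S : J → Finset Ω) (ω : Ω) : Finset (CC J e) :=
  univ.filter fun c => ∀ j, ω ∉ S j → c j = 0

/-- the randomized measurement `Π^{x,σ}` -/
noncomputable def PiOp (w : WeylSys J X Y e δ) (S : J → Finset Ω) (x : X) (σ : CC J e)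
    (F : Ω × Y → ℝ) : Ω × Y → ℝ := fun p =>
  (Real.sqrt ((lab e S p.1).card : ℝ))⁻¹ *
    ∑ c ∈ lab e S p.1, chi c σ * ((w.W x c).mulVec fun y => F (p.1, y)) p.2

/-- `⟨Π F, Π G⟩` -/
noncomputable def qf (w : WeylSys J X Y e δ) (S : J → Finset Ω) (x : X) (σ : CC J e)
    (F G : Ω × Y → ℝ) : ℝ := ip (PiOp w S x σ F) (PiOp w S x σ G)

/-- the coefficients `Θ_c` of `qf` in the characters of `σ` -/
noncomputable def Th (w : WeylSys J X Y e δ) (S : J → Finset Ω) (x : X) (c : CC J e)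
    (F G : Ω × Y → ℝ) : ℝ :=
  ∑ ω, if c ∈ lab e S ω then ip (fun y => F (ω, y)) ((w.W x c).mulVec fun y => G (ω, y)) else 0

/-- the index set of the random functions: `(x, σ, ε)` -/
abbrev Xi (J X Y Ω : Type) (e : ℕ) : Type := X × CC J e × (Ω × Y → ZMod 2)

/-- `(B F)(x,σ,ε) = ⟨ε, Π^{x,σ} F⟩` -/
noncomputable def Bop (w : WeylSys J X Y e δ) (S : J → Finset Ω) (F : Ω × Y → ℝ) :
    Xi J X Y Ω e → ℝ := fun ξ => ∑ p, sg (ξ.2.2 p) * PiOp w S ξ.1 ξ.2.1 F p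

/-- the isometry `A = |Ξ|^{-1/2} B` -/
noncomputable def Aop (w : WeylSys J X Y e δ) (S : J → Finset Ω) (F : Ω × Y → ℝ) :
    Xi J X Y Ω e → ℝ := fun ξ =>
  (Real.sqrt (Fintype.card (Xi J X Y Ω e) : ℝ))⁻¹ * Bop w S F ξ

/-- matrix of `A` -/
noncomputable def Amat (w : WeylSys J X Y e δ) (S : J → Finset Ω) :
    Matrix (Xi J X Y Ω e) (Ω × Y) ℝ := fun ξ p => Aop w S (Pi.single p 1) ξ

/-- the coefficient of `F` along `φ j τ`, a vector in `ℝ^Ω` -/
def coef (w : WeylSys J X Y e δ) (j : J) (τ : Y) (F : Ω × Y → ℝ) : Ω → ℝ :=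
  fun ω => ip (w.φ j τ) (fun y => F (ω, y))

/-- `(P_j F)(τ)` -/
def Pc (w : WeylSys J X Y e δ) (S : J → Finset Ω) (i : J × Y) (F : Ω × Y → ℝ) : Ω → ℝ :=
  fun ω => if ω ∈ S i.1 then coef w i.1 i.2 F ω else 0

/-- `F^i = (P_j F)(τ) ⊗ φ_{jτ}` for `i = (j,τ)` -/
def Fi (w : WeylSys J X Y e δ) (S : J → Finset Ω) (F : Ω × Y → ℝ) (i : J × Y) : Ω × Y → ℝ :=
  ten (Pc w S i F) (w.φ i.1 i.2)

/-- `a_i = n ‖F^i‖²`, `n = 2^e` -/
noncomputable def aw (w : WeylSys J X Y e δ) (S : J → Finset Ω) (F : Ω × Y → ℝ) (i : J × Y) : ℝ :=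
  2 ^ e * nsq (Pc w S i F)

/-- the set of large indices -/
noncomputable def LL (w : WeylSys J X Y e δ) (S : J → Finset Ω) (F : Ω × Y → ℝ) :
    Finset (J × Y) := by
  classical
  exact univ.filter fun i => 1 ≤ aw w S F i

/-- `M = ½ log n` -/
noncomputable def Mlog (e : ℕ) : ℝ := (e : ℝ) / 2 * Real.log 2

/-- `ψ(a) = (M + log ‖a‖)_+ a` -/
noncomputable def psi (e : ℕ) (a : Ω → ℝ) : Ω → ℝ := max 0 (Mlog e + Real.log (nrm a)) • a

/-- `Φ(F) = ∑_{j,τ} ψ((P_jF)(τ)) ⊗ φ_{jτ}` -/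
noncomputable def Phi (w : WeylSys J X Y e δ) (S : J → Finset Ω) (F : Ω × Y → ℝ) : Ω × Y → ℝ :=
  ∑ i : J × Y, ten (psi e (Pc w S i F)) (w.φ i.1 i.2)

/-- the smallness condition on `δ` used everywhere -/
def Small (J Ω : Type) [Fintype J] [Fintype Ω] (e : ℕ) (δ : ℝ) : Prop :=
  0 ≤ δ ∧ 16 * (2 ^ e) ^ 3 * ((Fintype.card J : ℝ) + 1) ^ 3 * ((Fintype.card Ω : ℝ) + 1) *
    ((2 : ℝ) ^ e) ^ Fintype.card J * δ ≤ 1

/-- Upper estimate with constant `C`: `T kp x - kp (U x) - L x` is bounded by `C ‖x‖`. -/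
def Triv {ι : Type*} [Fintype ι] (T U L : Matrix ι ι ℝ) (C : ℝ) : Prop :=
  ∀ x : ι → ℝ, nrm (T.mulVec (kpf x) - kpf (U.mulVec x) - L.mulVec x) ≤ C * nrm x

end Model

section Infinite

/-- the real Hilbert space `ℓ₂` -/
abbrev H : Type := lp (fun _ : ℕ => ℝ) 2

/-- the Kalton–Peck map on `ℓ₂`, with values in the space of all real sequences -/
noncomputable def kp (z : H) : ℕ → ℝ := fun i => z i * Real.log (|z i| / ‖z‖)

end Infinite

end KPC
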