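import Pool.Agent.KPC.LevelDefs

/-!
# KPC: the sum over `b` (helper20)
-/

open Finset BigOperators

namespace KPC.LBsum_

variable {K Q : Type} [Fintype K] [DecidableEq K] [Fintype Q] [DecidableEq Q]

theorem sum_prod (F : K → Q → ℝ) :
    ∑ b : K → Q, ∏ a, F a (b a) = ∏ a, ∑ c, F a c := by
  rw [Finset.prod_univ_sum, Fintype.piFinset_univ]

theorem pair {a a' : K} (h : a ≠ a') (f g : Q → ℝ) (hf : ∑ c, f c = 0) :
    ∑ b : K → Q, f (b a) * g (b a') = 0 := by
  have h1 := sum_prod (K := K) (Q := Q)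
    (fun x c => (if x = a then f c else 1) * (if x = a' then g c else 1))
  have h2 : ∀ b : K → Q, ∏ x, ((if x = a then f (b x) else 1) * (if x = a' then g (b x) else 1)) =
      f (b a) * g (b a') := by
    intro b
    rw [Finset.prod_mul_distrib]
    simp
  rw [Finset.sum_congr rfl fun b _ => h2 b] at h1
  rw [h1]
  apply Finset.prod_eq_zero (Finset.mem_univ a)
  simp [h, hf]

theorem single (a : K) (f : Q → ℝ) :
    (Fintype.card Q : ℝ) * ∑ b : K → Q, f (b a) =
      (Fintype.card Q : ℝ) ^ Fintype.card K * ∑ c, f c := by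
  have h1 := sum_prod (K := K) (Q := Q) (fun x c => if x = a then f c else 1)
  have h2 : ∀ b : K → Q, ∏ x, (if x = a then f (b x) else 1) = f (b a) := by
    intro b
    simp
  rw [Finset.sum_congr rfl fun b _ => h2 b] at h1
  rw [h1, ← Finset.mul_prod_erase univ _ (Finset.mem_univ a)]
  have h3 : ∏ x ∈ univ.erase a, ∑ c : Q, (if x = a then f c else 1) =
      (Fintype.card Q : ℝ) ^ (Fintype.card K - 1) := by
    rw [Finset.prod_congr rfl (g := fun _ => (Fintype.card Q : ℝ))]
    · rw [Finset.prod_const, Finset.card_erase_of_mem (Finset.mem_univ a), Finset.card_univ]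
    · intro x hx
      simp [Finset.ne_of_mem_erase hx]
  rw [h3]
  have h4 : 0 < Fintype.card K := Fintype.card_pos_iff.2 ⟨a⟩
  obtain ⟨n, hn⟩ : ∃ n, Fintype.card K = n + 1 := ⟨Fintype.card K - 1, by omega⟩
  rw [hn]
  simp only [if_true, Nat.add_sub_cancel]
  ring

end KPC.LBsum_

namespace KPC.Lev

variable {K Q : Type} [Fintype K] [DecidableEq K] [Fintype Q] [DecidableEq Q] {s : ℕ}

theorem b_sum [Nonempty Q] (α : ℝ) (X : K → Q → ℝ) (hX : ∀ a, ∑ c, X a c = 0) :
    (Fintype.card Q : ℝ) * ∑ b : K → Q, (α + ∑ a, X a (b a)) ^ 2 =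
      (Fintype.card Q : ℝ) ^ Fintype.card K *
        ((Fintype.card Q : ℝ) * α ^ 2 + ∑ a, ∑ c, X a c ^ 2) := by
  have hκ : (Fintype.card Q : ℝ) ≠ 0 := by
    exact_mod_cast Fintype.card_ne_zero
  have h1 : ∑ b : K → Q, (α + ∑ a, X a (b a)) ^ 2 =
      ∑ _b : K → Q, α ^ 2 + 2 * α * ∑ a, ∑ b : K → Q, X a (b a) +
        ∑ a, ∑ a', ∑ b : K → Q, X a (b a) * X a' (b a') := by
    have h0 : ∑ a, ∑ b : K → Q, X a (b a) = ∑ b : K → Q, ∑ a, X a (b a) := Finset.sum_comm
    rw [h0, Finset.mul_sum]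
    have h2 : ∑ a, ∑ a', ∑ b : K → Q, X a (b a) * X a' (b a') =
        ∑ b : K → Q, (∑ a, X a (b a)) ^ 2 := by
      calc ∑ a, ∑ a', ∑ b : K → Q, X a (b a) * X a' (b a')
          = ∑ a, ∑ b : K → Q, ∑ a', X a (b a) * X a' (b a') :=
            Finset.sum_congr rfl fun a _ => Finset.sum_comm
        _ = ∑ b : K → Q, ∑ a, ∑ a', X a (b a) * X a' (b a') := Finset.sum_comm
        _ = ∑ b : K → Q, (∑ a, X a (b a)) ^ 2 := by
            refine Finset.sum_congr rfl fun b _ => ?_
            rw [sq, Finset.sum_mul_sum]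
    rw [h2, ← Finset.sum_add_distrib, ← Finset.sum_add_distrib]
    refine Finset.sum_congr rfl fun b _ => ?_
    ring
  have h2 : ∀ a : K, ∑ b : K → Q, X a (b a) = 0 := by
    intro a
    have := KPC.LBsum_.single a (X a)
    rw [hX a, mul_zero] at this
    exact (mul_eq_zero.1 this).resolve_left hκ
  have h3 : (Fintype.card Q : ℝ) * ∑ a, ∑ a', ∑ b : K → Q, X a (b a) * X a' (b a') =
      (Fintype.card Q : ℝ) ^ Fintype.card K * ∑ a, ∑ c, X a c ^ 2 := by
    rw [Finset.mul_sum, Finset.mul_sum]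
    refine Finset.sum_congr rfl fun a _ => ?_
    rw [Finset.sum_eq_single a]
    · rw [KPC.LBsum_.single a (fun c => X a c * X a c)]
      congr 1
      exact Finset.sum_congr rfl fun c _ => (sq _).symm
    · intro a' _ hne
      exact KPC.LBsum_.pair (Ne.symm hne) (X a) (X a') (hX a)
    · intro h
      exact absurd (Finset.mem_univ a) h
  rw [h1]
  simp only [h2, Finset.sum_const_zero, mul_zero, add_zero]
  rw [mul_add, h3, Finset.sum_const, Finset.card_univ, Fintype.card_fun, nsmul_eq_mul]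
  push_cast
  ring

end KPC.Lev
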