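import Pool.Agent.KPC.LLine
import Pool.Agent.KPC.LBsum

/-! KPC-L9: the norm of `T0` on the rows `i ≠ j` and the columns `B_j` (helper12). -/

open Finset BigOperators

namespace KPC.LCross_

variable {K Q : Type} [Fintype K] [DecidableEq K] [Fintype Q] [DecidableEq Q] {s : ℕ}

theorem eps_sq (Hd : K × Q → K × Q → ℝ) (hH : Lev.IsHad Hd) (r : Fin s) (i : Lev.Row K Q s) :
    Lev.eps Hd r i ^ 2 = 1 := by
  unfold Lev.eps
  rw [← Finset.prod_pow]
  refine Finset.prod_eq_one fun r' _ => ?_
  rcases hH.1 (i r) (i r') with h | h <;> rw [h] <;> norm_num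

theorem qk_sq [Nonempty Q] :
    Lev.qk K Q ^ 2 * (Fintype.card Q : ℝ) ^ Fintype.card K = 1 := by
  have h : 0 < (Fintype.card Q : ℝ) ^ Fintype.card K :=
    pow_pos (by exact_mod_cast Fintype.card_pos) _
  unfold Lev.qk
  rw [inv_pow, Real.sq_sqrt h.le, inv_mul_cancel₀ h.ne']

theorem upd_sum (a0 : K) (F : (K → Q) → ℝ) :
    ∑ b : K → Q, ∑ c : Q, F (Function.update b a0 c) = (Fintype.card Q : ℝ) * ∑ b, F b := by
  have e : ∑ p : (K → Q) × Q, F (Function.update p.1 a0 p.2) = ∑ p : (K → Q) × Q, F p.1 := by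
    refine Fintype.sum_equiv
      ⟨fun p => (Function.update p.1 a0 p.2, p.1 a0),
        fun p => (Function.update p.1 a0 p.2, p.1 a0), ?_, ?_⟩ _ _ ?_
    · rintro ⟨b, c⟩
      simp
    · rintro ⟨b, c⟩
      simp
    · rintro ⟨b, c⟩
      rfl
  rw [Fintype.sum_prod_type, Fintype.sum_prod_type] at e
  rw [e, Finset.mul_sum]
  refine Finset.sum_congr rfl fun b _ => ?_
  show ∑ _c : Q, F b = _
  rw [Finset.sum_const, Finset.card_univ, nsmul_eq_mul]

/-- variance inequality -/
theorem var (w : Q → ℝ) :
    ∑ c, ((Fintype.card Q : ℝ) * w c - ∑ c', w c') ^ 2 ≤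
      (Fintype.card Q : ℝ) ^ 2 * ∑ c, w c ^ 2 := by
  set κ : ℝ := (Fintype.card Q : ℝ) with hκ
  set m : ℝ := ∑ c', w c' with hm
  have h1 : ∑ c, (κ * w c - m) ^ 2 = κ ^ 2 * ∑ c, w c ^ 2 - κ * m ^ 2 := by
    have h2 : ∀ c, (κ * w c - m) ^ 2 = κ ^ 2 * w c ^ 2 - 2 * κ * m * w c + m ^ 2 :=
      fun c => by ring
    rw [Finset.sum_congr rfl fun c _ => h2 c, Finset.sum_add_distrib, Finset.sum_sub_distrib,
      ← Finset.mul_sum, ← Finset.mul_sum, Finset.sum_const, Finset.card_univ, nsmul_eq_mul,
      ← hκ, ← hm]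
    ring
  rw [h1]
  have h3 : 0 ≤ κ * m ^ 2 := mul_nonneg (Nat.cast_nonneg _) (sq_nonneg _)
  linarith

theorem core [Nonempty Q] (a0 : K) (c0 : Q) (w : K × Q → ℝ) (hw : w (a0, c0) = 0) :
    ∑ b : K → Q, (if b a0 = c0 then
        (∑ a, ((Fintype.card Q : ℝ) * w (a, b a) - ∑ c', w (a, c'))) ^ 2 else 0) ≤
      (Fintype.card Q : ℝ) ^ Fintype.card K * ∑ γ, w γ ^ 2 := by
  set κ : ℝ := (Fintype.card Q : ℝ) with hκ
  have hκ0 : 0 < κ := by rw [hκ]; exact_mod_cast Fintype.card_pos
  set W0 : ℝ := ∑ c', w (a0, c') with hW0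
  let X : K → Q → ℝ := fun a c => if a = a0 then 0 else κ * w (a, c) - ∑ c', w (a, c')
  have hX : ∀ a, ∑ c, X a c = 0 := by
    intro a
    by_cases ha : a = a0
    · simp [X, ha]
    · simp only [X, if_neg ha]
      rw [Finset.sum_sub_distrib, ← Finset.mul_sum, Finset.sum_const, Finset.card_univ,
        nsmul_eq_mul, ← hκ, sub_self]
  let Ψ : (K → Q) → ℝ := fun b => (-W0 + ∑ a, X a (b a)) ^ 2
  have hΨu : ∀ b c, Ψ (Function.update b a0 c) = Ψ b := by
    intro b c
    simp only [Ψ]
    congr 2
    refine Finset.sum_congr rfl fun a _ => ?_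
    by_cases ha : a = a0
    · simp [X, ha]
    · rw [Function.update_of_ne ha]
  have h1 : ∀ b : K → Q, (if b a0 = c0 then
        (∑ a, (κ * w (a, b a) - ∑ c', w (a, c'))) ^ 2 else 0) =
      if b a0 = c0 then Ψ b else 0 := by
    intro b
    by_cases hb : b a0 = c0
    · rw [if_pos hb, if_pos hb]
      simp only [Ψ]
      congr 1
      rw [← Finset.add_sum_erase _ _ (Finset.mem_univ a0),
        ← Finset.add_sum_erase univ (fun a => X a (b a)) (Finset.mem_univ a0), hb, hw]
      have : X a0 c0 = 0 := by simp [X]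
      rw [this]
      have h2 : ∑ a ∈ univ.erase a0, (κ * w (a, b a) - ∑ c', w (a, c')) =
          ∑ a ∈ univ.erase a0, X a (b a) := by
        refine Finset.sum_congr rfl fun a ha => ?_
        simp only [X, if_neg (Finset.ne_of_mem_erase ha)]
      rw [h2, ← hW0]
      ring
    · rw [if_neg hb, if_neg hb]
  rw [Finset.sum_congr rfl fun b _ => h1 b]
  have h3 : κ * ∑ b : K → Q, (if b a0 = c0 then Ψ b else 0) = ∑ b, Ψ b := by
    have h4 := upd_sum a0 (fun b : K → Q => if b a0 = c0 then Ψ b else 0)
    rw [← hκ] at h4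
    rw [← h4]
    refine Finset.sum_congr rfl fun b _ => ?_
    have h5 : ∀ c : Q, (if (Function.update b a0 c) a0 = c0 then Ψ (Function.update b a0 c)
        else 0) = if c = c0 then Ψ b else 0 := by
      intro c
      rw [Function.update_self, hΨu]
    rw [Finset.sum_congr rfl fun c _ => h5 c, Finset.sum_ite_eq' , if_pos (Finset.mem_univ _)]
  have h6 := Lev.b_sum (-W0) X hX
  rw [← hκ] at h6
  have h7 : κ * W0 ^ 2 ≤ κ ^ 2 * ∑ c, w (a0, c) ^ 2 := by
    have h8 : W0 ^ 2 ≤ κ * ∑ c, w (a0, c) ^ 2 := by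
      have := sq_sum_le_card_mul_sum_sq (s := (univ : Finset Q)) (f := fun c => w (a0, c))
      rw [Finset.card_univ, ← hκ] at this
      exact this
    nlinarith
  have h9 : ∑ a, ∑ c, X a c ^ 2 ≤ ∑ a ∈ univ.erase a0, κ ^ 2 * ∑ c, w (a, c) ^ 2 := by
    rw [← Finset.add_sum_erase _ _ (Finset.mem_univ a0)]
    have : ∑ c, X a0 c ^ 2 = 0 := by simp [X]
    rw [this, zero_add]
    refine Finset.sum_le_sum fun a ha => ?_
    simp only [X, if_neg (Finset.ne_of_mem_erase ha)]
    exact var fun c => w (a, c)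
  have h10 : κ * W0 ^ 2 + ∑ a, ∑ c, X a c ^ 2 ≤ κ ^ 2 * ∑ γ, w γ ^ 2 := by
    rw [Fintype.sum_prod_type, Finset.mul_sum,
      ← Finset.add_sum_erase univ (fun a => κ ^ 2 * ∑ c, w (a, c) ^ 2) (Finset.mem_univ a0)]
    exact add_le_add h7 h9
  have h11 : κ ^ 2 * ∑ b : K → Q, (if b a0 = c0 then Ψ b else 0) =
      κ ^ Fintype.card K * (κ * W0 ^ 2 + ∑ a, ∑ c, X a c ^ 2) := by
    have : κ ^ 2 * ∑ b : K → Q, (if b a0 = c0 then Ψ b else 0) =
        κ * (κ * ∑ b : K → Q, (if b a0 = c0 then Ψ b else 0)) := by ring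
    rw [this, h3]
    simp only [Ψ]
    rw [h6]
    ring
  have h12 : κ ^ 2 * ∑ b : K → Q, (if b a0 = c0 then Ψ b else 0) ≤
      κ ^ 2 * (κ ^ Fintype.card K * ∑ γ, w γ ^ 2) := by
    rw [h11]
    have : κ ^ 2 * (κ ^ Fintype.card K * ∑ γ, w γ ^ 2) =
        κ ^ Fintype.card K * (κ ^ 2 * ∑ γ, w γ ^ 2) := by ring
    rw [this]
    exact mul_le_mul_of_nonneg_left h10 (pow_nonneg hκ0.le _)
  exact le_of_mul_le_mul_left h12 (pow_pos hκ0 2)

end KPC.LCross_

namespace KPC.Lev

variable {K Q : Type} [Fintype K] [DecidableEq K] [Fintype Q] [DecidableEq Q] {s : ℕ}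

theorem cross_le [Nonempty Q] (Hd : K × Q → K × Q → ℝ) (hH : IsHad Hd) (g0 : K × Q)
    (j : Row K Q s) :
    OpLe (restr (T0 Hd g0) (fun i => i ≠ j) (Bset g0 j)) 1 := by
  refine OpLe.of_transpose zero_le_one ?_
  intro y
  rw [one_mul]
  refine nrm_le_of_nsq_le (nrm_nonneg y) ?_
  rw [nrm_sq]
  set κ : ℝ := (Fintype.card Q : ℝ) with hκ
  let w : Fin s → K × Q → ℝ := fun r γ => if γ = j r then 0 else
    eps Hd r (Function.update j r γ) * y (Function.update j r γ)
  -- the entries
  have hent : ∀ (r : Fin s) (u : Row K Q s) (b : K → Q),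
      ((restr (T0 Hd g0) (fun i => i ≠ j) (Bset g0 j)).transpose.mulVec y) (r, u, b) =
      if Function.update j r g0 = u then (if b (j r).1 = (j r).2 then
        qk K Q * ∑ a, (κ * w r (a, b a) - ∑ c', w r (a, c')) else 0) else 0 := by
    intro r u b
    by_cases hu : Function.update j r g0 = u
    · rw [if_pos hu]
      by_cases hb : b (j r).1 = (j r).2
      · rw [if_pos hb]
        have hmem : ((r, u, b) : Col K Q s) ∈ Bset g0 j := by
          simp only [Bset, Finset.mem_filter, Finset.mem_univ, true_and]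
          exact ⟨hu, hb⟩
        have e1 : ((restr (T0 Hd g0) (fun i => i ≠ j) (Bset g0 j)).transpose.mulVec y) (r, u, b) =
            ∑ i : Row K Q s, (if Function.update i r g0 = u then
              (if i = j then 0 else eps Hd r i * qk K Q * (κ * hit (i r) b - 1) * y i) else 0) := by
          unfold Matrix.mulVec dotProduct
          refine Finset.sum_congr rfl fun i _ => ?_
          show (if i ≠ j ∧ ((r, u, b) : Col K Q s) ∈ Bset g0 j then
            ((κ - 1) * RG Hd g0 i (r, u, b) - RD Hd g0 i (r, u, b)) else 0) * y i = _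
          unfold RG RD
          by_cases hij : i = j
          · rw [if_neg (fun h => h.1 hij), if_pos hij, zero_mul, ite_self]
          · rw [if_pos ⟨hij, hmem⟩, if_neg hij]
            by_cases h : Function.update i r g0 = u
            · rw [if_pos h, if_pos h, if_pos h]
              ring
            · rw [if_neg h, if_neg h, if_neg h]
              ring
        have hur : u r = g0 := by rw [← hu, Function.update_self]
        have huu : ∀ γ, Function.update u r γ = Function.update j r γ := by
          intro γ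
          rw [← hu, Function.update_idem]
        rw [e1, line_sum g0 r u, if_pos hur, Fintype.sum_prod_type, Finset.mul_sum]
        refine Finset.sum_congr rfl fun a _ => ?_
        have e2 : ∀ c : Q, (if Function.update u r (a, c) = j then 0 else
            eps Hd r (Function.update u r (a, c)) * qk K Q *
            (κ * hit ((Function.update u r (a, c)) r) b - 1) * y (Function.update u r (a, c))) =
            qk K Q * (κ * (if b a = c then w r (a, c) else 0) - w r (a, c)) := by
          intro c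
          rw [huu, Function.update_self]
          by_cases hj : (a, c) = j r
          · have h1 : Function.update j r (a, c) = j := by rw [hj, Function.update_eq_self]
            rw [if_pos h1]
            have h2 : w r (a, c) = 0 := by simp only [w, if_pos hj]
            rw [h2]
            simp
          · have h1 : Function.update j r (a, c) ≠ j := by
              intro h
              apply hj
              rw [← h, Function.update_self]
            rw [if_neg h1]
            have h2 : w r (a, c) = eps Hd r (Function.update j r (a, c)) *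
                y (Function.update j r (a, c)) := by simp only [w, if_neg hj]
            rw [h2]
            unfold hit
            show _ * _ * (κ * (if b a = c then 1 else 0) - 1) * _ = _
            split_ifs <;> ring
        rw [Finset.sum_congr rfl fun c _ => e2 c, ← Finset.mul_sum, Finset.sum_sub_distrib,
          ← Finset.mul_sum, Finset.sum_ite_eq, if_pos (Finset.mem_univ _)]
      · rw [if_neg hb]
        unfold Matrix.mulVec dotProduct
        refine Finset.sum_eq_zero fun i _ => ?_
        show (if i ≠ j ∧ ((r, u, b) : Col K Q s) ∈ Bset g0 j then _ else 0) * y i = _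
        rw [if_neg, zero_mul]
        rintro ⟨_, h⟩
        simp only [Bset, Finset.mem_filter, Finset.mem_univ, true_and] at h
        exact hb h.2
    · rw [if_neg hu]
      unfold Matrix.mulVec dotProduct
      refine Finset.sum_eq_zero fun i _ => ?_
      show (if i ≠ j ∧ ((r, u, b) : Col K Q s) ∈ Bset g0 j then _ else 0) * y i = _
      rw [if_neg, zero_mul]
      rintro ⟨_, h⟩
      simp only [Bset, Finset.mem_filter, Finset.mem_univ, true_and] at h
      exact hu h.1
  -- sum over the columns of direction r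
  have hr : ∀ r : Fin s, ∑ u : Row K Q s, ∑ b : K → Q,
      (((restr (T0 Hd g0) (fun i => i ≠ j) (Bset g0 j)).transpose.mulVec y) (r, u, b)) ^ 2 ≤
      ∑ γ, w r γ ^ 2 := by
    intro r
    have h1 : ∑ u : Row K Q s, ∑ b : K → Q,
        (((restr (T0 Hd g0) (fun i => i ≠ j) (Bset g0 j)).transpose.mulVec y) (r, u, b)) ^ 2 =
        qk K Q ^ 2 * ∑ b : K → Q, (if b (j r).1 = (j r).2 then
          (∑ a, (κ * w r (a, b a) - ∑ c', w r (a, c'))) ^ 2 else 0) := by
      rw [Finset.sum_comm, Finset.mul_sum]
      refine Finset.sum_congr rfl fun b _ => ?_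
      rw [Finset.sum_congr rfl fun u _ => by rw [hent r u b]]
      rw [Finset.sum_eq_single (Function.update j r g0)]
      · rw [if_pos rfl]
        split_ifs
        · rw [mul_pow]
        · simp
      · intro u _ hu
        rw [if_neg (Ne.symm hu)]
        simp
      · intro h
        exact absurd (Finset.mem_univ _) h
    rw [h1]
    have hw0 : w r ((j r).1, (j r).2) = 0 := by
      simp only [w, Prod.mk.eta, if_true]
    have h2 := LCross_.core (j r).1 (j r).2 (w r) hw0
    rw [← hκ] at h2
    calc qk K Q ^ 2 * ∑ b : K → Q, (if b (j r).1 = (j r).2 then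
          (∑ a, (κ * w r (a, b a) - ∑ c', w r (a, c'))) ^ 2 else 0)
        ≤ qk K Q ^ 2 * (κ ^ Fintype.card K * ∑ γ, w r γ ^ 2) :=
          mul_le_mul_of_nonneg_left h2 (sq_nonneg _)
      _ = (qk K Q ^ 2 * κ ^ Fintype.card K) * ∑ γ, w r γ ^ 2 := by ring
      _ = ∑ γ, w r γ ^ 2 := by rw [hκ, LCross_.qk_sq, one_mul]
  have htot : nsq ((restr (T0 Hd g0) (fun i => i ≠ j) (Bset g0 j)).transpose.mulVec y) ≤
      ∑ r : Fin s, ∑ γ, w r γ ^ 2 := by
    unfold nsq
    rw [Fintype.sum_prod_type]
    refine Finset.sum_le_sum fun r _ => ?_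
    rw [Fintype.sum_prod_type]
    exact hr r
  refine htot.trans ?_
  -- the rows are distinct
  have h3 : ∑ r : Fin s, ∑ γ, w r γ ^ 2 =
      ∑ p ∈ (univ : Finset (Fin s × (K × Q))).filter (fun p => p.2 ≠ j p.1),
        y (Function.update j p.1 p.2) ^ 2 := by
    rw [Finset.sum_filter, Fintype.sum_prod_type]
    refine Finset.sum_congr rfl fun r _ => Finset.sum_congr rfl fun γ _ => ?_
    by_cases hγ : γ = j r
    · simp [w, hγ]
    · simp only [w, if_neg hγ, ne_eq, hγ, not_false_eq_true, if_true]
      rw [mul_pow, LCross_.eps_sq Hd hH, one_mul]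
  rw [h3]
  have h4 : ∑ p ∈ (univ : Finset (Fin s × (K × Q))).filter (fun p => p.2 ≠ j p.1),
        y (Function.update j p.1 p.2) ^ 2 =
      ∑ i ∈ ((univ : Finset (Fin s × (K × Q))).filter (fun p => p.2 ≠ j p.1)).image
        (fun p => Function.update j p.1 p.2), y i ^ 2 := by
    rw [Finset.sum_image]
    rintro ⟨r, γ⟩ hp ⟨r', γ'⟩ hp' heq
    simp only [Finset.coe_filter, Finset.mem_univ, true_and, Set.mem_ofPred_eq] at hp hp'
    have heq' : Function.update j r γ = Function.update j r' γ' := heq
    by_cases hrr : r = r'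
    · subst hrr
      have := congrFun heq' r
      rw [Function.update_self, Function.update_self] at this
      rw [this]
    · exfalso
      have := congrFun heq' r
      rw [Function.update_self, Function.update_of_ne hrr] at this
      exact hp this
  rw [h4]
  unfold nsq
  exact Finset.sum_le_sum_of_subset_of_nonneg (Finset.subset_univ _) fun i _ _ => sq_nonneg _

end KPC.Lev
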