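import Pool.Agent.KPC.LevelDefs

/-!
# KPC-L6: Hadamard matrix by characters
-/

open Finset BigOperators

namespace KPC

namespace LHad_

theorem sum_sg {a : ℕ} (c : Fin a → ZMod 2) :
    ∑ y : Fin a → ZMod 2, sg (∑ i, c i * y i)
      = if c = 0 then (Fintype.card (Fin a → ZMod 2) : ℝ) else 0 := by
  split_ifs with h
  · subst h
    simp
  · obtain ⟨i0, hi0⟩ : ∃ i, c i ≠ 0 := by
      by_contra hc
      push Not at hc
      exact h (funext hc)
    have h1 : c i0 = 1 := by
      have : ∀ z : ZMod 2, z ≠ 0 → z = 1 := by decide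
      exact this _ hi0
    have h2 : ∑ y : Fin a → ZMod 2, sg (∑ i, c i * y i)
        = ∑ y : Fin a → ZMod 2, sg (∑ i, c i * (y + (Pi.single i0 1 : Fin a → ZMod 2)) i) :=
      (Equiv.sum_comp (Equiv.addRight (Pi.single i0 (1 : ZMod 2)))
        (fun y : Fin a → ZMod 2 => sg (∑ i, c i * y i))).symm
    have h3 : ∀ y : Fin a → ZMod 2, sg (∑ i, c i * (y + (Pi.single i0 1 : Fin a → ZMod 2)) i)
        = - sg (∑ i, c i * y i) := by
      intro y
      have h4 : ∑ i, c i * (y + (Pi.single i0 1 : Fin a → ZMod 2)) i = ∑ i, c i * y i + 1 := by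
        simp only [Pi.add_apply, mul_add, sum_add_distrib]
        congr 1
        rw [Finset.sum_eq_single i0]
        · rw [Pi.single_eq_same, h1, one_mul]
        · intro b _ hb
          rw [Pi.single_eq_of_ne hb, mul_zero]
        · intro hb
          exact absurd (mem_univ _) hb
      rw [h4, sg_add]
      have h5 : sg 1 = -1 := by simp [sg]
      rw [h5, mul_neg, mul_one]
    simp only [h3, sum_neg_distrib] at h2
    linarith

theorem add_eq_zero_iff' {a : ℕ} (x x' : Fin a → ZMod 2) : x + x' = 0 ↔ x = x' := by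
  constructor
  · intro h
    funext i
    have h1 := congrFun h i
    have : ∀ u v : ZMod 2, u + v = 0 → u = v := by decide
    exact this _ _ h1
  · rintro rfl
    funext i
    have : ∀ u : ZMod 2, u + u = 0 := by decide
    exact this _

end LHad_

namespace Lev

theorem hadamard_exists (a b : ℕ) :
    ∃ Hd : (Fin a → ZMod 2) × (Fin b → ZMod 2) → (Fin a → ZMod 2) × (Fin b → ZMod 2) → ℝ,
      IsHad Hd := by
  refine ⟨fun g g' => sg (∑ i, g.1 i * g'.1 i + ∑ i, g.2 i * g'.2 i), ?_, ?_⟩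
  · intro g g'
    dsimp only
    unfold sg
    split_ifs
    · exact Or.inl rfl
    · exact Or.inr rfl
  · rintro ⟨x, y⟩ ⟨x', y'⟩
    have h1 : ∀ γ : (Fin a → ZMod 2) × (Fin b → ZMod 2),
        sg (∑ i, x i * γ.1 i + ∑ i, y i * γ.2 i) * sg (∑ i, x' i * γ.1 i + ∑ i, y' i * γ.2 i)
        = sg (∑ i, (x + x') i * γ.1 i) * sg (∑ i, (y + y') i * γ.2 i) := by
      intro γ
      rw [← sg_add, ← sg_add]
      congr 1
      simp only [Pi.add_apply, add_mul, sum_add_distrib]
      ring
    have h2 : ∑ γ : (Fin a → ZMod 2) × (Fin b → ZMod 2),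
        sg (∑ i, x i * γ.1 i + ∑ i, y i * γ.2 i) * sg (∑ i, x' i * γ.1 i + ∑ i, y' i * γ.2 i)
        = (∑ u : Fin a → ZMod 2, sg (∑ i, (x + x') i * u i)) *
          ∑ v : Fin b → ZMod 2, sg (∑ i, (y + y') i * v i) := by
      rw [Fintype.sum_congr _ _ h1, Fintype.sum_prod_type, Finset.sum_mul_sum]
    dsimp only
    rw [h2, LHad_.sum_sg, LHad_.sum_sg]
    simp only [LHad_.add_eq_zero_iff', Prod.mk.injEq, Fintype.card_prod]
    split_ifs with hx hy hxy hxy hxy <;> simp_all

end Lev

end KPC
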