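import Pool.Agent.KPC.LevelDefs

/-! KPC: the double counting identity -/

open Finset BigOperators

namespace KPC

namespace LDouble_

variable {K Q : Type} [Fintype K] [DecidableEq K] [Fintype Q] [DecidableEq Q] {s : ℕ}

open Lev

lemma count (g0 : K × Q) (i : Row K Q s) (r : Fin s) (b : K → Q) :
    ∑ j : Row K Q s, (if Function.update i r g0 = Function.update j r g0 ∧
      b (j r).1 = (j r).2 then (1 : ℝ) else 0) = Fintype.card K := by
  have h : (univ.filter fun j : Row K Q s => Function.update i r g0 = Function.update j r g0 ∧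
      b (j r).1 = (j r).2) = univ.image (fun a : K => Function.update i r (a, b a)) := by
    ext j
    simp only [mem_filter, mem_univ, true_and, mem_image]
    constructor
    · rintro ⟨h1, h2⟩
      refine ⟨(j r).1, funext fun x => ?_⟩
      by_cases hx : x = r
      · subst hx
        rw [Function.update_self, h2]
      · have h3 := congrFun h1 x
        rw [Function.update_of_ne hx, Function.update_of_ne hx] at h3
        rw [Function.update_of_ne hx, h3]
    · rintro ⟨a, rfl⟩
      rw [Function.update_idem, Function.update_self]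
      exact ⟨rfl, rfl⟩
  rw [Finset.sum_boole, h, card_image_of_injective]
  · rfl
  · intro a a' haa
    have h3 := congrFun haa r
    simp only [Function.update_self] at h3
    exact (Prod.mk.inj h3).1

lemma count' (g0 : K × Q) (i : Row K Q s) (r : Fin s) (b : K → Q) :
    ∑ j : Row K Q s, (if i ≠ j ∧ (Function.update i r g0 = Function.update j r g0 ∧
      b (j r).1 = (j r).2) then (1 : ℝ) else 0) = Fintype.card K - hit (i r) b := by
  have h : ∀ j : Row K Q s, (if i ≠ j ∧ (Function.update i r g0 = Function.update j r g0 ∧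
      b (j r).1 = (j r).2) then (1 : ℝ) else 0) =
      (if Function.update i r g0 = Function.update j r g0 ∧
        b (j r).1 = (j r).2 then (1 : ℝ) else 0) - (if i = j then hit (i r) b else 0) := by
    intro j
    by_cases hij : i = j
    · subst hij
      simp [hit]
    · simp [hij]
  rw [Finset.sum_congr rfl fun j _ => h j, Finset.sum_sub_distrib, count,
    Finset.sum_ite_eq]
  simp

lemma inner_r (Hd : K × Q → K × Q → ℝ) (g0 : K × Q) (V : Matrix (Row K Q s) (Col K Q s) ℝ)
    (i j : Row K Q s) (c : Col K Q s) :
    ∑ r : Fin s, (if Function.update i r g0 = Function.update j r g0 then eps Hd r i else 0) *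
      (restr V (fun i => i ≠ j) (Bset g0 j) i c *
        (if c.1 = r ∧ c ∈ Bset g0 j then qk K Q else 0)) =
      V i c * qk K Q * eps Hd c.1 i * (if Function.update i c.1 g0 = c.2.1 then
        (if i ≠ j ∧ (Function.update i c.1 g0 = Function.update j c.1 g0 ∧
          c.2.2 (j c.1).1 = (j c.1).2) then (1 : ℝ) else 0) else 0) := by
  rw [Finset.sum_eq_single c.1]
  · by_cases h1 : i = j
    · simp [restr, h1]
    · by_cases h2 : Function.update i c.1 g0 = Function.update j c.1 g0
      · by_cases h3 : Function.update j c.1 g0 = c.2.1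
        · by_cases h4 : c.2.2 (j c.1).1 = (j c.1).2
          · have h5 : c ∈ Bset g0 j := by simp [Bset, h3, h4]
            have h6 : Function.update i c.1 g0 = c.2.1 := h2.trans h3
            rw [if_pos h2, if_pos ⟨rfl, h5⟩, if_pos h6, if_pos ⟨h1, h2, h4⟩]
            simp only [restr, if_pos (And.intro h1 h5)]
            ring
          · have h5 : c ∉ Bset g0 j := by simp [Bset, h4]
            have h6 : ¬ (i ≠ j ∧ (Function.update i c.1 g0 = Function.update j c.1 g0 ∧
              c.2.2 (j c.1).1 = (j c.1).2)) := fun h => h4 h.2.2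
            have h7 : ¬ (c.1 = c.1 ∧ c ∈ Bset g0 j) := fun h => h5 h.2
            rw [if_neg h7, if_neg h6]
            simp
        · have h5 : c ∉ Bset g0 j := by simp [Bset, h3]
          have h6 : ¬ Function.update i c.1 g0 = c.2.1 := fun h => h3 (h2.symm.trans h)
          have h7 : ¬ (c.1 = c.1 ∧ c ∈ Bset g0 j) := fun h => h5 h.2
          rw [if_neg h7, if_neg h6]
          simp
      · have h6 : ¬ (i ≠ j ∧ (Function.update i c.1 g0 = Function.update j c.1 g0 ∧
          c.2.2 (j c.1).1 = (j c.1).2)) := fun h => h2 h.2.1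
        rw [if_neg h2, if_neg h6]
        simp
  · intro r _ hr
    have h7 : ¬ (c.1 = r ∧ c ∈ Bset g0 j) := fun h => hr h.1.symm
    rw [if_neg h7]
    simp
  · intro h
    exact absurd (mem_univ _) h

end LDouble_

namespace Lev

variable {K Q : Type} [Fintype K] [DecidableEq K] [Fintype Q] [DecidableEq Q] {s : ℕ}

open LDouble_ in
/-- double counting -/
theorem double_count (Hd : K × Q → K × Q → ℝ) (g0 : K × Q) (V : Matrix (Row K Q s) (Col K Q s) ℝ) :
    ∑ j : Row K Q s, ∑ r : Fin s,
      ip (fun i => if Function.update i r g0 = Function.update j r g0 then eps Hd r i else 0)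
        ((restr V (fun i => i ≠ j) (Bset g0 j)).mulVec
          fun c => if c.1 = r ∧ c ∈ Bset g0 j then qk K Q else 0) =
      ((Fintype.card K : ℝ) - 1) * ∑ i, ∑ c, V i c * RG Hd g0 i c +
        (Fintype.card K : ℝ) * ∑ i, ∑ c, V i c * RD Hd g0 i c := by
  have h1 : ∑ j : Row K Q s, ∑ r : Fin s,
      ip (fun i => if Function.update i r g0 = Function.update j r g0 then eps Hd r i else 0)
        ((restr V (fun i => i ≠ j) (Bset g0 j)).mulVec
          fun c => if c.1 = r ∧ c ∈ Bset g0 j then qk K Q else 0) =
      ∑ j : Row K Q s, ∑ r : Fin s, ∑ i : Row K Q s, ∑ c : Col K Q s,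
        (if Function.update i r g0 = Function.update j r g0 then eps Hd r i else 0) *
        (restr V (fun i => i ≠ j) (Bset g0 j) i c *
          (if c.1 = r ∧ c ∈ Bset g0 j then qk K Q else 0)) := by
    refine Finset.sum_congr rfl fun j _ => Finset.sum_congr rfl fun r _ => ?_
    unfold ip
    refine Finset.sum_congr rfl fun i _ => ?_
    rw [Matrix.mulVec, dotProduct, Finset.mul_sum]
  have h2 : ∀ j : Row K Q s, ∑ r : Fin s, ∑ i : Row K Q s, ∑ c : Col K Q s,
        (if Function.update i r g0 = Function.update j r g0 then eps Hd r i else 0) *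
        (restr V (fun i => i ≠ j) (Bset g0 j) i c *
          (if c.1 = r ∧ c ∈ Bset g0 j then qk K Q else 0)) =
      ∑ i : Row K Q s, ∑ c : Col K Q s, V i c * qk K Q * eps Hd c.1 i *
        (if Function.update i c.1 g0 = c.2.1 then
        (if i ≠ j ∧ (Function.update i c.1 g0 = Function.update j c.1 g0 ∧
          c.2.2 (j c.1).1 = (j c.1).2) then (1 : ℝ) else 0) else 0) := by
    intro j
    rw [Finset.sum_comm]
    refine Finset.sum_congr rfl fun i _ => ?_
    rw [Finset.sum_comm]
    exact Finset.sum_congr rfl fun c _ => inner_r Hd g0 V i j c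
  rw [h1, Finset.sum_congr rfl fun j _ => h2 j, Finset.sum_comm, Finset.mul_sum, Finset.mul_sum,
    ← Finset.sum_add_distrib]
  refine Finset.sum_congr rfl fun i _ => ?_
  rw [Finset.sum_comm, Finset.mul_sum, Finset.mul_sum, ← Finset.sum_add_distrib]
  refine Finset.sum_congr rfl fun c _ => ?_
  rw [← Finset.mul_sum]
  by_cases h3 : Function.update i c.1 g0 = c.2.1
  · simp only [if_pos h3, RG, RD]
    rw [count']
    ring
  · simp only [if_neg h3, RG, RD]
    simp

end Lev

end KPC
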