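import Pool.Agent.KPC.LevelDefs

/-!
# Sums over the lines of the level model
-/

open Finset BigOperators

namespace KPC.Lev

variable {K Q : Type} [Fintype K] [DecidableEq K] [Fintype Q] [DecidableEq Q] {s : ℕ}

theorem line_sum (g0 : K × Q) (r : Fin s) (u : Row K Q s) (f : Row K Q s → ℝ) :
    ∑ i : Row K Q s, (if Function.update i r g0 = u then f i else 0) =
      if u r = g0 then ∑ γ, f (Function.update u r γ) else 0 := by
  classical
  split_ifs with hu
  · rw [← Finset.sum_filter]
    symm
    refine Finset.sum_bij (fun γ _ => Function.update u r γ) ?_ ?_ ?_ ?_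
    · intro γ _
      simp only [Finset.mem_filter, Finset.mem_univ, true_and, Function.update_idem]
      rw [← hu, Function.update_eq_self]
    · intro a _ b _ hab
      have := congrFun hab r
      simpa using this
    · intro i hi
      refine ⟨i r, Finset.mem_univ _, ?_⟩
      have h : Function.update i r g0 = u := (Finset.mem_filter.mp hi).2
      rw [← h, Function.update_idem, Function.update_eq_self]
    · intro γ _
      rfl
  · refine Finset.sum_eq_zero fun i _ => ?_
    rw [if_neg]
    intro h
    apply hu
    rw [← h, Function.update_self]

theorem line_total (g0 : K × Q) (r : Fin s) (f : Row K Q s → ℝ) :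
    ∑ u : Row K Q s, (if u r = g0 then ∑ γ, f (Function.update u r γ) else 0) = ∑ i, f i := by
  have h : ∀ u : Row K Q s, (if u r = g0 then ∑ γ, f (Function.update u r γ) else 0) =
      ∑ i : Row K Q s, (if Function.update i r g0 = u then f i else 0) :=
    fun u => (line_sum g0 r u f).symm
  rw [Finset.sum_congr rfl fun u _ => h u, Finset.sum_comm]
  refine Finset.sum_congr rfl fun i _ => ?_
  rw [Finset.sum_ite_eq]
  simp

end KPC.Lev
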