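import Pool.Agent.KPC.LRow
import Pool.Agent.KPC.LDouble
import Pool.Agent.KPC.LLine

/-!
# KPC: the lower bound for almost commuting matrices
-/

open Finset BigOperators

namespace KPC

namespace LLower_

open Lev LRow_

variable {K Q : Type} [Fintype K] [DecidableEq K] [Fintype Q] [DecidableEq Q] {s : ℕ}

theorem nrm_single {ι : Type*} [Fintype ι] [DecidableEq ι] (i : ι) :
    nrm (Pi.single i (1 : ℝ) : ι → ℝ) = 1 := by
  unfold nrm nsq
  rw [Finset.sum_eq_single i]
  · simp
  · intro j _ hj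
    simp [hj]
  · intro h
    exact absurd (Finset.mem_univ i) h

/-- one row of an operator -/
theorem row_le {ι κ : Type*} [Fintype ι] [Fintype κ] [DecidableEq ι] {M : Matrix ι κ ℝ} {C : ℝ}
    (h : OpLe M C) (i : ι) (x : κ → ℝ) : |∑ c, M i c * x c| ≤ C * nrm x := by
  have h1 := h.ip_le x (Pi.single i 1)
  rw [nrm_single, mul_one, ip_comm, ip_single] at h1
  exact h1

/-- step 1 -/
theorem step1 [Nonempty Q] (Hd : K × Q → K × Q → ℝ) (hH : IsHad Hd) (g0 : K × Q)
    (V : Matrix (Row K Q s) (Col K Q s) ℝ)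
    (h1 : OpLe (V - T0 Hd g0) (Real.sqrt (s * Fintype.card Q) / 4)) (i : Row K Q s) :
    s * (3 / 4 - 1 / (Fintype.card Q : ℝ)) ≤ ∑ c, V i c * RG Hd g0 i c := by
  obtain ⟨hG, hD, hGD⟩ := row_sums Hd hH g0 i
  have hκ : (0 : ℝ) < Fintype.card Q := by exact_mod_cast Fintype.card_pos
  have hT : ∑ c, T0 Hd g0 i c * RG Hd g0 i c = s * (1 - 1 / (Fintype.card Q : ℝ)) := by
    have e : ∀ c, T0 Hd g0 i c * RG Hd g0 i c =
        ((Fintype.card Q : ℝ) - 1) * RG Hd g0 i c ^ 2 - RG Hd g0 i c * RD Hd g0 i c := by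
      intro c
      unfold T0
      rw [Matrix.sub_apply, Matrix.smul_apply, smul_eq_mul]
      ring
    rw [Finset.sum_congr rfl fun c _ => e c, Finset.sum_sub_distrib, ← Finset.mul_sum, hG, hGD]
    field_simp
    ring
  have hnG : nrm (RG Hd g0 i) = Real.sqrt (s / (Fintype.card Q : ℝ)) := by
    unfold nrm nsq
    rw [hG]
  have h2 := row_le h1 i (RG Hd g0 i)
  rw [hnG] at h2
  have h3 : Real.sqrt (s * (Fintype.card Q : ℝ)) / 4 * Real.sqrt (s / (Fintype.card Q : ℝ)) =
      s / 4 := by
    rw [div_mul_eq_mul_div, ← Real.sqrt_mul (by positivity)]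
    have e : (s : ℝ) * (Fintype.card Q : ℝ) * (s / (Fintype.card Q : ℝ)) = (s : ℝ) ^ 2 := by
      field_simp
    rw [e, Real.sqrt_sq (by positivity)]
  rw [h3] at h2
  have h4 : ∑ c, (V - T0 Hd g0 : Matrix (Row K Q s) (Col K Q s) ℝ) i c * RG Hd g0 i c =
      ∑ c, V i c * RG Hd g0 i c - ∑ c, T0 Hd g0 i c * RG Hd g0 i c := by
    rw [← Finset.sum_sub_distrib]
    exact Finset.sum_congr rfl fun c _ => by rw [Matrix.sub_apply]; ring
  rw [h4, hT] at h2
  have h5 := (abs_le.1 h2).1
  linarith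

/-- step 2 -/
theorem step2 [Nonempty Q] (Hd : K × Q → K × Q → ℝ) (hH : IsHad Hd) (g0 : K × Q)
    (V : Matrix (Row K Q s) (Col K Q s) ℝ) (R : ℝ) (hR : 0 ≤ R) (j : Row K Q s)
    (h3 : OpLe (restr V (fun i => i = j) (univ \ Bset g0 j)) R) :
    |∑ c, V j c * RD Hd g0 j c| ≤ R * Real.sqrt s := by
  obtain ⟨hG, hD, hGD⟩ := row_sums Hd hH g0 j
  have hκ : (0 : ℝ) < Fintype.card Q := by exact_mod_cast Fintype.card_pos
  have e : ∀ c, V j c * RD Hd g0 j c =
      restr V (fun i => i = j) (univ \ Bset g0 j) j c * RD Hd g0 j c := by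
    intro c
    by_cases hc : c ∈ Bset g0 j
    · have h : RD Hd g0 j c = 0 := by
        have hc' : Function.update j c.1 g0 = c.2.1 ∧ c.2.2 (j c.1).1 = (j c.1).2 := by
          simpa [Bset] using hc
        unfold RD hit
        rw [if_pos hc'.1, if_pos hc'.2]
        ring
      rw [h, mul_zero, mul_zero]
    · unfold restr
      rw [if_pos]
      exact ⟨rfl, Finset.mem_sdiff.2 ⟨Finset.mem_univ _, hc⟩⟩
  rw [Finset.sum_congr rfl fun c _ => e c]
  refine (row_le h3 j (RD Hd g0 j)).trans ?_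
  apply mul_le_mul_of_nonneg_left _ hR
  unfold nrm nsq
  apply Real.sqrt_le_sqrt
  rw [hD]
  have : (0 : ℝ) ≤ 1 / (Fintype.card Q : ℝ) := by positivity
  have hs : (0 : ℝ) ≤ s := by positivity
  nlinarith

theorem nsq_y (Hd : K × Q → K × Q → ℝ) (hH : IsHad Hd) (g0 : K × Q) (j : Row K Q s)
    (r : Fin s) :
    nsq (fun i => if Function.update i r g0 = Function.update j r g0 then eps Hd r i else 0) =
      (Fintype.card K : ℝ) * Fintype.card Q := by
  unfold nsq
  have e : ∀ i : Row K Q s,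
      (if Function.update i r g0 = Function.update j r g0 then eps Hd r i else 0) ^ 2 =
      if Function.update i r g0 = Function.update j r g0 then (fun _ => (1 : ℝ)) i else 0 := by
    intro i
    split_ifs
    · exact eps_sq Hd hH r i
    · norm_num
  rw [Finset.sum_congr rfl fun i _ => e i, line_sum, if_pos (Function.update_self _ _ _)]
  simp

theorem nsq_x [Nonempty Q] (g0 : K × Q) (j : Row K Q s) (r : Fin s) :
    nsq (fun c : Col K Q s => if c.1 = r ∧ c ∈ Bset g0 j then qk K Q else 0) =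
      1 / (Fintype.card Q : ℝ) := by
  unfold nsq
  have e : ∀ c : Col K Q s, (if c.1 = r ∧ c ∈ Bset g0 j then qk K Q else 0) ^ 2 =
      if Function.update j c.1 g0 = c.2.1 then
        (if c.1 = r then qk K Q ^ 2 * hit (j c.1) c.2.2 else 0) else 0 := by
    intro c
    by_cases h1 : Function.update j c.1 g0 = c.2.1
    · by_cases h2 : c.1 = r
      · by_cases h3 : c.2.2 (j c.1).1 = (j c.1).2
        · have h5 : c ∈ Bset g0 j := by simp [Bset, h1, h3]
          rw [if_pos ⟨h2, h5⟩, if_pos h1, if_pos h2]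
          unfold hit
          rw [if_pos h3, mul_one]
        · have h5 : c ∉ Bset g0 j := by simp [Bset, h3]
          rw [if_neg fun h => h5 h.2, if_pos h1, if_pos h2]
          unfold hit
          rw [if_neg h3, mul_zero]
          norm_num
      · rw [if_neg fun h => h2 h.1, if_pos h1, if_neg h2]
        norm_num
    · have h5 : c ∉ Bset g0 j := by simp [Bset, h1]
      rw [if_neg fun h => h5 h.2, if_neg h1]
      norm_num
  rw [Finset.sum_congr rfl fun c _ => e c,
    col_sum g0 j (fun r' b => if r' = r then qk K Q ^ 2 * hit (j r') b else 0)]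
  rw [Finset.sum_eq_single r]
  · simp only [if_true]
    rw [← Finset.mul_sum, hit_sum']
  · intro r' _ hr'
    simp [hr']
  · intro h
    exact absurd (Finset.mem_univ r) h

end LLower_

namespace Lev

open LLower_

variable {K Q : Type} [Fintype K] [DecidableEq K] [Fintype Q] [DecidableEq Q] {s : ℕ}

/-- lower bound: no matrix near `T0` almost commutes with all the systems -/
theorem lower [Nonempty Q] (Hd : K × Q → K × Q → ℝ) (hH : IsHad Hd) (g0 : K × Q)
    (hs : 1 ≤ s) (V : Matrix (Row K Q s) (Col K Q s) ℝ) (R : ℝ) (hR : 0 ≤ R)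
    (h1 : OpLe (V - T0 Hd g0) (Real.sqrt (s * Fintype.card Q) / 4))
    (h2 : ∀ j, OpLe (restr V (fun i => i ≠ j) (Bset g0 j)) R)
    (h3 : ∀ j, OpLe (restr V (fun i => i = j) (univ \ Bset g0 j)) R) :
    ((Fintype.card K : ℝ) - 1) * (3 / 4 - 1 / Fintype.card Q) ≤
      R * (Real.sqrt (Fintype.card K) + Fintype.card K / Real.sqrt s) := by
  have hκ : (0 : ℝ) < Fintype.card Q := by exact_mod_cast Fintype.card_pos
  have : Nonempty K := ⟨g0.1⟩
  have hk1 : (1 : ℝ) ≤ Fintype.card K := by
    exact_mod_cast Nat.succ_le_of_lt (Fintype.card_pos (α := K))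
  have hs' : (1 : ℝ) ≤ s := by exact_mod_cast hs
  have hm : (0 : ℝ) < Fintype.card (Row K Q s) := by
    have : Nonempty (Row K Q s) := ⟨fun _ => g0⟩
    exact_mod_cast Fintype.card_pos
  set m : ℝ := (Fintype.card (Row K Q s) : ℝ) with hmdef
  -- the sum with `RG`
  have a1 : m * (s * (3 / 4 - 1 / (Fintype.card Q : ℝ))) ≤ ∑ i, ∑ c, V i c * RG Hd g0 i c := by
    have := Finset.sum_le_sum fun (i : Row K Q s) (_ : i ∈ univ) => step1 Hd hH g0 V h1 i
    rwa [Finset.sum_const, Finset.card_univ, nsmul_eq_mul, ← hmdef] at this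
  -- the sum with `RD`
  have a2 : |∑ i, ∑ c, V i c * RD Hd g0 i c| ≤ m * (R * Real.sqrt s) := by
    refine (Finset.abs_sum_le_sum_abs _ _).trans ?_
    have := Finset.sum_le_sum fun (i : Row K Q s) (_ : i ∈ univ) =>
      step2 Hd hH g0 V R hR i (h3 i)
    rwa [Finset.sum_const, Finset.card_univ, nsmul_eq_mul, ← hmdef] at this
  -- the double counting
  have a3 : ∑ j : Row K Q s, ∑ r : Fin s,
      ip (fun i => if Function.update i r g0 = Function.update j r g0 then eps Hd r i else 0)
        ((restr V (fun i => i ≠ j) (Bset g0 j)).mulVec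
          fun c => if c.1 = r ∧ c ∈ Bset g0 j then qk K Q else 0) ≤
      m * (s * (R * Real.sqrt (Fintype.card K))) := by
    have b1 : ∀ (j : Row K Q s) (r : Fin s),
      ip (fun i => if Function.update i r g0 = Function.update j r g0 then eps Hd r i else 0)
        ((restr V (fun i => i ≠ j) (Bset g0 j)).mulVec
          fun c => if c.1 = r ∧ c ∈ Bset g0 j then qk K Q else 0) ≤
        R * Real.sqrt (Fintype.card K) := by
      intro j r
      refine (le_abs_self _).trans (((h2 j).ip_le _ _).trans (le_of_eq ?_))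
      unfold nrm
      rw [nsq_y Hd hH, nsq_x, mul_assoc, ← Real.sqrt_mul (by positivity)]
      congr 2
      field_simp
    calc _ ≤ ∑ j : Row K Q s, ∑ r : Fin s, R * Real.sqrt (Fintype.card K) :=
          Finset.sum_le_sum fun j _ => Finset.sum_le_sum fun r _ => b1 j r
      _ = m * (s * (R * Real.sqrt (Fintype.card K))) := by
          simp only [Finset.sum_const, Finset.card_univ, Fintype.card_fin, nsmul_eq_mul]
          rw [← hmdef]
  rw [double_count] at a3
  have a4 := (abs_le.1 a2).1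
  have a5 : ((Fintype.card K : ℝ) - 1) * (m * (s * (3 / 4 - 1 / (Fintype.card Q : ℝ)))) ≤
      ((Fintype.card K : ℝ) - 1) * ∑ i, ∑ c, V i c * RG Hd g0 i c :=
    mul_le_mul_of_nonneg_left a1 (by linarith)
  have a6 : -((Fintype.card K : ℝ) * (m * (R * Real.sqrt s))) ≤
      (Fintype.card K : ℝ) * ∑ i, ∑ c, V i c * RD Hd g0 i c := by
    have := mul_le_mul_of_nonneg_left a4 (by linarith : (0 : ℝ) ≤ Fintype.card K)
    linarith
  have a7 : ((Fintype.card K : ℝ) - 1) * (m * (s * (3 / 4 - 1 / (Fintype.card Q : ℝ)))) ≤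
      m * (s * (R * Real.sqrt (Fintype.card K))) +
        (Fintype.card K : ℝ) * (m * (R * Real.sqrt s)) := by linarith
  have hss : 0 < Real.sqrt s := Real.sqrt_pos.2 (by linarith)
  have hsq : Real.sqrt s * Real.sqrt s = s := Real.mul_self_sqrt (by linarith)
  have a8 : m * s * (((Fintype.card K : ℝ) - 1) * (3 / 4 - 1 / (Fintype.card Q : ℝ))) ≤
      m * s * (R * (Real.sqrt (Fintype.card K) + Fintype.card K / Real.sqrt s)) := by
    have e1 : m * s * (R * (Real.sqrt (Fintype.card K) + Fintype.card K / Real.sqrt s)) =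
        m * (s * (R * Real.sqrt (Fintype.card K))) +
        (Fintype.card K : ℝ) * (m * (R * Real.sqrt s)) := by
      have e2 : (s : ℝ) / Real.sqrt s = Real.sqrt s := by
        rw [div_eq_iff hss.ne', hsq]
      have e3 : m * s * (R * (Real.sqrt (Fintype.card K) + Fintype.card K / Real.sqrt s)) =
          m * (s * (R * Real.sqrt (Fintype.card K))) +
          (Fintype.card K : ℝ) * (m * (R * (s / Real.sqrt s))) := by ring
      rw [e3, e2]
    rw [e1]
    linarith
  exact le_of_mul_le_mul_left a8 (by positivity)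

end Lev

end KPC
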