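import Pool.Agent.KPC.LevelDefs

/-!
# KPC-L4: row sums of `R_G`, `R_D`
-/

open Finset BigOperators

namespace KPC

namespace LRow_

open Lev

variable {K Q : Type} [Fintype K] [DecidableEq K] [Fintype Q] [DecidableEq Q] {s : ℕ}

theorem eps_sq (Hd : K × Q → K × Q → ℝ) (hH : IsHad Hd) (r : Fin s) (i : Row K Q s) :
    eps Hd r i ^ 2 = 1 := by
  unfold eps
  rw [← Finset.prod_pow]
  apply Finset.prod_eq_one
  intro r' _
  rcases hH.1 (i r) (i r') with h | h <;> rw [h] <;> norm_num

theorem qk_sq : qk K Q ^ 2 = ((Fintype.card Q : ℝ) ^ Fintype.card K)⁻¹ := by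
  unfold qk
  rw [inv_pow, Real.sq_sqrt (by positivity)]

theorem hit_mul (g : K × Q) (b : K → Q) : hit g b * hit g b = hit g b := by
  unfold hit; split_ifs <;> norm_num

theorem hit_sum (g : K × Q) :
    (∑ b : K → Q, hit g b) * Fintype.card Q = (Fintype.card Q : ℝ) ^ Fintype.card K := by
  have h1 : ∀ b : K → Q, hit g b =
      ∏ x : K, (if x = g.1 then (if b x = g.2 then (1 : ℝ) else 0) else 1) := by
    intro b
    unfold hit
    rw [Finset.prod_ite_eq']
    simp
  have h2 : ∑ b : K → Q, hit g b =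
      ∏ x : K, ∑ q : Q, (if x = g.1 then (if q = g.2 then (1 : ℝ) else 0) else 1) := by
    rw [Finset.prod_univ_sum]
    simp only [Fintype.piFinset_univ]
    exact Finset.sum_congr rfl fun b _ => h1 b
  have h3 : ∀ x : K, (∑ q : Q, (if x = g.1 then (if q = g.2 then (1 : ℝ) else 0) else 1)) =
      if x = g.1 then 1 else (Fintype.card Q : ℝ) := by
    intro x
    split_ifs with h
    · simp
    · simp
  have h4 : (Fintype.card Q : ℝ) = ∏ x : K, (if x = g.1 then (Fintype.card Q : ℝ) else 1) := by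
    rw [Finset.prod_ite_eq']
    simp
  rw [h2, Finset.prod_congr rfl fun x _ => h3 x]
  conv_lhs => rw [h4]
  rw [← Finset.prod_mul_distrib]
  have h5 : ∀ x : K, ((if x = g.1 then (1 : ℝ) else
      (∏ x : K, (if x = g.1 then (Fintype.card Q : ℝ) else 1))) *
      (if x = g.1 then (Fintype.card Q : ℝ) else 1)) = Fintype.card Q := by
    intro x
    rw [← h4]
    split_ifs <;> ring
  rw [Finset.prod_congr rfl fun x _ => h5 x]
  simp

theorem card_ne [Nonempty Q] : (Fintype.card Q : ℝ) ≠ 0 := by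
  exact_mod_cast Fintype.card_ne_zero

theorem hit_sum' [Nonempty Q] (g : K × Q) :
    qk K Q ^ 2 * ∑ b : K → Q, hit g b = 1 / Fintype.card Q := by
  have h := hit_sum g
  have hc : (Fintype.card Q : ℝ) ≠ 0 := card_ne
  rw [qk_sq, ← h, mul_inv]
  have h0 : (∑ b : K → Q, hit g b) ≠ 0 := by
    intro h0
    rw [h0, zero_mul] at h
    exact pow_ne_zero _ hc h.symm
  field_simp

theorem one_sum' [Nonempty Q] : qk K Q ^ 2 * ∑ _b : K → Q, (1 : ℝ) = 1 := by
  have hc : (Fintype.card Q : ℝ) ≠ 0 := card_ne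
  rw [qk_sq]
  simp only [Finset.sum_const, Finset.card_univ, Fintype.card_fun, nsmul_eq_mul, mul_one]
  push_cast
  exact inv_mul_cancel₀ (pow_ne_zero _ hc)

/-- general sum over the columns -/
theorem col_sum (g0 : K × Q) (i : Row K Q s) (F : Fin s → (K → Q) → ℝ) :
    ∑ c : Col K Q s, (if Function.update i c.1 g0 = c.2.1 then F c.1 c.2.2 else 0) =
      ∑ r : Fin s, ∑ b : K → Q, F r b := by
  rw [Fintype.sum_prod_type]
  refine Finset.sum_congr rfl fun r _ => ?_
  rw [Fintype.sum_prod_type]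
  dsimp only
  rw [Finset.sum_comm]
  refine Finset.sum_congr rfl fun b _ => ?_
  rw [Finset.sum_ite_eq]
  simp

end LRow_

namespace Lev

open LRow_

variable {K Q : Type} [Fintype K] [DecidableEq K] [Fintype Q] [DecidableEq Q] {s : ℕ}

theorem row_sums [Nonempty Q] (Hd : K × Q → K × Q → ℝ) (hH : IsHad Hd) (g0 : K × Q)
    (i : Row K Q s) :
    (∑ c : Col K Q s, RG Hd g0 i c ^ 2 = s / Fintype.card Q) ∧
    (∑ c : Col K Q s, RD Hd g0 i c ^ 2 = s * (1 - 1 / Fintype.card Q)) ∧
    (∑ c : Col K Q s, RG Hd g0 i c * RD Hd g0 i c = 0) := by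
  have hsq : ∀ c : Col K Q s, (eps Hd c.1 i * qk K Q) ^ 2 = qk K Q ^ 2 := by
    intro c
    rw [mul_pow, eps_sq Hd hH, one_mul]
  refine ⟨?_, ?_, ?_⟩
  · have h1 : ∀ c : Col K Q s, RG Hd g0 i c ^ 2 =
        if Function.update i c.1 g0 = c.2.1 then qk K Q ^ 2 * hit (i c.1) c.2.2 else 0 := by
      intro c
      unfold RG
      split_ifs
      · rw [mul_pow, hsq, pow_two (hit _ _), hit_mul]
      · norm_num
    rw [Finset.sum_congr rfl fun c _ => h1 c,
      col_sum g0 i (fun r b => qk K Q ^ 2 * hit (i r) b)]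
    have h2 : ∀ r : Fin s, ∑ b : K → Q, qk K Q ^ 2 * hit (i r) b = 1 / Fintype.card Q := by
      intro r
      rw [← Finset.mul_sum, hit_sum']
    rw [Finset.sum_congr rfl fun r _ => h2 r]
    simp [div_eq_mul_inv]
  · have h1 : ∀ c : Col K Q s, RD Hd g0 i c ^ 2 =
        if Function.update i c.1 g0 = c.2.1 then
          (qk K Q ^ 2 * 1 - qk K Q ^ 2 * hit (i c.1) c.2.2) else 0 := by
      intro c
      unfold RD
      split_ifs
      · rw [mul_pow, hsq]
        have := hit_mul (i c.1) c.2.2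
        linear_combination (qk K Q ^ 2) * this
      · norm_num
    rw [Finset.sum_congr rfl fun c _ => h1 c,
      col_sum g0 i (fun r b => qk K Q ^ 2 * 1 - qk K Q ^ 2 * hit (i r) b)]
    have h2 : ∀ r : Fin s, ∑ b : K → Q, (qk K Q ^ 2 * 1 - qk K Q ^ 2 * hit (i r) b) =
        (1 : ℝ) - 1 / (Fintype.card Q : ℝ) := by
      intro r
      rw [Finset.sum_sub_distrib, ← Finset.mul_sum, ← Finset.mul_sum, hit_sum', one_sum']
    rw [Finset.sum_congr rfl fun r _ => h2 r, Finset.sum_const, Finset.card_univ,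
      Fintype.card_fin, nsmul_eq_mul]
  · apply Finset.sum_eq_zero
    intro c _
    unfold RG RD
    split_ifs
    · have := hit_mul (i c.1) c.2.2
      linear_combination (-(eps Hd c.1 i * qk K Q) ^ 2) * this
    · norm_num

/-- the rows `j` of the intertwining defect vanish -/
theorem row_j (Hd : K × Q → K × Q → ℝ) (g0 : K × Q) (j : Row K Q s) (c : Col K Q s) :
    (c ∈ Bset g0 j → T0 Hd g0 j c = U0 Hd g0 j c) ∧ (c ∉ Bset g0 j → U0 Hd g0 j c = 0) := by
  constructor
  · intro hc
    have hc' : Function.update j c.1 g0 = c.2.1 ∧ c.2.2 (j c.1).1 = (j c.1).2 := by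
      simpa [Bset] using hc
    have h : RD Hd g0 j c = 0 := by
      unfold RD hit
      rw [if_pos hc'.1, if_pos hc'.2]
      ring
    unfold T0 U0
    rw [Matrix.sub_apply, h, sub_zero]
  · intro hc
    have hc' : ¬ (Function.update j c.1 g0 = c.2.1 ∧ c.2.2 (j c.1).1 = (j c.1).2) := by
      simpa [Bset] using hc
    have h : RG Hd g0 j c = 0 := by
      unfold RG hit
      by_cases h1 : Function.update j c.1 g0 = c.2.1
      · have h2 : ¬ c.2.2 (j c.1).1 = (j c.1).2 := fun h => hc' ⟨h1, h⟩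
        rw [if_pos h1, if_neg h2, mul_zero]
      · rw [if_neg h1]
    unfold U0
    rw [Matrix.smul_apply, h, smul_zero]

end Lev

end KPC
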