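import Pool.Agent.KPC.LevelDefs
import Pool.Agent.KPC.LLine

/-!
# Quasi-orthogonality of the twisted averages
-/

open Finset BigOperators

namespace KPC.Lev

variable {K Q : Type} [Fintype K] [DecidableEq K] [Fintype Q] [DecidableEq Q] {s : ℕ}

namespace LTwist_

/-- the twisted line sums -/
def SS (Hd : K × Q → K × Q → ℝ) (y : Row K Q s → ℝ) (r : Fin s) (i : Row K Q s) : ℝ :=
  ∑ γ, eps Hd r (Function.update i r γ) * y (Function.update i r γ)

theorem SS_upd (Hd : K × Q → K × Q → ℝ) (y : Row K Q s → ℝ) (r : Fin s) (i : Row K Q s)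
    (δ : K × Q) : SS Hd y r (Function.update i r δ) = SS Hd y r i := by
  unfold SS
  exact Finset.sum_congr rfl fun γ _ => by rw [Function.update_idem]

theorem eps_sq (Hd : K × Q → K × Q → ℝ) (hH : IsHad Hd) (r : Fin s) (i : Row K Q s) :
    eps Hd r i ^ 2 = 1 := by
  unfold eps
  rw [← Finset.prod_pow]
  refine Finset.prod_eq_one fun q _ => ?_
  rcases hH.1 (i r) (i q) with h | h <;> rw [h] <;> norm_num

/-- summing over one coordinate -/
theorem avg (q : Fin s) (f : Row K Q s → ℝ) :
    ∑ i, ∑ γ, f (Function.update i q γ) = (Fintype.card (K × Q) : ℝ) * ∑ i, f i := by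
  have hinv : Function.Involutive
      (fun p : Row K Q s × (K × Q) => (Function.update p.1 q p.2, p.1 q)) := by
    rintro ⟨i, γ⟩
    refine Prod.ext ?_ ?_
    · show Function.update (Function.update i q γ) q (i q) = i
      rw [Function.update_idem, Function.update_eq_self]
    · show Function.update i q γ q = γ
      rw [Function.update_self]
  have h1 : ∑ i, ∑ γ, f (Function.update i q γ) =
      ∑ p : Row K Q s × (K × Q), f (Function.update p.1 q p.2) :=
    (Fintype.sum_prod_type (fun p : Row K Q s × (K × Q) => f (Function.update p.1 q p.2))).symm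
  have h2 : ∑ p : Row K Q s × (K × Q), f (Function.update p.1 q p.2) =
      ∑ p : Row K Q s × (K × Q), f p.1 :=
    Fintype.sum_equiv hinv.toPerm _ _ fun p => rfl
  rw [h1, h2, Fintype.sum_prod_type]
  simp only [Finset.sum_const, Finset.card_univ, nsmul_eq_mul]
  rw [Finset.mul_sum]

/-- the columns of a Hadamard matrix are orthogonal -/
theorem col_orth (Hd : K × Q → K × Q → ℝ) (hH : IsHad Hd) (g0 : K × Q) (γ γ' : K × Q) :
    ∑ δ, Hd δ γ * Hd δ γ' = if γ = γ' then (Fintype.card (K × Q) : ℝ) else 0 := by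
  have hN : (Fintype.card (K × Q) : ℝ) ≠ 0 := by
    have : 0 < Fintype.card (K × Q) := Fintype.card_pos_iff.2 ⟨g0⟩
    positivity
  set M : Matrix (K × Q) (K × Q) ℝ := Matrix.of Hd with hM
  have h1 : ((Fintype.card (K × Q) : ℝ)⁻¹ • M) * M.transpose = 1 := by
    ext g g'
    rw [Matrix.smul_mul, Matrix.smul_apply, Matrix.mul_apply]
    have h2 : ∑ j, M g j * M.transpose j g' = ∑ j, Hd g j * Hd g' j := rfl
    rw [h2, hH.2 g g', Matrix.one_apply]
    by_cases h : g = g'
    · rw [if_pos h, if_pos h, smul_eq_mul, inv_mul_cancel₀ hN]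
    · rw [if_neg h, if_neg h, smul_zero]
  have h3 := mul_eq_one_comm.1 h1
  have h4 := congrFun (congrFun h3 γ) γ'
  rw [Matrix.mul_smul, Matrix.smul_apply, Matrix.mul_apply, Matrix.one_apply, smul_eq_mul] at h4
  have h5 : ∑ j, M.transpose γ j * M j γ' = ∑ δ, Hd δ γ * Hd δ γ' := rfl
  rw [h5] at h4
  have h6 : ∑ δ, Hd δ γ * Hd δ γ' =
      (Fintype.card (K × Q) : ℝ) * (if γ = γ' then 1 else 0) := by
    rw [← h4, mul_inv_cancel_left₀ hN]
  rw [h6]
  split_ifs <;> simp

theorem had_col (Hd : K × Q → K × Q → ℝ) (hH : IsHad Hd) (g0 : K × Q) (v : K × Q → ℝ) :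
    ∑ δ, (∑ γ, Hd δ γ * v γ) ^ 2 = (Fintype.card (K × Q) : ℝ) * ∑ γ, v γ ^ 2 := by
  have h1 : ∀ δ, (∑ γ, Hd δ γ * v γ) ^ 2 =
      ∑ γ, ∑ γ', v γ * v γ' * (Hd δ γ * Hd δ γ') := by
    intro δ
    rw [sq, Finset.sum_mul_sum]
    exact Finset.sum_congr rfl fun γ _ => Finset.sum_congr rfl fun γ' _ => by ring
  simp only [h1]
  rw [Finset.sum_comm, Finset.mul_sum]
  refine Finset.sum_congr rfl fun γ _ => ?_
  rw [Finset.sum_comm]
  have h2 : ∀ γ', ∑ δ, v γ * v γ' * (Hd δ γ * Hd δ γ') =
      if γ = γ' then (Fintype.card (K × Q) : ℝ) * (v γ * v γ') else 0 := by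
    intro γ'
    rw [← Finset.mul_sum, col_orth Hd hH g0]
    split_ifs
    · ring
    · ring
  simp only [h2]
  rw [Finset.sum_ite_eq, if_pos (Finset.mem_univ γ), sq]

/-- the core estimate -/
theorem core (Hd : K × Q → K × Q → ℝ) (hH : IsHad Hd) (g0 : K × Q) (q q' : Fin s)
    (hq : q ≠ q') (a b : Row K Q s → ℝ) (ha : ∀ i δ, a (Function.update i q' δ) = a i)
    (hb : ∀ i δ, b (Function.update i q δ) = b i) :
    (Fintype.card (K × Q) : ℝ) * (∑ i, Hd (i q) (i q') * a i * b i) ^ 2 ≤
      (∑ i, a i ^ 2) * ∑ i, b i ^ 2 := by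
  have hN : (0 : ℝ) < (Fintype.card (K × Q) : ℝ) := by
    have : 0 < Fintype.card (K × Q) := Fintype.card_pos_iff.2 ⟨g0⟩
    positivity
  set N : ℝ := (Fintype.card (K × Q) : ℝ) with hNdef
  set c : Row K Q s → ℝ := fun i => ∑ γ, Hd (i q) γ * b (Function.update i q' γ) with hc
  have h1 : N * ∑ i, Hd (i q) (i q') * a i * b i = ∑ i, a i * c i := by
    rw [hNdef, ← avg q' (fun i => Hd (i q) (i q') * a i * b i)]
    refine Finset.sum_congr rfl fun i _ => ?_
    rw [hc, Finset.mul_sum]
    refine Finset.sum_congr rfl fun γ _ => ?_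
    show Hd (Function.update i q' γ q) (Function.update i q' γ q') *
      a (Function.update i q' γ) * b (Function.update i q' γ) = _
    rw [Function.update_of_ne hq, Function.update_self, ha]
    ring
  have h2 : (∑ i, a i * c i) ^ 2 ≤ (∑ i, a i ^ 2) * ∑ i, c i ^ 2 :=
    Finset.sum_mul_sq_le_sq_mul_sq _ _ _
  have h3 : N * ∑ i, c i ^ 2 = N * (N * ∑ i, b i ^ 2) := by
    rw [hNdef, ← avg q (fun i => c i ^ 2), ← avg q' (fun i => b i ^ 2), Finset.mul_sum]
    refine Finset.sum_congr rfl fun i _ => ?_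
    rw [← had_col Hd hH g0 (fun γ => b (Function.update i q' γ))]
    refine Finset.sum_congr rfl fun δ _ => ?_
    congr 1
    rw [hc]
    refine Finset.sum_congr rfl fun γ _ => ?_
    show Hd (Function.update i q δ q) γ * b (Function.update (Function.update i q δ) q' γ) = _
    rw [Function.update_self, Function.update_comm hq, hb]
  have h4 : ∑ i, c i ^ 2 = N * ∑ i, b i ^ 2 := mul_left_cancel₀ hN.ne' h3
  have h5 : N * (N * (∑ i, Hd (i q) (i q') * a i * b i) ^ 2) ≤
      N * ((∑ i, a i ^ 2) * ∑ i, b i ^ 2) := by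
    have h6 : N * (N * (∑ i, Hd (i q) (i q') * a i * b i) ^ 2) = (∑ i, a i * c i) ^ 2 := by
      rw [← h1]; ring
    rw [h6]
    refine h2.trans (le_of_eq ?_)
    rw [h4]
    ring
  exact le_of_mul_le_mul_left h5 hN

/-- the remaining factors of the twist -/
def EE (Hd : K × Q → K × Q → ℝ) (r r' : Fin s) (i : Row K Q s) : ℝ :=
  ∏ q ∈ (univ.filter (fun q => r < q)).erase r', Hd (i r) (i q)

theorem EE_sq (Hd : K × Q → K × Q → ℝ) (hH : IsHad Hd) (r r' : Fin s) (i : Row K Q s) :
    EE Hd r r' i ^ 2 = 1 := by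
  unfold EE
  rw [← Finset.prod_pow]
  refine Finset.prod_eq_one fun q _ => ?_
  rcases hH.1 (i r) (i q) with h | h <;> rw [h] <;> norm_num

theorem cross (Hd : K × Q → K × Q → ℝ) (hH : IsHad Hd) (g0 : K × Q) (y : Row K Q s → ℝ)
    (r r' : Fin s) (hr : r < r') :
    (Fintype.card (K × Q) : ℝ) *
      (∑ i, (eps Hd r i * SS Hd y r i) * (eps Hd r' i * SS Hd y r' i)) ^ 2 ≤
      (∑ i, SS Hd y r i ^ 2) * ∑ i, SS Hd y r' i ^ 2 := by
  have h := core Hd hH g0 r r' hr.ne (fun i => EE Hd r r' i * SS Hd y r' i)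
    (fun i => eps Hd r' i * SS Hd y r i) (by
      intro i δ
      show EE Hd r r' (Function.update i r' δ) * SS Hd y r' (Function.update i r' δ) = _
      rw [SS_upd]
      congr 1
      unfold EE
      refine Finset.prod_congr rfl fun q hq => ?_
      rw [Function.update_of_ne hr.ne, Function.update_of_ne (Finset.ne_of_mem_erase hq)]) (by
      intro i δ
      show eps Hd r' (Function.update i r δ) * SS Hd y r (Function.update i r δ) = _
      rw [SS_upd]
      congr 1
      unfold eps
      refine Finset.prod_congr rfl fun q hq => ?_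
      have hq' : r' < q := (Finset.mem_filter.1 hq).2
      rw [Function.update_of_ne hr.ne', Function.update_of_ne (hr.trans hq').ne'])
  have e1 : ∀ i, Hd (i r) (i r') * (EE Hd r r' i * SS Hd y r' i) * (eps Hd r' i * SS Hd y r i) =
      (eps Hd r i * SS Hd y r i) * (eps Hd r' i * SS Hd y r' i) := by
    intro i
    have h1 : Hd (i r) (i r') * EE Hd r r' i = eps Hd r i := by
      unfold EE eps
      exact Finset.mul_prod_erase _ (fun q => Hd (i r) (i q))
        (Finset.mem_filter.2 ⟨Finset.mem_univ _, hr⟩)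
    rw [← h1]
    ring
  have e2 : ∀ i, (EE Hd r r' i * SS Hd y r' i) ^ 2 = SS Hd y r' i ^ 2 := by
    intro i
    rw [mul_pow, EE_sq Hd hH, one_mul]
  have e3 : ∀ i, (eps Hd r' i * SS Hd y r i) ^ 2 = SS Hd y r i ^ 2 := by
    intro i
    rw [mul_pow, eps_sq Hd hH, one_mul]
  simp only [e1, e2, e3] at h
  rw [mul_comm (∑ i, SS Hd y r i ^ 2)]
  exact h

end LTwist_

open LTwist_ in
/-- quasi-orthogonality of the twisted averages in the `s` directions -/
theorem twisted_avg (Hd : K × Q → K × Q → ℝ) (hH : IsHad Hd) (g0 : K × Q) (y : Row K Q s → ℝ) :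
    ∑ r : Fin s, ∑ u : Row K Q s, (if u r = g0 then
      (∑ γ, eps Hd r (Function.update u r γ) * y (Function.update u r γ)) ^ 2 else 0) ≤
      ((Fintype.card (K × Q) : ℝ) + s * Real.sqrt (Fintype.card (K × Q))) * nsq y := by
  have hN : (0 : ℝ) < (Fintype.card (K × Q) : ℝ) := by
    have : 0 < Fintype.card (K × Q) := Fintype.card_pos_iff.2 ⟨g0⟩
    positivity
  set N : ℝ := (Fintype.card (K × Q) : ℝ) with hNdef
  set A : Fin s → ℝ := fun r => ∑ u : Row K Q s, (if u r = g0 then
      (∑ γ, eps Hd r (Function.update u r γ) * y (Function.update u r γ)) ^ 2 else 0) with hA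
  set z : Fin s → Row K Q s → ℝ := fun r i => eps Hd r i * SS Hd y r i with hz
  have hA0 : ∀ r, 0 ≤ A r := fun r => Finset.sum_nonneg fun u _ => by
    split_ifs
    · exact sq_nonneg _
    · exact le_refl 0
  have hS : ∀ r, ∑ i, SS Hd y r i ^ 2 = N * A r := by
    intro r
    rw [← line_total g0 r (fun i => SS Hd y r i ^ 2), hA, Finset.mul_sum]
    refine Finset.sum_congr rfl fun u _ => ?_
    by_cases h : u r = g0
    · rw [if_pos h, if_pos h]
      have h1 : ∀ γ, SS Hd y r (Function.update u r γ) ^ 2 = SS Hd y r u ^ 2 := fun γ => by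
        rw [SS_upd]
      simp only [h1]
      rw [Finset.sum_const, Finset.card_univ, nsmul_eq_mul]
      rfl
    · rw [if_neg h, if_neg h, mul_zero]
  have hip : ∀ r, ip y (z r) = A r := by
    intro r
    unfold ip
    rw [← line_total g0 r (fun i => y i * z r i), hA]
    refine Finset.sum_congr rfl fun u _ => ?_
    by_cases h : u r = g0
    · rw [if_pos h, if_pos h]
      have h1 : ∀ γ, y (Function.update u r γ) * z r (Function.update u r γ) =
          (eps Hd r (Function.update u r γ) * y (Function.update u r γ)) * SS Hd y r u := by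
        intro γ
        show y (Function.update u r γ) *
          (eps Hd r (Function.update u r γ) * SS Hd y r (Function.update u r γ)) = _
        rw [SS_upd]
        ring
      simp only [h1]
      rw [← Finset.sum_mul, sq]
      rfl
    · rw [if_neg h, if_neg h]
  have hlt : ∀ r r', r < r' → |ip (z r) (z r')| ≤ Real.sqrt N * (A r + A r') / 2 := by
    intro r r' hr
    have h1 := cross Hd hH g0 y r r' hr
    rw [hS, hS] at h1
    have h2 : ∑ i, (eps Hd r i * SS Hd y r i) * (eps Hd r' i * SS Hd y r' i) =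
        ip (z r) (z r') := rfl
    rw [h2] at h1
    have h3 : (ip (z r) (z r')) ^ 2 ≤ N * (A r * A r') := by
      have h4 : N * (ip (z r) (z r')) ^ 2 ≤ N * (N * (A r * A r')) := by
        refine h1.trans (le_of_eq ?_)
        ring
      exact le_of_mul_le_mul_left h4 hN
    refine abs_le_of_sq_le_sq (h3.trans ?_) ?_
    · have h5 : Real.sqrt N ^ 2 = N := Real.sq_sqrt hN.le
      have h6 : (Real.sqrt N * (A r + A r') / 2) ^ 2 = N * ((A r + A r') ^ 2 / 4) := by
        rw [div_pow, mul_pow, h5]; ring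
      rw [h6]
      refine mul_le_mul_of_nonneg_left ?_ hN.le
      nlinarith [sq_nonneg (A r - A r')]
    · have := Real.sqrt_nonneg N
      have := hA0 r
      have := hA0 r'
      positivity
  have hall : ∀ r r', ip (z r) (z r') ≤
      (if r = r' then N * A r else 0) + Real.sqrt N * (A r + A r') / 2 := by
    intro r r'
    have hpos : 0 ≤ Real.sqrt N * (A r + A r') / 2 := by
      have := Real.sqrt_nonneg N
      have := hA0 r
      have := hA0 r'
      positivity
    rcases lt_trichotomy r r' with h | h | h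
    · rw [if_neg h.ne, zero_add]
      exact (le_abs_self _).trans (hlt r r' h)
    · subst h
      rw [if_pos rfl]
      have h1 : ip (z r) (z r) = N * A r := by
        rw [← hS r]
        unfold ip
        refine Finset.sum_congr rfl fun i _ => ?_
        show (eps Hd r i * SS Hd y r i) * (eps Hd r i * SS Hd y r i) = _
        rw [← sq, mul_pow, eps_sq Hd hH, one_mul]
      rw [h1]
      linarith
    · rw [if_neg h.ne', zero_add, ip_comm]
      have h1 := (le_abs_self _).trans (hlt r' r h)
      rw [add_comm (A r')] at h1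
      exact h1
  have hT : nsq (∑ r, z r) ≤ (N + s * Real.sqrt N) * ∑ r, A r := by
    rw [nsq_eq_ip, ip_sum_left]
    have h1 : ∀ r, ip (z r) (∑ r', z r') ≤
        N * A r + Real.sqrt N * (s * A r + ∑ r', A r') / 2 := by
      intro r
      rw [ip_sum_right]
      refine (Finset.sum_le_sum fun r' _ => hall r r').trans (le_of_eq ?_)
      rw [Finset.sum_add_distrib, Finset.sum_ite_eq, if_pos (Finset.mem_univ r)]
      congr 1
      rw [← Finset.sum_div, ← Finset.mul_sum, Finset.sum_add_distrib, Finset.sum_const,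
        Finset.card_univ, Fintype.card_fin, nsmul_eq_mul]
    refine (Finset.sum_le_sum fun r _ => h1 r).trans (le_of_eq ?_)
    rw [Finset.sum_add_distrib, ← Finset.mul_sum, ← Finset.sum_div, ← Finset.mul_sum,
      Finset.sum_add_distrib, ← Finset.mul_sum, Finset.sum_const, Finset.card_univ,
      Fintype.card_fin, nsmul_eq_mul]
    ring
  have hy : ip y (∑ r, z r) = ∑ r, A r := by
    rw [ip_sum_right]
    exact Finset.sum_congr rfl fun r _ => hip r
  have hcs : (∑ r, A r) ^ 2 ≤ nsq y * nsq (∑ r, z r) := by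
    rw [← hy]
    unfold ip nsq
    exact Finset.sum_mul_sq_le_sq_mul_sq _ _ _
  have hc0 : 0 ≤ N + s * Real.sqrt N := by
    have := Real.sqrt_nonneg N
    positivity
  have hS0 : 0 ≤ ∑ r, A r := Finset.sum_nonneg fun r _ => hA0 r
  rcases hS0.eq_or_lt with h0 | h0
  · have h1 : (∑ r, A r) = 0 := h0.symm
    show ∑ r, A r ≤ _
    rw [h1]
    exact mul_nonneg hc0 (nsq_nonneg y)
  · have h1 : (∑ r, A r) * (∑ r, A r) ≤ ((N + s * Real.sqrt N) * nsq y) * ∑ r, A r := by
      rw [← sq]
      refine hcs.trans ?_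
      refine (mul_le_mul_of_nonneg_left hT (nsq_nonneg y)).trans (le_of_eq ?_)
      ring
    exact le_of_mul_le_mul_right h1 h0

end KPC.Lev
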