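import Pool.Agent.KPC.LLine
import Pool.Agent.KPC.LBsum
import Pool.Agent.KPC.LTwist
import Pool.Agent.KPC.LRow

/-!
# KPC-L8: the norm of the bad part
-/

open Finset BigOperators

namespace KPC

namespace LRD_

open Lev

variable {K Q : Type} [Fintype K] [DecidableEq K] [Fintype Q] [DecidableEq Q] {s : ℕ}

/-- the sum of `w` over the graph of `b` -/
theorem sum_hit (w : K × Q → ℝ) (b : K → Q) :
    ∑ γ, w γ * hit γ b = ∑ a, w (a, b a) := by
  rw [Fintype.sum_prod_type]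
  refine Finset.sum_congr rfl fun a _ => ?_
  unfold hit
  simp

/-- the sum over `b` for one line -/
theorem one_line [Nonempty Q] (w : K × Q → ℝ) :
    ∑ b : K → Q, (qk K Q * ∑ γ, w γ * (1 - hit γ b)) ^ 2 ≤
      (∑ γ, w γ) ^ 2 + (1 / (Fintype.card Q : ℝ)) * ∑ γ, w γ ^ 2 := by
  have hκ : (Fintype.card Q : ℝ) ≠ 0 := LRow_.card_ne
  have hκ0 : (0 : ℝ) < Fintype.card Q := by
    have : 0 < Fintype.card Q := Fintype.card_pos
    exact_mod_cast this
  have hκ1 : (1 : ℝ) ≤ Fintype.card Q := by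
    have : 0 < Fintype.card Q := Fintype.card_pos
    exact_mod_cast this
  set κ : ℝ := (Fintype.card Q : ℝ) with hκdef
  set W : ℝ := ∑ γ, w γ with hW
  set m : K → ℝ := fun a => κ⁻¹ * ∑ c, w (a, c) with hm
  set X : K → Q → ℝ := fun a c => m a - w (a, c) with hX
  have hXs : ∀ a, ∑ c, X a c = 0 := by
    intro a
    show ∑ c, (m a - w (a, c)) = 0
    rw [Finset.sum_sub_distrib, Finset.sum_const, Finset.card_univ, nsmul_eq_mul]
    show κ * (κ⁻¹ * ∑ c, w (a, c)) - ∑ c, w (a, c) = 0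
    rw [← mul_assoc, mul_inv_cancel₀ hκ, one_mul, sub_self]
  have hWm : ∑ a, m a = κ⁻¹ * W := by
    show ∑ a, κ⁻¹ * ∑ c, w (a, c) = _
    rw [← Finset.mul_sum, hW, Fintype.sum_prod_type]
  have h1 : ∀ b : K → Q, ∑ γ, w γ * (1 - hit γ b) = (1 - κ⁻¹) * W + ∑ a, X a (b a) := by
    intro b
    have h2 : ∑ γ, w γ * (1 - hit γ b) = W - ∑ γ, w γ * hit γ b := by
      rw [hW, ← Finset.sum_sub_distrib]
      exact Finset.sum_congr rfl fun γ _ => by ring
    rw [h2, sum_hit]
    show W - ∑ a, w (a, b a) = (1 - κ⁻¹) * W + ∑ a, (m a - w (a, b a))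
    rw [Finset.sum_sub_distrib, hWm]
    ring
  have h3 : ∑ b : K → Q, (qk K Q * ∑ γ, w γ * (1 - hit γ b)) ^ 2 =
      qk K Q ^ 2 * ∑ b : K → Q, ((1 - κ⁻¹) * W + ∑ a, X a (b a)) ^ 2 := by
    rw [Finset.mul_sum]
    refine Finset.sum_congr rfl fun b _ => ?_
    rw [mul_pow, h1 b]
  have h4 := b_sum ((1 - κ⁻¹) * W) X hXs
  have h5 : qk K Q ^ 2 * ∑ b : K → Q, ((1 - κ⁻¹) * W + ∑ a, X a (b a)) ^ 2 =
      ((1 - κ⁻¹) * W) ^ 2 + κ⁻¹ * ∑ a, ∑ c, X a c ^ 2 := by
    rw [LRow_.qk_sq]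
    have h6 : (κ ^ Fintype.card K : ℝ) ≠ 0 := pow_ne_zero _ hκ
    have h7 : ∑ b : K → Q, ((1 - κ⁻¹) * W + ∑ a, X a (b a)) ^ 2 =
        κ⁻¹ * (κ ^ Fintype.card K * (κ * ((1 - κ⁻¹) * W) ^ 2 + ∑ a, ∑ c, X a c ^ 2)) := by
      rw [← h4, ← mul_assoc, inv_mul_cancel₀ hκ, one_mul]
    rw [h7, ← hκdef]
    field_simp
  rw [h3, h5]
  have h8 : ∑ a, ∑ c, X a c ^ 2 ≤ ∑ γ, w γ ^ 2 := by
    rw [Fintype.sum_prod_type]
    refine Finset.sum_le_sum fun a _ => ?_
    have h9 : ∑ c, X a c ^ 2 = ∑ c, w (a, c) ^ 2 - κ * m a ^ 2 := by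
      have h10 : ∀ c, X a c ^ 2 = m a ^ 2 - 2 * m a * w (a, c) + w (a, c) ^ 2 := by
        intro c
        show (m a - w (a, c)) ^ 2 = _
        ring
      rw [Finset.sum_congr rfl fun c _ => h10 c, Finset.sum_add_distrib, Finset.sum_sub_distrib,
        Finset.sum_const, Finset.card_univ, nsmul_eq_mul, ← Finset.mul_sum]
      have h11 : ∑ c, w (a, c) = κ * m a := by
        show _ = κ * (κ⁻¹ * ∑ c, w (a, c))
        rw [← mul_assoc, mul_inv_cancel₀ hκ, one_mul]
      rw [h11]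
      ring
    rw [h9]
    have h12 : 0 ≤ κ * m a ^ 2 := mul_nonneg hκ0.le (sq_nonneg _)
    linarith
  have h13 : ((1 - κ⁻¹) * W) ^ 2 ≤ W ^ 2 := by
    rw [mul_pow]
    have h14 : 0 ≤ κ⁻¹ := inv_nonneg.2 hκ0.le
    have h15 : κ⁻¹ ≤ 1 := inv_le_one_of_one_le₀ hκ1
    have h16 : (1 - κ⁻¹) ^ 2 ≤ 1 := by nlinarith
    nlinarith [sq_nonneg W]
  have h17 : κ⁻¹ * ∑ a, ∑ c, X a c ^ 2 ≤ (1 / κ) * ∑ γ, w γ ^ 2 := by
    rw [one_div]
    exact mul_le_mul_of_nonneg_left h8 (inv_nonneg.2 hκ0.le)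
  linarith

end LRD_

namespace Lev

variable {K Q : Type} [Fintype K] [DecidableEq K] [Fintype Q] [DecidableEq Q] {s : ℕ}

theorem RD_le [Nonempty Q] (Hd : K × Q → K × Q → ℝ) (hH : IsHad Hd) (g0 : K × Q) :
    OpLe (RD Hd g0 : Matrix (Row K Q s) (Col K Q s) ℝ)
      (Real.sqrt (Fintype.card (K × Q) + s * Real.sqrt (Fintype.card (K × Q)) +
        s / Fintype.card Q)) := by
  refine OpLe.of_transpose (Real.sqrt_nonneg _) fun y => ?_
  have hC : (0 : ℝ) ≤ Fintype.card (K × Q) + s * Real.sqrt (Fintype.card (K × Q)) +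
      s / Fintype.card Q := by
    have := Real.sqrt_nonneg (Fintype.card (K × Q) : ℝ)
    positivity
  refine nrm_le_of_nsq_le (mul_nonneg (Real.sqrt_nonneg _) (nrm_nonneg y)) ?_
  rw [mul_pow, Real.sq_sqrt hC, nrm_sq]
  -- the entries of the transpose applied to `y`
  have h1 : ∀ c : Col K Q s, ((RD Hd g0).transpose.mulVec y) c =
      if c.2.1 c.1 = g0 then qk K Q * ∑ γ, (eps Hd c.1 (Function.update c.2.1 c.1 γ) *
        y (Function.update c.2.1 c.1 γ)) * (1 - hit γ c.2.2) else 0 := by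
    intro c
    have h2 : ((RD Hd g0).transpose.mulVec y) c = ∑ i : Row K Q s,
        (if Function.update i c.1 g0 = c.2.1 then
          eps Hd c.1 i * qk K Q * (1 - hit (i c.1) c.2.2) * y i else 0) := by
      show ∑ i, RD Hd g0 i c * y i = _
      refine Finset.sum_congr rfl fun i _ => ?_
      unfold RD
      split_ifs
      · rfl
      · rw [zero_mul]
    rw [h2, line_sum g0 c.1 c.2.1
      (fun i => eps Hd c.1 i * qk K Q * (1 - hit (i c.1) c.2.2) * y i)]
    split_ifs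
    · rw [Finset.mul_sum]
      refine Finset.sum_congr rfl fun γ _ => ?_
      rw [Function.update_self]
      ring
    · rfl
  have h3 : nsq ((RD Hd g0).transpose.mulVec y) = ∑ r : Fin s, ∑ u : Row K Q s,
      (if u r = g0 then ∑ b : K → Q, (qk K Q * ∑ γ, (eps Hd r (Function.update u r γ) *
        y (Function.update u r γ)) * (1 - hit γ b)) ^ 2 else 0) := by
    unfold nsq
    rw [Fintype.sum_prod_type]
    refine Finset.sum_congr rfl fun r _ => ?_
    rw [Fintype.sum_prod_type]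
    refine Finset.sum_congr rfl fun u _ => ?_
    split_ifs with hu
    · refine Finset.sum_congr rfl fun b _ => ?_
      rw [h1 (r, u, b)]
      show (if u r = g0 then _ else (0 : ℝ)) ^ 2 = _
      rw [if_pos hu]
    · refine Finset.sum_eq_zero fun b _ => ?_
      rw [h1 (r, u, b)]
      show (if u r = g0 then _ else (0 : ℝ)) ^ 2 = _
      rw [if_neg hu]
      norm_num
  have h4 : ∀ (r : Fin s) (u : Row K Q s),
      (if u r = g0 then ∑ b : K → Q, (qk K Q * ∑ γ, (eps Hd r (Function.update u r γ) *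
        y (Function.update u r γ)) * (1 - hit γ b)) ^ 2 else 0) ≤
      (if u r = g0 then (∑ γ, eps Hd r (Function.update u r γ) *
        y (Function.update u r γ)) ^ 2 else 0) +
      (1 / (Fintype.card Q : ℝ)) *
        (if u r = g0 then ∑ γ, y (Function.update u r γ) ^ 2 else 0) := by
    intro r u
    split_ifs
    · refine (LRD_.one_line _).trans (le_of_eq ?_)
      congr 2
      refine Finset.sum_congr rfl fun γ _ => ?_
      rw [mul_pow, LRow_.eps_sq Hd hH, one_mul]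
    · simp
  rw [h3]
  refine (Finset.sum_le_sum fun r _ => Finset.sum_le_sum fun u _ => h4 r u).trans ?_
  have h5 := twisted_avg Hd hH g0 y
  have h6 : ∀ r : Fin s, ∑ u : Row K Q s,
      (if u r = g0 then ∑ γ, y (Function.update u r γ) ^ 2 else 0) = nsq y := by
    intro r
    exact line_total g0 r (fun i => y i ^ 2)
  have h7 : ∑ r : Fin s, ∑ u : Row K Q s, ((if u r = g0 then (∑ γ,
        eps Hd r (Function.update u r γ) * y (Function.update u r γ)) ^ 2 else 0) +
      (1 / (Fintype.card Q : ℝ)) *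
        (if u r = g0 then ∑ γ, y (Function.update u r γ) ^ 2 else 0)) =
      (∑ r : Fin s, ∑ u : Row K Q s, (if u r = g0 then (∑ γ,
        eps Hd r (Function.update u r γ) * y (Function.update u r γ)) ^ 2 else 0)) +
      s * ((1 / (Fintype.card Q : ℝ)) * nsq y) := by
    have h8 : ∀ r : Fin s, ∑ u : Row K Q s, ((if u r = g0 then (∑ γ,
          eps Hd r (Function.update u r γ) * y (Function.update u r γ)) ^ 2 else 0) +
        (1 / (Fintype.card Q : ℝ)) *
          (if u r = g0 then ∑ γ, y (Function.update u r γ) ^ 2 else 0)) =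
        (∑ u : Row K Q s, (if u r = g0 then (∑ γ,
          eps Hd r (Function.update u r γ) * y (Function.update u r γ)) ^ 2 else 0)) +
          (1 / (Fintype.card Q : ℝ)) * nsq y := by
      intro r
      rw [Finset.sum_add_distrib, ← Finset.mul_sum, h6 r]
    rw [Finset.sum_congr rfl fun r _ => h8 r, Finset.sum_add_distrib, Finset.sum_const,
      Finset.card_univ, Fintype.card_fin, nsmul_eq_mul]
  rw [h7]
  have h9 : (Fintype.card (K × Q) + s * Real.sqrt (Fintype.card (K × Q)) +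
      s / Fintype.card Q : ℝ) * nsq y =
      ((Fintype.card (K × Q) : ℝ) + s * Real.sqrt (Fintype.card (K × Q))) * nsq y +
        s * ((1 / (Fintype.card Q : ℝ)) * nsq y) := by ring
  rw [h9]
  linarith

end Lev

end KPC
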