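import Pool.Agent.KPC.LT0
import Pool.Agent.KPC.LRD
import Pool.Agent.KPC.LCross
import Pool.Agent.KPC.LRow
import Pool.Agent.KPC.LLower
import Pool.Agent.KPC.LHad

/-!
# KPC-L11: the level model theorem
-/

open Finset BigOperators

namespace KPC

namespace LevelModel_

/-! ### block matrices -/

section Blocks

variable {A C : Type} [Fintype A] [Fintype C]

theorem nsq_elim (x : A → ℝ) (y : C → ℝ) : nsq (Sum.elim x y) = nsq x + nsq y := by
  unfold nsq
  rw [Fintype.sum_sum_type]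
  simp

theorem nsq_split (z : A ⊕ C → ℝ) :
    nsq z = nsq (fun i => z (Sum.inl i)) + nsq (fun i => z (Sum.inr i)) := by
  unfold nsq
  rw [Fintype.sum_sum_type]

theorem nrm_mono_nsq {ι κ : Type*} [Fintype ι] [Fintype κ] {x : ι → ℝ} {y : κ → ℝ}
    (h : nsq x ≤ nsq y) : nrm x ≤ nrm y := Real.sqrt_le_sqrt h

/-- strictly upper triangular block matrix -/
def up (M : Matrix A C ℝ) : Matrix (A ⊕ C) (A ⊕ C) ℝ := Matrix.fromBlocks 0 M 0 0

theorem up_mulVec (M : Matrix A C ℝ) (z : A ⊕ C → ℝ) :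
    (up M).mulVec z = Sum.elim (M.mulVec fun c => z (Sum.inr c)) 0 := by
  funext p
  rcases p with p | p
  · simp [up, Matrix.mulVec, dotProduct, Fintype.sum_sum_type]
  · simp [up, Matrix.mulVec, dotProduct, Fintype.sum_sum_type]

theorem opLe_up {M : Matrix A C ℝ} {r : ℝ} (hr : 0 ≤ r) (h : OpLe M r) : OpLe (up M) r := by
  intro z
  rw [up_mulVec]
  have h1 : nrm (Sum.elim (M.mulVec fun c => z (Sum.inr c)) (0 : C → ℝ))
      ≤ nrm (M.mulVec fun c => z (Sum.inr c)) := by
    apply nrm_mono_nsq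
    rw [nsq_elim, nsq_zero, add_zero]
  have h2 : nrm (fun c => z (Sum.inr c)) ≤ nrm z := by
    apply nrm_mono_nsq
    rw [nsq_split z]
    have := nsq_nonneg (fun i => z (Sum.inl i))
    linarith
  exact h1.trans ((h _).trans (mul_le_mul_of_nonneg_left h2 hr))

/-- the upper right block -/
def blk (W : Matrix (A ⊕ C) (A ⊕ C) ℝ) : Matrix A C ℝ := fun i c => W (Sum.inl i) (Sum.inr c)

theorem opLe_blk {W : Matrix (A ⊕ C) (A ⊕ C) ℝ} {r : ℝ} (h : OpLe W r) : OpLe (blk W) r := by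
  intro x
  have h1 := h (Sum.elim (0 : A → ℝ) x)
  have h2 : nrm (Sum.elim (0 : A → ℝ) x) = nrm x := by
    unfold nrm
    rw [nsq_elim, nsq_zero, zero_add]
  have h3 : nrm ((blk W).mulVec x) ≤ nrm (W.mulVec (Sum.elim (0 : A → ℝ) x)) := by
    apply nrm_mono_nsq
    rw [nsq_split (W.mulVec (Sum.elim (0 : A → ℝ) x))]
    have h4 : (fun i => W.mulVec (Sum.elim (0 : A → ℝ) x) (Sum.inl i)) = (blk W).mulVec x := by
      funext i
      simp [blk, Matrix.mulVec, dotProduct, Fintype.sum_sum_type]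
    rw [h4]
    have := nsq_nonneg (fun i => W.mulVec (Sum.elim (0 : A → ℝ) x) (Sum.inr i))
    linarith
  rw [h2] at h1
  exact h3.trans h1

end Blocks

section Core

variable {K Q : Type} [Fintype K] [DecidableEq K] [Fintype Q] [DecidableEq Q] {s : ℕ}

open Lev

theorem opLe_restr {M : Matrix (Row K Q s) (Col K Q s) ℝ} {r : ℝ} (hr : 0 ≤ r) (h : OpLe M r)
    (P : Row K Q s → Prop) [DecidablePred P] (B : Finset (Col K Q s)) :
    OpLe (restr M P B) r := by
  intro x
  have h1 : nrm ((restr M P B).mulVec x)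
      ≤ nrm (M.mulVec fun c => if c ∈ B then x c else 0) := by
    apply nrm_mono_nsq
    unfold nsq
    apply Finset.sum_le_sum
    intro i _
    by_cases hP : P i
    · have h2 : (restr M P B).mulVec x i = M.mulVec (fun c => if c ∈ B then x c else 0) i := by
        simp only [Matrix.mulVec, dotProduct, restr]
        apply Finset.sum_congr rfl
        intro c _
        by_cases hc : c ∈ B
        · simp [hP, hc]
        · simp [hc]
      rw [h2]
    · have h2 : (restr M P B).mulVec x i = 0 := by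
        simp only [Matrix.mulVec, dotProduct, restr]
        apply Finset.sum_eq_zero
        intro c _
        simp [hP]
      rw [h2, zero_pow two_ne_zero]
      exact sq_nonneg _
  have h2 : nrm (fun c => if c ∈ B then x c else 0) ≤ nrm x := by
    apply nrm_mono_nsq
    unfold nsq
    apply Finset.sum_le_sum
    intro c _
    change (if c ∈ B then x c else 0) ^ 2 ≤ x c ^ 2
    split_ifs
    · exact le_rfl
    · rw [zero_pow two_ne_zero]
      exact sq_nonneg _
  exact h1.trans ((h _).trans (mul_le_mul_of_nonneg_left h2 hr))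

/-- the systems -/
def SS (g0 : K × Q) : Option (Row K Q s) → Finset (Row K Q s ⊕ Col K Q s)
  | none => ∅
  | some j => Finset.disjSum {j} (Bset g0 j)

theorem comm_entry (g0 : K × Q) (j : Row K Q s)
    (v v' : Matrix (Row K Q s ⊕ Col K Q s) (Row K Q s ⊕ Col K Q s) ℝ)
    (p q : Row K Q s ⊕ Col K Q s) :
    (v * dproj (SS g0 (some j)) - dproj (SS g0 (some j)) * v') p q =
      v p q * (if q ∈ SS g0 (some j) then 1 else 0) -
        (if p ∈ SS g0 (some j) then 1 else 0) * v' p q := by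
  unfold dproj
  rw [Matrix.sub_apply, Matrix.mul_diagonal, Matrix.diagonal_mul]

theorem inl_mem (g0 : K × Q) (j i : Row K Q s) :
    Sum.inl i ∈ SS g0 (some j) ↔ i = j := by
  simp [SS, Finset.inl_mem_disjSum]

theorem inr_mem (g0 : K × Q) (j : Row K Q s) (c : Col K Q s) :
    Sum.inr c ∈ SS g0 (some j) ↔ c ∈ Bset g0 j := by
  simp [SS, Finset.inr_mem_disjSum]

theorem core [Nonempty Q] (Hd : K × Q → K × Q → ℝ) (hH : IsHad Hd) (g0 : K × Q) (hs : 1 ≤ s)
    (e : ℕ) (he1 : 1 ≤ e) (he : (e : ℝ) = 2 * Real.sqrt (s * Fintype.card Q)) (R m : ℝ)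
    (hm0 : 0 < m) (hm : m ≤ 1 / 2)
    (hsmall : Real.sqrt (Fintype.card (K × Q) + s * Real.sqrt (Fintype.card (K × Q)) +
        s / Fintype.card Q) ≤ e / 2 * m)
    (hbig : max R 0 * (Real.sqrt (Fintype.card K) + Fintype.card K / Real.sqrt s) <
      ((Fintype.card K : ℝ) - 1) * (3 / 4 - 1 / Fintype.card Q)) :
    ∃ (t u : Matrix (Row K Q s ⊕ Col K Q s) (Row K Q s ⊕ Col K Q s) ℝ),
      OpLe t 1 ∧ OpLe u 1 ∧ OpLe (t - u) m ∧
      (∀ j, OpLe (t * dproj (SS g0 j) - dproj (SS g0 j) * u) (1 / e)) ∧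
      ∀ v : Matrix (Row K Q s ⊕ Col K Q s) (Row K Q s ⊕ Col K Q s) ℝ, OpLe (v - t) (1 / 8) →
        ∃ j, ¬ OpLe (v * dproj (SS g0 j) - dproj (SS g0 j) * v) (R / e) := by
  have he0 : (0 : ℝ) < e := by exact_mod_cast he1
  have hT : OpLe (T0 Hd g0 : Matrix (Row K Q s) (Col K Q s) ℝ) (e / 2) := by
    have h1 := T0_le (s := s) Hd hH g0
    have h2 : (e : ℝ) / 2 = Real.sqrt (s * Fintype.card Q) := by rw [he]; ring
    rw [h2]
    exact h1
  have hRD : OpLe (RD Hd g0 : Matrix (Row K Q s) (Col K Q s) ℝ) (e / 2 * m) :=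
    (RD_le (s := s) Hd hH g0).mono hsmall
  have hTU : (T0 Hd g0 : Matrix (Row K Q s) (Col K Q s) ℝ) - U0 Hd g0 = - RD Hd g0 := by
    unfold T0 U0
    abel
  have hU : OpLe (U0 Hd g0 : Matrix (Row K Q s) (Col K Q s) ℝ) e := by
    have h1 : (U0 Hd g0 : Matrix (Row K Q s) (Col K Q s) ℝ) = T0 Hd g0 + RD Hd g0 := by
      unfold T0 U0
      abel
    rw [h1]
    refine (hT.add hRD).mono ?_
    nlinarith
  have hinv : |((1 : ℝ) / e)| = 1 / e := abs_of_pos (by positivity)
  refine ⟨((1 : ℝ) / e) • up (T0 Hd g0), ((1 : ℝ) / e) • up (U0 Hd g0), ?_, ?_, ?_, ?_, ?_⟩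
  · refine ((opLe_up (by positivity) hT).smul ((1 : ℝ) / e)).mono ?_
    rw [hinv]
    field_simp
    norm_num
  · refine ((opLe_up (by positivity) hU).smul ((1 : ℝ) / e)).mono ?_
    rw [hinv]
    field_simp
    exact le_rfl
  · have h1 : ((1 : ℝ) / e) • up (T0 Hd g0 : Matrix (Row K Q s) (Col K Q s) ℝ)
        - ((1 : ℝ) / e) • up (U0 Hd g0) = ((1 : ℝ) / e) • up (- RD Hd g0) := by
      rw [← hTU, ← smul_sub]
      congr 1
      unfold up
      ext p q
      rcases p with p | p <;> rcases q with q | q <;> simp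
    rw [h1]
    refine ((opLe_up (by positivity) hRD.neg).smul ((1 : ℝ) / e)).mono ?_
    rw [hinv]
    have h2 : 1 / (e : ℝ) * (e / 2 * m) = m / 2 := by field_simp
    rw [h2]
    linarith
  · rintro (_ | j)
    · have h1 : dproj (SS (s := s) g0 none) = 0 := by
        unfold dproj SS
        ext p q
        simp [Matrix.diagonal]
      rw [h1, mul_zero, zero_mul, sub_zero]
      intro x
      rw [Matrix.zero_mulVec, nrm_zero]
      have := nrm_nonneg x
      positivity
    · have h1 : ((1 : ℝ) / e) • up (T0 Hd g0) * dproj (SS g0 (some j)) -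
          dproj (SS g0 (some j)) * (((1 : ℝ) / e) • up (U0 Hd g0)) =
          ((1 : ℝ) / e) • up (restr (T0 Hd g0) (fun i => i ≠ j) (Bset g0 j)) := by
        ext p q
        rw [comm_entry]
        rcases p with i | p
        · rcases q with i' | c
          · simp [up]
          · simp only [Matrix.smul_apply, up, Matrix.fromBlocks_apply₁₂, smul_eq_mul, inl_mem,
              inr_mem, restr]
            obtain ⟨h2, h3⟩ := row_j Hd g0 j c
            by_cases hij : i = j
            · subst hij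
              by_cases hc : c ∈ Bset g0 i
              · simp [hc, h2 hc]
              · simp [hc, h3 hc]
            · by_cases hc : c ∈ Bset g0 j
              · simp [hij, hc]
              · simp [hij, hc]
        · rcases q with i' | c
          · simp [up]
          · simp [up]
      rw [h1]
      refine ((opLe_up (by positivity) (cross_le Hd hH g0 j)).smul ((1 : ℝ) / e)).mono ?_
      rw [hinv, mul_one]
  · intro v hv
    by_contra hc
    push Not at hc
    have hR : (0 : ℝ) ≤ max R 0 := le_max_right _ _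
    have hc' : ∀ j, OpLe (v * dproj (SS g0 j) - dproj (SS g0 j) * v) (max R 0 / e) := fun j =>
      (hc j).mono (div_le_div_of_nonneg_right (le_max_left _ _) he0.le)
    have habs : |(e : ℝ)| = e := abs_of_pos he0
    have h1 : OpLe ((e : ℝ) • blk v - T0 Hd g0) (Real.sqrt (s * Fintype.card Q) / 4) := by
      have h2 : (e : ℝ) • blk v - T0 Hd g0
          = (e : ℝ) • blk (v - ((1 : ℝ) / e) • up (T0 Hd g0)) := by
        ext i c
        simp only [Matrix.sub_apply, Matrix.smul_apply, blk, up, Matrix.fromBlocks_apply₁₂,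
          smul_eq_mul]
        field_simp
      rw [h2]
      refine ((opLe_blk hv).smul (e : ℝ)).mono ?_
      rw [habs, he]
      linarith
    have h2 : ∀ j : Row K Q s, OpLe (restr ((e : ℝ) • blk v) (fun i => i ≠ j) (Bset g0 j))
        (max R 0) := by
      intro j
      have h3 : restr ((e : ℝ) • blk v) (fun i => i ≠ j) (Bset g0 j)
          = restr ((e : ℝ) • blk (v * dproj (SS g0 (some j)) - dproj (SS g0 (some j)) * v))
            (fun i => i ≠ j) (Bset g0 j) := by
        ext i c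
        simp only [restr, Matrix.smul_apply, blk, smul_eq_mul]
        split_ifs with h
        · have h4 := comm_entry g0 j v v (Sum.inl i) (Sum.inr c)
          rw [if_pos ((inr_mem g0 j c).2 h.2),
            if_neg (fun h5 => h.1 ((inl_mem g0 j i).1 h5))] at h4
          rw [h4]
          ring
        · rfl
      rw [h3]
      apply opLe_restr hR
      refine ((opLe_blk (hc' (some j))).smul (e : ℝ)).mono ?_
      rw [habs]
      field_simp
      exact le_rfl
    have h3 : ∀ j : Row K Q s, OpLe (restr ((e : ℝ) • blk v) (fun i => i = j)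
        (univ \ Bset g0 j)) (max R 0) := by
      intro j
      have h3 : restr ((e : ℝ) • blk v) (fun i => i = j) (univ \ Bset g0 j)
          = restr (-((e : ℝ) • blk (v * dproj (SS g0 (some j)) - dproj (SS g0 (some j)) * v)))
            (fun i => i = j) (univ \ Bset g0 j) := by
        ext i c
        simp only [restr, Matrix.smul_apply, Matrix.neg_apply, blk, smul_eq_mul]
        split_ifs with h
        · have h4 := comm_entry g0 j v v (Sum.inl i) (Sum.inr c)
          rw [if_neg (fun h5 => (mem_sdiff.1 h.2).2 ((inr_mem g0 j c).1 h5)),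
            if_pos ((inl_mem g0 j i).2 h.1)] at h4
          rw [h4]
          ring
        · rfl
      rw [h3]
      apply opLe_restr hR
      refine (((opLe_blk (hc' (some j))).smul (e : ℝ)).neg).mono ?_
      rw [habs]
      field_simp
      exact le_rfl
    have h4 := lower Hd hH g0 hs ((e : ℝ) • blk v) (max R 0) hR h1 h2 h3
    linarith

theorem core' [Nonempty Q] (Hd : K × Q → K × Q → ℝ) (hH : IsHad Hd) (g0 : K × Q) (hs : 1 ≤ s)
    (e : ℕ) (he1 : 1 ≤ e) (he : (e : ℝ) = 2 * Real.sqrt (s * Fintype.card Q)) (R m : ℝ)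
    (hm0 : 0 < m) (hm : m ≤ 1 / 2)
    (hsmall : Real.sqrt (Fintype.card (K × Q) + s * Real.sqrt (Fintype.card (K × Q)) +
        s / Fintype.card Q) ≤ e / 2 * m)
    (hbig : max R 0 * (Real.sqrt (Fintype.card K) + Fintype.card K / Real.sqrt s) <
      ((Fintype.card K : ℝ) - 1) * (3 / 4 - 1 / Fintype.card Q)) :
    ∃ (Ω J : Type) (_ : Fintype Ω) (_ : DecidableEq Ω) (_ : Fintype J) (_ : DecidableEq J)
      (S : J → Finset Ω) (j0 : J) (t u : Matrix Ω Ω ℝ), S j0 = ∅ ∧
      OpLe t 1 ∧ OpLe u 1 ∧ OpLe (t - u) m ∧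
      (∀ j, OpLe (t * dproj (S j) - dproj (S j) * u) (1 / e)) ∧
      ∀ v : Matrix Ω Ω ℝ, OpLe (v - t) (1 / 8) →
        ∃ j, ¬ OpLe (v * dproj (S j) - dproj (S j) * v) (R / e) := by
  obtain ⟨t, u, ht, hu, htu, hj, hv⟩ := core Hd hH g0 hs e he1 he R m hm0 hm hsmall hbig
  exact ⟨_, _, inferInstance, inferInstance, inferInstance, inferInstance,
    SS g0, none, t, u, rfl, ht, hu, htu, hj, hv⟩

end Core

end LevelModel_

theorem level_model (R η : ℝ) (hη : 0 < η) :
    ∃ (Ω J : Type) (_ : Fintype Ω) (_ : DecidableEq Ω) (_ : Fintype J) (_ : DecidableEq J)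
      (S : J → Finset Ω) (j0 : J) (t u : Matrix Ω Ω ℝ) (e : ℕ), 1 ≤ e ∧ S j0 = ∅ ∧
      OpLe t 1 ∧ OpLe u 1 ∧ OpLe (t - u) η ∧
      (∀ j, OpLe (t * dproj (S j) - dproj (S j) * u) (1 / e)) ∧
      ∀ v : Matrix Ω Ω ℝ, OpLe (v - t) (1 / 8) →
        ∃ j, ¬ OpLe (v * dproj (S j) - dproj (S j) * v) (R / e) := by
  set R' := max R 0 with hR'
  have hR0 : (0 : ℝ) ≤ R' := le_max_right _ _
  obtain ⟨b, hb⟩ := pow_unbounded_of_one_lt (4 * R' + 2) (by norm_num : (1 : ℝ) < 2)
  set m := min η (1 / 2) with hm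
  have hm0 : 0 < m := lt_min hη (by norm_num)
  have hm1 : m ≤ 1 / 2 := min_le_right _ _
  obtain ⟨p, hp⟩ := pow_unbounded_of_one_lt ((2 * (4 : ℝ) ^ b + 1) / m ^ 2)
    (by norm_num : (1 : ℝ) < 2)
  rw [div_lt_iff₀ (by positivity)] at hp
  have hbpos : (1 : ℝ) ≤ 2 ^ b := one_le_pow₀ (by norm_num)
  have h4b : (4 : ℝ) ^ b = 2 ^ b * 2 ^ b := by rw [← mul_pow]; norm_num
  have h4p : (4 : ℝ) ^ p = 2 ^ p * 2 ^ p := by rw [← mul_pow]; norm_num
  have hppos : (1 : ℝ) ≤ 2 ^ p := one_le_pow₀ (by norm_num)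
  have hm2 : m ^ 2 ≤ 1 / 4 := by nlinarith
  have hkp : (4 : ℝ) ^ b ≤ 2 ^ p := by
    have h1 : (2 : ℝ) ^ p * m ^ 2 ≤ 2 ^ p * (1 / 4) := mul_le_mul_of_nonneg_left hm2 (by linarith)
    have h2 : (0 : ℝ) < 4 ^ b := by positivity
    linarith
  have hp1 : 1 ≤ p := by
    rcases Nat.eq_zero_or_pos p with h | h
    · subst h
      rw [pow_zero] at hp hkp
      have h2 : (0 : ℝ) < 4 ^ b := by positivity
      linarith
    · exact h
  have hcK : Fintype.card (Fin (2 * b) → ZMod 2) = 4 ^ b := by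
    simp [ZMod.card, pow_mul]
  have hcQ : Fintype.card (Fin (2 * p) → ZMod 2) = 4 ^ p := by
    simp [ZMod.card, pow_mul]
  have hcKQ : Fintype.card ((Fin (2 * b) → ZMod 2) × (Fin (2 * p) → ZMod 2)) = 4 ^ b * 4 ^ p := by
    rw [Fintype.card_prod, hcK, hcQ]
  obtain ⟨Hd, hH⟩ := Lev.hadamard_exists (2 * b) (2 * p)
  have hsq4p : Real.sqrt ((4 : ℝ) ^ p) = 2 ^ p := by
    rw [h4p]; exact Real.sqrt_mul_self (by positivity)
  have hsq4b : Real.sqrt ((4 : ℝ) ^ b) = 2 ^ b := by
    rw [h4b]; exact Real.sqrt_mul_self (by positivity)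
  have h4p1 : (4 : ℝ) ≤ 4 ^ p := by
    calc (4 : ℝ) = 4 ^ 1 := by norm_num
      _ ≤ 4 ^ p := pow_le_pow_right₀ (by norm_num) hp1
  obtain ⟨Ω, J, i1, i2, i3, i4, S, j0, t, u, h0, ht, hu, htu, hj, hv⟩ :=
    LevelModel_.core' (s := 4 ^ p) Hd hH 0
    (Nat.one_le_pow _ _ (by norm_num)) (2 * 4 ^ p) (by
      have : 1 ≤ 4 ^ p := Nat.one_le_pow _ _ (by norm_num)
      omega) (by
      rw [hcQ]
      push_cast
      rw [Real.sqrt_mul_self (by positivity)]) R m hm0 hm1 (by
      rw [hcQ, hcKQ]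
      push_cast
      have h1 : (2 * (4 : ℝ) ^ p) / 2 * m = 4 ^ p * m := by ring
      rw [h1]
      apply Real.sqrt_le_iff.2
      refine ⟨by positivity, ?_⟩
      rw [Real.sqrt_mul (by positivity), hsq4p, hsq4b, div_self (by positivity)]
      have h5 : (1 : ℝ) ≤ 4 ^ p := by linarith
      have h6 : (1 : ℝ) ≤ 4 ^ b := one_le_pow₀ (by norm_num)
      have h7 : (2 : ℝ) ^ b ≤ 4 ^ b := by rw [h4b]; nlinarith
      calc (4 : ℝ) ^ b * 4 ^ p + 4 ^ p * (2 ^ b * 2 ^ p) + 1
          ≤ 4 ^ p * (2 ^ p * (2 * 4 ^ b + 1)) := by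
            have h8 : (2 : ℝ) ^ b * 2 ^ p ≤ 4 ^ b * 2 ^ p :=
              mul_le_mul_of_nonneg_right h7 (by linarith)
            have h9 : (4 : ℝ) ^ b ≤ 4 ^ b * 2 ^ p := by nlinarith
            have h10 : (4 : ℝ) ^ b + 2 ^ b * 2 ^ p + 1 ≤ 2 ^ p * (2 * 4 ^ b + 1) := by nlinarith
            nlinarith
        _ ≤ 4 ^ p * (2 ^ p * (2 ^ p * m ^ 2)) := by
            apply mul_le_mul_of_nonneg_left _ (by positivity)
            apply mul_le_mul_of_nonneg_left hp.le (by positivity)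
        _ = (4 ^ p * m) ^ 2 := by rw [h4p]; ring) (by
      rw [hcK, hcQ]
      push_cast
      rw [hsq4p, hsq4b]
      have h1 : (4 : ℝ) ^ b / 2 ^ p ≤ 1 := by
        rw [div_le_one (by positivity)]
        exact hkp
      have h2 : (1 : ℝ) / 4 ^ p ≤ 1 / 4 := one_div_le_one_div_of_le (by norm_num) h4p1
      have h3 : R' * (2 ^ b + 4 ^ b / 2 ^ p) ≤ R' * (2 * 2 ^ b) := by
        apply mul_le_mul_of_nonneg_left _ hR0
        linarith
      have h4 : ((4 : ℝ) ^ b - 1) * (1 / 2) ≤ (4 ^ b - 1) * (3 / 4 - 1 / 4 ^ p) := by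
        apply mul_le_mul_of_nonneg_left (by linarith)
        rw [h4b]; nlinarith
      have h5 : R' * (2 * 2 ^ b) < ((4 : ℝ) ^ b - 1) * (1 / 2) := by
        rw [h4b]
        nlinarith
      linarith)
  exact ⟨Ω, J, i1, i2, i3, i4, S, j0, t, u, 2 * 4 ^ p, by
      have : 1 ≤ 4 ^ p := Nat.one_le_pow _ _ (by norm_num)
      omega, h0, ht, hu, htu.mono (min_le_left _ _), hj, hv⟩

end KPC
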