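import Pool.Agent.KPC.Basic

/-!
# KPC-F4: slices of a combination of `F` and the `F^i`
-/

open Finset BigOperators

namespace KPC

section Calc

variable {J X Y Ω : Type} [Fintype J] [DecidableEq J] [Fintype X] [Fintype Y] [DecidableEq Y]
  [Fintype Ω] [DecidableEq Ω] {e : ℕ} {δ : ℝ} (w : WeylSys J X Y e δ) (S : J → Finset Ω)

omit [Fintype Ω] [DecidableEq Ω] in
theorem coef_add (j : J) (τ : Y) (F G : Ω × Y → ℝ) :
    coef w j τ (F + G) = coef w j τ F + coef w j τ G := by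
  funext ω
  exact ip_add_right _ _ _

omit [Fintype Ω] [DecidableEq Ω] in
theorem coef_smul (j : J) (τ : Y) (c : ℝ) (F : Ω × Y → ℝ) :
    coef w j τ (c • F) = c • coef w j τ F := by
  funext ω
  exact ip_smul_right _ _ _

omit [Fintype Ω] [DecidableEq Ω] in
theorem coef_sum {α : Type*} (j : J) (τ : Y) (s : Finset α) (F : α → Ω × Y → ℝ) :
    coef w j τ (∑ k ∈ s, F k) = ∑ k ∈ s, coef w j τ (F k) := by
  classical
  induction s using Finset.induction_on with
  | empty =>
    funext ω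
    exact ip_zero_right _
  | insert a s ha ih => rw [Finset.sum_insert ha, Finset.sum_insert ha, coef_add, ih]

omit [Fintype Ω] in
theorem Pc_add (i : J × Y) (F G : Ω × Y → ℝ) :
    Pc w S i (F + G) = Pc w S i F + Pc w S i G := by
  funext ω
  unfold Pc
  rw [coef_add]
  show (if ω ∈ S i.1 then coef w i.1 i.2 F ω + coef w i.1 i.2 G ω else 0) =
    (if ω ∈ S i.1 then coef w i.1 i.2 F ω else 0) + (if ω ∈ S i.1 then coef w i.1 i.2 G ω else 0)
  split_ifs <;> simp

omit [Fintype Ω] in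
theorem Pc_smul (i : J × Y) (c : ℝ) (F : Ω × Y → ℝ) :
    Pc w S i (c • F) = c • Pc w S i F := by
  funext ω
  unfold Pc
  rw [coef_smul]
  show (if ω ∈ S i.1 then c * coef w i.1 i.2 F ω else 0) =
    c * (if ω ∈ S i.1 then coef w i.1 i.2 F ω else 0)
  split_ifs <;> simp

omit [Fintype Ω] in
theorem Pc_sum {α : Type*} (i : J × Y) (s : Finset α) (F : α → Ω × Y → ℝ) :
    Pc w S i (∑ k ∈ s, F k) = ∑ k ∈ s, Pc w S i (F k) := by
  classical
  induction s using Finset.induction_on with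
  | empty =>
    funext ω
    have h : coef w i.1 i.2 (0 : Ω × Y → ℝ) ω = 0 := ip_zero_right _
    show (if ω ∈ S i.1 then coef w i.1 i.2 (0 : Ω × Y → ℝ) ω else 0) = 0
    rw [h, ite_self]
  | insert a s ha ih => rw [Finset.sum_insert ha, Finset.sum_insert ha, Pc_add, ih]

theorem nsq_Pc_le (i : J × Y) (F : Ω × Y → ℝ) :
    nsq (Pc w S i F) ≤ nsq (coef w i.1 i.2 F) := by
  unfold nsq
  refine Finset.sum_le_sum fun ω _ => ?_
  show (if ω ∈ S i.1 then coef w i.1 i.2 F ω else 0) ^ 2 ≤ _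
  split_ifs
  · exact le_rfl
  · rw [zero_pow two_ne_zero]
    exact sq_nonneg _

theorem nsq_Fi (F : Ω × Y → ℝ) (i : J × Y) : nsq (Fi w S F i) = nsq (Pc w S i F) := by
  unfold Fi
  rw [nsq_ten, nsq_eq_ip (w.φ i.1 i.2), w.φ_on, if_pos rfl, mul_one]

omit [DecidableEq Ω] in
theorem ip_ten_right (F : Ω × Y → ℝ) (a : Ω → ℝ) (j : J) (τ : Y) :
    ip F (ten a (w.φ j τ)) = ip (coef w j τ F) a := by
  unfold ip coef ten ip
  rw [Fintype.sum_prod_type]
  refine Finset.sum_congr rfl fun ω _ => ?_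
  rw [Finset.sum_mul]
  exact Finset.sum_congr rfl fun y _ => by ring

omit [Fintype Ω] in
/-- the slices of `F^k` along the same basis -/
theorem Pc_Fi (F : Ω × Y → ℝ) (i k : J × Y) (h : k.1 = i.1) :
    Pc w S i (Fi w S F k) = if k = i then Pc w S i F else 0 := by
  obtain ⟨j, τ⟩ := i
  obtain ⟨j', τ'⟩ := k
  simp only at h
  subst h
  funext ω
  have h1 : coef w j' τ (Fi w S F (j', τ')) ω =
      Pc w S (j', τ') F ω * (if τ = τ' then 1 else 0) := by
    rw [← w.φ_on j' τ τ']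
    show ip (w.φ j' τ) (fun y => Pc w S (j', τ') F ω * w.φ j' τ' y) = _
    exact ip_smul_right _ _ _
  show (if ω ∈ S j' then coef w j' τ (Fi w S F (j', τ')) ω else 0) = _
  rw [h1]
  by_cases hτ : τ = τ'
  · subst hτ
    rw [if_pos rfl, if_pos rfl, mul_one]
    unfold Pc
    split_ifs <;> rfl
  · rw [if_neg hτ, mul_zero, ite_self, if_neg (fun h => hτ (Prod.ext_iff.1 h).2.symm)]
    rfl

/-- the slices of a combination of `F` and the `F^i` -/
theorem Pc_comb (F : Ω × Y → ℝ) (I : Finset (J × Y)) (κ : ℝ) (μ : J × Y → ℝ) (i : J × Y) :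
    Pc w S i (κ • F + ∑ k ∈ I, μ k • Fi w S F k) =
      (κ + if i ∈ I then μ i else 0) • Pc w S i F +
        Pc w S i (∑ k ∈ I.filter (fun k => k.1 ≠ i.1), μ k • Fi w S F k) := by
  have h1 : ∑ k ∈ I, μ k • Fi w S F k =
      ∑ k ∈ I.filter (fun k => k.1 = i.1), μ k • Fi w S F k +
        ∑ k ∈ I.filter (fun k => k.1 ≠ i.1), μ k • Fi w S F k :=
    (Finset.sum_filter_add_sum_filter_not I (fun k => k.1 = i.1) _).symm
  have h2 : Pc w S i (∑ k ∈ I.filter (fun k => k.1 = i.1), μ k • Fi w S F k) =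
      (if i ∈ I then μ i else 0) • Pc w S i F := by
    rw [Pc_sum]
    have h3 : ∀ k ∈ I.filter (fun k => k.1 = i.1), Pc w S i (μ k • Fi w S F k) =
        if k = i then μ i • Pc w S i F else 0 := by
      intro k hk
      rw [Pc_smul, Pc_Fi w S F i k (Finset.mem_filter.1 hk).2]
      split_ifs with h
      · rw [h]
      · rw [smul_zero]
    rw [Finset.sum_congr rfl h3, Finset.sum_ite_eq']
    by_cases h : i ∈ I
    · have h4 : i ∈ I.filter (fun k => k.1 = i.1) := Finset.mem_filter.2 ⟨h, rfl⟩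
      rw [if_pos h4, if_pos h]
    · have h4 : i ∉ I.filter (fun k => k.1 = i.1) := fun h' => h (Finset.mem_filter.1 h').1
      rw [if_neg h4, if_neg h, zero_smul]
  rw [h1, Pc_add, Pc_add, Pc_smul, h2, add_smul, add_assoc]

end Calc

end KPC
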