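import Pool.Agent.KPC.Basic

/-!
# KPC-F1: synthesis inequality for nearly orthonormal vectors
-/

open Finset BigOperators

namespace KPC

section Calc

variable {J X Y Ω : Type} [Fintype J] [DecidableEq J] [Fintype X] [Fintype Y] [DecidableEq Y]
  [Fintype Ω] [DecidableEq Ω] {e : ℕ} {δ : ℝ} (w : WeylSys J X Y e δ) (S : J → Finset Ω)

omit [Fintype Ω] [DecidableEq Ω] in
theorem Synth_phi [Nonempty X] (i k : J × Y) (hik : i ≠ k) (hδ : 0 ≤ δ) :
    |ip (w.φ i.1 i.2) (w.φ k.1 k.2)| ≤ δ := by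
  by_cases hj : i.1 = k.1
  · have hτ : i.2 ≠ k.2 := fun h => hik (Prod.ext hj h)
    rw [hj, w.φ_on, if_neg hτ, abs_zero]
    exact hδ
  · obtain ⟨x⟩ := ‹Nonempty X›
    have h1 := w.mub x 0 i.1 k.1 i.2 k.2 hj
    rwa [w.W_zero, Matrix.one_mulVec] at h1

/-- synthesis for nearly orthonormal families -/
theorem synth [Nonempty X] (hδ : 0 ≤ δ) (I : Finset (J × Y)) (d : J × Y → Ω → ℝ) :
    nsq (∑ i ∈ I, ten (d i) (w.φ i.1 i.2)) ≤ (1 + I.card * δ) * ∑ i ∈ I, nsq (d i) := by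
  have h1 : nsq (∑ i ∈ I, ten (d i) (w.φ i.1 i.2)) =
      ∑ i ∈ I, ∑ k ∈ I, ip (d i) (d k) * ip (w.φ i.1 i.2) (w.φ k.1 k.2) := by
    rw [nsq_eq_ip, ip_sum_left]
    refine Finset.sum_congr rfl fun i _ => ?_
    rw [ip_sum_right]
    refine Finset.sum_congr rfl fun k _ => ?_
    rw [ip_ten]
  have h2 : ∀ i k : J × Y, ip (d i) (d k) * ip (w.φ i.1 i.2) (w.φ k.1 k.2) ≤
      (if i = k then nsq (d i) else 0) + δ * (nrm (d i) * nrm (d k)) := by
    intro i k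
    by_cases hik : i = k
    · subst hik
      rw [if_pos rfl, w.φ_on, if_pos rfl, mul_one, ← nsq_eq_ip]
      have := mul_nonneg hδ (mul_nonneg (nrm_nonneg (d i)) (nrm_nonneg (d i)))
      linarith
    · rw [if_neg hik, zero_add]
      calc ip (d i) (d k) * ip (w.φ i.1 i.2) (w.φ k.1 k.2)
          ≤ |ip (d i) (d k) * ip (w.φ i.1 i.2) (w.φ k.1 k.2)| := le_abs_self _
        _ = |ip (d i) (d k)| * |ip (w.φ i.1 i.2) (w.φ k.1 k.2)| := abs_mul _ _
        _ ≤ (nrm (d i) * nrm (d k)) * δ :=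
            mul_le_mul (abs_ip_le _ _) (Synth_phi w i k hik hδ) (abs_nonneg _)
              (mul_nonneg (nrm_nonneg _) (nrm_nonneg _))
        _ = δ * (nrm (d i) * nrm (d k)) := mul_comm _ _
  have h3 : ∑ i ∈ I, ∑ k ∈ I, ((if i = k then nsq (d i) else 0) + δ * (nrm (d i) * nrm (d k))) =
      ∑ i ∈ I, nsq (d i) + δ * (∑ i ∈ I, nrm (d i)) ^ 2 := by
    rw [sq, Finset.sum_mul_sum, Finset.mul_sum, ← Finset.sum_add_distrib]
    refine Finset.sum_congr rfl fun i hi => ?_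
    rw [Finset.sum_add_distrib, Finset.mul_sum, Finset.sum_ite_eq, if_pos hi]
  have h4 : (∑ i ∈ I, nrm (d i)) ^ 2 ≤ I.card * ∑ i ∈ I, nsq (d i) := by
    have h5 := sq_sum_le_card_mul_sum_sq (s := I) (f := fun i => nrm (d i))
    simpa only [nrm_sq] using h5
  calc nsq (∑ i ∈ I, ten (d i) (w.φ i.1 i.2))
      ≤ ∑ i ∈ I, ∑ k ∈ I, ((if i = k then nsq (d i) else 0) + δ * (nrm (d i) * nrm (d k))) := by
        rw [h1]
        exact Finset.sum_le_sum fun i _ => Finset.sum_le_sum fun k _ => h2 i k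
    _ = ∑ i ∈ I, nsq (d i) + δ * (∑ i ∈ I, nrm (d i)) ^ 2 := h3
    _ ≤ ∑ i ∈ I, nsq (d i) + δ * (I.card * ∑ i ∈ I, nsq (d i)) := by
        have := mul_le_mul_of_nonneg_left h4 hδ
        linarith
    _ = (1 + I.card * δ) * ∑ i ∈ I, nsq (d i) := by ring

end Calc

end KPC
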