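import Pool.Agent.KPC.Moment
import Pool.Agent.KPC.Bessel
import Pool.Agent.KPC.Synth
import Pool.Agent.KPC.Orth
import Pool.Agent.KPC.PcComb

/-!
# KPC-G1: energy of the large part, fourth moment bound
-/

open Finset BigOperators

namespace KPC

section Main

variable {J X Y Ω : Type} [Fintype J] [DecidableEq J] [Fintype X] [Fintype Y] [DecidableEq Y]
  [Fintype Ω] [DecidableEq Ω] {e : ℕ} {δ : ℝ} (w : WeylSys J X Y e δ) (S : J → Finset Ω)

namespace Four_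

theorem mem_LL (F : Ω × Y → ℝ) (i : J × Y) : i ∈ LL w S F ↔ 1 ≤ aw w S F i := by
  classical
  simp [LL]

theorem nsq_phi (i : J × Y) : nsq (w.φ i.1 i.2) = 1 := by
  rw [nsq_eq_ip, w.φ_on, if_pos rfl]

theorem nsq_Pc_le (F : Ω × Y → ℝ) (i : J × Y) : nsq (Pc w S i F) ≤ nsq (coef w i.1 i.2 F) := by
  unfold nsq Pc
  refine Finset.sum_le_sum fun ω _ => ?_
  split_ifs
  · exact le_refl _
  · simp only [ne_eq, OfNat.ofNat_ne_zero, not_false_eq_true, zero_pow]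
    exact sq_nonneg _

theorem nsq_Fi (F : Ω × Y → ℝ) (i : J × Y) : nsq (Fi w S F i) = nsq (Pc w S i F) := by
  unfold Fi
  rw [nsq_ten, nsq_phi, mul_one]

theorem nsq_coef_le (F : Ω × Y → ℝ) (i : J × Y) : nsq (coef w i.1 i.2 F) ≤ nsq F := by
  rw [← parseval w i.1 F]
  exact Finset.single_le_sum (f := fun τ => nsq (coef w i.1 τ F)) (fun τ _ => nsq_nonneg _)
    (Finset.mem_univ i.2)

omit [DecidableEq J] [DecidableEq Ω] in
theorem small_le {t : ℝ} (hs : Small J Ω e δ) (ht : t ≤ (2 ^ e) ^ 3 *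
    ((Fintype.card J : ℝ) + 1) ^ 3 * ((Fintype.card Ω : ℝ) + 1) * ((2 : ℝ) ^ e) ^ Fintype.card J) :
    t * δ ≤ 1 / 16 := by
  obtain ⟨h0, h1⟩ := hs
  have := mul_le_mul_of_nonneg_right ht h0
  nlinarith

theorem one_le_n (e : ℕ) : (1 : ℝ) ≤ 2 ^ e := one_le_pow₀ (by norm_num)

omit [DecidableEq J] [DecidableEq Ω] in
theorem small1 (hs : Small J Ω e δ) : (Fintype.card J : ℝ) * 2 ^ e * δ ≤ 1 / 16 := by
  apply small_le hs
  have hn := one_le_n e
  have hJ : (0 : ℝ) ≤ Fintype.card J := Nat.cast_nonneg _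
  have hO : (0 : ℝ) ≤ Fintype.card Ω := Nat.cast_nonneg _
  have hN : (1 : ℝ) ≤ ((2 : ℝ) ^ e) ^ Fintype.card J := one_le_pow₀ hn
  generalize ((2 : ℝ) ^ e) ^ Fintype.card J = N at *
  generalize (2 : ℝ) ^ e = n at *
  generalize (Fintype.card J : ℝ) = a at *
  generalize (Fintype.card Ω : ℝ) = b at *
  calc a * n ≤ (a + 1) ^ 3 * n ^ 3 := by
        apply mul_le_mul _ (le_self_pow₀ hn (by norm_num)) (by linarith) (by positivity)
        calc a ≤ a + 1 := by linarith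
          _ ≤ (a + 1) ^ 3 := le_self_pow₀ (by linarith) (by norm_num)
    _ = n ^ 3 * (a + 1) ^ 3 * 1 * 1 := by ring
    _ ≤ n ^ 3 * (a + 1) ^ 3 * (b + 1) * N := by gcongr; linarith

omit [DecidableEq J] [DecidableEq Ω] in
theorem small2 (hs : Small J Ω e δ) :
    (Fintype.card J : ℝ) * (2 ^ e * Fintype.card J) * δ ≤ 1 / 16 := by
  apply small_le hs
  have hn := one_le_n e
  have hJ : (0 : ℝ) ≤ Fintype.card J := Nat.cast_nonneg _
  have hO : (0 : ℝ) ≤ Fintype.card Ω := Nat.cast_nonneg _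
  have hN : (1 : ℝ) ≤ ((2 : ℝ) ^ e) ^ Fintype.card J := one_le_pow₀ hn
  generalize ((2 : ℝ) ^ e) ^ Fintype.card J = N at *
  generalize (2 : ℝ) ^ e = n at *
  generalize (Fintype.card J : ℝ) = a at *
  generalize (Fintype.card Ω : ℝ) = b at *
  calc a * (n * a) = a ^ 2 * n := by ring
    _ ≤ (a + 1) ^ 3 * n ^ 3 := by
        apply mul_le_mul _ (le_self_pow₀ hn (by norm_num)) (by linarith) (by positivity)
        calc a ^ 2 ≤ (a + 1) ^ 2 := pow_le_pow_left₀ hJ (by linarith) 2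
          _ ≤ (a + 1) ^ 3 := pow_le_pow_right₀ (by linarith) (by norm_num)
    _ = n ^ 3 * (a + 1) ^ 3 * 1 * 1 := by ring
    _ ≤ n ^ 3 * (a + 1) ^ 3 * (b + 1) * N := by gcongr; linarith

omit [DecidableEq Ω] in
theorem small3 (hs : Small J Ω e δ) :
    (Fintype.card Ω : ℝ) * Fintype.card (CC J e) * δ ≤ 1 / 16 := by
  apply small_le hs
  rw [card_CC]
  have hn := one_le_n e
  have hJ : (0 : ℝ) ≤ Fintype.card J := Nat.cast_nonneg _
  have hO : (0 : ℝ) ≤ Fintype.card Ω := Nat.cast_nonneg _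
  have hN : (1 : ℝ) ≤ ((2 : ℝ) ^ e) ^ Fintype.card J := one_le_pow₀ hn
  generalize ((2 : ℝ) ^ e) ^ Fintype.card J = N at *
  generalize (2 : ℝ) ^ e = n at *
  generalize (Fintype.card J : ℝ) = a at *
  generalize (Fintype.card Ω : ℝ) = b at *
  have h1 : 1 ≤ n ^ 3 := one_le_pow₀ hn
  have h2 : 1 ≤ (a + 1) ^ 3 := one_le_pow₀ (by linarith)
  calc b * N = 1 * 1 * b * N := by ring
    _ ≤ n ^ 3 * (a + 1) ^ 3 * (b + 1) * N := by gcongr; linarith

omit [DecidableEq J] [DecidableEq Ω] in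
theorem small4 (hs : Small J Ω e δ) :
    16 * (2 ^ e) ^ 5 * (Fintype.card J : ℝ) ^ 5 * δ ^ 2 ≤ 1 := by
  have h0 := hs.1
  have hs1 : ((2 ^ e) ^ 3 * ((Fintype.card J : ℝ) + 1) ^ 3) * δ ≤ 1 / 16 := by
    apply small_le hs
    have hn := one_le_n e
    have hJ : (0 : ℝ) ≤ Fintype.card J := Nat.cast_nonneg _
    have hO : (0 : ℝ) ≤ Fintype.card Ω := Nat.cast_nonneg _
    have hN : (1 : ℝ) ≤ ((2 : ℝ) ^ e) ^ Fintype.card J := one_le_pow₀ hn
    generalize ((2 : ℝ) ^ e) ^ Fintype.card J = N at *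
    generalize (2 : ℝ) ^ e = n at *
    generalize (Fintype.card J : ℝ) = a at *
    generalize (Fintype.card Ω : ℝ) = b at *
    calc n ^ 3 * (a + 1) ^ 3 = n ^ 3 * (a + 1) ^ 3 * 1 * 1 := by ring
      _ ≤ n ^ 3 * (a + 1) ^ 3 * (b + 1) * N := by gcongr; linarith
  have hn := one_le_n e
  have hJ : (0 : ℝ) ≤ Fintype.card J := Nat.cast_nonneg _
  generalize (2 : ℝ) ^ e = n at *
  generalize (Fintype.card J : ℝ) = a at *
  have h1 : (n ^ 3 * (a + 1) ^ 3 * δ) ^ 2 ≤ (1 / 16) ^ 2 :=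
    pow_le_pow_left₀ (by positivity) hs1 2
  have h2 : n ^ 5 * a ^ 5 ≤ n ^ 6 * (a + 1) ^ 6 := by
    apply mul_le_mul (pow_le_pow_right₀ hn (by norm_num)) _ (by positivity) (by positivity)
    calc a ^ 5 ≤ (a + 1) ^ 5 := pow_le_pow_left₀ hJ (by linarith) 5
      _ ≤ (a + 1) ^ 6 := pow_le_pow_right₀ (by linarith) (by norm_num)
  have h3 : n ^ 5 * a ^ 5 * δ ^ 2 ≤ n ^ 6 * (a + 1) ^ 6 * δ ^ 2 :=
    mul_le_mul_of_nonneg_right h2 (sq_nonneg _)
  have h4 : n ^ 6 * (a + 1) ^ 6 * δ ^ 2 = (n ^ 3 * (a + 1) ^ 3 * δ) ^ 2 := by ring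
  nlinarith

theorem card_LL (F : Ω × Y → ℝ) (hF : nsq F ≤ 1) :
    ((LL w S F).card : ℝ) ≤ Fintype.card J * 2 ^ e := by
  classical
  refine le_trans ?_ (card_large w ((2 : ℝ) ^ e) (by positivity) F hF)
  rw [Nat.cast_le]
  apply Finset.card_le_card
  intro i hi
  rw [mem_LL] at hi
  simp only [Finset.mem_filter, Finset.mem_univ, true_and]
  refine hi.trans ?_
  unfold aw
  exact mul_le_mul_of_nonneg_left (nsq_Pc_le w S F i) (by positivity)

omit [DecidableEq Y] [DecidableEq Ω] in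
theorem nsq_le_one {F : Ω × Y → ℝ} (hF : nrm F ≤ 1) : nsq F ≤ 1 := by
  have := nsq_le_of_nrm_le hF
  simpa using this

theorem card_LL_delta (hs : Small J Ω e δ) (F : Ω × Y → ℝ) (hF : nrm F ≤ 1) :
    ((LL w S F).card : ℝ) * δ ≤ 1 / 16 :=
  (mul_le_mul_of_nonneg_right (card_LL w S F (nsq_le_one hF)) hs.1).trans (small1 hs)

theorem sum_Pc_le [Nonempty X] (hδ : 0 ≤ δ) (I : Finset (J × Y)) (hI : (I.card : ℝ) * δ ≤ 1 / 16)
    (F : Ω × Y → ℝ) (hF : nrm F ≤ 1) : ∑ i ∈ I, nsq (coef w i.1 i.2 F) ≤ 17 / 16 := by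
  have h1 := bessel w hδ I F
  have h2 := nsq_le_one hF
  have h3 := nsq_nonneg F
  nlinarith

theorem nsq_comb_le [Nonempty X] (hδ : 0 ≤ δ) (I : Finset (J × Y))
    (hI : (I.card : ℝ) * δ ≤ 1 / 16) (F : Ω × Y → ℝ) (hF : nrm F ≤ 1) (μ : J × Y → ℝ) (M : ℝ)
    (hM : 0 ≤ M) (hμ : ∀ i ∈ I, μ i ^ 2 ≤ M) :
    nsq (∑ i ∈ I, μ i • Fi w S F i) ≤ M * (17 / 16) ^ 2 := by
  have h0 : ∑ i ∈ I, μ i • Fi w S F i = ∑ i ∈ I, ten (μ i • Pc w S i F) (w.φ i.1 i.2) := by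
    refine Finset.sum_congr rfl fun i _ => ?_
    rw [ten_smul_left]; rfl
  rw [h0]
  refine (synth w hδ I fun i => μ i • Pc w S i F).trans ?_
  have h1 : ∑ i ∈ I, nsq (μ i • Pc w S i F) ≤ M * (17 / 16) := by
    calc ∑ i ∈ I, nsq (μ i • Pc w S i F) ≤ ∑ i ∈ I, M * nsq (coef w i.1 i.2 F) := by
          refine Finset.sum_le_sum fun i hi => ?_
          rw [nsq_smul]
          exact mul_le_mul (hμ i hi) (nsq_Pc_le w S F i) (nsq_nonneg _) hM
      _ = M * ∑ i ∈ I, nsq (coef w i.1 i.2 F) := by rw [Finset.mul_sum]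
      _ ≤ M * (17 / 16) := mul_le_mul_of_nonneg_left (sum_Pc_le w hδ I hI F hF) hM
  have h2 : 0 ≤ ∑ i ∈ I, nsq (μ i • Pc w S i F) := Finset.sum_nonneg fun i _ => nsq_nonneg _
  have h3 : 0 ≤ (I.card : ℝ) * δ := mul_nonneg (Nat.cast_nonneg _) hδ
  calc (1 + (I.card : ℝ) * δ) * ∑ i ∈ I, nsq (μ i • Pc w S i F)
      ≤ (17 / 16) * (M * (17 / 16)) := by
        apply mul_le_mul (by linarith) h1 h2 (by norm_num)
    _ = M * (17 / 16) ^ 2 := by ring

omit [Fintype Ω] [DecidableEq Ω] in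
/-- the coefficient of a tensor -/
theorem coef_ten (i k : J × Y) (a : Ω → ℝ) :
    coef w i.1 i.2 (ten a (w.φ k.1 k.2)) = ip (w.φ i.1 i.2) (w.φ k.1 k.2) • a := by
  funext ω
  have h : (fun y => ten a (w.φ k.1 k.2) (ω, y)) = a ω • w.φ k.1 k.2 := rfl
  unfold coef
  rw [h, ip_smul_right, Pi.smul_apply, smul_eq_mul, mul_comm]

omit [Fintype Ω] [DecidableEq Ω] in
theorem coef_add (i : J × Y) (F G : Ω × Y → ℝ) :
    coef w i.1 i.2 (F + G) = coef w i.1 i.2 F + coef w i.1 i.2 G := by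
  funext ω
  exact ip_add_right _ _ _

omit [Fintype Ω] [DecidableEq Ω] in
theorem coef_smul (i : J × Y) (c : ℝ) (F : Ω × Y → ℝ) :
    coef w i.1 i.2 (c • F) = c • coef w i.1 i.2 F := by
  funext ω
  exact ip_smul_right _ _ _

omit [Fintype Ω] [DecidableEq Ω] in
theorem coef_zero (i : J × Y) : coef w i.1 i.2 (0 : Ω × Y → ℝ) = 0 := by
  funext ω
  exact ip_zero_right _

theorem coef_sum (i : J × Y) {α : Type*} (I : Finset α) (F : α → Ω × Y → ℝ) :
    coef w i.1 i.2 (∑ k ∈ I, F k) = ∑ k ∈ I, coef w i.1 i.2 (F k) := by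
  classical
  induction I using Finset.induction_on with
  | empty => simp only [Finset.sum_empty]; exact coef_zero w i
  | insert a s ha ih => rw [Finset.sum_insert ha, Finset.sum_insert ha, coef_add, ih]

theorem nrm_le_of_nsq_le' {ι κ : Type*} [Fintype ι] [Fintype κ] {x : ι → ℝ} {y : κ → ℝ}
    (h : nsq x ≤ nsq y) : nrm x ≤ nrm y := Real.sqrt_le_sqrt h

theorem nrm_Pc_le_one (F : Ω × Y → ℝ) (hF : nrm F ≤ 1) (i : J × Y) : nrm (Pc w S i F) ≤ 1 :=
  (nrm_le_of_nsq_le' ((nsq_Pc_le w S F i).trans (nsq_coef_le w F i))).trans hF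

/-- each error term is small -/
theorem nrm_E_le [Nonempty X] (hδ : 0 ≤ δ) (I : Finset (J × Y)) (F : Ω × Y → ℝ)
    (hF : nrm F ≤ 1) (μ : J × Y → ℝ) (hμ : ∀ i ∈ I, |μ i| ≤ 2) (i : J × Y)
    (hi : ∀ k ∈ I, k.1 ≠ i.1) :
    nrm (coef w i.1 i.2 (∑ k ∈ I, μ k • Fi w S F k)) ≤ 2 * I.card * δ := by
  rw [coef_sum]
  refine (nrm_sum_le _ _).trans ?_
  have h1 : ∀ k ∈ I, nrm (coef w i.1 i.2 (μ k • Fi w S F k)) ≤ 2 * δ := by
    intro k hk
    unfold Fi
    rw [coef_smul, coef_ten, nrm_smul, nrm_smul]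
    have h2 : |ip (w.φ i.1 i.2) (w.φ k.1 k.2)| ≤ δ := by
      obtain ⟨x⟩ := ‹Nonempty X›
      have h3 := w.mub x 0 i.1 k.1 i.2 k.2 (Ne.symm (hi k hk))
      rwa [w.W_zero, Matrix.one_mulVec] at h3
    have h4 := nrm_Pc_le_one w S F hF k
    have h5 : |ip (w.φ i.1 i.2) (w.φ k.1 k.2)| * nrm (Pc w S k F) ≤ δ * 1 :=
      mul_le_mul h2 h4 (nrm_nonneg _) hδ
    rw [mul_one] at h5
    exact mul_le_mul (hμ k hk) h5 (mul_nonneg (abs_nonneg _) (nrm_nonneg _)) (by norm_num)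
  refine (Finset.sum_le_sum h1).trans ?_
  rw [Finset.sum_const, nsmul_eq_mul]
  exact le_of_eq (by ring)

theorem nrm_H_le (I : Finset (J × Y)) (F : Ω × Y → ℝ) (hF : nrm F ≤ 1) (μ : J × Y → ℝ)
    (hμ : ∀ i ∈ I, |μ i| ≤ 2) : nrm (∑ k ∈ I, μ k • Fi w S F k) ≤ 2 * I.card := by
  refine (nrm_sum_le _ _).trans ?_
  have h1 : ∀ k ∈ I, nrm (μ k • Fi w S F k) ≤ 2 := by
    intro k hk
    rw [nrm_smul]
    have h2 : nrm (Fi w S F k) ≤ 1 := by
      have h3 := nrm_Pc_le_one w S F hF k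
      unfold nrm at h3 ⊢
      rwa [nsq_Fi]
    calc |μ k| * nrm (Fi w S F k) ≤ 2 * 1 :=
          mul_le_mul (hμ k hk) h2 (nrm_nonneg _) (by norm_num)
      _ = 2 := by norm_num
  refine (Finset.sum_le_sum h1).trans ?_
  rw [Finset.sum_const, nsmul_eq_mul]
  exact le_of_eq (by ring)

theorem nsq_add_le {ι : Type*} [Fintype ι] (x y : ι → ℝ) : nsq (x + y) ≤ 2 * nsq x + 2 * nsq y := by
  unfold nsq
  rw [Finset.mul_sum, Finset.mul_sum, ← Finset.sum_add_distrib]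
  refine Finset.sum_le_sum fun i _ => ?_
  simp only [Pi.add_apply]
  nlinarith [sq_nonneg (x i - y i)]

theorem nsq_add_sq_le {ι : Type*} [Fintype ι] (x y : ι → ℝ) :
    nsq (x + y) ^ 2 ≤ 8 * nsq x ^ 2 + 8 * nsq y ^ 2 := by
  have h1 := nsq_add_le x y
  have h2 := nsq_nonneg (x + y)
  have h3 : nsq (x + y) ^ 2 ≤ (2 * nsq x + 2 * nsq y) ^ 2 := pow_le_pow_left₀ h2 h1 2
  nlinarith [sq_nonneg (nsq x - nsq y)]

/-- the main part of the fourth moment -/
theorem main_le [Nonempty X] (hs : Small J Ω e δ) (F : Ω × Y → ℝ) (hF : nrm F ≤ 1)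
    (c : J × Y → ℝ) (hc1 : ∀ i ∈ LL w S F, c i ^ 4 * aw w S F i ≤ 1)
    (hc2 : ∀ i, i ∉ LL w S F → c i ^ 4 ≤ 1) :
    2 ^ e * ∑ i : J × Y, nsq (c i • Pc w S i F) ^ 2 ≤ 33 / 16 := by
  classical
  have hn := one_le_n e
  set B : Finset (J × Y) := univ.filter fun i : J × Y =>
    1 ≤ (2 ^ e * (Fintype.card J : ℝ)) * nsq (coef w i.1 i.2 F) with hB
  have hJ0 : (0 : ℝ) ≤ Fintype.card J := Nat.cast_nonneg _
  have hBc : (B.card : ℝ) * δ ≤ 1 / 16 := by
    have h1 := card_large w (2 ^ e * (Fintype.card J : ℝ)) (by positivity) F (nsq_le_one hF)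
    exact (mul_le_mul_of_nonneg_right h1 hs.1).trans (small2 hs)
  have hBs := sum_Pc_le w hs.1 B hBc F hF
  -- termwise bound
  have hterm : ∀ i : J × Y, 2 ^ e * nsq (c i • Pc w S i F) ^ 2 ≤
      (if i ∈ B then nsq (coef w i.1 i.2 F) else 0) +
        (Fintype.card J : ℝ)⁻¹ * nsq (coef w i.1 i.2 F) := by
    intro i
    have hJ1 : (1 : ℝ) ≤ Fintype.card J := by
      have : 0 < Fintype.card J := Fintype.card_pos_iff.mpr ⟨i.1⟩
      exact_mod_cast this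
    have e1 : 2 ^ e * nsq (c i • Pc w S i F) ^ 2 = c i ^ 4 * aw w S F i * nsq (Pc w S i F) := by
      rw [nsq_smul]; unfold aw; ring
    rw [e1]
    have hP := nsq_Pc_le w S F i
    have hP0 := nsq_nonneg (Pc w S i F)
    have hC0 := nsq_nonneg (coef w i.1 i.2 F)
    have hc4 : 0 ≤ c i ^ 4 := by positivity
    by_cases hi : i ∈ B
    · rw [if_pos hi]
      have h2 : c i ^ 4 * aw w S F i ≤ 1 := by
        by_cases hL : i ∈ LL w S F
        · exact hc1 i hL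
        · have h3 := hc2 i hL
          rw [mem_LL, not_le] at hL
          have h4 : 0 ≤ aw w S F i := by unfold aw; positivity
          nlinarith
      have h5 : c i ^ 4 * aw w S F i * nsq (Pc w S i F) ≤ 1 * nsq (Pc w S i F) :=
        mul_le_mul_of_nonneg_right h2 hP0
      have h6 : 0 ≤ (Fintype.card J : ℝ)⁻¹ * nsq (coef w i.1 i.2 F) := by positivity
      linarith
    · rw [if_neg hi, zero_add]
      have hi' : 2 ^ e * (Fintype.card J : ℝ) * nsq (coef w i.1 i.2 F) < 1 := by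
        by_contra hcon
        exact hi (by rw [hB, Finset.mem_filter]; exact ⟨Finset.mem_univ _, not_lt.mp hcon⟩)
      have h7 : aw w S F i ≤ (Fintype.card J : ℝ)⁻¹ := by
        rw [← one_div, le_div_iff₀ (by linarith)]
        calc aw w S F i * Fintype.card J
            = 2 ^ e * (Fintype.card J : ℝ) * nsq (Pc w S i F) := by unfold aw; ring
          _ ≤ 2 ^ e * (Fintype.card J : ℝ) * nsq (coef w i.1 i.2 F) :=
              mul_le_mul_of_nonneg_left hP (by positivity)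
          _ ≤ 1 := hi'.le
      have h7' : aw w S F i * Fintype.card J < 1 := by
        calc aw w S F i * Fintype.card J
            = 2 ^ e * (Fintype.card J : ℝ) * nsq (Pc w S i F) := by unfold aw; ring
          _ ≤ 2 ^ e * (Fintype.card J : ℝ) * nsq (coef w i.1 i.2 F) :=
              mul_le_mul_of_nonneg_left hP (by positivity)
          _ < 1 := hi'
      have h4 : 0 ≤ aw w S F i := by unfold aw; positivity
      have hL : i ∉ LL w S F := by
        rw [mem_LL, not_le]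
        calc aw w S F i = aw w S F i * 1 := (mul_one _).symm
          _ ≤ aw w S F i * Fintype.card J := mul_le_mul_of_nonneg_left hJ1 h4
          _ < 1 := h7'
      have h3 := hc2 i hL
      have h8 : c i ^ 4 * aw w S F i ≤ 1 * (Fintype.card J : ℝ)⁻¹ :=
        mul_le_mul h3 h7 h4 (by norm_num)
      rw [one_mul] at h8
      exact mul_le_mul h8 hP hP0 (by positivity)
  have hsum1 : ∑ i : J × Y, (if i ∈ B then nsq (coef w i.1 i.2 F) else 0) ≤ 17 / 16 := by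
    rw [← Finset.sum_filter, Finset.filter_mem_eq_inter, Finset.univ_inter]
    exact hBs
  have hsum2 : ∑ i : J × Y, (Fintype.card J : ℝ)⁻¹ * nsq (coef w i.1 i.2 F) ≤ 1 := by
    rw [← Finset.mul_sum, Fintype.sum_prod_type]
    have h9 : ∀ j : J, ∑ τ : Y, nsq (coef w j τ F) = nsq F := fun j => parseval w j F
    simp only [h9, Finset.sum_const, Finset.card_univ, nsmul_eq_mul]
    rw [← mul_assoc]
    have hF1 := nsq_le_one hF
    have hF0 := nsq_nonneg F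
    have h10 : (Fintype.card J : ℝ)⁻¹ * Fintype.card J ≤ 1 := by
      by_cases h0 : (Fintype.card J : ℝ) = 0
      · rw [h0]; norm_num
      · rw [inv_mul_cancel₀ h0]
    calc (Fintype.card J : ℝ)⁻¹ * Fintype.card J * nsq F ≤ 1 * 1 :=
          mul_le_mul h10 hF1 hF0 (by norm_num)
      _ = 1 := by norm_num
  calc 2 ^ e * ∑ i : J × Y, nsq (c i • Pc w S i F) ^ 2
      = ∑ i : J × Y, 2 ^ e * nsq (c i • Pc w S i F) ^ 2 := by rw [Finset.mul_sum]
    _ ≤ ∑ i : J × Y, ((if i ∈ B then nsq (coef w i.1 i.2 F) else 0) +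
        (Fintype.card J : ℝ)⁻¹ * nsq (coef w i.1 i.2 F)) := Finset.sum_le_sum fun i _ => hterm i
    _ = ∑ i : J × Y, (if i ∈ B then nsq (coef w i.1 i.2 F) else 0) +
        ∑ i : J × Y, (Fintype.card J : ℝ)⁻¹ * nsq (coef w i.1 i.2 F) := Finset.sum_add_distrib
    _ ≤ 33 / 16 := by linarith

/-- the error part of the fourth moment -/
theorem error_le [Nonempty X] (hs : Small J Ω e δ) (F : Ω × Y → ℝ) (hF : nrm F ≤ 1)
    (μ : J × Y → ℝ) (hμ : ∀ i ∈ LL w S F, |μ i| ≤ 2) :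
    2 ^ e * ∑ i : J × Y, nsq (Pc w S i (∑ k ∈ (LL w S F).filter (fun k => k.1 ≠ i.1),
      μ k • Fi w S F k)) ^ 2 ≤ 1 := by
  have hn := one_le_n e
  have hJ0 : (0 : ℝ) ≤ Fintype.card J := Nat.cast_nonneg _
  have hL := card_LL w S F (nsq_le_one hF)
  have hL0 : (0 : ℝ) ≤ (LL w S F).card := Nat.cast_nonneg _
  have hδ := hs.1
  set N : ℝ := ((LL w S F).card : ℝ) with hN
  have h1 : ∀ j : J, ∑ τ : Y, nsq (Pc w S (j, τ) (∑ k ∈ (LL w S F).filter (fun k => k.1 ≠ j),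
      μ k • Fi w S F k)) ^ 2 ≤ (2 * N * δ) ^ 2 * (2 * N) ^ 2 := by
    intro j
    set I : Finset (J × Y) := (LL w S F).filter (fun k => k.1 ≠ j) with hI
    have hIL : (I.card : ℝ) ≤ N := by
      rw [hN, Nat.cast_le]
      exact Finset.card_le_card (Finset.filter_subset _ _)
    have hI0 : (0 : ℝ) ≤ I.card := Nat.cast_nonneg _
    have hμI : ∀ i ∈ I, |μ i| ≤ 2 := fun i hi => hμ i (Finset.mem_of_mem_filter i hi)
    have hIj : ∀ k ∈ I, k.1 ≠ j := fun k hk => (Finset.mem_filter.mp hk).2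
    set H : Ω × Y → ℝ := ∑ k ∈ I, μ k • Fi w S F k with hH
    have hHn : nsq H ≤ (2 * N) ^ 2 := by
      apply nsq_le_of_nrm_le
      exact (nrm_H_le w S I F hF μ hμI).trans (by linarith)
    have hE : ∀ τ : Y, nsq (coef w j τ H) ≤ (2 * N * δ) ^ 2 := by
      intro τ
      apply nsq_le_of_nrm_le
      refine (nrm_E_le w S hδ I F hF μ hμI (j, τ) hIj).trans ?_
      have := mul_le_mul_of_nonneg_right hIL hδ
      nlinarith
    calc ∑ τ : Y, nsq (Pc w S (j, τ) H) ^ 2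
        ≤ ∑ τ : Y, (2 * N * δ) ^ 2 * nsq (coef w j τ H) := by
          refine Finset.sum_le_sum fun τ _ => ?_
          have h2 := nsq_Pc_le w S H (j, τ)
          have h3 := nsq_nonneg (Pc w S (j, τ) H)
          have h4 := hE τ
          rw [sq (nsq (Pc w S (j, τ) H))]
          exact mul_le_mul (h2.trans h4) h2 h3 (sq_nonneg _)
      _ = (2 * N * δ) ^ 2 * ∑ τ : Y, nsq (coef w j τ H) := by rw [Finset.mul_sum]
      _ = (2 * N * δ) ^ 2 * nsq H := by rw [parseval]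
      _ ≤ (2 * N * δ) ^ 2 * (2 * N) ^ 2 := mul_le_mul_of_nonneg_left hHn (sq_nonneg _)
  rw [Fintype.sum_prod_type]
  have h2 : ∑ j : J, ∑ τ : Y, nsq (Pc w S (j, τ) (∑ k ∈ (LL w S F).filter
      (fun k => k.1 ≠ (j, τ).1), μ k • Fi w S F k)) ^ 2 ≤
      ∑ _j : J, (2 * N * δ) ^ 2 * (2 * N) ^ 2 := Finset.sum_le_sum fun j _ => h1 j
  rw [Finset.sum_const, Finset.card_univ, nsmul_eq_mul] at h2
  have h3 : N ^ 4 ≤ (Fintype.card J * 2 ^ e) ^ 4 := pow_le_pow_left₀ hL0 hL 4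
  have h4 := small4 hs
  calc 2 ^ e * ∑ j : J, ∑ τ : Y, nsq (Pc w S (j, τ) (∑ k ∈ (LL w S F).filter
      (fun k => k.1 ≠ (j, τ).1), μ k • Fi w S F k)) ^ 2
      ≤ 2 ^ e * (Fintype.card J * ((2 * N * δ) ^ 2 * (2 * N) ^ 2)) :=
        mul_le_mul_of_nonneg_left h2 (by positivity)
    _ = (16 * (2 ^ e * Fintype.card J) * δ ^ 2) * N ^ 4 := by ring
    _ ≤ (16 * (2 ^ e * Fintype.card J) * δ ^ 2) * (Fintype.card J * 2 ^ e) ^ 4 :=
        mul_le_mul_of_nonneg_left h3 (by positivity)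
    _ = 16 * (2 ^ e) ^ 5 * (Fintype.card J : ℝ) ^ 5 * δ ^ 2 := by ring
    _ ≤ 1 := h4

end Four_

/-- energy of the large part -/
theorem large_energy [Nonempty X] (hs : Small J Ω e δ) (F : Ω × Y → ℝ) (hF : nrm F ≤ 1) :
    ∑ i ∈ LL w S F, nsq (Fi w S F i) ≤ 3 / 2 ∧
      nrm (∑ i ∈ LL w S F, Fi w S F i) ≤ 3 / 2 := by
  have hc := Four_.card_LL_delta w S hs F hF
  constructor
  · have h1 := Four_.sum_Pc_le w hs.1 (LL w S F) hc F hF
    have h2 : ∑ i ∈ LL w S F, nsq (Fi w S F i) ≤ ∑ i ∈ LL w S F, nsq (coef w i.1 i.2 F) :=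
      Finset.sum_le_sum fun i _ => by rw [Four_.nsq_Fi]; exact Four_.nsq_Pc_le w S F i
    linarith
  · have h1 := Four_.nsq_comb_le w S hs.1 (LL w S F) hc F hF (fun _ => 1) 1 (by norm_num)
      (fun i _ => by norm_num)
    simp only [one_smul] at h1
    apply nrm_le_of_nsq_le (by norm_num)
    linarith

/-- fourth moment bound for the end point `-1/2` of the strip -/
theorem four_bound [Nonempty X] (hs : Small J Ω e δ) (F : Ω × Y → ℝ) (hF : nrm F ≤ 1)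
    (κ : ℝ) (hκ : 0 ≤ κ) (hκ1 : κ ≤ 1) (μ : J × Y → ℝ)
    (hμ : ∀ i ∈ LL w S F, (κ + μ i) ^ 4 * aw w S F i ≤ 1)
    (G : Ω × Y → ℝ) (hG : G = κ • F + ∑ i ∈ LL w S F, μ i • Fi w S F i) :
    ∑ x, ∑ σ, (qf w S x σ G G) ^ 2 ≤ 600 * (Fintype.card X * Fintype.card (CC J e)) := by
  have hδ := hs.1
  have hn := Four_.one_le_n e
  have hc := Four_.card_LL_delta w S hs F hF
  have hμ1 : ∀ i ∈ LL w S F, |κ + μ i| ≤ 1 := by
    intro i hi
    have h1 := hμ i hi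
    have h2 := (Four_.mem_LL w S F i).mp hi
    have h3 : 0 ≤ (κ + μ i) ^ 4 := by positivity
    have h4 : (κ + μ i) ^ 4 ≤ 1 := by nlinarith
    have h5 : (κ + μ i) ^ 2 ≤ 1 := by nlinarith [sq_nonneg ((κ + μ i) ^ 2 - 1)]
    exact (sq_le_one_iff_abs_le_one _).mp h5
  have hμ2 : ∀ i ∈ LL w S F, |μ i| ≤ 2 := by
    intro i hi
    have h1 := abs_le.mp (hμ1 i hi)
    rw [abs_le]
    constructor <;> linarith [h1.1, h1.2]
  have hGn : nsq G ≤ 10 := by
    have h1 : nsq (∑ i ∈ LL w S F, μ i • Fi w S F i) ≤ 4 * (17 / 16) ^ 2 := by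
      apply Four_.nsq_comb_le w S hδ (LL w S F) hc F hF μ 4 (by norm_num)
      intro i hi
      have h2 := abs_le.mp (hμ2 i hi)
      nlinarith [h2.1, h2.2]
    have h2 : nrm (∑ i ∈ LL w S F, μ i • Fi w S F i) ≤ 17 / 8 :=
      nrm_le_of_nsq_le (by norm_num) (h1.trans (by norm_num))
    have h3 : nrm G ≤ 25 / 8 := by
      rw [hG]
      refine (nrm_add_le _ _).trans ?_
      rw [nrm_smul, abs_of_nonneg hκ]
      have h4 : κ * nrm F ≤ 1 * 1 := mul_le_mul hκ1 hF (nrm_nonneg _) (by norm_num)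
      linarith
    have h5 := nsq_le_of_nrm_le h3
    linarith
  have hGn2 : nsq G ^ 2 ≤ 100 := by
    have h1 := nsq_nonneg G
    nlinarith
  have hmom := second_moment w S G
  have hmain := Four_.main_le w S hs F hF (fun i => κ + if i ∈ LL w S F then μ i else 0)
    (fun i hi => by rw [if_pos hi]; exact hμ i hi)
    (fun i hi => by rw [if_neg hi, add_zero]; exact pow_le_one₀ hκ hκ1)
  have herr := Four_.error_le w S hs F hF μ hμ2
  have hPc : 2 ^ e * ∑ i : J × Y, nsq (Pc w S i G) ^ 2 ≤ 25 := by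
    have h1 : ∀ i : J × Y, nsq (Pc w S i G) ^ 2 ≤
        8 * nsq ((κ + if i ∈ LL w S F then μ i else 0) • Pc w S i F) ^ 2 +
        8 * nsq (Pc w S i (∑ k ∈ (LL w S F).filter (fun k => k.1 ≠ i.1),
          μ k • Fi w S F k)) ^ 2 := by
      intro i
      rw [hG, Pc_comb]
      exact Four_.nsq_add_sq_le _ _
    have h2 : ∑ i : J × Y, nsq (Pc w S i G) ^ 2 ≤
        8 * ∑ i : J × Y, nsq ((κ + if i ∈ LL w S F then μ i else 0) • Pc w S i F) ^ 2 +
        8 * ∑ i : J × Y, nsq (Pc w S i (∑ k ∈ (LL w S F).filter (fun k => k.1 ≠ i.1),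
          μ k • Fi w S F k)) ^ 2 := by
      rw [Finset.mul_sum, Finset.mul_sum, ← Finset.sum_add_distrib]
      exact Finset.sum_le_sum fun i _ => h1 i
    have h3 := mul_le_mul_of_nonneg_left h2 (show (0 : ℝ) ≤ 2 ^ e by positivity)
    linarith
  have hcoef : (1 + (Fintype.card J * 2 ^ e + Fintype.card Ω * Fintype.card (CC J e)) * max δ 0) *
      nsq G ^ 2 ≤ 9 / 8 * 100 := by
    rw [max_eq_left hδ]
    have h1 := Four_.small1 hs
    have h2 := Four_.small3 hs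
    apply mul_le_mul _ hGn2 (sq_nonneg _) (by norm_num)
    linarith
  refine hmom.trans ?_
  rw [mul_comm (600 : ℝ)]
  apply mul_le_mul_of_nonneg_left _ (by positivity)
  linarith

end Main

end KPC
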