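import Pool.Agent.KPC.BopFacts
import Pool.Agent.KPC.AopFacts
import Pool.Agent.KPC.Four

/-!
# Project KPC, G3: the fourth moment on the left line
-/

open Finset BigOperators

namespace KPC

section Main

variable {J X Y Ω : Type} [Fintype J] [DecidableEq J] [Fintype X] [Fintype Y] [DecidableEq Y]
  [Fintype Ω] [DecidableEq Ω] {e : ℕ} {δ : ℝ} (w : WeylSys J X Y e δ) (S : J → Finset Ω)

namespace LineFour_

/-- the coefficients -/
theorem norm_four {a : ℝ} (ha : 0 < a) {z : ℂ} (hz : z.re = -(1 / 4)) :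
    ‖(a : ℂ) ^ z‖ ^ 4 * a = 1 := by
  rw [Complex.norm_cpow_eq_rpow_re_of_pos ha, hz, ← Real.rpow_natCast, ← Real.rpow_mul ha.le]
  have h : (-(1 / 4 : ℝ)) * ((4 : ℕ) : ℝ) = -1 := by norm_num
  rw [h, Real.rpow_neg_one]
  exact inv_mul_cancel₀ ha.ne'

theorem re_four {a : ℝ} (ha : 0 < a) {z : ℂ} (hz : z.re = -(1 / 4)) :
    ((a : ℂ) ^ z).re ^ 4 * a ≤ 1 := by
  rw [← norm_four ha hz]
  refine mul_le_mul_of_nonneg_right ?_ ha.le
  have h := Complex.abs_re_le_norm ((a : ℂ) ^ z)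
  calc ((a : ℂ) ^ z).re ^ 4 = |((a : ℂ) ^ z).re| ^ 4 := by
        rw [← abs_pow, abs_of_nonneg (Even.pow_nonneg (by decide) _)]
    _ ≤ _ := pow_le_pow_left₀ (abs_nonneg _) h 4

theorem im_four {a : ℝ} (ha : 0 < a) {z : ℂ} (hz : z.re = -(1 / 4)) :
    ((a : ℂ) ^ z).im ^ 4 * a ≤ 1 := by
  rw [← norm_four ha hz]
  refine mul_le_mul_of_nonneg_right ?_ ha.le
  have h := Complex.abs_im_le_norm ((a : ℂ) ^ z)
  calc ((a : ℂ) ^ z).im ^ 4 = |((a : ℂ) ^ z).im| ^ 4 := by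
        rw [← abs_pow, abs_of_nonneg (Even.pow_nonneg (by decide) _)]
    _ ≤ _ := pow_le_pow_left₀ (abs_nonneg _) h 4

theorem norm_le (v : ℂ) : ‖v‖ ^ 4 ≤ 2 * v.re ^ 4 + 2 * v.im ^ 4 := by
  have h : ‖v‖ ^ 2 = v.re ^ 2 + v.im ^ 2 := by
    rw [← Complex.normSq_eq_norm_sq, Complex.normSq_apply]
    ring
  have h2 : ‖v‖ ^ 4 = (v.re ^ 2 + v.im ^ 2) ^ 2 := by
    rw [← h]
    ring
  rw [h2]
  nlinarith [sq_nonneg (v.re ^ 2 - v.im ^ 2)]

theorem mem_LL {F : Ω × Y → ℝ} {i : J × Y} (hi : i ∈ LL w S F) : 0 < aw w S F i := by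
  unfold LL at hi
  rw [Finset.mem_filter] at hi
  linarith [hi.2]

theorem bound [Nonempty X] (G : Ω × Y → ℝ)
    (h : ∑ x, ∑ σ, (qf w S x σ G G) ^ 2 ≤ 600 * (Fintype.card X * Fintype.card (CC J e))) :
    ∑ ξ, (Bop w S G ξ) ^ 4 ≤ 1800 * Fintype.card (Xi J X Y Ω e) := by
  refine (Bop_four w S G).trans ?_
  have hc : (Fintype.card (Xi J X Y Ω e) : ℝ) =
      Fintype.card X * (Fintype.card (CC J e) * Fintype.card (Ω × Y → ZMod 2)) := by
    rw [Fintype.card_prod, Fintype.card_prod]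
    push_cast
    ring
  have hn : (0 : ℝ) ≤ 3 * Fintype.card (Ω × Y → ZMod 2) := by positivity
  refine (mul_le_mul_of_nonneg_left h hn).trans (le_of_eq ?_)
  rw [hc]
  ring

end LineFour_

/-- `L⁴` bound on the line `Re = -1/2` -/
theorem line_four [Nonempty X] (hs : Small J Ω e δ) (F : Ω × Y → ℝ) (hF : nrm F ≤ 1) (z : ℂ)
    (hz : z.re = -(1 / 4)) :
    ∑ ξ, ‖(Bop w S (F - ∑ i ∈ LL w S F, Fi w S F i) ξ : ℂ) +
      ∑ i ∈ LL w S F, (aw w S F i : ℂ) ^ z * (Bop w S (Fi w S F i) ξ : ℂ)‖ ^ 4 ≤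
      10 ^ 4 * Fintype.card (Xi J X Y Ω e) := by
  set c : J × Y → ℂ := fun i => (aw w S F i : ℂ) ^ z with hc
  set G1 : Ω × Y → ℝ := (1 : ℝ) • F + ∑ i ∈ LL w S F, ((c i).re - 1) • Fi w S F i with hG1
  set G2 : Ω × Y → ℝ := (0 : ℝ) • F + ∑ i ∈ LL w S F, (c i).im • Fi w S F i with hG2
  have b1 := LineFour_.bound w S G1 (four_bound w S hs F hF 1 zero_le_one le_rfl
    (fun i => (c i).re - 1) (fun i hi => by
      have h := LineFour_.re_four (LineFour_.mem_LL w S hi) hz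
      have h2 : (1 + ((c i).re - 1)) = (c i).re := by ring
      show (1 + ((c i).re - 1)) ^ 4 * aw w S F i ≤ 1
      rw [h2]
      exact h) G1 hG1)
  have b2 := LineFour_.bound w S G2 (four_bound w S hs F hF 0 le_rfl zero_le_one
    (fun i => (c i).im) (fun i hi => by
      have h := LineFour_.im_four (LineFour_.mem_LL w S hi) hz
      show (0 + (c i).im) ^ 4 * aw w S F i ≤ 1
      rw [zero_add]
      exact h) G2 hG2)
  have e1 : ∀ ξ, ((Bop w S (F - ∑ i ∈ LL w S F, Fi w S F i) ξ : ℂ) +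
      ∑ i ∈ LL w S F, c i * (Bop w S (Fi w S F i) ξ : ℂ)).re = Bop w S G1 ξ := by
    intro ξ
    rw [hG1, Bop_add, Bop_sub, Bop_sum, Bop_sum, Bop_smul]
    simp only [Complex.add_re, Complex.re_sum, Complex.ofReal_re, Complex.mul_re,
      Complex.ofReal_im, mul_zero, sub_zero, Pi.add_apply, Pi.sub_apply, Finset.sum_apply,
      Pi.smul_apply, smul_eq_mul, one_mul]
    have : ∑ i ∈ LL w S F, Bop w S (((c i).re - 1) • Fi w S F i) ξ =
        ∑ i ∈ LL w S F, (c i).re * Bop w S (Fi w S F i) ξ -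
          ∑ i ∈ LL w S F, Bop w S (Fi w S F i) ξ := by
      rw [← Finset.sum_sub_distrib]
      refine Finset.sum_congr rfl fun i _ => ?_
      rw [Bop_smul, Pi.smul_apply, smul_eq_mul]
      ring
    rw [this]
    ring
  have e2 : ∀ ξ, ((Bop w S (F - ∑ i ∈ LL w S F, Fi w S F i) ξ : ℂ) +
      ∑ i ∈ LL w S F, c i * (Bop w S (Fi w S F i) ξ : ℂ)).im = Bop w S G2 ξ := by
    intro ξ
    rw [hG2, Bop_add, Bop_sum, Bop_smul]
    simp only [Complex.add_im, Complex.im_sum, Complex.ofReal_im, Complex.mul_im,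
      Complex.ofReal_re, mul_zero, zero_add, Pi.add_apply, Finset.sum_apply,
      Pi.smul_apply, smul_eq_mul, zero_mul]
    refine Finset.sum_congr rfl fun i _ => ?_
    rw [Bop_smul, Pi.smul_apply, smul_eq_mul]
  have hmain : ∀ ξ, ‖(Bop w S (F - ∑ i ∈ LL w S F, Fi w S F i) ξ : ℂ) +
      ∑ i ∈ LL w S F, c i * (Bop w S (Fi w S F i) ξ : ℂ)‖ ^ 4 ≤
      2 * Bop w S G1 ξ ^ 4 + 2 * Bop w S G2 ξ ^ 4 := by
    intro ξ
    have h := LineFour_.norm_le ((Bop w S (F - ∑ i ∈ LL w S F, Fi w S F i) ξ : ℂ) +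
      ∑ i ∈ LL w S F, c i * (Bop w S (Fi w S F i) ξ : ℂ))
    rw [e1, e2] at h
    exact h
  refine (Finset.sum_le_sum fun ξ _ => hmain ξ).trans ?_
  rw [Finset.sum_add_distrib, ← Finset.mul_sum, ← Finset.mul_sum]
  have hD : (0 : ℝ) ≤ Fintype.card (Xi J X Y Ω e) := Nat.cast_nonneg _
  nlinarith

end Main

end KPC
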