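import Pool.Agent.KPC.Basic

/-!
# The randomized measurement of `a ⊗ φ_{jτ}` vanishes unless the label agrees
-/

open Finset BigOperators

namespace KPC

namespace Vanish_

theorem chi1_single {e : ℕ} (α : Fin e) (b : Fin e → ZMod 2) :
    chi1 (Pi.single α 1) b = sg (b α) := by
  unfold chi1
  congr 1
  rw [Finset.sum_eq_single α]
  · simp
  · intro β _ hβ
    simp [Pi.single_eq_of_ne hβ]
  · intro h
    exact absurd (mem_univ α) h

theorem chi_single {J : Type} [Fintype J] [DecidableEq J] {e : ℕ} (j : J)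
    (a : Fin e → ZMod 2) (σ : CC J e) : chi (Pi.single j a) σ = chi1 a (σ j) := by
  unfold chi chi1
  congr 1
  rw [Finset.sum_eq_single j]
  · simp
  · intro l _ hl
    rw [Pi.single_eq_of_ne hl]
    simp
  · intro h
    exact absurd (mem_univ j) h

theorem chi_add {J : Type} [Fintype J] {e : ℕ} (c d σ : CC J e) :
    chi (c + d) σ = chi c σ * chi d σ := by
  unfold chi
  rw [← sg_add, ← Finset.sum_add_distrib]
  congr 1
  refine Finset.sum_congr rfl fun j _ => ?_
  rw [← Finset.sum_add_distrib]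
  refine Finset.sum_congr rfl fun α _ => ?_
  simp only [Pi.add_apply]
  ring

theorem sg_ne {a b : ZMod 2} (h : a ≠ b) : sg a * sg b = -1 := by
  have h1 : a + b ≠ 0 := by
    intro h2
    apply h
    have h3 : ∀ a b : ZMod 2, a + b = 0 → a = b := by decide
    exact h3 a b h2
  rw [← sg_add]
  unfold sg
  rw [if_neg h1]

theorem self_add {J : Type} {e : ℕ} (c : CC J e) : c + c = 0 := by
  funext j α
  simp only [Pi.add_apply, Pi.zero_apply]
  have h : ∀ a : ZMod 2, a + a = 0 := by decide
  exact h _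

end Vanish_

section Calc

variable {J X Y Ω : Type} [Fintype J] [DecidableEq J] [Fintype X] [Fintype Y] [DecidableEq Y]
  [Fintype Ω] [DecidableEq Ω] {e : ℕ} {δ : ℝ} (w : WeylSys J X Y e δ) (S : J → Finset Ω)

theorem PiOp_vanish (x : X) (σ : CC J e) (j : J) (τ : Y) (a : Ω → ℝ) (ha : ∀ ω, ω ∉ S j → a ω = 0)
    (hne : w.h x j τ ≠ σ j) : PiOp w S x σ (ten a (w.φ j τ)) = 0 := by
  funext p
  obtain ⟨ω, y⟩ := p
  have e1 : (fun y' : Y => ten a (w.φ j τ) (ω, y')) = a ω • w.φ j τ := by
    funext y'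
    simp [ten]
  unfold PiOp
  simp only [Pi.zero_apply]
  rw [e1]
  by_cases hω : ω ∈ S j
  · obtain ⟨α, hα⟩ := Function.ne_iff.1 hne
    set a0 : Fin e → ZMod 2 := Pi.single α 1 with ha0
    set u : CC J e := Pi.single j a0 with hu
    have hum : ∀ l, ω ∉ S l → u l = 0 := by
      intro l hl
      have hlj : l ≠ j := by
        rintro rfl
        exact hl hω
      rw [hu, Pi.single_eq_of_ne hlj]
    have hlab : ∀ c ∈ lab e S ω, c + u ∈ lab e S ω := by
      intro c hc
      unfold lab at hc ⊢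
      rw [mem_filter] at hc ⊢
      refine ⟨mem_univ _, fun l hl => ?_⟩
      rw [Pi.add_apply, hc.2 l hl, hum l hl, add_zero]
    set f : CC J e → ℝ := fun c => chi c σ * ((w.W x c).mulVec (a ω • w.φ j τ)) y with hf
    have hshift : ∑ c ∈ lab e S ω, f c = ∑ c ∈ lab e S ω, f (c + u) := by
      refine Finset.sum_nbij' (fun c => c + u) (fun c => c + u) hlab hlab ?_ ?_ ?_
      · intro c _
        rw [add_assoc, Vanish_.self_add, add_zero]
      · intro c _
        rw [add_assoc, Vanish_.self_add, add_zero]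
      · intro c _
        rw [add_assoc, Vanish_.self_add, add_zero]
    have hfu : ∀ c, f (c + u) = -f c := by
      intro c
      have h1 : (w.W x (c + u)).mulVec (a ω • w.φ j τ) =
          chi1 a0 (w.h x j τ) • (w.W x c).mulVec (a ω • w.φ j τ) := by
        rw [w.W_add, ← Matrix.mulVec_mulVec, Matrix.mulVec_smul, hu, w.W_φ, smul_comm,
          Matrix.mulVec_smul]
      have h2 : chi (c + u) σ = chi c σ * chi1 a0 (σ j) := by
        rw [Vanish_.chi_add, hu, Vanish_.chi_single]
      have h3 : chi1 a0 (w.h x j τ) * chi1 a0 (σ j) = -1 := by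
        rw [ha0, Vanish_.chi1_single, Vanish_.chi1_single]
        exact Vanish_.sg_ne hα
      simp only [hf]
      rw [h1, h2, Pi.smul_apply, smul_eq_mul]
      have h4 : chi c σ * chi1 a0 (σ j) * (chi1 a0 (w.h x j τ) *
          ((w.W x c).mulVec (a ω • w.φ j τ)) y) =
          (chi1 a0 (w.h x j τ) * chi1 a0 (σ j)) *
            (chi c σ * ((w.W x c).mulVec (a ω • w.φ j τ)) y) := by ring
      rw [h4, h3]
      ring
    have hs : ∑ c ∈ lab e S ω, f c = 0 := by
      have h5 : ∑ c ∈ lab e S ω, f c = -∑ c ∈ lab e S ω, f c := by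
        rw [← Finset.sum_neg_distrib]
        conv_lhs => rw [hshift]
        exact Finset.sum_congr rfl fun c _ => hfu c
      linarith
    have h6 : ∑ c ∈ lab e S ω, chi c σ * ((w.W x c).mulVec (a ω • w.φ j τ)) y = 0 := hs
    rw [h6, mul_zero]
  · rw [ha ω hω, zero_smul]
    simp

end Calc

end KPC
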