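import Pool.Agent.KPC.SumQf
import Pool.Agent.KPC.Vanish

/-!
# KPC-E9: mean of the norm of the measurement of `a ⊗ φ_{jτ}`
-/

open Finset BigOperators

namespace KPC

namespace SumNrm_

theorem card_label_le {J : Type} [Fintype J] [DecidableEq J] {e : ℕ} (j : J)
    (b : Fin e → ZMod 2) :
    (univ.filter fun σ : CC J e => b = σ j).card * 2 ^ e ≤ Fintype.card (CC J e) := by
  have h1 : Fintype.card (Fin e → ZMod 2) = 2 ^ e := by simp [ZMod.card]
  rw [← h1, ← Finset.card_univ (α := Fin e → ZMod 2), ← card_product, ← Finset.card_univ]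
  refine card_le_card_of_injOn (fun p => Function.update p.1 j p.2) (fun _ _ => mem_coe.2 (mem_univ _)) ?_
  rintro ⟨σ, c⟩ hσ ⟨σ', c'⟩ hσ' h
  rw [mem_coe, mem_product, mem_filter] at hσ hσ'
  have h3 : b = σ j := hσ.1.2
  have h4 : b = σ' j := hσ'.1.2
  have h : Function.update σ j c = Function.update σ' j c' := h
  have h5 : c = c' := by
    have := congrFun h j
    simpa using this
  have h6 : σ = σ' := by
    funext l
    by_cases hl : l = j
    · subst hl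
      rw [← h3, ← h4]
    · have := congrFun h l
      rwa [Function.update_of_ne hl, Function.update_of_ne hl] at this
  rw [h5, h6]

end SumNrm_

section Calc

variable {J X Y Ω : Type} [Fintype J] [DecidableEq J] [Fintype X] [Fintype Y] [DecidableEq Y]
  [Fintype Ω] [DecidableEq Ω] {e : ℕ} {δ : ℝ} (w : WeylSys J X Y e δ) (S : J → Finset Ω)

theorem SumNrm_.one (x : X) (j : J) (τ : Y) (a : Ω → ℝ) (ha : ∀ ω, ω ∉ S j → a ω = 0) :
    ∑ σ, nrm (PiOp w S x σ (ten a (w.φ j τ))) ≤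
      Fintype.card (CC J e) * (Real.sqrt (2 ^ e))⁻¹ * nrm a := by
  classical
  set F := ten a (w.φ j τ) with hF
  set A : Finset (CC J e) := univ.filter fun σ : CC J e => w.h x j τ = σ j with hA
  have h1 : ∑ σ, nrm (PiOp w S x σ F) = ∑ σ ∈ A, nrm (PiOp w S x σ F) := by
    symm
    apply Finset.sum_subset (subset_univ _)
    intro σ _ hσ
    have h2 : w.h x j τ ≠ σ j := by
      intro h3
      exact hσ (by rw [hA, mem_filter]; exact ⟨mem_univ _, h3⟩)
    rw [hF, PiOp_vanish w S x σ j τ a ha h2, nrm_zero]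
  have h2 : ∑ σ ∈ A, nrm (PiOp w S x σ F) ^ 2 ≤ Fintype.card (CC J e) * nsq a := by
    have h3 : ∑ σ ∈ A, nrm (PiOp w S x σ F) ^ 2 ≤ ∑ σ, nrm (PiOp w S x σ F) ^ 2 :=
      Finset.sum_le_sum_of_subset_of_nonneg (subset_univ _) fun _ _ _ => sq_nonneg _
    have h4 : ∑ σ, nrm (PiOp w S x σ F) ^ 2 = ∑ σ, qf w S x σ F F :=
      Finset.sum_congr rfl fun σ _ => (ip_self _).symm
    have h5 : ip F F = nsq a := by
      rw [← nsq_eq_ip, hF, nsq_ten, nsq_eq_ip (w.φ j τ), w.φ_on, if_pos rfl, mul_one]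
    rw [h4, sum_qf, h5] at h3
    exact h3
  have h3 : (∑ σ ∈ A, nrm (PiOp w S x σ F)) ^ 2 ≤ A.card * ∑ σ ∈ A, nrm (PiOp w S x σ F) ^ 2 :=
    sq_sum_le_card_mul_sum_sq
  have h4 : (A.card : ℝ) * 2 ^ e ≤ Fintype.card (CC J e) := by
    exact_mod_cast SumNrm_.card_label_le j (w.h x j τ)
  have h5 : (0 : ℝ) < 2 ^ e := by positivity
  have h6 : (0 : ℝ) ≤ nsq a := nsq_nonneg a
  rw [h1]
  apply le_of_sq_le_sq _ (by have := nrm_nonneg a; positivity)
  rw [mul_pow, mul_pow, nrm_sq, inv_pow, Real.sq_sqrt h5.le]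
  calc (∑ σ ∈ A, nrm (PiOp w S x σ F)) ^ 2
      ≤ A.card * ∑ σ ∈ A, nrm (PiOp w S x σ F) ^ 2 := h3
    _ ≤ A.card * (Fintype.card (CC J e) * nsq a) :=
        mul_le_mul_of_nonneg_left h2 (Nat.cast_nonneg _)
    _ ≤ (Fintype.card (CC J e) * (2 ^ e)⁻¹) * (Fintype.card (CC J e) * nsq a) := by
        apply mul_le_mul_of_nonneg_right _ (by positivity)
        rw [← div_eq_mul_inv, le_div_iff₀ h5]
        exact h4
    _ = (Fintype.card (CC J e) : ℝ) ^ 2 * (2 ^ e)⁻¹ * nsq a := by ring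

theorem sum_nrm_PiOp (j : J) (τ : Y) (a : Ω → ℝ) (ha : ∀ ω, ω ∉ S j → a ω = 0) :
    ∑ x, ∑ σ, nrm (PiOp w S x σ (ten a (w.φ j τ))) ≤
      Fintype.card X * Fintype.card (CC J e) * (Real.sqrt (2 ^ e))⁻¹ * nrm a := by
  calc ∑ x, ∑ σ, nrm (PiOp w S x σ (ten a (w.φ j τ)))
      ≤ ∑ _x : X, Fintype.card (CC J e) * (Real.sqrt (2 ^ e))⁻¹ * nrm a :=
        Finset.sum_le_sum fun x _ => SumNrm_.one w S x j τ a ha
    _ = Fintype.card X * Fintype.card (CC J e) * (Real.sqrt (2 ^ e))⁻¹ * nrm a := by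
        rw [Finset.sum_const, Finset.card_univ, nsmul_eq_mul]
        ring

end Calc

end KPC
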