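import Pool.Agent.KPC.BopFacts
import Pool.Agent.KPC.SumNrm
import Pool.Agent.KPC.Four

/-!
# Project KPC: the `L¹` bound on the right line
-/

open Finset BigOperators

namespace KPC

section Main

variable {J X Y Ω : Type} [Fintype J] [DecidableEq J] [Fintype X] [Fintype Y] [DecidableEq Y]
  [Fintype Ω] [DecidableEq Ω] {e : ℕ} {δ : ℝ} (w : WeylSys J X Y e δ) (S : J → Finset Ω)

namespace LineOne_

theorem nsq_phi (j : J) (τ : Y) : nsq (w.φ j τ) = 1 := by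
  rw [nsq_eq_ip, w.φ_on, if_pos rfl]

theorem nsq_Fi (F : Ω × Y → ℝ) (i : J × Y) : nsq (Fi w S F i) = nsq (Pc w S i F) := by
  unfold Fi
  rw [nsq_ten, nsq_phi, mul_one]

theorem sum_abs_le (G : Ω × Y → ℝ) :
    ∑ ξ, |Bop w S G ξ| ≤ Fintype.card (Xi J X Y Ω e) * nrm G := by
  have h1 : (∑ ξ, |Bop w S G ξ|) ^ 2 ≤
      (Fintype.card (Xi J X Y Ω e) : ℝ) * ∑ ξ, |Bop w S G ξ| ^ 2 := by
    have := sq_sum_le_card_mul_sum_sq (s := (univ : Finset (Xi J X Y Ω e)))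
      (f := fun ξ => |Bop w S G ξ|)
    rwa [Finset.card_univ] at this
  have h2 : ∑ ξ, |Bop w S G ξ| ^ 2 = Fintype.card (Xi J X Y Ω e) * nsq G := by
    rw [nsq_eq_ip, ← Bop_ip w S G G]
    refine Finset.sum_congr rfl fun ξ _ => ?_
    rw [sq_abs, sq]
  rw [h2] at h1
  refine abs_le_of_sq_le_sq' ?_ (by have := nrm_nonneg G; positivity) |>.2
  rw [mul_pow, nrm_sq]
  calc _ ≤ _ := h1
    _ = _ := by ring

theorem card_Xi : (Fintype.card (Xi J X Y Ω e) : ℝ) =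
    Fintype.card X * (Fintype.card (CC J e) * Fintype.card (Ω × Y → ZMod 2)) := by
  unfold Xi
  rw [Fintype.card_prod, Fintype.card_prod]
  push_cast
  ring

theorem term_le (F : Ω × Y → ℝ) (i : J × Y) (z : ℂ) (hz : z.re = 1 / 2)
    (hi : 1 ≤ aw w S F i) :
    ∑ ξ, ‖(aw w S F i : ℂ) ^ z * (Bop w S (Fi w S F i) ξ : ℂ)‖ ≤
      Fintype.card (Xi J X Y Ω e) * nsq (Fi w S F i) := by
  have hpos : 0 < aw w S F i := by linarith
  have h1 : ∀ ξ, ‖(aw w S F i : ℂ) ^ z * (Bop w S (Fi w S F i) ξ : ℂ)‖ =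
      Real.sqrt (aw w S F i) * |Bop w S (Fi w S F i) ξ| := by
    intro ξ
    rw [norm_mul, Complex.norm_cpow_eq_rpow_re_of_pos hpos, hz, Complex.norm_real,
      Real.norm_eq_abs, Real.sqrt_eq_rpow]
  rw [Finset.sum_congr rfl fun ξ _ => h1 ξ, ← Finset.mul_sum]
  have h2 := Bop_abs w S (Fi w S F i)
  have h3 := sum_nrm_PiOp w S i.1 i.2 (Pc w S i F)
    (fun ω hω => by unfold Pc; rw [if_neg hω])
  have h4 : ∑ x, ∑ σ, nrm (PiOp w S x σ (Fi w S F i)) ≤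
      Fintype.card X * Fintype.card (CC J e) * (Real.sqrt (2 ^ e))⁻¹ * nrm (Pc w S i F) := h3
  have h5 : Real.sqrt (aw w S F i) = Real.sqrt (2 ^ e) * nrm (Pc w S i F) := by
    unfold aw nrm
    rw [Real.sqrt_mul (by positivity)]
  have hs : Real.sqrt ((2 : ℝ) ^ e) ≠ 0 := by positivity
  have hn := nrm_nonneg (Pc w S i F)
  calc Real.sqrt (aw w S F i) * ∑ ξ, |Bop w S (Fi w S F i) ξ|
      ≤ Real.sqrt (aw w S F i) * (Fintype.card (Ω × Y → ZMod 2) *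
        (Fintype.card X * Fintype.card (CC J e) * (Real.sqrt (2 ^ e))⁻¹ *
          nrm (Pc w S i F))) := by
        refine mul_le_mul_of_nonneg_left (h2.trans ?_) (Real.sqrt_nonneg _)
        exact mul_le_mul_of_nonneg_left h4 (by positivity)
    _ = Fintype.card (Xi J X Y Ω e) * nsq (Fi w S F i) := by
        rw [h5, nsq_Fi, ← nrm_sq, card_Xi]
        field_simp

end LineOne_

open LineOne_

/-- `L¹` bound on the line `Re = 1` -/
theorem line_one [Nonempty X] (hs : Small J Ω e δ) (F : Ω × Y → ℝ) (hF : nrm F ≤ 1) (z : ℂ)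
    (hz : z.re = 1 / 2) :
    ∑ ξ, ‖(Bop w S (F - ∑ i ∈ LL w S F, Fi w S F i) ξ : ℂ) +
      ∑ i ∈ LL w S F, (aw w S F i : ℂ) ^ z * (Bop w S (Fi w S F i) ξ : ℂ)‖ ≤
      10 * Fintype.card (Xi J X Y Ω e) := by
  obtain ⟨hE1, hE2⟩ := large_energy w S hs F hF
  have hc : (0 : ℝ) ≤ Fintype.card (Xi J X Y Ω e) := by positivity
  have h1 : ∀ ξ, ‖(Bop w S (F - ∑ i ∈ LL w S F, Fi w S F i) ξ : ℂ) +
      ∑ i ∈ LL w S F, (aw w S F i : ℂ) ^ z * (Bop w S (Fi w S F i) ξ : ℂ)‖ ≤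
      |Bop w S (F - ∑ i ∈ LL w S F, Fi w S F i) ξ| +
      ∑ i ∈ LL w S F, ‖(aw w S F i : ℂ) ^ z * (Bop w S (Fi w S F i) ξ : ℂ)‖ := by
    intro ξ
    refine (norm_add_le _ _).trans ?_
    rw [Complex.norm_real, Real.norm_eq_abs]
    exact add_le_add le_rfl (norm_sum_le _ _)
  refine (Finset.sum_le_sum fun ξ _ => h1 ξ).trans ?_
  rw [Finset.sum_add_distrib, Finset.sum_comm]
  have h2 := sum_abs_le w S (F - ∑ i ∈ LL w S F, Fi w S F i)
  have h3 : nrm (F - ∑ i ∈ LL w S F, Fi w S F i) ≤ 5 / 2 := by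
    have := nrm_sub_le F (∑ i ∈ LL w S F, Fi w S F i)
    linarith
  have h4 : ∑ i ∈ LL w S F, ∑ ξ, ‖(aw w S F i : ℂ) ^ z * (Bop w S (Fi w S F i) ξ : ℂ)‖ ≤
      ∑ i ∈ LL w S F, Fintype.card (Xi J X Y Ω e) * nsq (Fi w S F i) := by
    refine Finset.sum_le_sum fun i hi => term_le w S F i z hz ?_
    unfold LL at hi
    exact (Finset.mem_filter.1 hi).2
  rw [← Finset.mul_sum] at h4
  nlinarith [mul_le_mul_of_nonneg_left h3 hc, mul_le_mul_of_nonneg_left hE1 hc]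

end Main

end KPC
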