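import Pool.Agent.KPC.Basic

/-!
# `Φ` as a sum over the large indices
-/

open Finset BigOperators

namespace KPC

section Main

variable {J X Y Ω : Type} [Fintype J] [DecidableEq J] [Fintype X] [Fintype Y] [DecidableEq Y]
  [Fintype Ω] [DecidableEq Ω] {e : ℕ} {δ : ℝ} (w : WeylSys J X Y e δ) (S : J → Finset Ω)

theorem Phi_eq (F : Ω × Y → ℝ) :
    Phi w S F = ∑ i ∈ LL w S F, (Real.log (aw w S F i) / 2) • Fi w S F i := by
  classical
  unfold Phi LL
  rw [Finset.sum_filter]
  refine Finset.sum_congr rfl fun i _ => ?_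
  unfold psi Fi
  rw [ten_smul_left]
  by_cases h0 : Pc w S i F = 0
  · rw [h0]
    simp [aw, h0]
  · have hn : 0 < nrm (Pc w S i F) :=
      lt_of_le_of_ne (nrm_nonneg _) fun h => h0 (nrm_eq_zero.1 h.symm)
    have he : Mlog e + Real.log (nrm (Pc w S i F)) = Real.log (aw w S F i) / 2 := by
      unfold Mlog aw
      rw [← nrm_sq, Real.log_mul (by positivity) (by positivity), Real.log_pow, Real.log_pow]
      push_cast
      ring
    rw [he]
    have ha : 0 < aw w S F i := by
      unfold aw
      rw [← nrm_sq]
      positivity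
    by_cases h : 1 ≤ aw w S F i
    · rw [if_pos h, max_eq_right (div_nonneg (Real.log_nonneg h) (by norm_num))]
    · have h1 := Real.log_nonpos ha.le (not_le.1 h).le
      rw [if_neg h, max_eq_left (by linarith), zero_smul]

end Main

end KPC
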