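import Pool.Agent.KPC.Interp
import Pool.Agent.KPC.BopFacts
import Pool.Agent.KPC.AopFacts
import Pool.Agent.KPC.PhiEq
import Pool.Agent.KPC.LineFour
import Pool.Agent.KPC.LineOne

/-! # KPC, group G: the key estimate (helper48) -/

open Finset BigOperators

namespace KPC

section Main

variable {J X Y Ω : Type} [Fintype J] [DecidableEq J] [Fintype X] [Fintype Y] [DecidableEq Y]
  [Fintype Ω] [DecidableEq Ω] {e : ℕ} {δ : ℝ} (w : WeylSys J X Y e δ) (S : J → Finset Ω)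

namespace Key_

instance [Nonempty X] : Nonempty (Xi J X Y Ω e) :=
  ⟨(Classical.arbitrary X, fun _ _ => 0, fun _ => 0)⟩

theorem sqrtD [Nonempty X] : 0 < Real.sqrt (Fintype.card (Xi J X Y Ω e) : ℝ) :=
  Real.sqrt_pos.2 (Nat.cast_pos.2 Fintype.card_pos)

theorem Bop_eq [Nonempty X] (F : Ω × Y → ℝ) (ξ : Xi J X Y Ω e) :
    Bop w S F ξ = Real.sqrt (Fintype.card (Xi J X Y Ω e) : ℝ) * Aop w S F ξ := by
  unfold Aop
  rw [mul_inv_cancel_left₀ (sqrtD (J := J) (X := X) (Y := Y) (Ω := Ω) (e := e)).ne']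

theorem Aop_sub_add (F : Ω × Y → ℝ) (s : Finset (J × Y)) (G : J × Y → Ω × Y → ℝ) :
    Aop w S F = Aop w S (F - ∑ i ∈ s, G i) + ∑ i ∈ s, Aop w S (G i) := by
  have h : ∀ H : Ω × Y → ℝ, Aop w S H = (Amat w S).mulVecLin H := fun H =>
    (Amat_mulVec w S H).symm
  simp only [h]
  rw [map_sub, map_sum, sub_add_cancel]

theorem Aop_sum_smul (s : Finset (J × Y)) (c : J × Y → ℝ) (G : J × Y → Ω × Y → ℝ) :
    Aop w S (∑ i ∈ s, c i • G i) = ∑ i ∈ s, c i • Aop w S (G i) := by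
  have h : ∀ H : Ω × Y → ℝ, Aop w S H = (Amat w S).mulVecLin H := fun H =>
    (Amat_mulVec w S H).symm
  simp only [h]
  rw [map_sum]
  simp only [map_smul]

theorem mem_LL {F : Ω × Y → ℝ} {i : J × Y} : i ∈ LL w S F ↔ 1 ≤ aw w S F i := by
  classical
  unfold LL
  simp

end Key_

open Key_ in
/-- the key estimate -/
theorem key_estimate [Nonempty X] (hs : Small J Ω e δ) (F : Ω × Y → ℝ) (hF : nrm F ≤ 1) :
    nrm (K1 (Fintype.card (Xi J X Y Ω e)) (Aop w S F) - Aop w S (Phi w S F)) ≤ 22 := by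
  have hD : (0 : ℝ) < Fintype.card (Xi J X Y Ω e) := Nat.cast_pos.2 Fintype.card_pos
  have hq : 0 < Real.sqrt (Fintype.card (Xi J X Y Ω e) : ℝ) := Real.sqrt_pos.2 hD
  have hqq : Real.sqrt (Fintype.card (Xi J X Y Ω e) : ℝ) *
      Real.sqrt (Fintype.card (Xi J X Y Ω e) : ℝ) = Fintype.card (Xi J X Y Ω e) :=
    Real.mul_self_sqrt hD.le
  refine nrm_le_of_ip (by norm_num) fun y hy => ?_
  have key := interp (LL w S F) (Bop w S F)
    (fun ξ => Real.sqrt (Fintype.card (Xi J X Y Ω e) : ℝ) * y ξ)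
    (Bop w S (F - ∑ i ∈ LL w S F, Fi w S F i)) (fun i => Bop w S (Fi w S F i)) (aw w S F)
    (fun i hi => lt_of_lt_of_le one_pos ((mem_LL w S).1 hi)) 10 (by norm_num)
    (fun ξ => by
      have h := congrFun (Aop_sub_add w S F (LL w S F) (Fi w S F)) ξ
      rw [Pi.add_apply, Finset.sum_apply] at h
      simp only [Bop_eq]
      rw [h, mul_add, Finset.mul_sum])
    (by
      have h := Bop_ip w S F F
      have h2 : ∑ ξ, Bop w S F ξ ^ 2 = Fintype.card (Xi J X Y Ω e) * ip F F := by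
        rw [← h]
        exact Finset.sum_congr rfl fun ξ _ => sq _
      rw [h2, ip_self]
      have h3 : nrm F ^ 2 ≤ 1 := pow_le_one₀ (nrm_nonneg F) hF
      nlinarith)
    (by
      have h2 : ∑ ξ, (Real.sqrt (Fintype.card (Xi J X Y Ω e) : ℝ) * y ξ) ^ 2 =
          Fintype.card (Xi J X Y Ω e) * nsq y := by
        unfold nsq
        rw [Finset.mul_sum]
        refine Finset.sum_congr rfl fun ξ _ => ?_
        rw [mul_pow, sq, hqq]
      rw [h2, ← nrm_sq, hy]
      simp)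
    (fun t => line_four w S hs F hF _ (by simp; norm_num))
    (fun t => line_one w S hs F hF _ (by simp))
  have hv : ∑ ξ, ((∑ i ∈ LL w S F, Real.log (aw w S F i) / 2 * Bop w S (Fi w S F i) ξ) -
      Bop w S F ξ * Real.log |Bop w S F ξ|) *
        (Real.sqrt (Fintype.card (Xi J X Y Ω e) : ℝ) * y ξ) =
      -(Fintype.card (Xi J X Y Ω e) *
        ip (K1 (Fintype.card (Xi J X Y Ω e)) (Aop w S F) - Aop w S (Phi w S F)) y) := by
    unfold ip
    rw [Finset.mul_sum, ← Finset.sum_neg_distrib]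
    refine Finset.sum_congr rfl fun ξ _ => ?_
    have h1 : ∑ i ∈ LL w S F, Real.log (aw w S F i) / 2 * Bop w S (Fi w S F i) ξ =
        Real.sqrt (Fintype.card (Xi J X Y Ω e) : ℝ) * Aop w S (Phi w S F) ξ := by
      rw [Phi_eq, Aop_sum_smul, Finset.sum_apply, Finset.mul_sum]
      refine Finset.sum_congr rfl fun i _ => ?_
      rw [Bop_eq, Pi.smul_apply, smul_eq_mul]
      ring
    have h2 : Bop w S F ξ * Real.log |Bop w S F ξ| =
        Real.sqrt (Fintype.card (Xi J X Y Ω e) : ℝ) *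
          K1 (Fintype.card (Xi J X Y Ω e)) (Aop w S F) ξ := by
      unfold K1
      rw [Bop_eq, abs_mul, abs_of_pos hq]
      ring
    rw [h1, h2, Pi.sub_apply]
    linear_combination (Aop w S (Phi w S F) ξ -
      K1 (Fintype.card (Xi J X Y Ω e)) (Aop w S F) ξ) * y ξ * hqq
  rw [hv, abs_neg, abs_mul, abs_of_pos hD] at key
  have h5 : (Fintype.card (Xi J X Y Ω e) : ℝ) *
      |ip (K1 (Fintype.card (Xi J X Y Ω e)) (Aop w S F) - Aop w S (Phi w S F)) y| ≤
      Fintype.card (Xi J X Y Ω e) * 22 := by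
    refine key.trans (le_of_eq ?_)
    ring
  exact le_of_mul_le_mul_left h5 hD

end Main

end KPC
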