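import Pool.Agent.KPC.Basic

/-!
# KPC-H3: `Φ` on elementary tensors
-/

open Finset BigOperators

namespace KPC

section Main

variable {J X Y Ω : Type} [Fintype J] [DecidableEq J] [Fintype X] [Fintype Y] [DecidableEq Y]
  [Fintype Ω] [DecidableEq Ω] {e : ℕ} {δ : ℝ} (w : WeylSys J X Y e δ) (S : J → Finset Ω)

namespace PhiTen_

theorem pc_eq (a : Ω → ℝ) (f : Y → ℝ) (i : J × Y) :
    Pc w S i (ten a f) = ip (w.φ i.1 i.2) f • (dproj (S i.1)).mulVec a := by
  funext ω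
  rw [Pi.smul_apply, dproj_mulVec]
  unfold Pc coef
  have h : (fun y => ten a f (ω, y)) = a ω • f := by
    funext y
    simp [ten]
  rw [h, ip_smul_right]
  by_cases hω : ω ∈ S i.1
  · simp [hω, mul_comm]
  · simp [hω]

theorem psi_zero : psi e (0 : Ω → ℝ) = 0 := by
  unfold psi
  rw [smul_zero]

theorem mlog_nonneg : 0 ≤ Mlog e := by
  unfold Mlog
  have := Real.log_nonneg (by norm_num : (1 : ℝ) ≤ 2)
  positivity

theorem small_le (hs : Small J Ω e δ) : (2 : ℝ) ^ e * δ ≤ 1 := by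
  obtain ⟨h0, h1⟩ := hs
  have e1 : (1 : ℝ) ≤ (2 : ℝ) ^ e := one_le_pow₀ (by norm_num)
  have e2 : (1 : ℝ) ≤ ((2 : ℝ) ^ e) ^ Fintype.card J := one_le_pow₀ e1
  have e3 : (1 : ℝ) ≤ ((Fintype.card J : ℝ) + 1) ^ 3 := one_le_pow₀ (by
    have : (0 : ℝ) ≤ Fintype.card J := Nat.cast_nonneg _
    linarith)
  have e4 : (1 : ℝ) ≤ (Fintype.card Ω : ℝ) + 1 := by
    have : (0 : ℝ) ≤ Fintype.card Ω := Nat.cast_nonneg _
    linarith
  have e5 : (2 : ℝ) ^ e ≤ ((2 : ℝ) ^ e) ^ 3 := by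
    calc (2 : ℝ) ^ e = ((2 : ℝ) ^ e) ^ 1 := (pow_one _).symm
      _ ≤ ((2 : ℝ) ^ e) ^ 3 := pow_le_pow_right₀ e1 (by norm_num)
  have e6 : (2 : ℝ) ^ e ≤ 16 * ((2 : ℝ) ^ e) ^ 3 := by
    have : (0 : ℝ) ≤ ((2 : ℝ) ^ e) ^ 3 := by positivity
    linarith
  have e7 : (2 : ℝ) ^ e ≤ 16 * ((2 : ℝ) ^ e) ^ 3 * ((Fintype.card J : ℝ) + 1) ^ 3 :=
    e6.trans (le_mul_of_one_le_right (by positivity) e3)
  have e8 : (2 : ℝ) ^ e ≤ 16 * ((2 : ℝ) ^ e) ^ 3 * ((Fintype.card J : ℝ) + 1) ^ 3 *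
      ((Fintype.card Ω : ℝ) + 1) :=
    e7.trans (le_mul_of_one_le_right (by positivity) e4)
  have e9 : (2 : ℝ) ^ e ≤ 16 * ((2 : ℝ) ^ e) ^ 3 * ((Fintype.card J : ℝ) + 1) ^ 3 *
      ((Fintype.card Ω : ℝ) + 1) * ((2 : ℝ) ^ e) ^ Fintype.card J :=
    e8.trans (le_mul_of_one_le_right (by positivity) e2)
  exact (mul_le_mul_of_nonneg_right e9 h0).trans h1

theorem psi_small (hs : Small J Ω e δ) (b : Ω → ℝ) (hb : nrm b ≤ δ) : psi e b = 0 := by
  by_cases h0 : nrm b = 0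
  · rw [nrm_eq_zero.1 h0, psi_zero]
  · have hpos : 0 < nrm b := lt_of_le_of_ne (nrm_nonneg b) (Ne.symm h0)
    have hδ : 0 < δ := hpos.trans_le hb
    have h1 := small_le hs
    have e1 : (1 : ℝ) ≤ (2 : ℝ) ^ e := one_le_pow₀ (by norm_num)
    have h2 : δ ≤ 1 := by nlinarith
    have h3 : (2 : ℝ) ^ e * δ ^ 2 ≤ 1 := by nlinarith
    have h4 : Mlog e + Real.log δ ≤ 0 := by
      have h5 := Real.log_nonpos (by positivity) h3
      rw [Real.log_mul (by positivity) (by positivity), Real.log_pow, Real.log_pow] at h5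
      unfold Mlog
      push_cast at h5
      linarith
    have h6 : Mlog e + Real.log (nrm b) ≤ 0 := by
      have := Real.log_le_log hpos hb
      linarith
    unfold psi
    rw [max_eq_left h6, zero_smul]

theorem dproj_le (s : Finset Ω) (a : Ω → ℝ) : nrm ((dproj s).mulVec a) ≤ nrm a := by
  have := OpLe_dproj s a
  linarith

theorem nrm_phi (j : J) (τ : Y) : nrm (w.φ j τ) = 1 := by
  have h := w.φ_on j τ τ
  rw [if_pos rfl, ip_self] at h
  have h0 := nrm_nonneg (w.φ j τ)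
  nlinarith

end PhiTen_

open PhiTen_ in
theorem Phi_ten [Nonempty X] (hs : Small J Ω e δ) (a : Ω → ℝ) (ha : nrm a ≤ 1) (j : J) (τ : Y) :
    nrm (Phi w S (ten a (w.φ j τ)) - Mlog e • ten ((dproj (S j)).mulVec a) (w.φ j τ)) ≤ 1 := by
  classical
  set b : Ω → ℝ := (dproj (S j)).mulVec a with hb
  have hsum : Phi w S (ten a (w.φ j τ)) = ten (psi e b) (w.φ j τ) := by
    unfold Phi
    rw [Finset.sum_eq_single (j, τ)]
    · rw [pc_eq, w.φ_on j τ τ, if_pos rfl, one_smul]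
    · rintro ⟨l, τ'⟩ - hne
      rw [pc_eq]
      by_cases hl : l = j
      · subst hl
        have hτ : τ' ≠ τ := fun h => hne (by rw [h])
        rw [w.φ_on l τ' τ, if_neg hτ, zero_smul, psi_zero, ten_zero_left]
      · have h1 : |ip (w.φ l τ') (w.φ j τ)| ≤ δ := by
          obtain ⟨x⟩ := (inferInstance : Nonempty X)
          have h := w.mub x 0 l j τ' τ hl
          rw [w.W_zero, Matrix.one_mulVec] at h
          exact h
        have h2 : nrm (ip (w.φ l τ') (w.φ j τ) • (dproj (S l)).mulVec a) ≤ δ := by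
          rw [nrm_smul]
          have h3 := dproj_le (S l) a
          have h4 := nrm_nonneg ((dproj (S l)).mulVec a)
          calc |ip (w.φ l τ') (w.φ j τ)| * nrm ((dproj (S l)).mulVec a)
              ≤ δ * 1 := mul_le_mul h1 (h3.trans ha) h4 hs.1
            _ = δ := mul_one _
        show ten (psi e (ip (w.φ l τ') (w.φ j τ) • (dproj (S l)).mulVec a)) (w.φ l τ') = 0
        rw [psi_small hs _ h2, ten_zero_left]
    · intro h
      exact absurd (Finset.mem_univ _) h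
  rw [hsum, ← ten_smul_left, ← ten_sub_left, nrm_ten, nrm_phi, mul_one]
  have hb1 : nrm b ≤ 1 := (dproj_le (S j) a).trans ha
  unfold psi
  rw [← sub_smul, nrm_smul]
  by_cases h0 : nrm b = 0
  · rw [h0, mul_zero]
    exact zero_le_one
  · have hpos : 0 < nrm b := lt_of_le_of_ne (nrm_nonneg b) (Ne.symm h0)
    have hM := mlog_nonneg (e := e)
    have h1 : Real.log (nrm b) ≤ 0 := Real.log_nonpos (nrm_nonneg b) hb1
    have h2 := Real.one_sub_inv_le_log_of_pos hpos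
    have h3 : |max 0 (Mlog e + Real.log (nrm b)) - Mlog e| ≤ (nrm b)⁻¹ - 1 := by
      rw [abs_le]
      constructor
      · have := le_max_right 0 (Mlog e + Real.log (nrm b))
        linarith
      · have h4 : max 0 (Mlog e + Real.log (nrm b)) ≤ Mlog e := max_le hM (by linarith)
        have h5 : 1 ≤ (nrm b)⁻¹ := (one_le_inv₀ hpos).2 hb1
        linarith
    calc |max 0 (Mlog e + Real.log (nrm b)) - Mlog e| * nrm b
        ≤ ((nrm b)⁻¹ - 1) * nrm b := mul_le_mul_of_nonneg_right h3 hpos.le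
      _ = 1 - nrm b := by
        rw [sub_mul, inv_mul_cancel₀ h0, one_mul]
      _ ≤ 1 := by linarith

end Main

end KPC
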