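import Pool.Agent.KPC.KP
import Pool.Agent.KPC.Key
import Pool.Agent.KPC.AopFacts
import Pool.Agent.KPC.PhiTen

/-! Test vectors for the lower bound (job KPC-H6). -/

open Finset BigOperators

namespace KPC

namespace PtrTest_

variable {J X Y Ω : Type} [Fintype J] [DecidableEq J] [Fintype X] [Fintype Y] [DecidableEq Y]
  [Fintype Ω] [DecidableEq Ω] {e : ℕ} {δ : ℝ} (w : WeylSys J X Y e δ) (S : J → Finset Ω)

theorem Aop_sub (F G : Ω × Y → ℝ) : Aop w S (F - G) = Aop w S F - Aop w S G := by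
  rw [← Amat_mulVec, ← Amat_mulVec, ← Amat_mulVec, Matrix.mulVec_sub]

theorem Aop_smul (c : ℝ) (F : Ω × Y → ℝ) : Aop w S (c • F) = c • Aop w S F := by
  rw [← Amat_mulVec, ← Amat_mulVec, Matrix.mulVec_smul]

theorem nrm_Aop' [Nonempty X] (F : Ω × Y → ℝ) : nrm (Aop w S F) = nrm F := by
  have h : nsq (Aop w S F) = nsq F := by rw [nsq_eq_ip, nsq_eq_ip, Aop_ip]
  unfold nrm
  rw [h]

theorem nrm_phi (j : J) (τ : Y) : nrm (w.φ j τ) = 1 := by
  have h : nsq (w.φ j τ) = 1 := by rw [nsq_eq_ip, w.φ_on]; simp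
  unfold nrm
  rw [h, Real.sqrt_one]

/-- `K1 (A (a ⊗ φ))` is `M A (P_j a ⊗ φ)` up to an error of norm at most `23` -/
theorem K1_test [Nonempty X] (hs : Small J Ω e δ) (j : J) (τ : Y) (a : Ω → ℝ) (ha : nrm a = 1) :
    nrm (K1 (Fintype.card (Xi J X Y Ω e)) (Aop w S (ten a (w.φ j τ))) -
      Mlog e • Aop w S (ten ((dproj (S j)).mulVec a) (w.φ j τ))) ≤ 23 := by
  have h1 : nrm (ten a (w.φ j τ)) ≤ 1 := by rw [nrm_ten, ha, nrm_phi, one_mul]
  have h2 := key_estimate w S hs (ten a (w.φ j τ)) h1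
  have h3 := Phi_ten w S hs a ha.le j τ
  rw [← nrm_Aop' w S, Aop_sub, Aop_smul] at h3
  have h4 : K1 (Fintype.card (Xi J X Y Ω e)) (Aop w S (ten a (w.φ j τ))) -
      Mlog e • Aop w S (ten ((dproj (S j)).mulVec a) (w.φ j τ)) =
      (K1 (Fintype.card (Xi J X Y Ω e)) (Aop w S (ten a (w.φ j τ))) -
        Aop w S (Phi w S (ten a (w.φ j τ)))) +
      (Aop w S (Phi w S (ten a (w.φ j τ))) -
        Mlog e • Aop w S (ten ((dproj (S j)).mulVec a) (w.φ j τ))) := by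
    abel
  rw [h4]
  refine (nrm_add_le _ _).trans ?_
  linarith

end PtrTest_

open PtrTest_

/-- abstract form: only the values of `K1` at the two unit vectors matter -/
theorem PtrTest_.core {Ξ : Type*} [Fintype Ξ] (V L' : Matrix Ξ Ξ ℝ) (B C D M : ℝ) (hD : 0 < D)
    (hB : 0 ≤ B) (hV : OpLe V B) (hL : Triv V V L' C) (f g pf pg : Ξ → ℝ)
    (hf : nrm f = 1) (hg : nrm g = 1) (ef : nrm (K1 D f - M • pf) ≤ 23)
    (eg : nrm (K1 D g - M • pg) ≤ 23) :
    |M * (ip g (V.mulVec pf) - ip pg (V.mulVec f)) - ip g (L'.mulVec f)| ≤ C + 48 * B := by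
  have hVf : nrm (V.mulVec f) ≤ B := by
    have h := hV f
    rwa [hf, mul_one] at h
  -- `Triv` at `f`
  have h1 : |ip g (V.mulVec (kpf f) - kpf (V.mulVec f) - L'.mulVec f)| ≤ C := by
    refine (abs_ip_le _ _).trans ?_
    rw [hg, one_mul]
    have h := hL f
    rwa [hf, mul_one] at h
  have h2 : |ip (kpf g) (V.mulVec f) - ip g (kpf (V.mulVec f))| ≤ 2 * B := by
    refine (kpf_symm _ _).trans ?_
    rw [hg]
    linarith
  have h3 : |ip g (V.mulVec (K1 D f - M • pf))| ≤ 23 * B := by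
    refine (abs_ip_le _ _).trans ?_
    rw [hg, one_mul]
    refine (hV _).trans ?_
    nlinarith
  have h4 : |ip (K1 D g - M • pg) (V.mulVec f)| ≤ 23 * B := by
    refine (abs_ip_le _ _).trans ?_
    exact mul_le_mul eg hVf (nrm_nonneg _) (by norm_num)
  have e1 : ip g (V.mulVec (kpf f)) =
      ip g (V.mulVec (K1 D f)) - Real.log D / 2 * ip g (V.mulVec f) := by
    rw [kpf_eq_K1 D hD f hf, Matrix.mulVec_sub, Matrix.mulVec_smul, ip_sub_right, ip_smul_right]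
  have e2 : ip (kpf g) (V.mulVec f) =
      ip (K1 D g) (V.mulVec f) - Real.log D / 2 * ip g (V.mulVec f) := by
    rw [kpf_eq_K1 D hD g hg, ip_sub_left, ip_smul_left]
  have e3 : ip g (V.mulVec (K1 D f - M • pf)) =
      ip g (V.mulVec (K1 D f)) - M * ip g (V.mulVec pf) := by
    rw [Matrix.mulVec_sub, Matrix.mulVec_smul, ip_sub_right, ip_smul_right]
  have e4 : ip (K1 D g - M • pg) (V.mulVec f) =
      ip (K1 D g) (V.mulVec f) - M * ip pg (V.mulVec f) := by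
    rw [ip_sub_left, ip_smul_left]
  rw [ip_sub_right, ip_sub_right, e1] at h1
  rw [e2] at h2
  rw [e3] at h3
  rw [e4] at h4
  rw [abs_le] at h1 h2 h3 h4 ⊢
  constructor
  · linarith [h1.1, h1.2, h2.1, h2.2, h3.1, h3.2, h4.1, h4.2]
  · linarith [h1.1, h1.2, h2.1, h2.2, h3.1, h3.2, h4.1, h4.2]

section Main

variable {J X Y Ω : Type} [Fintype J] [DecidableEq J] [Fintype X] [Fintype Y] [DecidableEq Y]
  [Fintype Ω] [DecidableEq Ω] {e : ℕ} {δ : ℝ} (w : WeylSys J X Y e δ) (S : J → Finset Ω)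

/-- the test vectors -/
theorem ptr_test [Nonempty X] (hs : Small J Ω e δ)
    (V L' : Matrix (Xi J X Y Ω e) (Xi J X Y Ω e) ℝ) (B C : ℝ) (hB : 0 ≤ B) (hC : 0 ≤ C)
    (hV : OpLe V B) (hL : Triv V V L' C) (j : J) (τ : Y) (a c : Ω → ℝ) (ha : nrm a = 1)
    (hc : nrm c = 1) :
    |Mlog e * (ip (Aop w S (ten c (w.φ j τ)))
        (V.mulVec (Aop w S (ten ((dproj (S j)).mulVec a) (w.φ j τ)))) -
      ip (Aop w S (ten ((dproj (S j)).mulVec c) (w.φ j τ)))
        (V.mulVec (Aop w S (ten a (w.φ j τ))))) -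
      ip (Aop w S (ten c (w.φ j τ))) (L'.mulVec (Aop w S (ten a (w.φ j τ))))| ≤
      C + 48 * B := by
  have hD : (0 : ℝ) < (Fintype.card (Xi J X Y Ω e) : ℝ) := by
    exact_mod_cast Fintype.card_pos
  refine PtrTest_.core V L' B C (Fintype.card (Xi J X Y Ω e) : ℝ) (Mlog e) hD hB hV hL _ _ _ _
    ?_ ?_ (K1_test w S hs j τ a ha) (K1_test w S hs j τ c hc)
  · rw [nrm_Aop', nrm_ten, ha, nrm_phi, one_mul]
  · rw [nrm_Aop', nrm_ten, hc, nrm_phi, one_mul]

end Main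

end KPC
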