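import Pool.Agent.KPC.PtrFacts
import Pool.Agent.KPC.PtrTest

/-! Almost commutation of the partial trace (KPC-H7). -/

open Finset BigOperators

namespace KPC

section Main

variable {J X Y Ω : Type} [Fintype J] [DecidableEq J] [Fintype X] [Fintype Y] [DecidableEq Y]
  [Fintype Ω] [DecidableEq Ω] {e : ℕ} {δ : ℝ} (w : WeylSys J X Y e δ) (S : J → Finset Ω)

theorem LowerBd_.avg [Nonempty X] [Nonempty Y] (hs : Small J Ω e δ)
    (V L' : Matrix (Xi J X Y Ω e) (Xi J X Y Ω e) ℝ) (B C : ℝ) (hB : 0 ≤ B) (hC : 0 ≤ C)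
    (hV : OpLe V B) (hL : Triv V V L' C) (j : J) (a c : Ω → ℝ) (ha : nrm a = 1)
    (hc : nrm c = 1) :
    |Mlog e * (ip c ((ptr w S V).mulVec ((dproj (S j)).mulVec a)) -
      ip ((dproj (S j)).mulVec c) ((ptr w S V).mulVec a)) -
      ip c ((ptr w S L').mulVec a)| ≤ C + 48 * B := by
  have hY : (0 : ℝ) < Fintype.card Y := by exact_mod_cast Fintype.card_pos
  rw [ptr_eq w S V j ((dproj (S j)).mulVec a) c, ptr_eq w S V j a ((dproj (S j)).mulVec c),
    ptr_eq w S L' j a c]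
  have e1 : ∀ (X1 X2 X3 : Y → ℝ) (n M : ℝ),
      M * (n * ∑ τ, X1 τ - n * ∑ τ, X2 τ) - n * ∑ τ, X3 τ =
        n * ∑ τ, (M * (X1 τ - X2 τ) - X3 τ) := by
    intro X1 X2 X3 n M
    rw [Finset.sum_sub_distrib, ← Finset.mul_sum, Finset.sum_sub_distrib]
    ring
  rw [e1, abs_mul, abs_of_pos (inv_pos.2 hY), inv_mul_le_iff₀ hY]
  refine (Finset.abs_sum_le_sum_abs _ _).trans ?_
  refine (Finset.sum_le_card_nsmul _ _ (C + 48 * B) fun τ _ => ?_).trans ?_
  · exact ptr_test w S hs V L' B C hB hC hV hL j τ a c ha hc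
  · rw [nsmul_eq_mul, Finset.card_univ]

/-- a compatible `V` near `T` gives a `v` near `t` almost commuting with the `P_j` -/
theorem lower_bd [Nonempty X] [Nonempty Y] (hs : Small J Ω e δ) (he : 1 ≤ e) (j0 : J)
    (h0 : S j0 = ∅)
    (V L' : Matrix (Xi J X Y Ω e) (Xi J X Y Ω e) ℝ) (B C : ℝ) (hB : 0 ≤ B) (hC : 0 ≤ C)
    (hV : OpLe V B) (hL : Triv V V L' C) (j : J) :
    OpLe (ptr w S V * dproj (S j) - dproj (S j) * ptr w S V) ((6 * C + 300 * B) / e) := by
  have he' : (1 : ℝ) ≤ e := by exact_mod_cast he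
  have he0 : (0 : ℝ) < e := by linarith
  apply OpLe.of_unit (by positivity)
  intro a c ha hc
  have h1 := LowerBd_.avg w S hs V L' B C hB hC hV hL j a c ha hc
  have h2 := LowerBd_.avg w S hs V L' B C hB hC hV hL j0 a c ha hc
  have h3 : ∀ x : Ω → ℝ, (dproj (S j0)).mulVec x = 0 := by
    intro x
    rw [dproj_mulVec, h0]
    funext ω
    simp
  rw [h3, h3, Matrix.mulVec_zero, ip_zero_right, ip_zero_left, sub_zero, mul_zero, zero_sub,
    abs_neg] at h2
  have h4 : ip c ((ptr w S V * dproj (S j) - dproj (S j) * ptr w S V).mulVec a) =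
      ip c ((ptr w S V).mulVec ((dproj (S j)).mulVec a)) -
        ip ((dproj (S j)).mulVec c) ((ptr w S V).mulVec a) := by
    rw [Matrix.sub_mulVec, ip_sub_right, ← Matrix.mulVec_mulVec, ← Matrix.mulVec_mulVec,
      ip_mulVec (dproj (S j)) ((ptr w S V).mulVec a) c, dproj_transpose]
  rw [h4]
  set D := ip c ((ptr w S V).mulVec ((dproj (S j)).mulVec a)) -
        ip ((dproj (S j)).mulVec c) ((ptr w S V).mulVec a)
  set l := ip c ((ptr w S L').mulVec a)
  have h5 : Mlog e * |D| ≤ 2 * C + 96 * B := by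
    have h6 : 0 ≤ Mlog e := by
      unfold Mlog
      have := Real.log_two_gt_d9
      positivity
    rw [← abs_of_nonneg h6, ← abs_mul]
    have h7 : |Mlog e * D| ≤ |Mlog e * D - l| + |l| := by
      have := abs_add_le (Mlog e * D - l) l
      rwa [sub_add_cancel] at this
    linarith
  have h8 : (0.3465 : ℝ) * e ≤ Mlog e := by
    unfold Mlog
    have := Real.log_two_gt_d9
    nlinarith
  rw [le_div_iff₀ he0]
  have h9 : (0.3465 : ℝ) * e * |D| ≤ 2 * C + 96 * B :=
    (mul_le_mul_of_nonneg_right h8 (abs_nonneg D)).trans h5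
  nlinarith

end Main

end KPC
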