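import Pool.Agent.KPC.Ptr
import Pool.Agent.KPC.AopFacts
import Pool.Agent.KPC.Orth

/-!
# KPC-H5: the normalised partial trace
-/

open Finset BigOperators

namespace KPC

section Main

variable {J X Y Ω : Type} [Fintype J] [DecidableEq J] [Fintype X] [Fintype Y] [DecidableEq Y]
  [Fintype Ω] [DecidableEq Ω] {e : ℕ} {δ : ℝ} (w : WeylSys J X Y e δ) (S : J → Finset Ω)

theorem PtrFacts_beta (V : Matrix (Xi J X Y Ω e) (Xi J X Y Ω e) ℝ) (F G : Ω × Y → ℝ) :
    ip (Aop w S F) (V.mulVec (Aop w S G)) =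
      ∑ p, ∑ q, F p * G q * ip (Aop w S (Pi.single p 1)) (V.mulVec (Aop w S (Pi.single q 1))) := by
  have h1 : ∀ H : Ω × Y → ℝ, Aop w S H = ∑ p, H p • Aop w S (Pi.single p 1) := by
    intro H
    rw [← Amat_mulVec w S H]
    funext ξ
    rw [Finset.sum_apply]
    unfold Matrix.mulVec dotProduct Amat
    refine Finset.sum_congr rfl fun p _ => ?_
    rw [Pi.smul_apply, smul_eq_mul, mul_comm]
  have h2 : V.mulVec (Aop w S G) = ∑ q, G q • V.mulVec (Aop w S (Pi.single q 1)) := by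
    rw [h1 G, Matrix.mulVec_sum]
    exact Finset.sum_congr rfl fun q _ => Matrix.mulVec_smul _ _ _
  rw [h2, h1 F, ip_sum_left]
  refine Finset.sum_congr rfl fun p _ => ?_
  rw [ip_sum_right]
  refine Finset.sum_congr rfl fun q _ => ?_
  rw [ip_smul_left, ip_smul_right]
  ring

/-- partial trace in the basis `φ_j` -/
theorem ptr_eq (V : Matrix (Xi J X Y Ω e) (Xi J X Y Ω e) ℝ) (j : J) (a c : Ω → ℝ) :
    ip c ((ptr w S V).mulVec a) = (Fintype.card Y : ℝ)⁻¹ * ∑ τ,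
      ip (Aop w S (ten c (w.φ j τ))) (V.mulVec (Aop w S (ten a (w.φ j τ)))) := by
  have h1 : ∑ τ, ip (Aop w S (ten c (w.φ j τ))) (V.mulVec (Aop w S (ten a (w.φ j τ)))) =
      ∑ p : Ω × Y, ∑ q : Ω × Y, (if p.2 = q.2 then
        c p.1 * a q.1 * ip (Aop w S (Pi.single p 1)) (V.mulVec (Aop w S (Pi.single q 1)))
        else 0) := by
    rw [Finset.sum_congr rfl fun τ _ => PtrFacts_beta w S V _ _, Finset.sum_comm]
    refine Finset.sum_congr rfl fun p _ => ?_
    rw [Finset.sum_comm]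
    refine Finset.sum_congr rfl fun q _ => ?_
    have h2 : ∀ τ, ten c (w.φ j τ) p * ten a (w.φ j τ) q *
        ip (Aop w S (Pi.single p 1)) (V.mulVec (Aop w S (Pi.single q 1))) =
        (c p.1 * a q.1 * ip (Aop w S (Pi.single p 1)) (V.mulVec (Aop w S (Pi.single q 1)))) *
          (w.φ j τ p.2 * w.φ j τ q.2) := by
      intro τ
      unfold ten
      ring
    rw [Finset.sum_congr rfl fun τ _ => h2 τ, ← Finset.mul_sum, phi_complete]
    split_ifs
    · rw [mul_one]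
    · rw [mul_zero]
  rw [h1, Fintype.sum_prod_type]
  have h3 : ∀ (ω : Ω) (y : Y), ∑ q : Ω × Y, (if y = q.2 then
        c ω * a q.1 * ip (Aop w S (Pi.single (ω, y) 1)) (V.mulVec (Aop w S (Pi.single q 1)))
        else 0) =
      ∑ ω', c ω * a ω' * ip (Aop w S (Pi.single (ω, y) 1))
        (V.mulVec (Aop w S (Pi.single (ω', y) 1))) := by
    intro ω y
    rw [Fintype.sum_prod_type]
    refine Finset.sum_congr rfl fun ω' _ => ?_
    rw [Finset.sum_eq_single y]
    · rw [if_pos rfl]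
    · intro y' _ hy
      rw [if_neg (Ne.symm hy)]
    · intro h
      exact absurd (Finset.mem_univ y) h
  have h4 : ∀ ω : Ω, ∀ y : Y, ten (Pi.single ω 1) (Pi.single y 1) =
      (Pi.single (ω, y) 1 : Ω × Y → ℝ) := by
    intro ω y
    funext p
    unfold ten
    by_cases hp : p = (ω, y)
    · subst hp; simp
    · rw [Pi.single_eq_of_ne hp]
      by_cases h5 : p.1 = ω
      · have h6 : p.2 ≠ y := fun h6 => hp (Prod.ext h5 h6)
        rw [Pi.single_eq_of_ne h6, mul_zero]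
      · rw [Pi.single_eq_of_ne h5, zero_mul]
  have h0 : ip c ((ptr w S V).mulVec a) = ∑ ω, c ω * ∑ ω', ptr w S V ω ω' * a ω' := rfl
  have h6 : ∀ ω ω', ptr w S V ω ω' = (Fintype.card Y : ℝ)⁻¹ * ∑ y : Y,
      ip (Aop w S (Pi.single (ω, y) 1)) (V.mulVec (Aop w S (Pi.single (ω', y) 1))) := by
    intro ω ω'
    unfold ptr
    congr 1
    refine Finset.sum_congr rfl fun y _ => ?_
    rw [h4, h4]
  rw [h0, Finset.mul_sum]
  refine Finset.sum_congr rfl fun ω _ => ?_
  rw [Finset.sum_congr rfl fun y _ => h3 ω y, Finset.sum_comm, Finset.mul_sum, Finset.mul_sum]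
  refine Finset.sum_congr rfl fun ω' _ => ?_
  rw [h6, ← Finset.mul_sum]
  ring

theorem PtrFacts_adj [Nonempty X] (F : Ω × Y → ℝ) :
    (Amat w S).transpose.mulVec (Aop w S F) = F := by
  funext p
  have h1 := ip_mulVec (Amat w S) (Pi.single p 1) (Aop w S F)
  rw [Amat_mulVec, Aop_ip, ip_single, ip_single] at h1
  exact h1.symm

theorem ptr_near [Nonempty X] [Nonempty Y] (j0 : J) (t : Matrix Ω Ω ℝ)
    (V : Matrix (Xi J X Y Ω e) (Xi J X Y Ω e) ℝ) (r : ℝ) (hr : 0 ≤ r)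
    (h : OpLe (V - Amat w S * tm Y t * (Amat w S).transpose) r) : OpLe (ptr w S V - t) r := by
  have hY : (0 : ℝ) < Fintype.card Y := by exact_mod_cast Fintype.card_pos
  apply OpLe.of_ip hr
  intro a c
  have h1 : ∀ τ : Y, ip (Aop w S (ten c (w.φ j0 τ)))
      ((V - Amat w S * tm Y t * (Amat w S).transpose).mulVec (Aop w S (ten a (w.φ j0 τ)))) =
      ip (Aop w S (ten c (w.φ j0 τ))) (V.mulVec (Aop w S (ten a (w.φ j0 τ)))) -
        ip c (t.mulVec a) := by
    intro τ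
    rw [Matrix.sub_mulVec, ip_sub_right, ← Matrix.mulVec_mulVec, PtrFacts_adj,
      ← Matrix.mulVec_mulVec, Amat_mulVec, Aop_ip, tm_mulVec_ten, ip_ten, w.φ_on, if_pos rfl,
      mul_one]
  have h2 : ip c ((ptr w S V - t).mulVec a) = (Fintype.card Y : ℝ)⁻¹ * ∑ τ,
      ip (Aop w S (ten c (w.φ j0 τ)))
      ((V - Amat w S * tm Y t * (Amat w S).transpose).mulVec (Aop w S (ten a (w.φ j0 τ)))) := by
    rw [Matrix.sub_mulVec, ip_sub_right, ptr_eq w S V j0, Finset.sum_congr rfl fun τ _ => h1 τ,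
      Finset.sum_sub_distrib, Finset.sum_const, nsmul_eq_mul, Finset.card_univ, mul_sub,
      ← mul_assoc, inv_mul_cancel₀ hY.ne', one_mul]
  have h3 : ∀ (b : Ω → ℝ) (τ : Y), nrm (Aop w S (ten b (w.φ j0 τ))) = nrm b := by
    intro b τ
    have h4 : nsq (Aop w S (ten b (w.φ j0 τ))) = nsq b := by
      rw [nsq_eq_ip, Aop_ip, ip_ten, w.φ_on, if_pos rfl, mul_one, ← nsq_eq_ip]
    unfold nrm
    rw [h4]
  rw [h2, abs_mul, abs_of_pos (inv_pos.mpr hY), inv_mul_le_iff₀ hY]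
  refine (Finset.abs_sum_le_sum_abs _ _).trans ?_
  have h5 : ∀ τ ∈ (univ : Finset Y), |ip (Aop w S (ten c (w.φ j0 τ)))
      ((V - Amat w S * tm Y t * (Amat w S).transpose).mulVec (Aop w S (ten a (w.φ j0 τ))))| ≤
      r * nrm c * nrm a := by
    intro τ _
    have h6 := h.ip_le (Aop w S (ten a (w.φ j0 τ))) (Aop w S (ten c (w.φ j0 τ)))
    rwa [h3, h3] at h6
  refine (Finset.sum_le_sum h5).trans ?_
  rw [Finset.sum_const, nsmul_eq_mul, Finset.card_univ]

end Main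

end KPC
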