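import Pool.Agent.KPC.PsiT
import Pool.Agent.KPC.Bessel
import Pool.Agent.KPC.Synth

/-! # KPC-H2: the map `Phi` almost intertwines -/

open Finset BigOperators

namespace KPC

section Main

variable {J X Y Ω : Type} [Fintype J] [DecidableEq J] [Fintype X] [Fintype Y] [DecidableEq Y]
  [Fintype Ω] [DecidableEq Ω] {e : ℕ} {δ : ℝ} (w : WeylSys J X Y e δ) (S : J → Finset Ω)

namespace PhiT_

omit [DecidableEq Ω] in
theorem coef_tm (j : J) (τ : Y) (t : Matrix Ω Ω ℝ) (F : Ω × Y → ℝ) :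
    coef w j τ ((tm Y t).mulVec F) = t.mulVec (coef w j τ F) := by
  funext ω
  have h1 : ∀ y, (tm Y t).mulVec F (ω, y) = ∑ ω', t ω ω' * F (ω', y) := fun y => by
    rw [tm_mulVec]
    rfl
  have h2 : t.mulVec (coef w j τ F) ω = ∑ ω', t ω ω' * ∑ y, w.φ j τ y * F (ω', y) := rfl
  rw [h2]
  have h3 : coef w j τ ((tm Y t).mulVec F) ω =
      ∑ y, w.φ j τ y * ∑ ω', t ω ω' * F (ω', y) := by
    unfold coef ip
    exact Finset.sum_congr rfl fun y _ => by beta_reduce; rw [h1]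
  rw [h3]
  simp only [Finset.mul_sum]
  rw [Finset.sum_comm]
  exact Finset.sum_congr rfl fun ω' _ => Finset.sum_congr rfl fun y _ => by ring

theorem Pc_eq (i : J × Y) (G : Ω × Y → ℝ) :
    Pc w S i G = (dproj (S i.1)).mulVec (coef w i.1 i.2 G) := by
  rw [dproj_mulVec]
  rfl

theorem mulVec_sum' {ι : Type*} (s : Finset ι) (M : Matrix (Ω × Y) (Ω × Y) ℝ)
    (f : ι → Ω × Y → ℝ) : M.mulVec (∑ i ∈ s, f i) = ∑ i ∈ s, M.mulVec (f i) := by
  classical
  induction s using Finset.induction_on with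
  | empty => simp
  | insert a s ha ih => rw [Finset.sum_insert ha, Finset.sum_insert ha, Matrix.mulVec_add, ih]

theorem nsq_coef_le (j : J) (τ : Y) (F : Ω × Y → ℝ) : nsq (coef w j τ F) ≤ nsq F := by
  rw [← KPC.parseval w j F]
  exact Finset.single_le_sum (f := fun τ => nsq (coef w j τ F)) (fun τ _ => nsq_nonneg _)
    (mem_univ τ)

theorem small_card (hs : Small J Ω e δ) {N : ℝ} (hN : N ≤ Fintype.card J * 2 ^ e) :
    N * δ ≤ 1 / 16 := by
  obtain ⟨h0, h1⟩ := hs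
  have hJ : (0 : ℝ) ≤ Fintype.card J := Nat.cast_nonneg _
  have hΩ : (0 : ℝ) ≤ Fintype.card Ω := Nat.cast_nonneg _
  have he : (1 : ℝ) ≤ 2 ^ e := one_le_pow₀ (by norm_num)
  have hc : (1 : ℝ) ≤ ((2 : ℝ) ^ e) ^ Fintype.card J := one_le_pow₀ he
  have a1 : (2 : ℝ) ^ e ≤ (2 ^ e) ^ 3 := by
    calc (2 : ℝ) ^ e = (2 ^ e) ^ 1 := (pow_one _).symm
      _ ≤ (2 ^ e) ^ 3 := pow_le_pow_right₀ he (by norm_num)
  have a2 : (Fintype.card J : ℝ) ≤ ((Fintype.card J : ℝ) + 1) ^ 3 := by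
    nlinarith [pow_nonneg hJ 2, pow_nonneg hJ 3]
  have a3 : (1 : ℝ) ≤ (Fintype.card Ω : ℝ) + 1 := by linarith
  have b1 : (Fintype.card J : ℝ) * 2 ^ e ≤ (2 ^ e) ^ 3 * ((Fintype.card J : ℝ) + 1) ^ 3 := by
    rw [mul_comm]
    exact mul_le_mul a1 a2 hJ (by positivity)
  have b2 : (1 : ℝ) ≤ ((Fintype.card Ω : ℝ) + 1) * ((2 : ℝ) ^ e) ^ Fintype.card J := by
    nlinarith
  have b3 : (Fintype.card J : ℝ) * 2 ^ e ≤
      ((2 ^ e) ^ 3 * ((Fintype.card J : ℝ) + 1) ^ 3) *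
        (((Fintype.card Ω : ℝ) + 1) * ((2 : ℝ) ^ e) ^ Fintype.card J) := by
    calc (Fintype.card J : ℝ) * 2 ^ e ≤ (2 ^ e) ^ 3 * ((Fintype.card J : ℝ) + 1) ^ 3 := b1
      _ = (2 ^ e) ^ 3 * ((Fintype.card J : ℝ) + 1) ^ 3 * 1 := (mul_one _).symm
      _ ≤ _ := mul_le_mul_of_nonneg_left b2 (by positivity)
  have b4 := mul_le_mul_of_nonneg_right (hN.trans b3) h0
  have b5 : 16 * (((2 ^ e) ^ 3 * ((Fintype.card J : ℝ) + 1) ^ 3) *
        (((Fintype.card Ω : ℝ) + 1) * ((2 : ℝ) ^ e) ^ Fintype.card J) * δ) ≤ 1 := by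
    calc _ = 16 * (2 ^ e) ^ 3 * ((Fintype.card J : ℝ) + 1) ^ 3 * ((Fintype.card Ω : ℝ) + 1) *
          ((2 : ℝ) ^ e) ^ Fintype.card J * δ := by ring
      _ ≤ 1 := h1
  linarith

end PhiT_

theorem Phi_transfer [Nonempty X] (hs : Small J Ω e δ) (he : 1 ≤ e) (t u : Matrix Ω Ω ℝ)
    (ht : OpLe t 1) (hu : OpLe u 1)
    (htu : ∀ j, OpLe (t * dproj (S j) - dproj (S j) * u) (1 / e))
    (F : Ω × Y → ℝ) (hF : nrm F ≤ 1) :
    nrm (Phi w S ((tm Y t.transpose).mulVec F) - (tm Y u.transpose).mulVec (Phi w S F)) ≤ 3 := by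
  classical
  have hδ : 0 ≤ δ := hs.1
  have hF2 : nsq F ≤ 1 := by
    have := nsq_le_of_nrm_le hF
    simpa using this
  have he0 : (0 : ℝ) ≤ 1 / e := by positivity
  set d : J × Y → Ω → ℝ := fun i =>
    psi e (Pc w S i ((tm Y t.transpose).mulVec F)) - u.transpose.mulVec (psi e (Pc w S i F))
    with hd
  -- the estimates for one index
  have hdi : ∀ i : J × Y, nrm (d i) ≤ 2 * nrm (coef w i.1 i.2 F) ∧
      (2 ^ e * nrm (coef w i.1 i.2 F) ^ 2 < 1 → d i = 0) := by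
    intro i
    set y := coef w i.1 i.2 F with hy
    have hb : Pc w S i ((tm Y t.transpose).mulVec F) =
        (dproj (S i.1)).mulVec (t.transpose.mulVec y) := by
      rw [PhiT_.Pc_eq, PhiT_.coef_tm]
    have hp : Pc w S i F = (dproj (S i.1)).mulVec y := PhiT_.Pc_eq w S i F
    have hP : ∀ z : Ω → ℝ, nrm ((dproj (S i.1)).mulVec z) ≤ nrm z := by
      intro z
      simpa using OpLe_dproj (S i.1) z
    have ht' : nrm (t.transpose.mulVec y) ≤ nrm y := by
      simpa using (OpLe.transpose zero_le_one ht) y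
    have hdiff : (dproj (S i.1)).mulVec (t.transpose.mulVec y) -
        u.transpose.mulVec ((dproj (S i.1)).mulVec y) =
        (t * dproj (S i.1) - dproj (S i.1) * u).transpose.mulVec y := by
      rw [Matrix.transpose_sub, Matrix.transpose_mul, Matrix.transpose_mul, dproj_transpose,
        Matrix.sub_mulVec, Matrix.mulVec_mulVec, Matrix.mulVec_mulVec]
    have hr : nrm y ≤ 1 := by
      apply nrm_le_of_nsq_le zero_le_one
      rw [one_pow]
      exact (PhiT_.nsq_coef_le w i.1 i.2 F).trans hF2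
    have key := psi_transfer (e := e) he u.transpose (OpLe.transpose zero_le_one hu)
      ((dproj (S i.1)).mulVec y) ((dproj (S i.1)).mulVec (t.transpose.mulVec y)) (nrm y) hr
      (hP y) ((hP _).trans ht') (by
        rw [hdiff]
        have h := (OpLe.transpose he0 (htu i.1)) y
        calc _ ≤ 1 / e * nrm y := h
          _ = nrm y / e := by ring)
    rw [← hb, ← hp] at key
    exact key
  set I : Finset (J × Y) := univ.filter fun i : J × Y => 1 ≤ 2 ^ e * nsq (coef w i.1 i.2 F)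
    with hI
  have hcard : (I.card : ℝ) * δ ≤ 1 / 16 :=
    PhiT_.small_card (Ω := Ω) hs (card_large w (2 ^ e) (by positivity) F hF2)
  have hsum : Phi w S ((tm Y t.transpose).mulVec F) - (tm Y u.transpose).mulVec (Phi w S F) =
      ∑ i ∈ I, ten (d i) (w.φ i.1 i.2) := by
    have h1 : Phi w S ((tm Y t.transpose).mulVec F) -
        (tm Y u.transpose).mulVec (Phi w S F) = ∑ i : J × Y, ten (d i) (w.φ i.1 i.2) := by
      unfold Phi
      rw [PhiT_.mulVec_sum', ← Finset.sum_sub_distrib]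
      refine Finset.sum_congr rfl fun i _ => ?_
      rw [tm_mulVec_ten, ← ten_sub_left]
    rw [h1]
    symm
    apply Finset.sum_subset (Finset.subset_univ _)
    intro i _ hi
    have : 2 ^ e * nrm (coef w i.1 i.2 F) ^ 2 < 1 := by
      rw [nrm_sq]
      by_contra hcon
      exact hi (by rw [hI, Finset.mem_filter]; exact ⟨mem_univ _, not_lt.1 hcon⟩)
    rw [(hdi i).2 this, ten_zero_left]
  rw [hsum]
  apply nrm_le_of_nsq_le (by norm_num)
  have s1 := synth w hδ I d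
  have s2 : ∑ i ∈ I, nsq (d i) ≤ 4 * ∑ i ∈ I, nsq (coef w i.1 i.2 F) := by
    rw [Finset.mul_sum]
    refine Finset.sum_le_sum fun i _ => ?_
    have := nsq_le_of_nrm_le (hdi i).1
    rw [mul_pow, nrm_sq] at this
    linarith
  have s3 := bessel w hδ I F
  have hn : 0 ≤ ∑ i ∈ I, nsq (coef w i.1 i.2 F) := Finset.sum_nonneg fun i _ => nsq_nonneg _
  have hn' : 0 ≤ ∑ i ∈ I, nsq (d i) := Finset.sum_nonneg fun i _ => nsq_nonneg _
  have hc0 : 0 ≤ (I.card : ℝ) * δ := by positivity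
  have s4 : ∑ i ∈ I, nsq (coef w i.1 i.2 F) ≤ 17 / 16 := by
    refine s3.trans ?_
    calc (1 + I.card * δ) * nsq F ≤ (1 + I.card * δ) * 1 :=
          mul_le_mul_of_nonneg_left hF2 (by linarith)
      _ ≤ 17 / 16 := by linarith
  calc nsq (∑ i ∈ I, ten (d i) (w.φ i.1 i.2)) ≤ (1 + I.card * δ) * ∑ i ∈ I, nsq (d i) := s1
    _ ≤ (17 / 16) * ∑ i ∈ I, nsq (d i) := mul_le_mul_of_nonneg_right (by linarith) hn'
    _ ≤ (17 / 16) * (4 * (17 / 16)) := by
      apply mul_le_mul_of_nonneg_left _ (by norm_num)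
      linarith
    _ ≤ 3 ^ 2 := by norm_num

end Main

end KPC
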