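import Pool.Agent.KPC.KP
import Pool.Agent.KPC.Key
import Pool.Agent.KPC.AopFacts
import Pool.Agent.KPC.PhiT

/-!
# The upper bound: the pair `(T, U)` is compatible with an absolute constant
-/

open Finset BigOperators

namespace KPC

namespace Upper_

variable {ι : Type*} [Fintype ι]

theorem ip_close {a b y : ι → ℝ} {C : ℝ} (h : nrm (a - b) ≤ C) (hy : nrm y ≤ 1) :
    |ip a y - ip b y| ≤ C := by
  rw [← ip_sub_left]
  have h1 := abs_ip_le (a - b) y
  have h2 := nrm_nonneg (a - b)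
  nlinarith

theorem ip_close' {a b y : ι → ℝ} {C : ℝ} (h : nrm (a - b) ≤ C) (hy : nrm y ≤ 1) :
    |ip y a - ip y b| ≤ C := by
  rw [ip_comm y a, ip_comm y b]
  exact ip_close h hy

theorem nsq_le_one {x : ι → ℝ} (h : nrm x ≤ 1) : nsq x ≤ 1 := by
  have := nsq_le_of_nrm_le h
  rwa [one_pow] at this

theorem abs_tri (a b c : ℝ) {p q : ℝ} (h : |a - b| ≤ p) (h' : |b - c| ≤ q) :
    |a - c| ≤ p + q := (abs_sub_le a b c).trans (add_le_add h h')

end Upper_

open Upper_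

section Main

variable {J X Y Ω : Type} [Fintype J] [DecidableEq J] [Fintype X] [Fintype Y] [DecidableEq Y]
  [Fintype Ω] [DecidableEq Ω] {e : ℕ} {δ : ℝ} (w : WeylSys J X Y e δ) (S : J → Finset Ω)

namespace Upper_

theorem nrm_Aop [Nonempty X] (F : Ω × Y → ℝ) : nrm (Aop w S F) = nrm F := by
  unfold nrm
  rw [nsq_eq_ip, Aop_ip, ← nsq_eq_ip]

theorem opLe_A [Nonempty X] : OpLe (Amat w S) 1 := fun F => by
  rw [Amat_mulVec, nrm_Aop, one_mul]

theorem nrm_At [Nonempty X] {y : Xi J X Y Ω e → ℝ} (hy : nrm y ≤ 1) :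
    nrm ((Amat w S).transpose.mulVec y) ≤ 1 := by
  have h := (opLe_A w S).transpose zero_le_one y
  linarith

theorem ip_Aop (F : Ω × Y → ℝ) (y : Xi J X Y Ω e → ℝ) :
    ip (Aop w S F) y = ip ((Amat w S).transpose.mulVec y) F := by
  rw [ip_comm, ← Amat_mulVec, ip_mulVec]

omit [DecidableEq Ω] in
theorem nrm_tm {t : Matrix Ω Ω ℝ} (ht : OpLe t 1) {F : Ω × Y → ℝ} (hF : nrm F ≤ 1) :
    nrm ((tm Y t).mulVec F) ≤ 1 := by
  have h := (OpLe.tm (Y := Y) zero_le_one ht) F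
  linarith

/-- the main estimate -/
theorem main [Nonempty X] (hs : Small J Ω e δ) (he : 1 ≤ e) (t u : Matrix Ω Ω ℝ)
    (ht : OpLe t 1) (hu : OpLe u 1)
    (htu : ∀ j, OpLe (t * dproj (S j) - dproj (S j) * u) (1 / e))
    (hD : 0 < (Fintype.card (Xi J X Y Ω e) : ℝ))
    (x y : Xi J X Y Ω e → ℝ) (hx : nrm x ≤ 1) (hy : nrm y ≤ 1) :
    |ip ((Amat w S).mulVec ((tm Y t).mulVec ((Amat w S).transpose.mulVec
        (K1 (Fintype.card (Xi J X Y Ω e)) x)))) y -
      ip (K1 (Fintype.card (Xi J X Y Ω e))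
        ((Amat w S).mulVec ((tm Y u).mulVec ((Amat w S).transpose.mulVec x)))) y| ≤ 95 := by
  set D : ℝ := (Fintype.card (Xi J X Y Ω e) : ℝ) with hDdef
  set Yv := (Amat w S).transpose.mulVec y with hYv
  set Xv := (Amat w S).transpose.mulVec x with hXv
  have hYn : nrm Yv ≤ 1 := nrm_At w S hy
  have hXn : nrm Xv ≤ 1 := nrm_At w S hx
  set F1 := (tm Y t.transpose).mulVec Yv with hF1
  set F2 := (tm Y u).mulVec Xv with hF2
  have hF1n : nrm F1 ≤ 1 := nrm_tm (ht.transpose zero_le_one) hYn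
  have hF2n : nrm F2 ≤ 1 := nrm_tm hu hXn
  -- part (a)
  have a1 : ip ((Amat w S).mulVec ((tm Y t).mulVec ((Amat w S).transpose.mulVec (K1 D x)))) y =
      ip (Aop w S F1) (K1 D x) := by
    rw [ip_comm, ip_mulVec, ← hYv, ip_mulVec (tm Y t), tm_transpose, ← hF1, ip_Aop, ip_comm]
  have a2 : |ip (Aop w S F1) (K1 D x) - ip (K1 D (Aop w S F1)) x| ≤ 2 := by
    rw [abs_sub_comm]
    have h1 := K1_symm D hD (Aop w S F1) x
    have h2 : nsq (Aop w S F1) ≤ 1 := nsq_le_one (by rw [nrm_Aop]; exact hF1n)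
    have h3 := nsq_le_one hx
    linarith
  have a3 : |ip (K1 D (Aop w S F1)) x - ip (Aop w S (Phi w S F1)) x| ≤ 22 :=
    ip_close (key_estimate w S hs F1 hF1n) hx
  have a4 : ip (Aop w S (Phi w S F1)) x = ip (Phi w S F1) Xv := by
    rw [ip_Aop, ip_comm]
  -- part (b)
  have b0 : (Amat w S).mulVec F2 = Aop w S F2 := Amat_mulVec w S F2
  have b1 : |ip (K1 D (Aop w S F2)) y - ip (Aop w S (Phi w S F2)) y| ≤ 22 :=
    ip_close (key_estimate w S hs F2 hF2n) hy
  have b2 : ip (Aop w S (Phi w S F2)) y = ip (Aop w S Yv) (Aop w S (Phi w S F2)) := by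
    rw [ip_Aop, Aop_ip]
  have b3 : |ip (Aop w S Yv) (Aop w S (Phi w S F2)) - ip (Aop w S Yv) (K1 D (Aop w S F2))| ≤
      22 := by
    rw [abs_sub_comm]
    exact ip_close' (key_estimate w S hs F2 hF2n) (by rw [nrm_Aop]; exact hYn)
  have b4 : |ip (Aop w S Yv) (K1 D (Aop w S F2)) - ip (K1 D (Aop w S Yv)) (Aop w S F2)| ≤ 2 := by
    rw [abs_sub_comm]
    have h1 := K1_symm D hD (Aop w S Yv) (Aop w S F2)
    have h2 : nsq (Aop w S Yv) ≤ 1 := nsq_le_one (by rw [nrm_Aop]; exact hYn)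
    have h3 : nsq (Aop w S F2) ≤ 1 := nsq_le_one (by rw [nrm_Aop]; exact hF2n)
    linarith
  have b5 : |ip (K1 D (Aop w S Yv)) (Aop w S F2) - ip (Aop w S (Phi w S Yv)) (Aop w S F2)| ≤
      22 :=
    ip_close (key_estimate w S hs Yv hYn) (by rw [nrm_Aop]; exact hF2n)
  have b6 : ip (Aop w S (Phi w S Yv)) (Aop w S F2) =
      ip ((tm Y u.transpose).mulVec (Phi w S Yv)) Xv := by
    rw [Aop_ip, hF2, ip_mulVec, tm_transpose]
  -- part (c)
  have c1 : |ip (Phi w S F1) Xv - ip ((tm Y u.transpose).mulVec (Phi w S Yv)) Xv| ≤ 3 :=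
    ip_close (Phi_transfer w S hs he t u ht hu htu Yv hYn) hXn
  rw [a1, b0]
  rw [a4] at a3
  rw [b2] at b1
  rw [b6] at b5
  have p1 := abs_tri _ _ _ a2 a3
  have p2 := abs_tri _ _ _ p1 c1
  have q1 := abs_tri _ _ _ b1 b3
  have q2 := abs_tri _ _ _ q1 b4
  have q3 := abs_tri _ _ _ q2 b5
  rw [abs_sub_comm] at q3
  have r := abs_tri _ _ _ p2 q3
  linarith

end Upper_

/-- the pair is compatible, with an absolute constant -/
theorem upper [Nonempty X] (hs : Small J Ω e δ) (he : 1 ≤ e) (t u : Matrix Ω Ω ℝ)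
    (ht : OpLe t 1) (hu : OpLe u 1)
    (htu : ∀ j, OpLe (t * dproj (S j) - dproj (S j) * u) (1 / e))
    (T U : Matrix (Xi J X Y Ω e) (Xi J X Y Ω e) ℝ)
    (hT : T = Amat w S * tm Y t * (Amat w S).transpose)
    (hU : U = Amat w S * tm Y u * (Amat w S).transpose) :
    Triv T U ((-(Real.log (Fintype.card (Xi J X Y Ω e)) / 2)) • (T - U)) 100 := by
  have hne : Nonempty (Xi J X Y Ω e) := by
    obtain ⟨x⟩ := (inferInstance : Nonempty X)
    exact ⟨(x, 0, 0)⟩
  have hD : 0 < (Fintype.card (Xi J X Y Ω e) : ℝ) := by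
    exact_mod_cast Fintype.card_pos
  set D : ℝ := (Fintype.card (Xi J X Y Ω e) : ℝ) with hDdef
  have hTm : ∀ x, T.mulVec x =
      (Amat w S).mulVec ((tm Y t).mulVec ((Amat w S).transpose.mulVec x)) := fun x => by
    rw [hT, Matrix.mulVec_mulVec, Matrix.mulVec_mulVec, Matrix.mul_assoc]
  have hUm : ∀ x, U.mulVec x =
      (Amat w S).mulVec ((tm Y u).mulVec ((Amat w S).transpose.mulVec x)) := fun x => by
    rw [hU, Matrix.mulVec_mulVec, Matrix.mulVec_mulVec, Matrix.mul_assoc]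
  have key : ∀ x : Xi J X Y Ω e → ℝ, nrm x = 1 →
      nrm (T.mulVec (kpf x) - kpf (U.mulVec x) -
        ((-(Real.log D / 2)) • (T - U)).mulVec x) ≤ 100 := by
    intro x hx
    have hUx : nrm (U.mulVec x) ≤ 1 := by
      rw [hUm, Amat_mulVec, nrm_Aop]
      exact nrm_tm hu (nrm_At w S hx.le)
    have herr := kpf_near_K1 D hD (U.mulVec x) hUx
    have e1 : T.mulVec (kpf x) - kpf (U.mulVec x) - ((-(Real.log D / 2)) • (T - U)).mulVec x =
        (T.mulVec (K1 D x) - K1 D (U.mulVec x)) -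
          (kpf (U.mulVec x) - K1 D (U.mulVec x) + (Real.log D / 2) • U.mulVec x) := by
      rw [kpf_eq_K1 D hD x hx, Matrix.mulVec_sub, Matrix.mulVec_smul, Matrix.smul_mulVec,
        Matrix.sub_mulVec, neg_smul, smul_sub]
      abel
    have e2 : nrm (T.mulVec (K1 D x) - K1 D (U.mulVec x)) ≤ 95 := by
      refine nrm_le_of_ip (by norm_num) fun y hy => ?_
      rw [ip_sub_left, hTm, hUm]
      exact main w S hs he t u ht hu htu hD x y hx.le hy.le
    rw [e1]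
    have h3 := nrm_sub_le (T.mulVec (K1 D x) - K1 D (U.mulVec x))
      (kpf (U.mulVec x) - K1 D (U.mulVec x) + (Real.log D / 2) • U.mulVec x)
    linarith
  intro x
  by_cases hx : nrm x = 0
  · have h0 : x = 0 := nrm_eq_zero.mp hx
    subst h0
    have hk : kpf (0 : Xi J X Y Ω e → ℝ) = 0 := by
      funext i
      show (0 : ℝ) * _ = 0
      rw [zero_mul]
    rw [Matrix.mulVec_zero, Matrix.mulVec_zero, hk, Matrix.mulVec_zero, sub_zero, sub_zero,
      nrm_zero, mul_zero]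
  · have hx' : 0 < nrm x := lt_of_le_of_ne (nrm_nonneg x) (Ne.symm hx)
    have hu1 : nrm ((nrm x)⁻¹ • x) = 1 := by
      rw [nrm_smul, abs_of_pos (inv_pos.mpr hx')]; exact inv_mul_cancel₀ hx
    have h := key _ hu1
    rw [kpf_smul, Matrix.mulVec_smul, Matrix.mulVec_smul, Matrix.mulVec_smul, kpf_smul,
      ← smul_sub, ← smul_sub, nrm_smul, abs_of_pos (inv_pos.mpr hx'), inv_mul_le_iff₀ hx'] at h
    linarith

end Main

end KPC
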