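import Pool.Agent.KPC.WExists
import Pool.Agent.KPC.Upper
import Pool.Agent.KPC.LowerBd
import Pool.Agent.KPC.PtrFacts
import Pool.Agent.KPC.AopFacts

/-!
# Realisation theorem
-/

open Finset BigOperators

namespace KPC

namespace Realize_

theorem exists_small (J Ω : Type) [Fintype J] [Fintype Ω] (e : ℕ) :
    ∃ δ : ℝ, 0 < δ ∧ Small J Ω e δ := by
  have hK : (0 : ℝ) < 16 * (2 ^ e) ^ 3 * ((Fintype.card J : ℝ) + 1) ^ 3 *
      ((Fintype.card Ω : ℝ) + 1) * ((2 : ℝ) ^ e) ^ Fintype.card J := by positivity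
  refine ⟨(16 * (2 ^ e) ^ 3 * ((Fintype.card J : ℝ) + 1) ^ 3 *
      ((Fintype.card Ω : ℝ) + 1) * ((2 : ℝ) ^ e) ^ Fintype.card J)⁻¹, inv_pos.mpr hK,
    (inv_pos.mpr hK).le, ?_⟩
  exact (mul_inv_cancel₀ hK.ne').le

end Realize_

open Realize_ in
theorem realize {Ω J : Type} [Fintype Ω] [DecidableEq Ω] [Fintype J] [DecidableEq J]
    (S : J → Finset Ω) (j0 : J) (h0 : S j0 = ∅) (t u : Matrix Ω Ω ℝ) (e : ℕ) (he : 1 ≤ e)
    (ht : OpLe t 1) (hu : OpLe u 1)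
    (htu : ∀ j, OpLe (t * dproj (S j) - dproj (S j) * u) (1 / e)) :
    ∃ (Ξ : Type) (_ : Fintype Ξ) (_ : Nonempty Ξ) (_ : DecidableEq Ξ) (T U L : Matrix Ξ Ξ ℝ),
      OpLe T 1 ∧ OpLe U 1 ∧ (∀ η, 0 ≤ η → OpLe (t - u) η → OpLe (T - U) η) ∧ Triv T U L 100 ∧
      ∀ (V L' : Matrix Ξ Ξ ℝ) (B C : ℝ), 0 ≤ B → 0 ≤ C → OpLe V B → Triv V V L' C →
        ∃ v : Matrix Ω Ω ℝ, (∀ r, 0 ≤ r → OpLe (V - T) r → OpLe (v - t) r) ∧
          ∀ j, OpLe (v * dproj (S j) - dproj (S j) * v) ((6 * C + 300 * B) / e) := by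
  obtain ⟨δ, hδ, hs⟩ := exists_small J Ω e
  obtain ⟨X, Y, _, _, _, _, _, _, ⟨w⟩⟩ := exists_weylSys J e δ hδ
  have key : ∀ (r : Matrix Ω Ω ℝ) (C : ℝ), 0 ≤ C → OpLe r C →
      OpLe (Amat w S * tm Y r * (Amat w S).transpose) C := by
    intro r C hC hr
    have h1 : OpLe (Amat w S * tm Y r) (1 * C) :=
      OpLe.mul zero_le_one (Amat_le w S) (OpLe.tm hC hr)
    have h2 := OpLe.mul (by linarith : (0 : ℝ) ≤ 1 * C) h1 (AmatT_le w S)
    rwa [one_mul, mul_one] at h2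
  refine ⟨Xi J X Y Ω e, inferInstance, inferInstance, inferInstance,
    Amat w S * tm Y t * (Amat w S).transpose, Amat w S * tm Y u * (Amat w S).transpose,
    (-(Real.log (Fintype.card (Xi J X Y Ω e)) / 2)) •
      (Amat w S * tm Y t * (Amat w S).transpose - Amat w S * tm Y u * (Amat w S).transpose),
    key t 1 zero_le_one ht, key u 1 zero_le_one hu, ?_,
    upper w S hs he t u ht hu htu _ _ rfl rfl, ?_⟩
  · intro η hη h
    have h1 := key (t - u) η hη h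
    rwa [tm_sub, Matrix.mul_sub, Matrix.sub_mul] at h1
  · intro V L' B C hB hC hV hL
    exact ⟨ptr w S V, fun r hr h => ptr_near w S j0 t V r hr h,
      fun j => lower_bd w S hs he j0 h0 V L' B C hB hC hV hL j⟩

end KPC
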