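import Pool.Agent.KPC.Reindex
import Pool.Agent.KPC.LevelModel
import Pool.Agent.KPC.Realize

/-! Job KPC-M2: the finite block theorem. -/

open Finset BigOperators

namespace KPC

namespace FiniteBlock_

theorem opLe_add_bd {ι κ : Type*} [Fintype ι] [Fintype κ] (V T : Matrix ι κ ℝ) (a b : ℝ)
    (h1 : OpLe (V - T) a) (h2 : OpLe T b) : OpLe V (a + b) := by
  intro x
  have h3 : V.mulVec x = (V - T).mulVec x + T.mulVec x := by
    rw [Matrix.sub_mulVec, sub_add_cancel]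
  rw [h3]
  refine (nrm_add_le _ _).trans ?_
  have h4 := h1 x
  have h5 := h2 x
  linarith

theorem triv_mono {ι : Type*} [Fintype ι] (T U L : Matrix ι ι ℝ) (a b : ℝ) (hab : a ≤ b)
    (h : Triv T U L a) : Triv T U L b := fun x =>
  (h x).trans (mul_le_mul_of_nonneg_right hab (nrm_nonneg x))

theorem reindex_sub {Ξ Ξ' : Type} [Fintype Ξ] [Fintype Ξ'] (f : Ξ ≃ Ξ') (A B : Matrix Ξ Ξ ℝ) :
    A.reindex f f - B.reindex f f = (A - B).reindex f f := by
  ext i j
  simp [Matrix.reindex_apply]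

theorem reindex_back {Ξ Ξ' : Type} [Fintype Ξ] [Fintype Ξ'] (f : Ξ ≃ Ξ') (V : Matrix Ξ' Ξ' ℝ) :
    (V.reindex f.symm f.symm).reindex f f = V := by
  ext i j
  simp [Matrix.reindex_apply]

end FiniteBlock_

open FiniteBlock_ in
/-- the finite block theorem -/
theorem finite_block (R η : ℝ) (hη : 0 < η) :
    ∃ (D : ℕ) (T U L : Matrix (Fin D) (Fin D) ℝ), 0 < D ∧
      OpLe T 1 ∧ OpLe U 1 ∧ OpLe (T - U) η ∧ Triv T U L 100 ∧
      ∀ V L' : Matrix (Fin D) (Fin D) ℝ, OpLe (V - T) (1 / 8) → ¬ Triv V V L' R := by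
  obtain ⟨Ω, J, _, _, _, _, S, j0, t, u, e, he, h0, ht, hu, htu, hcom, hlow⟩ :=
    level_model (6 * max R 0 + 300 * (9 / 8)) η hη
  obtain ⟨Ξ, _, _, _, T, U, L, hT, hU, hTU, hTriv, hV⟩ :=
    realize S j0 h0 t u e he ht hu hcom
  refine ⟨Fintype.card Ξ, T.reindex (Fintype.equivFin Ξ) (Fintype.equivFin Ξ),
    U.reindex (Fintype.equivFin Ξ) (Fintype.equivFin Ξ),
    L.reindex (Fintype.equivFin Ξ) (Fintype.equivFin Ξ), Fintype.card_pos,
    (opLe_reindex _ T 1).mpr hT, (opLe_reindex _ U 1).mpr hU, ?_,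
    (triv_reindex _ T U L 100).mpr hTriv, ?_⟩
  · rw [reindex_sub]
    exact (opLe_reindex _ (T - U) η).mpr (hTU η hη.le htu)
  · intro V L' hVT hVV
    set f := Fintype.equivFin Ξ with hf
    have h1 : OpLe (V.reindex f.symm f.symm - T) (1 / 8) := by
      rw [← reindex_back f V, reindex_sub] at hVT
      exact (opLe_reindex f _ (1 / 8)).mp hVT
    have h2 : Triv (V.reindex f.symm f.symm) (V.reindex f.symm f.symm)
        (L'.reindex f.symm f.symm) R := by
      rw [← reindex_back f V, ← reindex_back f L'] at hVV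
      exact (triv_reindex f _ _ _ R).mp hVV
    have h3 : OpLe (V.reindex f.symm f.symm) (9 / 8) := by
      have h4 := opLe_add_bd _ _ _ _ h1 hT
      have h5 : (1 / 8 + 1 : ℝ) = 9 / 8 := by norm_num
      rw [h5] at h4
      exact h4
    obtain ⟨v, hv1, hv2⟩ := hV (V.reindex f.symm f.symm) (L'.reindex f.symm f.symm) (9 / 8)
      (max R 0) (by norm_num) (le_max_right _ _) h3
      (triv_mono _ _ _ _ _ (le_max_left R 0) h2)
    obtain ⟨j, hj⟩ := hlow v (hv1 (1 / 8) (by norm_num) h1)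
    exact hj (hv2 j)

end KPC
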