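import Pool.Agent.KPC.InfDefs

/-!
# The norm of `ℓ₂` by blocks
-/

open Finset BigOperators

namespace KPC

namespace IBlk_

theorem two_toReal : (2 : ENNReal).toReal = 2 := by norm_num

theorem norm_rpow_two (x : ℝ) : ‖x‖ ^ (2 : ENNReal).toReal = x ^ 2 := by
  rw [two_toReal, Real.rpow_two, Real.norm_eq_abs, sq_abs]

theorem tsum_blk {D : ℕ → ℕ} (E : ℕ ≃ Σ h, Fin (D h)) (f : ℕ → ℝ) (h : ℕ) :
    ∑' i : Fin (D h), (f (E.symm ⟨h, i⟩)) ^ 2 = nsq (blk E f h) := by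
  rw [tsum_fintype]
  rfl

end IBlk_

section Blocks

variable {D : ℕ → ℕ} (E : ℕ ≃ Σ h, Fin (D h))

theorem memlp_iff_blk (f : ℕ → ℝ) : Memℓp f 2 ↔ Summable fun h => nsq (blk E f h) := by
  rw [memℓp_gen_iff (by norm_num : 0 < (2 : ENNReal).toReal)]
  have e1 : (fun i => ‖f i‖ ^ (2 : ENNReal).toReal) = fun i => f i ^ 2 := by
    funext i
    exact IBlk_.norm_rpow_two (f i)
  have e3 : (Summable fun p : Σ h, Fin (D h) => (f (E.symm p)) ^ 2) ↔
      Summable fun i => f i ^ 2 := E.symm.summable_iff (f := fun i => (f i) ^ 2)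
  rw [e1, ← e3, summable_sigma_of_nonneg (fun _ => sq_nonneg _)]
  have e2 : (fun h => ∑' i : Fin (D h), (f (E.symm ⟨h, i⟩)) ^ 2) =
      fun h => nsq (blk E f h) := by
    funext h
    exact IBlk_.tsum_blk E f h
  rw [e2]
  exact ⟨fun h => h.2, fun h => ⟨fun _ => Summable.of_finite, h⟩⟩

theorem norm_sq_blk (z : H) : ‖z‖ ^ 2 = ∑' h, nsq (blk E z h) := by
  have h1 := lp.norm_rpow_eq_tsum (by norm_num : 0 < (2 : ENNReal).toReal) z
  rw [IBlk_.two_toReal, Real.rpow_two] at h1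
  rw [h1]
  have e1 : (fun i => ‖z i‖ ^ (2 : ℝ)) = fun i => (z i) ^ 2 := by
    funext i
    have := IBlk_.norm_rpow_two (z i)
    rwa [IBlk_.two_toReal] at this
  rw [e1]
  have hs : Summable fun i => (z i) ^ 2 := by
    have h2 := (memℓp_gen_iff (by norm_num : 0 < (2 : ENNReal).toReal)).mp (lp.memℓp z)
    rwa [IBlk_.two_toReal, e1] at h2
  rw [← E.symm.tsum_eq (fun i => (z i) ^ 2)]
  have hs' : Summable fun p : Σ h, Fin (D h) => (z (E.symm p)) ^ 2 := by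
    have := (E.symm.summable_iff (f := fun i => (z i) ^ 2)).mpr hs
    exact this
  rw [hs'.tsum_sigma]
  exact tsum_congr fun h => IBlk_.tsum_blk E z h

theorem blk_bdiag (T : ∀ h, Matrix (Fin (D h)) (Fin (D h)) ℝ) (z : ℕ → ℝ) (h : ℕ) :
    blk E (bdiag E T z) h = (T h).mulVec (blk E z h) := by
  funext i
  exact congrArg (fun p : Σ h, Fin (D h) => (T p.1).mulVec (blk E z p.1) p.2)
    (E.apply_symm_apply ⟨h, i⟩)

end Blocks

end KPC
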