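import Pool.Agent.KPC.InfDefs
import Pool.Agent.KPC.IBlk

/-!
# Compressions of a compact operator to the blocks tend to zero
-/

open Finset BigOperators

namespace KPC

namespace IComp_

variable {D : ℕ → ℕ} (E : ℕ ≃ Σ h, Fin (D h))

theorem single_app (n m : ℕ) :
    ((lp.single 2 n (1 : ℝ) : H) : ℕ → ℝ) m = if m = n then 1 else 0 := by
  rw [lp.single_apply]
  by_cases h : m = n
  · subst h
    simp
  · simp [h]

theorem emb_app (h : ℕ) (x : Fin (D h) → ℝ) (m : ℕ) :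
    ((emb E h x : H) : ℕ → ℝ) m = ∑ i, x i * (if m = E.symm ⟨h, i⟩ then 1 else 0) := by
  unfold emb
  rw [lp.coeFn_sum, Finset.sum_apply]
  refine Finset.sum_congr rfl fun i _ => ?_
  rw [lp.coeFn_smul, Pi.smul_apply, single_app, smul_eq_mul]

theorem blk_emb_same (h : ℕ) (x : Fin (D h) → ℝ) : blk E (emb E h x) h = x := by
  funext j
  show ((emb E h x : H) : ℕ → ℝ) (E.symm ⟨h, j⟩) = x j
  rw [emb_app]
  rw [Finset.sum_eq_single j]
  · simp
  · intro i _ hij
    have h1 : ¬ E.symm ⟨h, j⟩ = E.symm ⟨h, i⟩ := by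
      intro h2
      have h3 := E.symm.injective h2
      rw [Sigma.mk.injEq] at h3
      exact hij (eq_of_heq h3.2).symm
    rw [if_neg h1, mul_zero]
  · intro h1
    exact absurd (Finset.mem_univ j) h1

theorem blk_emb_ne (h h' : ℕ) (hne : h' ≠ h) (x : Fin (D h) → ℝ) : blk E (emb E h x) h' = 0 := by
  funext j
  show ((emb E h x : H) : ℕ → ℝ) (E.symm ⟨h', j⟩) = 0
  rw [emb_app]
  refine Finset.sum_eq_zero fun i _ => ?_
  have h1 : ¬ E.symm ⟨h', j⟩ = E.symm ⟨h, i⟩ := by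
    intro h2
    have h3 := E.symm.injective h2
    rw [Sigma.mk.injEq] at h3
    exact hne h3.1
  rw [if_neg h1, mul_zero]

theorem norm_emb' (h : ℕ) (x : Fin (D h) → ℝ) : ‖emb E h x‖ = nrm x := by
  have h1 : ‖emb E h x‖ ^ 2 = nsq x := by
    rw [norm_sq_blk E, tsum_eq_single h, blk_emb_same]
    intro h' hne
    rw [blk_emb_ne E h h' hne, nsq_zero]
  rw [← nrm_sq] at h1
  have h2 := norm_nonneg (emb E h x)
  have h3 := nrm_nonneg x
  nlinarith [sq_nonneg (‖emb E h x‖ - nrm x)]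

theorem cmp_mulVec' (V : H →L[ℝ] H) (h : ℕ) (x : Fin (D h) → ℝ) :
    (cmp E V h).mulVec x = blk E (V (emb E h x)) h := by
  funext i
  show ∑ j, cmp E V h i j * x j = ((V (emb E h x) : H) : ℕ → ℝ) (E.symm ⟨h, i⟩)
  unfold emb
  rw [map_sum, lp.coeFn_sum, Finset.sum_apply]
  refine Finset.sum_congr rfl fun j _ => ?_
  rw [map_smul, lp.coeFn_smul, Pi.smul_apply, smul_eq_mul, mul_comm]
  rfl

theorem nsq_blk_le (z : H) (h : ℕ) : nsq (blk E z h) ≤ ‖z‖ ^ 2 := by
  rw [norm_sq_blk E]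
  exact ((memlp_iff_blk E z).1 (lp.memℓp z)).le_tsum h fun _ _ => nsq_nonneg _

theorem nrm_blk_le (z : H) (h : ℕ) : nrm (blk E z h) ≤ ‖z‖ :=
  nrm_le_of_nsq_le (norm_nonneg z) (nsq_blk_le E z h)

theorem blk_tendsto (z : H) : Filter.Tendsto (fun h => nrm (blk E z h)) Filter.atTop (nhds 0) := by
  have h1 := ((memlp_iff_blk E z).1 (lp.memℓp z)).tendsto_atTop_zero
  have h2 := (Real.continuous_sqrt.tendsto 0).comp h1
  rw [Real.sqrt_zero] at h2
  exact h2

end IComp_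

section Blocks

variable {D : ℕ → ℕ} (E : ℕ ≃ Σ h, Fin (D h))

open IComp_ in
theorem compress_compact (K : H →L[ℝ] H) (hK : IsCompactOperator K) (ε : ℝ) (hε : 0 < ε) :
    ∃ h0, ∀ h, h0 ≤ h → OpLe (cmp E K h) ε := by
  obtain ⟨S, hS, hKS⟩ := hK.image_closedBall_subset_compact 1
  obtain ⟨t, htf, hcov⟩ := Metric.totallyBounded_iff.1 hS.totallyBounded (ε / 2) (half_pos hε)
  have hev : ∀ᶠ h in Filter.atTop, ∀ y ∈ t, nrm (blk E y h) < ε / 2 := by
    rw [Filter.eventually_all_finite htf]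
    intro y _
    exact (blk_tendsto E y).eventually (gt_mem_nhds (half_pos hε))
  obtain ⟨h0, hh0⟩ := Filter.eventually_atTop.1 hev
  refine ⟨h0, fun h hh => OpLe.of_unit hε.le fun x w hx hw => ?_⟩
  refine (abs_ip_le _ _).trans ?_
  rw [hw, one_mul]
  have hmem : K (emb E h x) ∈ S := by
    refine hKS ⟨emb E h x, ?_, rfl⟩
    rw [mem_closedBall_zero_iff, norm_emb', hx]
  obtain ⟨y, hy, hyd⟩ : ∃ y ∈ t, dist (K (emb E h x)) y < ε / 2 := by
    have h1 := hcov hmem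
    simp only [Set.mem_iUnion, exists_prop] at h1
    obtain ⟨y, hy, hyd⟩ := h1
    exact ⟨y, hy, hyd⟩
  rw [cmp_mulVec']
  have e1 : blk E (K (emb E h x)) h = blk E (K (emb E h x) - y : H) h + blk E y h := by
    funext i
    show ((K (emb E h x) : H) : ℕ → ℝ) _ = ((K (emb E h x) - y : H) : ℕ → ℝ) _ +
      ((y : H) : ℕ → ℝ) _
    rw [lp.coeFn_sub, Pi.sub_apply, sub_add_cancel]
  rw [e1]
  have h2 := nrm_add_le (blk E (K (emb E h x) - y : H) h) (blk E y h)
  have h3 := nrm_blk_le E (K (emb E h x) - y) h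
  rw [← dist_eq_norm] at h3
  have h4 := hh0 h hh y hy
  linarith

end Blocks

end KPC
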