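import Pool.Agent.KPC.InfDefs

/-!
# Project KPC: a sufficient condition for compatibility
-/

open Finset BigOperators

namespace KPC

namespace ICompat_

/-- the key identity -/
theorem key (T' U' : H →L[ℝ] H) (T1 L1 : (ℕ → ℝ) →ₗ[ℝ] (ℕ → ℝ))
    (hT : ∀ z : H, ((T' z : H) : ℕ → ℝ) = T1 z) (w : Z2) :
    T1 w.1.1 - L1 w.1.2 - kp (U' w.1.2) =
      (T1 (kp w.1.2) - kp (U' w.1.2) - L1 w.1.2) +
        ((T' (⟨w.1.1 - kp w.1.2, w.2⟩ : H) : H) : ℕ → ℝ) := by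
  rw [hT]
  have h1 : ((⟨w.1.1 - kp w.1.2, w.2⟩ : H) : ℕ → ℝ) = w.1.1 - kp w.1.2 := rfl
  rw [h1, map_sub]
  abel

end ICompat_

section Blocks

variable {D : ℕ → ℕ} (E : ℕ ≃ Σ h, Fin (D h))

/-- sufficient condition for compatibility -/
theorem compatible_of_est (T' U' : H →L[ℝ] H) (T1 L1 : (ℕ → ℝ) →ₗ[ℝ] (ℕ → ℝ))
    (hT : ∀ z : H, ((T' z : H) : ℕ → ℝ) = T1 z) (C : ℝ)
    (h : ∀ z : H, ∃ hw : Memℓp (T1 (kp z) - kp (U' z) - L1 z) 2,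
      ‖(⟨T1 (kp z) - kp (U' z) - L1 z, hw⟩ : H)‖ ≤ C * ‖z‖) :
    Compatible T' U' := by
  have hmem : ∀ w : Z2, Memℓp (T1 w.1.1 - L1 w.1.2 - kp (U' w.1.2)) 2 := by
    intro w
    rw [ICompat_.key T' U' T1 L1 hT w]
    obtain ⟨hw, _⟩ := h w.1.2
    exact hw.add (lp.memℓp _)
  let β : Z2 →ₗ[ℝ] Z2 :=
    { toFun := fun w => ⟨(T1 w.1.1 - L1 w.1.2, U' w.1.2), hmem w⟩
      map_add' := by
        intro a b
        apply Subtype.ext
        apply Prod.ext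
        · show T1 (a.1.1 + b.1.1) - L1 (((a.1.2 + b.1.2 : H)) : ℕ → ℝ) =
            (T1 a.1.1 - L1 a.1.2) + (T1 b.1.1 - L1 b.1.2)
          rw [lp.coeFn_add, map_add, map_add]
          abel
        · show U' (a.1.2 + b.1.2) = U' a.1.2 + U' b.1.2
          exact map_add _ _ _
      map_smul' := by
        intro c a
        apply Subtype.ext
        apply Prod.ext
        · show T1 (c • a.1.1) - L1 (((c • a.1.2 : H)) : ℕ → ℝ) = c • (T1 a.1.1 - L1 a.1.2)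
          rw [lp.coeFn_smul, map_smul, map_smul, smul_sub]
        · show U' (c • a.1.2) = c • U' a.1.2
          exact map_smul _ _ _ }
  refine ⟨β, ⟨|C| + ‖T'‖ + ‖U'‖, fun w => ?_⟩, fun y => ?_, fun w => rfl⟩
  · obtain ⟨hw, hle⟩ := h w.1.2
    set v : H := ⟨w.1.1 - kp w.1.2, w.2⟩ with hv
    have e : (⟨(β w).1.1 - kp (β w).1.2, (β w).2⟩ : H) =
        (⟨T1 (kp w.1.2) - kp (U' w.1.2) - L1 w.1.2, hw⟩ : H) + T' v := by
      apply Subtype.ext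
      exact ICompat_.key T' U' T1 L1 hT w
    have e1 : qn (β w) = ‖(⟨T1 (kp w.1.2) - kp (U' w.1.2) - L1 w.1.2, hw⟩ : H) + T' v‖ +
        ‖U' w.1.2‖ := by
      rw [← e]; rfl
    have e2 : qn w = ‖v‖ + ‖w.1.2‖ := rfl
    rw [e1, e2]
    have h1 := norm_add_le (⟨T1 (kp w.1.2) - kp (U' w.1.2) - L1 w.1.2, hw⟩ : H) (T' v)
    have h2 := T'.le_opNorm v
    have h3 := U'.le_opNorm w.1.2
    have h4 : C * ‖w.1.2‖ ≤ |C| * ‖w.1.2‖ :=
      mul_le_mul_of_nonneg_right (le_abs_self C) (norm_nonneg _)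
    have h5 : 0 ≤ |C| * ‖v‖ := mul_nonneg (abs_nonneg _) (norm_nonneg _)
    have h6 : 0 ≤ ‖T'‖ * ‖w.1.2‖ := mul_nonneg (norm_nonneg _) (norm_nonneg _)
    have h7 : 0 ≤ ‖U'‖ * ‖v‖ := mul_nonneg (norm_nonneg _) (norm_nonneg _)
    nlinarith
  · apply Subtype.ext
    apply Prod.ext
    · show T1 (y : ℕ → ℝ) - L1 ((0 : H) : ℕ → ℝ) = ((T' y : H) : ℕ → ℝ)
      rw [hT, lp.coeFn_zero, map_zero, sub_zero]
    · show U' (0 : H) = 0
      exact map_zero _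

end Blocks

end KPC
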