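import Pool.Agent.KPC.InfDefs

/-!
# Embedding and compression of blocks
-/

open Finset BigOperators

namespace KPC

section Blocks

variable {D : ℕ → ℕ} (E : ℕ ≃ Σ h, Fin (D h))

theorem IEmb_.apply (h : ℕ) (x : Fin (D h) → ℝ) (n : ℕ) :
    (emb E h x : ℕ → ℝ) n = ∑ i, if n = E.symm ⟨h, i⟩ then x i else 0 := by
  unfold emb
  rw [lp.coeFn_sum, Finset.sum_apply]
  refine Finset.sum_congr rfl fun i _ => ?_
  rw [lp.coeFn_smul, Pi.smul_apply, lp.single_apply, smul_eq_mul]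
  by_cases hn : n = E.symm ⟨h, i⟩
  · subst hn
    simp
  · rw [if_neg hn]
    simp [hn]

theorem IEmb_.apply_same (h : ℕ) (x : Fin (D h) → ℝ) (i : Fin (D h)) :
    (emb E h x : ℕ → ℝ) (E.symm ⟨h, i⟩) = x i := by
  rw [IEmb_.apply]
  have : ∀ j, (if E.symm ⟨h, i⟩ = E.symm ⟨h, j⟩ then x j else 0) = if i = j then x j else 0 := by
    intro j
    have h1 : (E.symm ⟨h, i⟩ = E.symm ⟨h, j⟩) ↔ i = j := by
      rw [E.symm.injective.eq_iff]
      constructor
      · intro hh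
        exact eq_of_heq (Sigma.mk.inj hh).2
      · rintro rfl
        rfl
    exact if_congr h1 rfl rfl
  simp only [this]
  simp

theorem IEmb_.apply_ne (h : ℕ) (x : Fin (D h) → ℝ) (h' : ℕ) (hh : h' ≠ h) (i : Fin (D h')) :
    (emb E h x : ℕ → ℝ) (E.symm ⟨h', i⟩) = 0 := by
  rw [IEmb_.apply]
  refine Finset.sum_eq_zero fun j _ => ?_
  rw [if_neg]
  rw [E.symm.injective.eq_iff]
  intro hc
  exact hh (Sigma.mk.inj hc).1

theorem blk_emb (h : ℕ) (x : Fin (D h) → ℝ) : blk E (emb E h x) h = x := by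
  funext i
  exact IEmb_.apply_same E h x i

theorem norm_emb (h : ℕ) (x : Fin (D h) → ℝ) : ‖emb E h x‖ = nrm x := by
  have h1 : ‖emb E h x‖ ^ 2 = nsq x := by
    have h2 := lp.norm_rpow_eq_tsum (p := 2) (by norm_num) (emb E h x)
    have h3 : ((2 : ENNReal).toReal) = ((2 : ℕ) : ℝ) := by norm_num
    rw [h3] at h2
    simp only [Real.rpow_natCast] at h2
    rw [h2, ← E.symm.tsum_eq]
    rw [tsum_eq_sum (s := Finset.univ.map ⟨fun i : Fin (D h) => (⟨h, i⟩ : Σ h, Fin (D h)),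
      fun i j hij => eq_of_heq (Sigma.mk.inj hij).2⟩)]
    · rw [Finset.sum_map]
      unfold nsq
      refine Finset.sum_congr rfl fun i _ => ?_
      show ‖(emb E h x : ℕ → ℝ) (E.symm ⟨h, i⟩)‖ ^ 2 = x i ^ 2
      rw [IEmb_.apply_same, Real.norm_eq_abs, sq_abs]
    · rintro ⟨h', i⟩ hi
      have hne : h' ≠ h := by
        rintro rfl
        exact hi (Finset.mem_map.2 ⟨i, Finset.mem_univ _, rfl⟩)
      show ‖(emb E h x : ℕ → ℝ) (E.symm ⟨h', i⟩)‖ ^ 2 = 0
      rw [IEmb_.apply_ne E h x h' hne i, norm_zero]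
      norm_num
  rw [← nrm_sq] at h1
  exact (pow_left_inj₀ (norm_nonneg _) (nrm_nonneg x) two_ne_zero).1 h1

theorem cmp_mulVec (V : H →L[ℝ] H) (h : ℕ) (x : Fin (D h) → ℝ) :
    (cmp E V h).mulVec x = blk E (V (emb E h x)) h := by
  funext i
  unfold cmp blk emb Matrix.mulVec dotProduct
  rw [map_sum, lp.coeFn_sum, Finset.sum_apply]
  refine Finset.sum_congr rfl fun j _ => ?_
  rw [map_smul, lp.coeFn_smul, Pi.smul_apply, smul_eq_mul, mul_comm]

theorem kp_emb (h : ℕ) (x : Fin (D h) → ℝ) : kp (emb E h x) = (emb E h (kpf x) : H) := by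
  funext n
  obtain ⟨⟨h', i⟩, rfl⟩ := E.symm.surjective n
  by_cases hh : h' = h
  · subst hh
    rw [IEmb_.apply_same]
    unfold kp kpf
    rw [IEmb_.apply_same, norm_emb]
  · rw [IEmb_.apply_ne E h _ h' hh]
    unfold kp
    rw [IEmb_.apply_ne E h _ h' hh]
    simp

end Blocks

end KPC
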