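import Pool.Agent.KPC.InfDefs

/-!
# The estimates in one block
-/

open Finset BigOperators

namespace KPC

section Blocks

variable {D : ℕ → ℕ} (E : ℕ ≃ Σ h, Fin (D h))

theorem blk_kp (z : H) (h : ℕ) :
    blk E (kp z) h = kpf (blk E z h) + Real.log (nrm (blk E z h) / ‖z‖) • blk E z h := by
  funext i
  have e1 : blk E (kp z) h i =
      z (E.symm ⟨h, i⟩) * Real.log (|z (E.symm ⟨h, i⟩)| / ‖z‖) := rfl
  have e2 : blk E z h i = z (E.symm ⟨h, i⟩) := rfl
  simp only [Pi.add_apply, Pi.smul_apply, smul_eq_mul, kpf, e1, e2]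
  by_cases hx : z (E.symm ⟨h, i⟩) = 0
  · simp [hx]
  · have hz : ‖z‖ ≠ 0 := by
      intro h0
      rw [norm_eq_zero] at h0
      apply hx; rw [h0]; rfl
    have hn : nrm (blk E z h) ≠ 0 := by
      intro h0
      rw [nrm_eq_zero] at h0
      apply hx
      have := congrFun h0 i
      exact this
    rw [Real.log_div (abs_ne_zero.mpr hx) hz, Real.log_div (abs_ne_zero.mpr hx) hn,
      Real.log_div hn hz]
    ring

theorem IEst_.logbd (t N : ℝ) (ht : 0 ≤ t) (hN : t ≤ N) : t * |Real.log (t / N)| ≤ N := by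
  rcases ht.eq_or_lt with h0 | h0
  · rw [← h0]; simpa using (h0 ▸ hN)
  · have hNpos : 0 < N := lt_of_lt_of_le h0 hN
    have hle : Real.log (t / N) ≤ 0 := by
      apply Real.log_nonpos (by positivity)
      rw [div_le_one hNpos]; exact hN
    rw [abs_of_nonpos hle]
    have h1 : Real.log (N / t) ≤ N / t - 1 := Real.log_le_sub_one_of_pos (by positivity)
    have h2 : -Real.log (t / N) = Real.log (N / t) := by
      rw [← Real.log_inv, inv_div]
    rw [h2]
    calc t * Real.log (N / t) ≤ t * (N / t - 1) := mul_le_mul_of_nonneg_left h1 h0.le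
      _ = N - t := by field_simp
      _ ≤ N := by linarith

theorem IEst_.diffbd (a b N N' : ℝ) (ha : 0 ≤ a) (hb : 0 ≤ b) (hba : b ≤ a) (hN : a ≤ N)
    (hN' : b ≤ N') (hNN : N' ≤ N) :
    |Real.log (a / N) - Real.log (b / N')| * b ≤ a + N / N' * b := by
  rcases hb.eq_or_lt with h0 | h0
  · rw [← h0]; simpa using ha
  · have ha' : 0 < a := lt_of_lt_of_le h0 hba
    have hNp : 0 < N := lt_of_lt_of_le ha' hN
    have hNp' : 0 < N' := lt_of_lt_of_le h0 hN'
    have e : Real.log (a / N) - Real.log (b / N') = Real.log (a / b) - Real.log (N / N') := by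
      rw [Real.log_div ha'.ne' hNp.ne', Real.log_div h0.ne' hNp'.ne',
        Real.log_div ha'.ne' h0.ne', Real.log_div hNp.ne' hNp'.ne']
      ring
    rw [e]
    have h1 : 0 ≤ Real.log (a / b) := Real.log_nonneg (by rw [le_div_iff₀ h0]; linarith)
    have h2 : 0 ≤ Real.log (N / N') := Real.log_nonneg (by rw [le_div_iff₀ hNp']; linarith)
    have h3 : Real.log (a / b) ≤ a / b := by
      have := Real.log_le_sub_one_of_pos (show 0 < a / b by positivity)
      linarith
    have h4 : Real.log (N / N') ≤ N / N' := by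
      have := Real.log_le_sub_one_of_pos (show 0 < N / N' by positivity)
      linarith
    have h5 : |Real.log (a / b) - Real.log (N / N')| ≤ a / b + N / N' := by
      rw [abs_le]
      have h6 : 0 < a / b := by positivity
      have h7 : 0 < N / N' := by positivity
      constructor <;> linarith
    calc |Real.log (a / b) - Real.log (N / N')| * b ≤ (a / b + N / N') * b :=
          mul_le_mul_of_nonneg_right h5 h0.le
      _ = a + N / N' * b := by field_simp

/-- the estimate in one block -/
theorem block_est {d : ℕ} (T U L : Matrix (Fin d) (Fin d) ℝ) (C η : ℝ) (hη : 0 ≤ η)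
    (hU : OpLe U 1) (hTU : OpLe (T - U) η) (hC : Triv T U L C) (x : Fin d → ℝ)
    (N N' : ℝ) (hN : nrm x ≤ N) (hN' : nrm (U.mulVec x) ≤ N') (hNN : N' ≤ N) :
    nrm (T.mulVec (kpf x + Real.log (nrm x / N) • x) -
        (kpf (U.mulVec x) + Real.log (nrm (U.mulVec x) / N') • U.mulVec x) - L.mulVec x) ≤
      (C + 1) * nrm x + η * N + N / N' * nrm (U.mulVec x) := by
  set y := U.mulVec x with hy
  have e : T.mulVec (kpf x + Real.log (nrm x / N) • x) -
        (kpf y + Real.log (nrm y / N') • y) - L.mulVec x =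
      (T.mulVec (kpf x) - kpf y - L.mulVec x) +
        Real.log (nrm x / N) • (T - U).mulVec x +
        (Real.log (nrm x / N) - Real.log (nrm y / N')) • y := by
    rw [Matrix.mulVec_add, Matrix.mulVec_smul, Matrix.sub_mulVec, ← hy]
    funext i
    simp only [Pi.add_apply, Pi.sub_apply, Pi.smul_apply, smul_eq_mul]
    ring
  rw [e]
  have h1 : nrm (T.mulVec (kpf x) - kpf y - L.mulVec x) ≤ C * nrm x := hC x
  have h2 : nrm (Real.log (nrm x / N) • (T - U).mulVec x) ≤ η * N := by
    rw [nrm_smul]
    calc |Real.log (nrm x / N)| * nrm ((T - U).mulVec x)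
        ≤ |Real.log (nrm x / N)| * (η * nrm x) :=
          mul_le_mul_of_nonneg_left (hTU x) (abs_nonneg _)
      _ = η * (nrm x * |Real.log (nrm x / N)|) := by ring
      _ ≤ η * N := mul_le_mul_of_nonneg_left (IEst_.logbd _ _ (nrm_nonneg x) hN) hη
  have hyx : nrm y ≤ nrm x := by
    have := hU x
    rw [one_mul] at this
    exact this
  have h3 : nrm ((Real.log (nrm x / N) - Real.log (nrm y / N')) • y) ≤
      nrm x + N / N' * nrm y := by
    rw [nrm_smul]
    exact IEst_.diffbd _ _ _ _ (nrm_nonneg x) (nrm_nonneg y) hyx hN hN' hNN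
  have h4 := nrm_add_le (T.mulVec (kpf x) - kpf y - L.mulVec x +
        Real.log (nrm x / N) • (T - U).mulVec x)
        ((Real.log (nrm x / N) - Real.log (nrm y / N')) • y)
  have h5 := nrm_add_le (T.mulVec (kpf x) - kpf y - L.mulVec x)
        (Real.log (nrm x / N) • (T - U).mulVec x)
  linarith

end Blocks

end KPC
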