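import Pool.Agent.KPC.InfDefs
import Pool.Agent.KPC.IBlk
import Pool.Agent.KPC.IEst

/-!
# KPC: the global estimate from the block estimates (helper17)
-/

open Finset BigOperators

namespace KPC

namespace IMain_

theorem three_sq (a b c : ℝ) : (a + b + c) ^ 2 ≤ 3 * (a ^ 2 + b ^ 2 + c ^ 2) := by
  nlinarith [sq_nonneg (a - b), sq_nonneg (a - c), sq_nonneg (b - c)]

variable {D : ℕ → ℕ} (E : ℕ ≃ Σ h, Fin (D h))

theorem summ (z : H) : Summable fun h => nsq (blk E z h) :=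
  (memlp_iff_blk E z).1 (lp.memℓp z)

theorem nrm_blk_le (z : H) (h : ℕ) : nrm (blk E z h) ≤ ‖z‖ := by
  refine nrm_le_of_nsq_le (norm_nonneg z) ?_
  rw [norm_sq_blk E z]
  exact (summ E z).le_tsum h fun j _ => nsq_nonneg _

end IMain_

open IMain_

section Blocks

variable {D : ℕ → ℕ} (E : ℕ ≃ Σ h, Fin (D h))

/-- the global estimate -/
theorem main_est (T U L : ∀ h, Matrix (Fin (D h)) (Fin (D h)) ℝ) (C : ℝ) (hC : 0 ≤ C)
    (hT : ∀ h, OpLe (T h) 1) (hU : ∀ h, OpLe (U h) 1)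
    (hTU : ∀ h, OpLe (T h - U h) ((1 / 2) ^ h)) (hL : ∀ h, Triv (T h) (U h) (L h) C)
    (U' : H →L[ℝ] H) (hU' : ∀ z : H, ((U' z : H) : ℕ → ℝ) = bdiag E U z)
    (hU1 : ∀ z, ‖U' z‖ ≤ ‖z‖) (z : H) :
    ∃ hw : Memℓp (bdiag E T (kp z) - kp (U' z) - bdiag E L z) 2,
      ‖(⟨bdiag E T (kp z) - kp (U' z) - bdiag E L z, hw⟩ : H)‖ ≤ 2 * (C + 3) * ‖z‖ := by
  set w : ℕ → ℝ := bdiag E T (kp z) - kp (U' z) - bdiag E L z with hw
  have hUx : ∀ h, blk E (U' z : H) h = (U h).mulVec (blk E z h) := by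
    intro h
    rw [hU' z, blk_bdiag]
  have hblk : ∀ h, blk E w h = (T h).mulVec (blk E (kp z) h) - blk E (kp (U' z)) h -
      (L h).mulVec (blk E z h) := by
    intro h
    have h1 : blk E w h = blk E (bdiag E T (kp z)) h - blk E (kp (U' z)) h -
        blk E (bdiag E L z) h := rfl
    rw [h1, blk_bdiag, blk_bdiag]
  have hest : ∀ h, nrm (blk E w h) ≤ (C + 1) * nrm (blk E z h) + (1 / 2) ^ h * ‖z‖ +
      ‖z‖ / ‖U' z‖ * nrm (blk E (U' z : H) h) := by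
    intro h
    rw [hblk, blk_kp E z h, blk_kp E (U' z) h, hUx h]
    refine block_est (T h) (U h) (L h) C ((1 / 2) ^ h) (by positivity) (hU h) (hTU h) (hL h)
      (blk E z h) ‖z‖ ‖U' z‖ (nrm_blk_le E z h) ?_ (hU1 z)
    rw [← hUx h]
    exact nrm_blk_le E (U' z) h
  -- the majorant
  set M : ℕ → ℝ := fun h => 3 * ((C + 1) ^ 2 * nsq (blk E z h) + ‖z‖ ^ 2 * (1 / 4) ^ h +
    (‖z‖ / ‖U' z‖) ^ 2 * nsq (blk E (U' z : H) h)) with hM
  have hgeo : HasSum (fun h : ℕ => ((1 : ℝ) / 4) ^ h) (4 / 3) := by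
    have h1 := hasSum_geometric_of_lt_one (show (0 : ℝ) ≤ 1 / 4 by norm_num) (by norm_num)
    have h2 : (1 - (1 : ℝ) / 4)⁻¹ = 4 / 3 := by norm_num
    rwa [h2] at h1
  have hz1 : HasSum (fun h => nsq (blk E z h)) (‖z‖ ^ 2) := by
    rw [norm_sq_blk E z]
    exact (summ E z).hasSum
  have hz2 : HasSum (fun h => nsq (blk E (U' z : H) h)) (‖U' z‖ ^ 2) := by
    rw [norm_sq_blk E (U' z)]
    exact (summ E (U' z)).hasSum
  have hMs : HasSum M (3 * ((C + 1) ^ 2 * ‖z‖ ^ 2 + ‖z‖ ^ 2 * (4 / 3) +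
      (‖z‖ / ‖U' z‖) ^ 2 * ‖U' z‖ ^ 2)) :=
    (((hz1.mul_left _).add (hgeo.mul_left _)).add (hz2.mul_left _)).mul_left 3
  have hle : ∀ h, nsq (blk E w h) ≤ M h := by
    intro h
    rw [← nrm_sq]
    refine (pow_le_pow_left₀ (nrm_nonneg _) (hest h) 2).trans ((three_sq _ _ _).trans ?_)
    refine le_of_eq ?_
    simp only [hM]
    rw [mul_pow, mul_pow, mul_pow, nrm_sq, nrm_sq, ← pow_mul, mul_comm h 2, pow_mul]
    norm_num
    ring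
  have hsw : Summable fun h => nsq (blk E w h) :=
    Summable.of_nonneg_of_le (fun h => nsq_nonneg _) hle hMs.summable
  have hmem : Memℓp w 2 := (memlp_iff_blk E w).2 hsw
  refine ⟨hmem, ?_⟩
  have h1 : ‖(⟨w, hmem⟩ : H)‖ ^ 2 ≤ (2 * (C + 3) * ‖z‖) ^ 2 := by
    rw [norm_sq_blk E]
    have h2 : ∑' h, nsq (blk E w h) ≤ 3 * ((C + 1) ^ 2 * ‖z‖ ^ 2 + ‖z‖ ^ 2 * (4 / 3) +
        (‖z‖ / ‖U' z‖) ^ 2 * ‖U' z‖ ^ 2) := by
      rw [← hMs.tsum_eq]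
      exact hsw.tsum_le_tsum hle hMs.summable
    refine h2.trans ?_
    have h3 : (‖z‖ / ‖U' z‖) ^ 2 * ‖U' z‖ ^ 2 ≤ ‖z‖ ^ 2 := by
      rcases eq_or_ne ‖U' z‖ 0 with h0 | h0
      · rw [h0]
        simp
      · rw [div_pow, div_mul_cancel₀ _ (pow_ne_zero 2 h0)]
    have h4 : 0 ≤ ‖z‖ ^ 2 := sq_nonneg _
    nlinarith [mul_nonneg hC h4, mul_nonneg (mul_nonneg hC hC) h4]
  exact abs_le_of_sq_le_sq' h1 (by positivity) |>.2

end Blocks

end KPC
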