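import Pool.Agent.KPC.InfDefs

/-!
# Block diagonal contractions on `ℓ₂` (project KPC)
-/

open Finset BigOperators

namespace KPC

section Blocks

variable {D : ℕ → ℕ} (E : ℕ ≃ Σ h, Fin (D h))

namespace IOp_

theorem memlp_iff_sq (f : ℕ → ℝ) : Memℓp f 2 ↔ Summable fun n => f n ^ 2 := by
  rw [memℓp_gen_iff (by norm_num : 0 < (2 : ENNReal).toReal)]
  have e : (fun i => ‖f i‖ ^ (2 : ENNReal).toReal) = fun n => f n ^ 2 := by
    funext n
    have : (2 : ENNReal).toReal = ((2 : ℕ) : ℝ) := by norm_num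
    rw [this, Real.rpow_natCast, Real.norm_eq_abs, sq_abs]
  rw [e]

theorem norm_sq_eq (z : H) : ‖z‖ ^ 2 = ∑' n, (z n) ^ 2 := by
  have h := lp.norm_rpow_eq_tsum (p := 2) (by norm_num : 0 < (2 : ENNReal).toReal) z
  have e2 : (2 : ENNReal).toReal = ((2 : ℕ) : ℝ) := by norm_num
  rw [e2, Real.rpow_natCast] at h
  rw [h]
  apply tsum_congr
  intro n
  rw [Real.rpow_natCast, Real.norm_eq_abs, sq_abs]

theorem sum_blk (f : ℕ → ℝ) (h : ℕ) :
    ∑' i : Fin (D h), f (E.symm ⟨h, i⟩) ^ 2 = nsq (blk E f h) := by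
  rw [tsum_fintype]; rfl

theorem memlp_iff (f : ℕ → ℝ) : Memℓp f 2 ↔ Summable fun h => nsq (blk E f h) := by
  rw [memlp_iff_sq, ← E.symm.summable_iff (f := fun n => f n ^ 2),
    summable_sigma_of_nonneg (fun p => by simp only [Function.comp]; positivity)]
  constructor
  · rintro ⟨_, h2⟩
    refine h2.congr fun h => ?_
    exact (sum_blk E f h)
  · intro h2
    refine ⟨fun h => (hasSum_fintype _).summable, h2.congr fun h => ?_⟩
    exact (sum_blk E f h).symm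

theorem norm_sq (z : H) : ‖z‖ ^ 2 = ∑' h, nsq (blk E z h) := by
  have hz : Summable fun n => (z n) ^ 2 := (memlp_iff_sq _).mp (lp.memℓp z)
  rw [norm_sq_eq, ← E.symm.tsum_eq (fun n => (z n) ^ 2)]
  have hs : Summable fun p : Σ h, Fin (D h) => (z (E.symm p)) ^ 2 :=
    (E.symm.summable_iff (f := fun n => (z n) ^ 2)).mpr hz
  rw [hs.tsum_sigma' (fun h => (hasSum_fintype _).summable)]
  exact tsum_congr fun h => sum_blk E z h

theorem blk_bd (T : ∀ h, Matrix (Fin (D h)) (Fin (D h)) ℝ) (z : ℕ → ℝ) (h : ℕ) :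
    blk E (bdiag E T z) h = (T h).mulVec (blk E z h) := by
  funext i
  show (T (E (E.symm ⟨h, i⟩)).1).mulVec (blk E z (E (E.symm ⟨h, i⟩)).1)
    (E (E.symm ⟨h, i⟩)).2 = _
  have key : ∀ p q : Σ h, Fin (D h), p = q →
      (T p.1).mulVec (blk E z p.1) p.2 = (T q.1).mulVec (blk E z q.1) q.2 := by
    rintro p q rfl; rfl
  exact key _ _ (E.apply_symm_apply ⟨h, i⟩)

theorem nsq_le (T : ∀ h, Matrix (Fin (D h)) (Fin (D h)) ℝ) (hT : ∀ h, OpLe (T h) 1)
    (z : ℕ → ℝ) (h : ℕ) : nsq (blk E (bdiag E T z) h) ≤ nsq (blk E z h) := by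
  rw [blk_bd]
  have h1 := hT h (blk E z h)
  rw [one_mul] at h1
  have h2 := nsq_le_of_nrm_le h1
  rwa [nrm_sq] at h2

theorem mem (T : ∀ h, Matrix (Fin (D h)) (Fin (D h)) ℝ) (hT : ∀ h, OpLe (T h) 1) (z : H) :
    Memℓp (bdiag E T z) 2 := by
  rw [memlp_iff E]
  exact Summable.of_nonneg_of_le (fun h => nsq_nonneg _) (fun h => nsq_le E T hT z h)
    ((memlp_iff E _).mp (lp.memℓp z))

theorem norm_le (T : ∀ h, Matrix (Fin (D h)) (Fin (D h)) ℝ) (hT : ∀ h, OpLe (T h) 1) (z : H) :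
    ‖(⟨bdiag E T z, mem E T hT z⟩ : H)‖ ≤ ‖z‖ := by
  have h1 := norm_sq E (⟨bdiag E T z, mem E T hT z⟩ : H)
  have h2 := norm_sq E z
  have hs2 : Summable fun h => nsq (blk E z h) := (memlp_iff E _).mp (lp.memℓp z)
  have hs1 : Summable fun h => nsq (blk E (bdiag E T z) h) :=
    (memlp_iff E _).mp (mem E T hT z)
  have h3 : ‖(⟨bdiag E T z, mem E T hT z⟩ : H)‖ ^ 2 ≤ ‖z‖ ^ 2 := by
    rw [h1, h2]
    exact hs1.tsum_le_tsum (fun h => nsq_le E T hT z h) hs2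
  exact (pow_le_pow_iff_left₀ (norm_nonneg _) (norm_nonneg _) two_ne_zero).mp h3

end IOp_

/-- block diagonal contraction as an operator on `ℓ₂` -/
theorem bdiag_op (T : ∀ h, Matrix (Fin (D h)) (Fin (D h)) ℝ) (hT : ∀ h, OpLe (T h) 1) :
    ∃ T' : H →L[ℝ] H, (∀ z : H, ((T' z : H) : ℕ → ℝ) = bdiag E T z) ∧ ∀ z, ‖T' z‖ ≤ ‖z‖ := by
  let L : H →ₗ[ℝ] H :=
    { toFun := fun z => ⟨bdiag E T z, IOp_.mem E T hT z⟩
      map_add' := fun z w => by
        apply Subtype.ext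
        show bdiag E T ((z + w : H) : ℕ → ℝ) = bdiag E T z + bdiag E T w
        rw [lp.coeFn_add, map_add]
      map_smul' := fun c z => by
        apply Subtype.ext
        show bdiag E T ((c • z : H) : ℕ → ℝ) = c • bdiag E T z
        rw [lp.coeFn_smul, map_smul] }
  refine ⟨L.mkContinuous 1 fun z => ?_, fun z => rfl, fun z => ?_⟩
  · rw [one_mul]; exact IOp_.norm_le E T hT z
  · exact IOp_.norm_le E T hT z

end Blocks

end KPC
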