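import Pool.Agent.KPC.InfDefs

/-!
# KPC: a compatible pair `(V, V)` gives uniformly trivial block compressions
-/

open Finset BigOperators

namespace KPC

namespace ITriv_

variable {D : ℕ → ℕ} (E : ℕ ≃ Σ h, Fin (D h))

theorem emb_apply (h : ℕ) (x : Fin (D h) → ℝ) (n : ℕ) :
    (emb E h x : H) n = ∑ i, x i * (if E.symm ⟨h, i⟩ = n then 1 else 0) := by
  unfold emb
  rw [lp.coeFn_sum, Finset.sum_apply]
  refine Finset.sum_congr rfl fun i _ => ?_
  rw [lp.coeFn_smul, Pi.smul_apply, smul_eq_mul, lp.single_apply, Pi.single_apply]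
  congr 1
  by_cases hn : E.symm ⟨h, i⟩ = n
  · rw [if_pos hn, if_pos hn.symm]
  · rw [if_neg hn, if_neg fun h' => hn h'.symm]

theorem emb_same (h : ℕ) (x : Fin (D h) → ℝ) (j : Fin (D h)) :
    (emb E h x : H) (E.symm ⟨h, j⟩) = x j := by
  rw [emb_apply, Finset.sum_eq_single j]
  · simp
  · intro i _ hij
    rw [if_neg, mul_zero]
    intro h1
    have h2 := E.symm.injective h1
    have h3 : i = j := by simpa using h2
    exact hij h3
  · simp

theorem emb_ne (h k : ℕ) (hk : k ≠ h) (x : Fin (D h) → ℝ) (j : Fin (D k)) :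
    (emb E h x : H) (E.symm ⟨k, j⟩) = 0 := by
  rw [emb_apply]
  refine Finset.sum_eq_zero fun i _ => ?_
  rw [if_neg, mul_zero]
  intro h1
  have h2 := E.symm.injective h1
  exact hk (congrArg Sigma.fst h2).symm

theorem hasSum_sq (z : H) : HasSum (fun n => z n ^ 2) (‖z‖ ^ 2) := by
  have h := lp.hasSum_norm (p := 2) (by norm_num) z
  simpa using h

theorem norm_emb' (h : ℕ) (x : Fin (D h) → ℝ) : ‖emb E h x‖ = nrm x := by
  have h1 := hasSum_sq (emb E h x)
  have h2 : HasSum (fun n => (emb E h x : H) n ^ 2) (nsq x) := by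
    rw [← E.symm.hasSum_iff]
    have h3 : nsq x = ∑ p ∈ (univ : Finset (Fin (D h))).map ⟨Sigma.mk h, sigma_mk_injective⟩,
        ((fun n => (emb E h x : H) n ^ 2) ∘ E.symm) p := by
      rw [Finset.sum_map]
      refine Finset.sum_congr rfl fun i _ => ?_
      show x i ^ 2 = (emb E h x : H) (E.symm ⟨h, i⟩) ^ 2
      rw [emb_same]
    rw [h3]
    refine hasSum_sum_of_ne_finset_zero ?_
    rintro ⟨k, j⟩ hp
    show (emb E h x : H) (E.symm ⟨k, j⟩) ^ 2 = 0
    have hk : k ≠ h := by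
      rintro rfl
      exact hp (Finset.mem_map.2 ⟨j, Finset.mem_univ _, rfl⟩)
    rw [emb_ne E h k hk]
    norm_num
  have h3 : ‖emb E h x‖ ^ 2 = nrm x ^ 2 := by
    rw [nrm_sq]; exact h1.unique h2
  exact (sq_eq_sq₀ (norm_nonneg _) (nrm_nonneg _)).1 h3

theorem nrm_blk_le (u : H) (h : ℕ) : nrm (blk E u h) ≤ ‖u‖ := by
  apply nrm_le_of_nsq_le (norm_nonneg _)
  have h1 := hasSum_sq u
  rw [← E.symm.hasSum_iff] at h1
  have h2 := sum_le_hasSum ((univ : Finset (Fin (D h))).map ⟨Sigma.mk h, sigma_mk_injective⟩)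
    (fun p _ => sq_nonneg (u (E.symm p))) h1
  rw [Finset.sum_map] at h2
  exact h2

theorem kp_emb' (h : ℕ) (x : Fin (D h) → ℝ) :
    kp (emb E h x) = ((emb E h (kpf x) : H) : ℕ → ℝ) := by
  funext n
  obtain ⟨⟨k, j⟩, rfl⟩ := E.symm.surjective n
  unfold kp
  by_cases hk : k = h
  · subst hk
    rw [emb_same, emb_same, norm_emb']
    rfl
  · rw [emb_ne E h k hk, emb_ne E h k hk, zero_mul]

theorem blk_kp' (z : H) (h : ℕ) :
    blk E (kp z) h = kpf (blk E z h) + Real.log (nrm (blk E z h) / ‖z‖) • blk E z h := by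
  funext i
  show z (E.symm ⟨h, i⟩) * Real.log (|z (E.symm ⟨h, i⟩)| / ‖z‖) =
    z (E.symm ⟨h, i⟩) * Real.log (|z (E.symm ⟨h, i⟩)| / nrm (blk E z h)) +
      Real.log (nrm (blk E z h) / ‖z‖) * z (E.symm ⟨h, i⟩)
  by_cases hz : z (E.symm ⟨h, i⟩) = 0
  · rw [hz]; ring
  · have h1 : nrm (blk E z h) ≠ 0 := by
      intro h2
      rw [nrm_eq_zero] at h2
      exact hz (congrFun h2 i)
    have h2 : ‖z‖ ≠ 0 := by
      intro h3
      have h4 := nrm_blk_le E z h
      rw [h3] at h4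
      exact h1 (le_antisymm h4 (nrm_nonneg _))
    rw [Real.log_div (abs_ne_zero.2 hz) h2, Real.log_div (abs_ne_zero.2 hz) h1,
      Real.log_div h1 h2]
    ring

theorem cmp_mulVec' (V : H →L[ℝ] H) (h : ℕ) (x : Fin (D h) → ℝ) :
    (cmp E V h).mulVec x = blk E (V (emb E h x)) h := by
  funext i
  show ∑ j, cmp E V h i j * x j = (V (emb E h x) : H) (E.symm ⟨h, i⟩)
  unfold emb
  rw [map_sum, lp.coeFn_sum, Finset.sum_apply]
  refine Finset.sum_congr rfl fun j _ => ?_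
  rw [map_smul, lp.coeFn_smul, Pi.smul_apply, smul_eq_mul, mul_comm]
  rfl

/-- the embedding as a linear map -/
noncomputable def embL (h : ℕ) : (Fin (D h) → ℝ) →ₗ[ℝ] H where
  toFun := emb E h
  map_add' x y := by
    unfold emb
    rw [← Finset.sum_add_distrib]
    exact Finset.sum_congr rfl fun i _ => by rw [Pi.add_apply, add_smul]
  map_smul' c x := by
    unfold emb
    rw [RingHom.id_apply, Finset.smul_sum]
    exact Finset.sum_congr rfl fun i _ => by rw [Pi.smul_apply, smul_eq_mul, mul_smul]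

/-- the block as a linear map -/
def blkL (h : ℕ) : (ℕ → ℝ) →ₗ[ℝ] (Fin (D h) → ℝ) where
  toFun z := blk E z h
  map_add' _ _ := rfl
  map_smul' _ _ := rfl

theorem w2_mem (h : ℕ) (x : Fin (D h) → ℝ) : ((0 : ℕ → ℝ), emb E h x) ∈ Z2 := by
  show Memℓp ((0 : ℕ → ℝ) - kp (emb E h x)) 2
  rw [kp_emb', zero_sub]
  exact (lp.memℓp _).neg

/-- `x ↦ (0, emb x)` -/
noncomputable def W2 (h : ℕ) : (Fin (D h) → ℝ) →ₗ[ℝ] Z2 where
  toFun x := ⟨(0, emb E h x), w2_mem E h x⟩
  map_add' x y := by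
    apply Subtype.ext
    apply Prod.ext
    · show (0 : ℕ → ℝ) = 0 + 0
      rw [add_zero]
    · exact (embL E h).map_add x y
  map_smul' c x := by
    apply Subtype.ext
    apply Prod.ext
    · show (0 : ℕ → ℝ) = c • 0
      rw [smul_zero]
    · exact (embL E h).map_smul c x

theorem w1_mem (h : ℕ) (x : Fin (D h) → ℝ) :
    (((emb E h (kpf x) : H) : ℕ → ℝ), emb E h x) ∈ Z2 := by
  show Memℓp (((emb E h (kpf x) : H) : ℕ → ℝ) - kp (emb E h x)) 2
  rw [kp_emb', sub_self]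
  exact zero_memℓp

theorem slog {s N : ℝ} (hs : 0 ≤ s) (hN : s ≤ N) : |Real.log (s / N)| * s ≤ N := by
  rcases hs.eq_or_lt with rfl | hs
  · rw [mul_zero]; exact hN
  · have hN0 : 0 < N := hs.trans_le hN
    have h1 : Real.log (s / N) ≤ 0 := Real.log_nonpos (by positivity) ((div_le_one hN0).2 hN)
    have h2 := Real.log_le_sub_one_of_pos (div_pos hN0 hs)
    have h3 : Real.log (N / s) = -Real.log (s / N) := by
      rw [← Real.log_inv, inv_div]
    rw [abs_of_nonpos h1, ← h3]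
    calc Real.log (N / s) * s ≤ (N / s - 1) * s := mul_le_mul_of_nonneg_right h2 hs.le
      _ = N - s := by field_simp
      _ ≤ N := by linarith

end ITriv_

open ITriv_

section Blocks

variable {D : ℕ → ℕ} (E : ℕ ≃ Σ h, Fin (D h))

theorem triv_of_compatible (V : H →L[ℝ] H) (hV : Compatible V V) :
    ∃ C : ℝ, ∀ h, ∃ L' : Matrix (Fin (D h)) (Fin (D h)) ℝ, Triv (cmp E V h) (cmp E V h) L' C := by
  obtain ⟨β, ⟨C, hC⟩, hβ1, hβ2⟩ := hV
  refine ⟨C + ‖V‖, fun h => ?_⟩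
  let ell : (Fin (D h) → ℝ) →ₗ[ℝ] (Fin (D h) → ℝ) :=
    (blkL E h).comp ((LinearMap.fst ℝ (ℕ → ℝ) H).comp (Z2.subtype.comp (β.comp (W2 E h))))
  refine ⟨-(LinearMap.toMatrix' ell), fun x => ?_⟩
  have hL : (-(LinearMap.toMatrix' ell)).mulVec x = -(blk E (β (W2 E h x)).1.1 h) := by
    rw [Matrix.neg_mulVec, LinearMap.toMatrix'_mulVec]
    rfl
  rw [hL, sub_neg_eq_add]
  let w1 : Z2 := ⟨(((emb E h (kpf x) : H) : ℕ → ℝ), emb E h x), w1_mem E h x⟩
  have hw1 : w1 = incl (emb E h (kpf x)) + W2 E h x := by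
    apply Subtype.ext
    apply Prod.ext
    · show ((emb E h (kpf x) : H) : ℕ → ℝ) = ((emb E h (kpf x) : H) : ℕ → ℝ) + 0
      rw [add_zero]
    · show emb E h x = 0 + emb E h x
      rw [zero_add]
  have hq : qn w1 = nrm x := by
    unfold qn
    have h1 : (⟨w1.1.1 - kp w1.1.2, w1.2⟩ : H) = 0 := by
      apply Subtype.ext
      show ((emb E h (kpf x) : H) : ℕ → ℝ) - kp (emb E h x) = 0
      rw [kp_emb', sub_self]
    rw [h1, norm_zero, zero_add]
    exact norm_emb' E h x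
  have hb := hC w1
  rw [hq] at hb
  unfold qn at hb
  have h1 : (β w1).1.2 = V (emb E h x) := hβ2 w1
  have h2 : (β w1).1.1 = ((V (emb E h (kpf x)) : H) : ℕ → ℝ) + (β (W2 E h x)).1.1 := by
    rw [hw1, map_add, hβ1]
    rfl
  set u : H := ⟨(β w1).1.1 - kp (β w1).1.2, (β w1).2⟩ with hu
  have hun : ‖u‖ ≤ C * nrm x := by
    have := norm_nonneg (β w1).1.2
    linarith
  set y : Fin (D h) → ℝ := (cmp E V h).mulVec x with hy
  have hy2 : y = blk E (V (emb E h x)) h := cmp_mulVec' E V h x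
  have hblk : blk E u h = (cmp E V h).mulVec (kpf x) + blk E (β (W2 E h x)).1.1 h -
      (kpf y + Real.log (nrm y / ‖V (emb E h x)‖) • y) := by
    rw [cmp_mulVec', hy2, ← blk_kp']
    have h3 : (u : ℕ → ℝ) = (β w1).1.1 - kp (β w1).1.2 := rfl
    rw [h3, h1, h2]
    rfl
  have hfin : (cmp E V h).mulVec (kpf x) - kpf y + blk E (β (W2 E h x)).1.1 h =
      blk E u h + Real.log (nrm y / ‖V (emb E h x)‖) • y := by
    rw [hblk]; abel
  rw [hfin]
  have hyV : nrm y ≤ ‖V (emb E h x)‖ := by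
    rw [hy2]; exact nrm_blk_le E _ h
  have hVx : ‖V (emb E h x)‖ ≤ ‖V‖ * nrm x := by
    rw [← norm_emb' E h x]; exact V.le_opNorm _
  calc nrm (blk E u h + Real.log (nrm y / ‖V (emb E h x)‖) • y)
      ≤ nrm (blk E u h) + nrm (Real.log (nrm y / ‖V (emb E h x)‖) • y) := nrm_add_le _ _
    _ ≤ C * nrm x + ‖V (emb E h x)‖ := by
        refine add_le_add ((nrm_blk_le E u h).trans hun) ?_
        rw [nrm_smul]
        exact slog (nrm_nonneg y) hyV
    _ ≤ (C + ‖V‖) * nrm x := by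
        rw [add_mul]; linarith

end Blocks

end KPC
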