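import Pool.Agent.KPC.InfDefs
import Pool.Agent.KPC.IBlk
import Pool.Agent.KPC.IOp
import Pool.Agent.KPC.IMain
import Pool.Agent.KPC.ICompat
import Pool.Agent.KPC.IEmb
import Pool.Agent.KPC.IComp
import Pool.Agent.KPC.ITriv

/-!
# KPC: final assembly over the blocks
-/

open Finset BigOperators

namespace KPC

namespace IFinal_

variable {D : ℕ → ℕ} (E : ℕ ≃ Σ h, Fin (D h))

lemma cmp_sub (T : ∀ h, Matrix (Fin (D h)) (Fin (D h)) ℝ) (T' K : H →L[ℝ] H)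
    (hT' : ∀ z : H, ((T' z : H) : ℕ → ℝ) = bdiag E T z) (h : ℕ) (x : Fin (D h) → ℝ) :
    (cmp E (T' + K) h - T h).mulVec x = (cmp E K h).mulVec x := by
  rw [Matrix.sub_mulVec, cmp_mulVec, cmp_mulVec]
  have h1 : blk E ((T' + K) (emb E h x) : H) h =
      blk E (bdiag E T (emb E h x)) h + blk E (K (emb E h x) : H) h := by
    funext i
    have h2 : (((T' + K) (emb E h x) : H) : ℕ → ℝ) =
        bdiag E T (emb E h x) + (K (emb E h x) : H) := by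
      rw [add_apply, lp.coeFn_add, hT']
    exact congrFun h2 _
  rw [h1, blk_bdiag, blk_emb, add_sub_cancel_left]

lemma exists_equiv (hD : ∀ h, 0 < D h) : Nonempty (ℕ ≃ Σ h, Fin (D h)) := by
  have : Infinite (Σ h, Fin (D h)) :=
    Infinite.of_injective (fun h : ℕ => (⟨h, ⟨0, hD h⟩⟩ : Σ h, Fin (D h)))
      (fun a b hab => congrArg Sigma.fst hab)
  exact nonempty_equiv_of_countable

lemma triv_mono {d : ℕ} {T U L : Matrix (Fin d) (Fin d) ℝ} {C C' : ℝ} (h : Triv T U L C)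
    (hC : C ≤ C') : Triv T U L C' := fun x =>
  (h x).trans (mul_le_mul_of_nonneg_right hC (nrm_nonneg x))

end IFinal_

open IFinal_

/-- the final assembly, from the finite block theorem -/
theorem final_of_blocks
    (hfin : ∃ C0 : ℝ, 0 ≤ C0 ∧ ∀ (R η : ℝ), 0 < η →
      ∃ (D : ℕ) (T U L : Matrix (Fin D) (Fin D) ℝ), 0 < D ∧
      OpLe T 1 ∧ OpLe U 1 ∧ OpLe (T - U) η ∧ Triv T U L C0 ∧
      ∀ V L' : Matrix (Fin D) (Fin D) ℝ, OpLe (V - T) (1 / 8) → ¬ Triv V V L' R) :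
    ∃ T U : H →L[ℝ] H, Compatible T U ∧
      ∀ K : H →L[ℝ] H, IsCompactOperator K → ¬ Compatible (T + K) (T + K) := by
  obtain ⟨C0, hC0, hfin⟩ := hfin
  choose D T U L hD hT hU hTU hL hV using
    fun h : ℕ => hfin (h : ℝ) ((1 / 2 : ℝ) ^ h) (by positivity)
  obtain ⟨E⟩ := exists_equiv hD
  obtain ⟨T', hT', hT1⟩ := bdiag_op E T hT
  obtain ⟨U', hU', hU1⟩ := bdiag_op E U hU
  refine ⟨T', U', compatible_of_est T' U' (bdiag E T) (bdiag E L) hT' (2 * (C0 + 3))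
    (fun z => main_est E T U L C0 hC0 hT hU hTU hL U' hU' hU1 z), ?_⟩
  intro K hK hcomp
  obtain ⟨C, hC⟩ := triv_of_compatible E (T' + K) hcomp
  obtain ⟨h0, hh0⟩ := compress_compact E K hK (1 / 8) (by norm_num)
  obtain ⟨L', hL'⟩ := hC (max h0 ⌈C⌉₊)
  refine hV (max h0 ⌈C⌉₊) (cmp E (T' + K) (max h0 ⌈C⌉₊)) L' ?_ (triv_mono hL' ?_)
  · intro x
    rw [cmp_sub E T T' K hT']
    exact hh0 _ (le_max_left _ _) x
  · calc C ≤ (⌈C⌉₊ : ℝ) := Nat.le_ceil C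
      _ ≤ ((max h0 ⌈C⌉₊ : ℕ) : ℝ) := by exact_mod_cast le_max_right _ _

end KPC
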