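import Pool.Agent.KPC.InfDefs

/-!
# `Z₂` is the completion of the finitely supported pairs
-/

open Finset BigOperators Filter Topology

namespace KPC

namespace ISanity_

/-- truncation -/
noncomputable def tr (f : H) (N : ℕ) : H := ∑ i ∈ range N, lp.single 2 i (f i)

theorem tr_apply (f : H) (N j : ℕ) : tr f N j = if j < N then f j else 0 := by
  simp only [tr, lp.coeFn_sum, lp.coeFn_single, Finset.sum_apply, Finset.sum_pi_single, mem_range]

theorem tr_tendsto (f : H) : Tendsto (tr f) atTop (𝓝 f) :=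
  (lp.hasSum_single (by norm_num) f).tendsto_sum_nat

theorem tr_supp (f : H) (N : ℕ) : (Function.support (tr f N : ℕ → ℝ)).Finite := by
  refine (Set.finite_lt_nat N).subset fun j hj => ?_
  by_contra h
  exact hj ((tr_apply f N j).trans (if_neg h))

theorem tail_tendsto (f : H) : Tendsto (fun N => ‖f - tr f N‖) atTop (𝓝 0) := by
  have h := ((tendsto_const_nhds (x := f)).sub (tr_tendsto f)).norm
  rwa [sub_self, norm_zero] at h

/-- the vector of `ℓ₂` of an element of `Z₂` -/
noncomputable def vec (w : Z2) : H := ⟨w.1.1 - kp w.1.2, w.2⟩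

theorem vec_apply (w : Z2) (i : ℕ) : vec w i = w.1.1 i - kp w.1.2 i := rfl

theorem qn_eq (w : Z2) : qn w = ‖vec w‖ + ‖w.1.2‖ := rfl

theorem kp_abs_le (x : H) (i : ℕ) : |kp x i| ≤ ‖x‖ := by
  unfold kp
  by_cases hi : x i = 0
  · rw [hi]; simp
  · have hx : 0 < ‖x‖ := by
      rw [norm_pos_iff]
      rintro rfl
      exact hi rfl
    have h1 : |x i| ≤ ‖x‖ := by
      have := lp.norm_apply_le_norm (by norm_num : (2 : ENNReal) ≠ 0) x i
      rwa [Real.norm_eq_abs] at this
    have h2 := Real.abs_log_mul_self_lt (|x i| / ‖x‖) (div_pos (abs_pos.2 hi) hx)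
      ((div_le_one hx).2 h1)
    rw [abs_mul, abs_div, abs_abs, abs_norm] at h2
    rw [abs_mul]
    have h3 : |x i| * |Real.log (|x i| / ‖x‖)| =
        ‖x‖ * (|Real.log (|x i| / ‖x‖)| * (|x i| / ‖x‖)) := by
      field_simp
    rw [h3]
    nlinarith

theorem kp_cont (i : ℕ) : Continuous fun x : H => kp x i := by
  have hc : Continuous fun x : H => x i :=
    (continuous_apply i).comp (lp.uniformContinuous_coe (p := 2)).continuous
  rw [continuous_iff_continuousAt]
  intro x
  by_cases hx : x = 0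
  · subst hx
    have h0 : kp (0 : H) i = 0 := by simp [kp]
    rw [ContinuousAt, h0]
    rw [tendsto_zero_iff_abs_tendsto_zero]
    refine squeeze_zero (fun _ => abs_nonneg _) (fun y => kp_abs_le y i) ?_
    have := (continuous_norm (E := H)).tendsto 0
    rwa [norm_zero] at this
  · have h1 : (fun x : H => kp x i) = fun x : H => x i * Real.log (x i) - Real.log ‖x‖ * x i := by
      funext x
      rw [kp_apply, Real.log_abs]
    rw [h1]
    refine ContinuousAt.sub ((Real.continuous_mul_log.comp hc).continuousAt) ?_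
    exact (continuous_norm.continuousAt.log (norm_ne_zero_iff.2 hx)).mul hc.continuousAt

end ISanity_

open ISanity_

/-- finitely supported pairs are dense -/
theorem Z2_dense (w : Z2) (ε : ℝ) (hε : 0 < ε) :
    ∃ v : Z2, (Function.support v.1.1).Finite ∧ (Function.support (v.1.2 : ℕ → ℝ)).Finite ∧
      qn (w - v) ≤ ε := by
  set z : H := w.1.2 with hz
  set u : H := vec w with hu
  -- the truncations
  have hmem : ∀ N, ((fun j => if j < N then w.1.1 j else 0), tr z N) ∈ Z2 := by
    intro N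
    show Memℓp ((fun j => if j < N then w.1.1 j else 0) - kp (tr z N)) 2
    have e : ((fun j => if j < N then w.1.1 j else 0) - kp (tr z N) : ℕ → ℝ) =
        (tr u N + (Real.log ‖tr z N‖ - Real.log ‖z‖) • tr z N : H) := by
      funext j
      simp only [Pi.sub_apply, lp.coeFn_add, lp.coeFn_smul, Pi.add_apply, Pi.smul_apply,
        smul_eq_mul, kp_apply, tr_apply]
      by_cases hj : j < N
      · simp only [if_pos hj, hu, vec_apply, ← hz, kp_apply]
        ring
      · simp [if_neg hj]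
    rw [e]
    exact lp.memℓp _
  have hqn : ∀ N, qn (w - ⟨_, hmem N⟩) ≤ ‖u - tr u N‖ +
      (|Real.log ‖z - tr z N‖ * ‖z - tr z N‖| + |Real.log ‖z‖| * ‖z - tr z N‖) +
        ‖z - tr z N‖ := by
    intro N
    rw [qn_eq]
    have e : vec (w - ⟨_, hmem N⟩) = (u - tr u N) +
        (Real.log ‖z - tr z N‖ - Real.log ‖z‖) • (z - tr z N) := by
      ext j
      rw [vec_apply]
      show w.1.1 j - (if j < N then w.1.1 j else 0) - kp (z - tr z N) j = _
      simp only [lp.coeFn_add, lp.coeFn_smul, Pi.add_apply, Pi.smul_apply, lp.coeFn_sub,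
        Pi.sub_apply, smul_eq_mul, kp_apply, tr_apply]
      by_cases hj : j < N
      · simp [if_pos hj]
      · simp only [if_neg hj, sub_zero, hu, vec_apply, ← hz, kp_apply]
        ring
    rw [e]
    refine add_le_add ((norm_add_le _ _).trans (add_le_add le_rfl ?_)) le_rfl
    rw [norm_smul, Real.norm_eq_abs]
    have h1 : |Real.log ‖z - tr z N‖ - Real.log ‖z‖| ≤
        |Real.log ‖z - tr z N‖| + |Real.log ‖z‖| := abs_sub _ _
    have h2 : |Real.log ‖z - tr z N‖ * ‖z - tr z N‖| =
        |Real.log ‖z - tr z N‖| * ‖z - tr z N‖ := by rw [abs_mul, abs_norm]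
    rw [h2, ← add_mul]
    exact mul_le_mul_of_nonneg_right h1 (norm_nonneg _)
  have hlim : Tendsto (fun N => ‖u - tr u N‖ +
      (|Real.log ‖z - tr z N‖ * ‖z - tr z N‖| + |Real.log ‖z‖| * ‖z - tr z N‖) +
        ‖z - tr z N‖) atTop (𝓝 0) := by
    have h1 := tail_tendsto u
    have h2 := tail_tendsto z
    have h3 : Tendsto (fun N => |Real.log ‖z - tr z N‖ * ‖z - tr z N‖|) atTop (𝓝 0) := by
      have h4 := (Real.continuous_mul_log.tendsto 0).comp h2
      simp only [zero_mul] at h4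
      have h5 := h4.abs
      rw [abs_zero] at h5
      refine h5.congr fun N => ?_
      simp only [Function.comp_apply]
      rw [mul_comm]
    have h6 := (h1.add (h3.add (h2.const_mul |Real.log ‖z‖|))).add h2
    simpa using h6
  obtain ⟨N, hN⟩ := (hlim.eventually (ge_mem_nhds hε)).exists
  refine ⟨⟨_, hmem N⟩, ?_, tr_supp z N, (hqn N).trans hN⟩
  refine (Set.finite_lt_nat N).subset fun j hj => ?_
  by_contra h
  exact hj (if_neg h)

/-- `Z2` is complete for its quasi-norm -/
theorem Z2_complete (u : ℕ → Z2)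
    (hu : ∀ ε : ℝ, 0 < ε → ∃ N, ∀ m n, N ≤ m → N ≤ n → qn (u m - u n) ≤ ε) :
    ∃ v : Z2, ∀ ε : ℝ, 0 < ε → ∃ N, ∀ n, N ≤ n → qn (u n - v) ≤ ε := by
  -- the second components converge
  have hz : CauchySeq fun n => (u n).1.2 := by
    rw [Metric.cauchySeq_iff]
    intro ε hε
    obtain ⟨N, hN⟩ := hu (ε / 2) (by linarith)
    refine ⟨N, fun m hm n hn => ?_⟩
    have h1 := hN m n hm hn
    rw [qn_eq] at h1
    rw [dist_eq_norm]
    have h2 : ‖(u m).1.2 - (u n).1.2‖ = ‖(u m - u n).1.2‖ := rfl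
    have h3 := norm_nonneg (vec (u m - u n))
    rw [h2]
    linarith
  obtain ⟨z, hz⟩ := cauchySeq_tendsto_of_complete hz
  -- the coordinates of the first components converge
  have hy : ∀ i, ∃ y : ℝ, Tendsto (fun n => (u n).1.1 i) atTop (𝓝 y) := by
    intro i
    apply cauchySeq_tendsto_of_complete
    rw [Metric.cauchySeq_iff]
    intro ε hε
    obtain ⟨N, hN⟩ := hu (ε / 2) (by linarith)
    refine ⟨N, fun m hm n hn => ?_⟩
    have h1 := hN m n hm hn
    rw [qn_eq] at h1
    rw [Real.dist_eq]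
    have h2 : (u m).1.1 i - (u n).1.1 i = vec (u m - u n) i + kp (u m - u n).1.2 i := by
      rw [vec_apply]
      show _ = (u m).1.1 i - (u n).1.1 i - _ + _
      ring
    have h3 := kp_abs_le (u m - u n).1.2 i
    have h4 := lp.norm_apply_le_norm (by norm_num : (2 : ENNReal) ≠ 0) (vec (u m - u n)) i
    rw [Real.norm_eq_abs] at h4
    rw [h2]
    have h5 := abs_add_le (vec (u m - u n) i) (kp (u m - u n).1.2 i)
    linarith
  choose y hy using hy
  have hlim : ∀ n, Tendsto (id fun m => (vec (u n - u m) : ℕ → ℝ)) atTop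
      (𝓝 (((u n).1.1 - y) - kp ((u n).1.2 - z))) := by
    intro n
    rw [tendsto_pi_nhds]
    intro i
    refine Tendsto.sub ((tendsto_const_nhds).sub (hy i)) ?_
    exact ((kp_cont i).tendsto _).comp (tendsto_const_nhds.sub hz)
  have hv : ((y, z) : (ℕ → ℝ) × H) ∈ Z2 := by
    obtain ⟨N, hN⟩ := hu 1 one_pos
    have h1 : Memℓp (((u N).1.1 - y) - kp ((u N).1.2 - z)) 2 := by
      refine lp.memℓp_of_tendsto (l := atTop) (F := fun m => vec (u N - u (m + N))) ?_
        ((hlim N).comp (tendsto_add_atTop_nat N))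
      refine isBounded_iff_forall_norm_le.2 ⟨1, ?_⟩
      rintro _ ⟨m, rfl⟩
      have h2 := hN N (m + N) le_rfl (Nat.le_add_left _ _)
      rw [qn_eq] at h2
      have h3 := norm_nonneg (u N - u (m + N)).1.2
      show ‖vec (u N - u (m + N))‖ ≤ 1
      linarith
    have h2 : ((u N).1.1 - y, (u N).1.2 - z) ∈ Z2 := h1
    have h3 : ((y, z) : (ℕ → ℝ) × H) = (u N).1 - ((u N).1.1 - y, (u N).1.2 - z) := by
      ext1
      · show y = (u N).1.1 - ((u N).1.1 - y)
        abel
      · show z = (u N).1.2 - ((u N).1.2 - z)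
        abel
    rw [h3]
    exact Z2.sub_mem (u N).2 h2
  refine ⟨⟨(y, z), hv⟩, fun ε hε => ?_⟩
  obtain ⟨N, hN⟩ := hu (ε / 2) (by linarith)
  refine ⟨N, fun n hn => ?_⟩
  have h1 : ∀ m, N ≤ m → ‖vec (u n - u m)‖ ≤ ε / 2 ∧ ‖(u n).1.2 - (u m).1.2‖ ≤ ε / 2 := by
    intro m hm
    have h2 := hN n m hn hm
    rw [qn_eq] at h2
    have h3 := norm_nonneg (u n - u m).1.2
    have h4 := norm_nonneg (vec (u n - u m))
    have h5 : ‖(u n).1.2 - (u m).1.2‖ = ‖(u n - u m).1.2‖ := rfl
    constructor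
    · linarith
    · rw [h5]; linarith
  rw [qn_eq]
  have h2 : ‖vec (u n - ⟨(y, z), hv⟩)‖ ≤ ε / 2 := by
    refine lp.norm_le_of_tendsto (l := atTop) (F := fun m => vec (u n - u m))
      ((eventually_ge_atTop N).mono fun m hm => (h1 m hm).1) (hlim n)
  have h3 : ‖(u n - ⟨(y, z), hv⟩ : Z2).1.2‖ ≤ ε / 2 := by
    have h4 : Tendsto (fun m => ‖(u n).1.2 - (u m).1.2‖) atTop (𝓝 ‖(u n).1.2 - z‖) :=
      (tendsto_const_nhds.sub hz).norm
    exact le_of_tendsto h4 ((eventually_ge_atTop N).mono fun m hm => (h1 m hm).2)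
  linarith

end KPC
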