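import Pool.Agent.KPC.Basic

/-!
# The Kalton–Peck space `Z₂` and compatibility
-/

open Finset BigOperators

namespace KPC

theorem kp_apply (z : H) (i : ℕ) : kp z i = z i * Real.log |z i| - Real.log ‖z‖ * z i := by
  unfold kp
  by_cases hi : z i = 0
  · simp [hi]
  · have hz : ‖z‖ ≠ 0 := by
      intro h
      rw [norm_eq_zero] at h
      apply hi; rw [h]; rfl
    rw [Real.log_div (abs_ne_zero.mpr hi) hz]; ring

/-- scalar quasi-linearity -/
theorem eta_quasi (a b : ℝ) :
    |(a + b) * Real.log |a + b| - a * Real.log |a| - b * Real.log (|b|)| ≤ |a| + |b| := by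
  -- positive case
  have pos : ∀ p q : ℝ, 0 < p → 0 < q →
      0 ≤ (p + q) * Real.log (p + q) - p * Real.log p - q * Real.log q ∧
      (p + q) * Real.log (p + q) - p * Real.log p - q * Real.log q ≤ p + q := by
    intro p q hp hq
    have hpq : 0 < p + q := by linarith
    have h1 : Real.log (p + q) - Real.log p ≤ q / p := by
      rw [← Real.log_div hpq.ne' hp.ne']
      have := Real.log_le_sub_one_of_pos (div_pos hpq hp)
      have e : (p + q) / p - 1 = q / p := by field_simp; ring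
      linarith
    have h2 : Real.log (p + q) - Real.log q ≤ p / q := by
      rw [← Real.log_div hpq.ne' hq.ne']
      have := Real.log_le_sub_one_of_pos (div_pos hpq hq)
      have e : (p + q) / q - 1 = p / q := by field_simp; ring
      linarith
    have h3 : Real.log p ≤ Real.log (p + q) := Real.log_le_log hp (by linarith)
    have h4 : Real.log q ≤ Real.log (p + q) := Real.log_le_log hq (by linarith)
    have h5 : p * (Real.log (p + q) - Real.log p) ≤ q := by
      calc p * (Real.log (p + q) - Real.log p) ≤ p * (q / p) :=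
            mul_le_mul_of_nonneg_left h1 hp.le
        _ = q := by field_simp
    have h6 : q * (Real.log (p + q) - Real.log q) ≤ p := by
      calc q * (Real.log (p + q) - Real.log q) ≤ q * (p / q) :=
            mul_le_mul_of_nonneg_left h2 hq.le
        _ = p := by field_simp
    have h7 : 0 ≤ p * (Real.log (p + q) - Real.log p) := mul_nonneg hp.le (by linarith)
    have h8 : 0 ≤ q * (Real.log (p + q) - Real.log q) := mul_nonneg hq.le (by linarith)
    constructor <;> nlinarith
  rcases lt_trichotomy a 0 with ha | ha | ha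
  · rcases lt_trichotomy b 0 with hb | hb | hb
    · obtain ⟨h1, h2⟩ := pos (-a) (-b) (by linarith) (by linarith)
      rw [abs_of_neg (by linarith : a + b < 0), abs_of_neg ha, abs_of_neg hb,
        show -(a + b) = -a + -b by ring]
      rw [abs_le]; constructor <;> nlinarith
    · subst hb; simp
    · -- a < 0 < b
      rcases lt_trichotomy (a + b) 0 with hc | hc | hc
      · obtain ⟨h1, h2⟩ := pos (-(a + b)) b (by linarith) hb
        rw [show -(a + b) + b = -a by ring] at h1 h2
        rw [abs_of_neg hc, abs_of_neg ha, abs_of_pos hb]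
        rw [abs_le]; constructor <;> nlinarith
      · have hb' : b = -a := by linarith
        subst hb'
        rw [hc, abs_neg]; simp
      · obtain ⟨h1, h2⟩ := pos (a + b) (-a) hc (by linarith)
        rw [show a + b + -a = b by ring] at h1 h2
        rw [abs_of_pos hc, abs_of_neg ha, abs_of_pos hb]
        rw [abs_le]; constructor <;> nlinarith
  · subst ha; simp
  · rcases lt_trichotomy b 0 with hb | hb | hb
    · rcases lt_trichotomy (a + b) 0 with hc | hc | hc
      · obtain ⟨h1, h2⟩ := pos (-(a + b)) a (by linarith) ha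
        rw [show -(a + b) + a = -b by ring] at h1 h2
        rw [abs_of_neg hc, abs_of_pos ha, abs_of_neg hb]
        rw [abs_le]; constructor <;> nlinarith
      · have hb' : b = -a := by linarith
        subst hb'
        rw [hc, abs_neg]; simp
      · obtain ⟨h1, h2⟩ := pos (a + b) (-b) hc (by linarith)
        rw [show a + b + -b = a by ring] at h1 h2
        rw [abs_of_pos hc, abs_of_pos ha, abs_of_neg hb]
        rw [abs_le]; constructor <;> nlinarith
    · subst hb; simp
    · obtain ⟨h1, h2⟩ := pos a b ha hb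
      rw [abs_of_pos (by linarith : 0 < a + b), abs_of_pos ha, abs_of_pos hb]
      rw [abs_le]; constructor <;> nlinarith

theorem memlp_of_le {f : ℕ → ℝ} {g : ℕ → ℝ} (hg : Memℓp g 2) (h : ∀ i, |f i| ≤ |g i|) :
    Memℓp f 2 := by
  have hg' := (memℓp_gen_iff (by norm_num : 0 < (2 : ENNReal).toReal)).mp hg
  refine (memℓp_gen_iff (by norm_num : 0 < (2 : ENNReal).toReal)).mpr ?_
  refine Summable.of_nonneg_of_le (fun i => by positivity) (fun i => ?_) hg'
  simp only [Real.norm_eq_abs]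
  exact Real.rpow_le_rpow (abs_nonneg _) (h i) (by norm_num)

theorem kp_add_mem (z w : H) : Memℓp (kp (z + w) - kp z - kp w) 2 := by
  set f : ℕ → ℝ := fun i => (z i + w i) * Real.log |z i + w i| - z i * Real.log |z i| -
    w i * Real.log |w i| with hf
  have habs : Memℓp (fun i => |z i| + |w i|) 2 := by
    have h1 : Memℓp (fun i => |z i|) 2 := memlp_of_le (lp.memℓp z) fun i => by simp
    have h2 : Memℓp (fun i => |w i|) 2 := memlp_of_le (lp.memℓp w) fun i => by simp
    exact h1.add h2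
  have hfm : Memℓp f 2 := by
    refine memlp_of_le habs fun i => ?_
    refine (eta_quasi (z i) (w i)).trans (le_abs_self _)
  have e : kp (z + w) - kp z - kp w = f + ((-(Real.log ‖z + w‖)) • (z + w : H) +
      (Real.log ‖z‖) • z + (Real.log ‖w‖) • w : H) := by
    funext i
    simp only [Pi.sub_apply, Pi.add_apply, kp_apply, lp.coeFn_add, lp.coeFn_smul, Pi.smul_apply,
      smul_eq_mul, hf]
    ring
  rw [e]
  exact hfm.add (lp.memℓp _)

theorem kp_smul (c : ℝ) (z : H) : kp (c • z) = c • kp z := by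
  funext i
  simp only [kp, lp.coeFn_smul, Pi.smul_apply, smul_eq_mul, norm_smul, Real.norm_eq_abs, abs_mul]
  by_cases hc : c = 0
  · simp [hc]
  · rw [mul_div_mul_left _ _ (abs_ne_zero.mpr hc)]; ring

theorem kp_zero : kp 0 = 0 := by funext i; simp [kp]

theorem Z2_add_mem {a b : (ℕ → ℝ) × H} (ha : Memℓp (a.1 - kp a.2) 2)
    (hb : Memℓp (b.1 - kp b.2) 2) : Memℓp ((a + b).1 - kp (a + b).2) 2 := by
  have h := kp_add_mem a.2 b.2
  have e : (a + b).1 - kp (a + b).2 =
      (a.1 - kp a.2) + (b.1 - kp b.2) - (kp (a.2 + b.2) - kp a.2 - kp b.2) := by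
    simp only [Prod.fst_add, Prod.snd_add]; abel
  rw [e]
  exact (Memℓp.add ha hb).sub h

theorem Z2_zero_mem : Memℓp ((0 : (ℕ → ℝ) × H).1 - kp (0 : (ℕ → ℝ) × H).2) 2 := by
  show Memℓp ((0 : ℕ → ℝ) - kp 0) 2
  rw [kp_zero, sub_zero]; exact zero_memℓp

theorem Z2_smul_mem (c : ℝ) {a : (ℕ → ℝ) × H} (ha : Memℓp (a.1 - kp a.2) 2) :
    Memℓp ((c • a).1 - kp (c • a).2) 2 := by
  have e : (c • a).1 - kp (c • a).2 = c • (a.1 - kp a.2) := by
    simp only [Prod.smul_fst, Prod.smul_snd, kp_smul, smul_sub]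
  rw [e]; exact Memℓp.const_smul ha c

/-- The Kalton–Peck space `Z₂`: pairs `(y, z)` of a real sequence `y` and `z ∈ ℓ₂` such that
`y - 𝒦 z ∈ ℓ₂`. -/
def Z2 : Submodule ℝ ((ℕ → ℝ) × H) where
  carrier := {w | Memℓp (w.1 - kp w.2) 2}
  add_mem' := Z2_add_mem
  zero_mem' := Z2_zero_mem
  smul_mem' := fun c _ ha => Z2_smul_mem c ha

/-- the quasi-norm `‖(y,z)‖ = ‖y - 𝒦 z‖ + ‖z‖` of `Z₂` -/
noncomputable def qn (w : Z2) : ℝ :=
  ‖(⟨w.1.1 - kp w.1.2, w.2⟩ : H)‖ + ‖w.1.2‖

theorem incl_mem (y : H) : (((y : ℕ → ℝ), 0) : (ℕ → ℝ) × H) ∈ Z2 := by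
  show Memℓp ((y : ℕ → ℝ) - kp 0) 2
  rw [kp_zero, sub_zero]; exact lp.memℓp y

/-- the inclusion `y ↦ (y, 0)` of `ℓ₂` into `Z₂` -/
noncomputable def incl (y : H) : Z2 := ⟨((y : ℕ → ℝ), 0), incl_mem y⟩

/-- The pair `(T, U)` is compatible with `𝒦`: there is a bounded operator `β` on `Z₂` with
`β (y, 0) = (T y, 0)` and `q β = U q`, where `q (y, z) = z`. -/
def Compatible (T U : H →L[ℝ] H) : Prop :=
  ∃ β : Z2 →ₗ[ℝ] Z2, (∃ C : ℝ, ∀ w, qn (β w) ≤ C * qn w) ∧
    (∀ y : H, β (incl y) = incl (T y)) ∧ (∀ w : Z2, (β w).1.2 = U w.1.2)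

/-! ### block decomposition of `ℓ₂` -/

/-- the `h`-th block of a sequence -/
def blk {D : ℕ → ℕ} (E : ℕ ≃ Σ h, Fin (D h)) (z : ℕ → ℝ) (h : ℕ) : Fin (D h) → ℝ :=
  fun i => z (E.symm ⟨h, i⟩)

/-- block diagonal linear map on all real sequences -/
def bdiag {D : ℕ → ℕ} (E : ℕ ≃ Σ h, Fin (D h)) (T : ∀ h, Matrix (Fin (D h)) (Fin (D h)) ℝ) :
    (ℕ → ℝ) →ₗ[ℝ] (ℕ → ℝ) where
  toFun z n := (T (E n).1).mulVec (blk E z (E n).1) (E n).2
  map_add' z w := by
    funext n
    have : blk E (z + w) (E n).1 = blk E z (E n).1 + blk E w (E n).1 := rfl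
    simp only [this, Matrix.mulVec_add, Pi.add_apply]
  map_smul' c z := by
    funext n
    have : blk E (c • z) (E n).1 = c • blk E z (E n).1 := rfl
    simp only [this, Matrix.mulVec_smul, Pi.smul_apply, RingHom.id_apply]

/-- embedding of the `h`-th block -/
noncomputable def emb {D : ℕ → ℕ} (E : ℕ ≃ Σ h, Fin (D h)) (h : ℕ) (x : Fin (D h) → ℝ) : H :=
  ∑ i, x i • lp.single 2 (E.symm ⟨h, i⟩) (1 : ℝ)

/-- compression of an operator to the `h`-th block -/
noncomputable def cmp {D : ℕ → ℕ} (E : ℕ ≃ Σ h, Fin (D h)) (V : H →L[ℝ] H) (h : ℕ) :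
    Matrix (Fin (D h)) (Fin (D h)) ℝ :=
  fun i j => (V (lp.single 2 (E.symm ⟨h, j⟩) (1 : ℝ)) : H) (E.symm ⟨h, i⟩)

end KPC
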