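import Pool.Agent.KPC.Basic

/-! # KPC, group C: the interpolation lemma (helper9) -/

open Finset BigOperators

namespace KPC

namespace Interp_

theorem young {u s : ℝ} (hu : 0 ≤ u) (hs : 0 ≤ s) : u * s ^ 3 ≤ u ^ 4 / 4 + 3 / 4 * s ^ 4 := by
  have : 0 ≤ (u - s) ^ 2 * (u ^ 2 + 2 * u * s + 3 * s ^ 2) := by positivity
  nlinarith

/-- the norm of `x * exp(c w log|x|)` -/
theorem norm_xexp (x c : ℝ) (w : ℂ) :
    ‖(x : ℂ) * Complex.exp ((c * Real.log |x| : ℝ) * w)‖ = |x| * Real.exp (c * Real.log |x| * w.re) := by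
  rw [norm_mul, Complex.norm_exp, Complex.norm_real, Real.norm_eq_abs, Complex.re_ofReal_mul]

theorem abs_mul_exp {x : ℝ} (r : ℝ) (hr : 0 < 1 + r) :
    |x| * Real.exp (Real.log |x| * r) = |x| ^ (1 + r) := by
  rcases eq_or_ne x 0 with rfl | hx
  · simp [Real.zero_rpow hr.ne']
  · have hx' : 0 < |x| := abs_pos.2 hx
    rw [Real.rpow_add hx', Real.rpow_one, Real.rpow_def_of_pos hx']

theorem half_pow (x : ℝ) : |x| ^ (1 / 2 : ℝ) = √|x| := (Real.sqrt_eq_rpow _).symm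

theorem three_half_pow (x : ℝ) : |x| ^ (3 / 2 : ℝ) = √|x| ^ 3 := by
  rw [Real.sqrt_eq_rpow, ← Real.rpow_natCast, ← Real.rpow_mul (abs_nonneg x)]
  norm_num

theorem sqrt_four (x : ℝ) : √|x| ^ 4 = x ^ 2 := by
  rw [show (4 : ℕ) = 2 * 2 from rfl, pow_mul, Real.sq_sqrt (abs_nonneg x), sq_abs]

section

variable {Ξ I : Type*} [Fintype Ξ]

/-- the first factor -/
noncomputable def GG (s : Finset I) (g0 : Ξ → ℝ) (g : I → Ξ → ℝ) (a : I → ℝ) (ξ : Ξ) (w : ℂ) : ℂ :=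
  (g0 ξ : ℂ) + ∑ i ∈ s, Complex.exp (((Real.log (a i) / 2 : ℝ) : ℂ) * w) * (g i ξ : ℂ)

/-- the function -/
noncomputable def phi (s : Finset I) (f h g0 : Ξ → ℝ) (g : I → Ξ → ℝ) (a : I → ℝ) (w : ℂ) : ℂ :=
  ∑ ξ, (GG s g0 g a ξ w - (f ξ : ℂ) * Complex.exp ((1 * Real.log |f ξ| : ℝ) * w)) *
    ((h ξ : ℂ) * Complex.exp ((-1 * Real.log |h ξ| : ℝ) * w))

theorem GG_eq (s : Finset I) (g0 : Ξ → ℝ) (g : I → Ξ → ℝ) (a : I → ℝ) (ha : ∀ i ∈ s, 0 < a i)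
    (ξ : Ξ) (w : ℂ) : GG s g0 g a ξ w = (g0 ξ : ℂ) + ∑ i ∈ s, ((a i : ℂ) ^ (w / 2)) * (g i ξ : ℂ) := by
  unfold GG
  congr 1
  refine Finset.sum_congr rfl fun i hi => ?_
  have h1 : (a i : ℂ) ≠ 0 := by exact_mod_cast (ha i hi).ne'
  rw [Complex.cpow_def_of_ne_zero h1, ← Complex.ofReal_log (ha i hi).le]
  congr 2
  push_cast
  ring

theorem diff_GG (s : Finset I) (g0 : Ξ → ℝ) (g : I → Ξ → ℝ) (a : I → ℝ) (ξ : Ξ) :
    Differentiable ℂ (GG s g0 g a ξ) := by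
  unfold GG
  fun_prop

theorem diff_phi (s : Finset I) (f h g0 : Ξ → ℝ) (g : I → Ξ → ℝ) (a : I → ℝ) :
    Differentiable ℂ (phi s f h g0 g a) := by
  unfold phi
  have := diff_GG (Ξ := Ξ) s g0 g a
  fun_prop

theorem norm_exp_le (c : ℝ) (w : ℂ) (h1 : -(1 / 2) ≤ w.re) (h2 : w.re ≤ 1) :
    ‖Complex.exp ((c : ℂ) * w)‖ ≤ Real.exp |c| := by
  rw [Complex.norm_exp, Complex.re_ofReal_mul]
  apply Real.exp_le_exp.2
  have h3 : |w.re| ≤ 1 := abs_le.2 ⟨by linarith, h2⟩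
  calc c * w.re ≤ |c * w.re| := le_abs_self _
    _ = |c| * |w.re| := abs_mul _ _
    _ ≤ |c| * 1 := by gcongr
    _ = |c| := mul_one _

theorem bdd_phi (s : Finset I) (f h g0 : Ξ → ℝ) (g : I → Ξ → ℝ) (a : I → ℝ) :
    ∃ B : ℝ, ∀ w : ℂ, -(1 / 2) ≤ w.re → w.re ≤ 1 → ‖phi s f h g0 g a w‖ ≤ B := by
  refine ⟨∑ ξ, ((|g0 ξ| + ∑ i ∈ s, Real.exp |Real.log (a i) / 2| * |g i ξ|) +
    |f ξ| * Real.exp |1 * Real.log (|f ξ|)|) * (|h ξ| * Real.exp |-1 * Real.log (|h ξ|)|),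
    fun w h1 h2 => ?_⟩
  unfold phi
  refine (norm_sum_le _ _).trans (Finset.sum_le_sum fun ξ _ => ?_)
  rw [norm_mul, norm_mul (h ξ : ℂ), Complex.norm_real, Real.norm_eq_abs]
  have e1 : ‖GG s g0 g a ξ w‖ ≤ |g0 ξ| + ∑ i ∈ s, Real.exp |Real.log (a i) / 2| * |g i ξ| := by
    unfold GG
    refine (norm_add_le _ _).trans (add_le_add ?_ ((norm_sum_le _ _).trans
      (Finset.sum_le_sum fun i _ => ?_)))
    · rw [Complex.norm_real, Real.norm_eq_abs]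
    · rw [norm_mul, Complex.norm_real, Real.norm_eq_abs]
      gcongr
      exact norm_exp_le _ _ h1 h2
  have e2 : ‖(f ξ : ℂ) * Complex.exp ((1 * Real.log |f ξ| : ℝ) * w)‖ ≤
      |f ξ| * Real.exp |1 * Real.log (|f ξ|)| := by
    rw [norm_mul, Complex.norm_real, Real.norm_eq_abs]
    gcongr
    exact norm_exp_le _ _ h1 h2
  have e3 := norm_exp_le (-1 * Real.log (|h ξ|)) w h1 h2
  gcongr
  exact (norm_sub_le _ _).trans (add_le_add e1 e2)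

theorem left_bd [Nonempty Ξ] (s : Finset I) (f h g0 : Ξ → ℝ)
    (g : I → Ξ → ℝ) (a : I → ℝ) (ha : ∀ i ∈ s, 0 < a i) (C : ℝ) (hC : 0 < C)
    (hf2 : ∑ ξ, f ξ ^ 2 ≤ Fintype.card Ξ) (hh2 : ∑ ξ, h ξ ^ 2 ≤ Fintype.card Ξ)
    (h4 : ∀ t : ℝ, ∑ ξ, ‖(g0 ξ : ℂ) + ∑ i ∈ s, ((a i : ℂ) ^ ((-(1 / 2 : ℂ) + t * Complex.I) / 2)) *
      (g i ξ : ℂ)‖ ^ 4 ≤ C ^ 4 * Fintype.card Ξ) (w : ℂ) (hw : w.re = -(1 / 2)) :
    ‖phi s f h g0 g a w‖ ≤ (C + 1) * Fintype.card Ξ := by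
  have hG : ∑ ξ, ‖GG s g0 g a ξ w‖ ^ 4 ≤ C ^ 4 * Fintype.card Ξ := by
    have h5 : w = -(1 / 2 : ℂ) + (w.im : ℂ) * Complex.I := by
      apply Complex.ext <;> simp [hw]
    have h6 := h4 w.im
    rw [← h5] at h6
    refine le_trans (le_of_eq ?_) h6
    exact Finset.sum_congr rfl fun ξ _ => by rw [GG_eq s g0 g a ha]
  have key : ∀ ξ, ‖(GG s g0 g a ξ w - (f ξ : ℂ) * Complex.exp ((1 * Real.log |f ξ| : ℝ) * w)) *
      ((h ξ : ℂ) * Complex.exp ((-1 * Real.log |h ξ| : ℝ) * w))‖ ≤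
      C * ((‖GG s g0 g a ξ w‖ / C) ^ 4 / 4 + 3 / 4 * h ξ ^ 2) + (f ξ ^ 2 / 4 + 3 / 4 * h ξ ^ 2) := by
    intro ξ
    have e1 : ‖(f ξ : ℂ) * Complex.exp ((1 * Real.log |f ξ| : ℝ) * w)‖ = √|f ξ| := by
      rw [norm_xexp, hw, one_mul, abs_mul_exp _ (by norm_num), ← half_pow]
      norm_num
    have e2 : ‖(h ξ : ℂ) * Complex.exp ((-1 * Real.log |h ξ| : ℝ) * w)‖ = √|h ξ| ^ 3 := by
      rw [norm_xexp, hw, show -1 * Real.log |h ξ| * -(1 / 2) = Real.log |h ξ| * (1 / 2) by ring,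
        abs_mul_exp _ (by norm_num), ← three_half_pow]
      norm_num
    rw [norm_mul, e2]
    have hs := Real.sqrt_nonneg |h ξ|
    have hsf := Real.sqrt_nonneg |f ξ|
    have y1 := young (u := ‖GG s g0 g a ξ w‖ / C) (s := √|h ξ|) (by positivity) hs
    have y2 := young hsf hs
    rw [sqrt_four] at y1 y2
    rw [sqrt_four] at y2
    calc ‖GG s g0 g a ξ w - (f ξ : ℂ) * Complex.exp ((1 * Real.log |f ξ| : ℝ) * w)‖ * √|h ξ| ^ 3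
        ≤ (‖GG s g0 g a ξ w‖ + √|f ξ|) * √|h ξ| ^ 3 := by
          gcongr
          exact (norm_sub_le _ _).trans (by rw [e1])
      _ = C * (‖GG s g0 g a ξ w‖ / C * √|h ξ| ^ 3) + √|f ξ| * √|h ξ| ^ 3 := by
          field_simp
      _ ≤ _ := by gcongr
  unfold phi
  refine (norm_sum_le _ _).trans ((Finset.sum_le_sum fun ξ _ => key ξ).trans ?_)
  rw [Finset.sum_add_distrib, ← Finset.mul_sum, Finset.sum_add_distrib, Finset.sum_add_distrib,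
    ← Finset.mul_sum, ← Finset.sum_div, ← Finset.sum_div]
  have h7 : ∑ ξ, (‖GG s g0 g a ξ w‖ / C) ^ 4 ≤ Fintype.card Ξ := by
    have : ∀ ξ, (‖GG s g0 g a ξ w‖ / C) ^ 4 = ‖GG s g0 g a ξ w‖ ^ 4 / C ^ 4 := fun ξ => div_pow _ _ _
    rw [Finset.sum_congr rfl fun ξ _ => this ξ, ← Finset.sum_div, div_le_iff₀ (by positivity)]
    linarith
  have h8 : C * ((∑ ξ, (‖GG s g0 g a ξ w‖ / C) ^ 4) / 4 + 3 / 4 * ∑ ξ, h ξ ^ 2) ≤
      C * Fintype.card Ξ := by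
    gcongr
    linarith
  linarith

theorem right_bd [Nonempty Ξ] (s : Finset I) (f h g0 : Ξ → ℝ)
    (g : I → Ξ → ℝ) (a : I → ℝ) (ha : ∀ i ∈ s, 0 < a i) (C : ℝ)
    (hf2 : ∑ ξ, f ξ ^ 2 ≤ Fintype.card Ξ)
    (h1 : ∀ t : ℝ, ∑ ξ, ‖(g0 ξ : ℂ) + ∑ i ∈ s, ((a i : ℂ) ^ ((1 + t * Complex.I) / 2)) *
      (g i ξ : ℂ)‖ ≤ C * Fintype.card Ξ) (w : ℂ) (hw : w.re = 1) :
    ‖phi s f h g0 g a w‖ ≤ (C + 1) * Fintype.card Ξ := by
  have hG : ∑ ξ, ‖GG s g0 g a ξ w‖ ≤ C * Fintype.card Ξ := by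
    have h5 : w = (1 : ℂ) + (w.im : ℂ) * Complex.I := by
      apply Complex.ext <;> simp [hw]
    have h6 := h1 w.im
    rw [← h5] at h6
    refine le_trans (le_of_eq ?_) h6
    exact Finset.sum_congr rfl fun ξ _ => by rw [GG_eq s g0 g a ha]
  have key : ∀ ξ, ‖(GG s g0 g a ξ w - (f ξ : ℂ) * Complex.exp ((1 * Real.log |f ξ| : ℝ) * w)) *
      ((h ξ : ℂ) * Complex.exp ((-1 * Real.log |h ξ| : ℝ) * w))‖ ≤
      ‖GG s g0 g a ξ w‖ + f ξ ^ 2 := by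
    intro ξ
    have e1 : ‖(f ξ : ℂ) * Complex.exp ((1 * Real.log |f ξ| : ℝ) * w)‖ = f ξ ^ 2 := by
      rw [norm_xexp, hw, one_mul, abs_mul_exp _ (by norm_num)]
      norm_num
    have e2 : ‖(h ξ : ℂ) * Complex.exp ((-1 * Real.log |h ξ| : ℝ) * w)‖ ≤ 1 := by
      rw [norm_xexp, hw, mul_one]
      rcases eq_or_ne (h ξ) 0 with h0 | h0
      · rw [h0]
        simp
      · rw [neg_one_mul, Real.exp_neg, Real.exp_log (abs_pos.2 h0),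
          mul_inv_cancel₀ (abs_pos.2 h0).ne']
    rw [norm_mul]
    calc _ ≤ (‖GG s g0 g a ξ w‖ + f ξ ^ 2) * 1 := by
          gcongr
          exact (norm_sub_le _ _).trans (by rw [e1])
      _ = _ := mul_one _
  unfold phi
  refine (norm_sum_le _ _).trans ((Finset.sum_le_sum fun ξ _ => key ξ).trans ?_)
  rw [Finset.sum_add_distrib]
  linarith

theorem strip_bd [Nonempty Ξ] (s : Finset I) (f h g0 : Ξ → ℝ)
    (g : I → Ξ → ℝ) (a : I → ℝ) (ha : ∀ i ∈ s, 0 < a i) (C : ℝ) (hC : 0 < C)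
    (hf2 : ∑ ξ, f ξ ^ 2 ≤ Fintype.card Ξ) (hh2 : ∑ ξ, h ξ ^ 2 ≤ Fintype.card Ξ)
    (h4 : ∀ t : ℝ, ∑ ξ, ‖(g0 ξ : ℂ) + ∑ i ∈ s, ((a i : ℂ) ^ ((-(1 / 2 : ℂ) + t * Complex.I) / 2)) *
      (g i ξ : ℂ)‖ ^ 4 ≤ C ^ 4 * Fintype.card Ξ)
    (h1 : ∀ t : ℝ, ∑ ξ, ‖(g0 ξ : ℂ) + ∑ i ∈ s, ((a i : ℂ) ^ ((1 + t * Complex.I) / 2)) *
      (g i ξ : ℂ)‖ ≤ C * Fintype.card Ξ) (w : ℂ) (hw1 : -(1 / 2) ≤ w.re) (hw2 : w.re ≤ 1) :
    ‖phi s f h g0 g a w‖ ≤ (C + 1) * Fintype.card Ξ := by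
  obtain ⟨B, hB⟩ := bdd_phi s f h g0 g a
  refine PhragmenLindelof.vertical_strip (a := -(1 / 2)) (b := 1)
    (diff_phi s f h g0 g a).diffContOnCl ⟨0, by positivity, 0, ?_⟩
    (fun z hz => left_bd s f h g0 g a ha C hC hf2 hh2 h4 z hz)
    (fun z hz => right_bd s f h g0 g a ha C hf2 h1 z hz) hw1 hw2
  refine Asymptotics.IsBigO.of_bound B ?_
  have hmem : (Complex.re ⁻¹' Set.Ioo (-(1 / 2 : ℝ)) 1) ∈
      Filter.comap (_root_.abs ∘ Complex.im) Filter.atTop ⊓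
        Filter.principal (Complex.re ⁻¹' Set.Ioo (-(1 / 2 : ℝ)) 1) :=
    Filter.mem_inf_of_right (Filter.mem_principal_self _)
  filter_upwards [hmem] with z hz
  simpa using hB z hz.1.le hz.2.le

theorem deriv_phi (s : Finset I) (f h g0 : Ξ → ℝ) (g : I → Ξ → ℝ) (a : I → ℝ)
    (hf : ∀ ξ, f ξ = g0 ξ + ∑ i ∈ s, g i ξ) :
    deriv (phi s f h g0 g a) 0 =
      ((∑ ξ, ((∑ i ∈ s, Real.log (a i) / 2 * g i ξ) - f ξ * Real.log |f ξ|) * h ξ : ℝ) : ℂ) := by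
  have hexp : ∀ c : ℂ, HasDerivAt (fun w : ℂ => Complex.exp (c * w)) c 0 := by
    intro c
    have h1 : HasDerivAt (fun w : ℂ => c * w) c 0 := by
      simpa using (hasDerivAt_id (0 : ℂ)).const_mul c
    have h2 := h1.cexp
    simpa using h2
  have hGG : ∀ ξ, HasDerivAt (GG s g0 g a ξ)
      (∑ i ∈ s, ((Real.log (a i) / 2 : ℝ) : ℂ) * (g i ξ : ℂ)) 0 := by
    intro ξ
    unfold GG
    exact (HasDerivAt.fun_sum fun i _ => (hexp _).mul_const _).const_add _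
  have hGG0 : ∀ ξ, GG s g0 g a ξ 0 = (f ξ : ℂ) := by
    intro ξ
    unfold GG
    rw [hf ξ]
    simp
  have hall : ∀ ξ, HasDerivAt (fun w =>
      (GG s g0 g a ξ w - (f ξ : ℂ) * Complex.exp ((1 * Real.log |f ξ| : ℝ) * w)) *
        ((h ξ : ℂ) * Complex.exp ((-1 * Real.log |h ξ| : ℝ) * w)))
      (((∑ i ∈ s, ((Real.log (a i) / 2 : ℝ) : ℂ) * (g i ξ : ℂ)) -
        (f ξ : ℂ) * ((1 * Real.log |f ξ| : ℝ) : ℂ)) * (h ξ : ℂ)) 0 := by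
    intro ξ
    have h1 := ((hGG ξ).sub ((hexp ((1 * Real.log |f ξ| : ℝ) : ℂ)).const_mul (f ξ : ℂ))).mul
      ((hexp ((-1 * Real.log |h ξ| : ℝ) : ℂ)).const_mul (h ξ : ℂ))
    have h2 : ∀ x y : ℂ, x = y → HasDerivAt (fun w =>
      (GG s g0 g a ξ w - (f ξ : ℂ) * Complex.exp ((1 * Real.log |f ξ| : ℝ) * w)) *
        ((h ξ : ℂ) * Complex.exp ((-1 * Real.log |h ξ| : ℝ) * w))) x 0 → HasDerivAt (fun w =>
      (GG s g0 g a ξ w - (f ξ : ℂ) * Complex.exp ((1 * Real.log |f ξ| : ℝ) * w)) *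
        ((h ξ : ℂ) * Complex.exp ((-1 * Real.log |h ξ| : ℝ) * w))) y 0 := by
      rintro x y rfl hx
      exact hx
    refine h2 _ _ ?_ h1
    simp [hGG0]
  have hsum : HasDerivAt (phi s f h g0 g a) (∑ ξ,
      ((∑ i ∈ s, ((Real.log (a i) / 2 : ℝ) : ℂ) * (g i ξ : ℂ)) -
        (f ξ : ℂ) * ((1 * Real.log |f ξ| : ℝ) : ℂ)) * (h ξ : ℂ)) 0 := by
    unfold phi
    exact HasDerivAt.fun_sum fun ξ _ => hall ξ
  rw [hsum.deriv]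
  push_cast
  simp

end

end Interp_

open Interp_ in
theorem interp {Ξ I : Type*} [Fintype Ξ] [Nonempty Ξ] (s : Finset I) (f h g0 : Ξ → ℝ)
    (g : I → Ξ → ℝ) (a : I → ℝ) (ha : ∀ i ∈ s, 0 < a i) (C : ℝ) (hC : 0 ≤ C)
    (hf : ∀ ξ, f ξ = g0 ξ + ∑ i ∈ s, g i ξ)
    (hf2 : ∑ ξ, f ξ ^ 2 ≤ Fintype.card Ξ) (hh2 : ∑ ξ, h ξ ^ 2 ≤ Fintype.card Ξ)
    (h4 : ∀ t : ℝ, ∑ ξ, ‖(g0 ξ : ℂ) + ∑ i ∈ s, ((a i : ℂ) ^ ((-(1 / 2 : ℂ) + t * Complex.I) / 2)) *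
      (g i ξ : ℂ)‖ ^ 4 ≤ C ^ 4 * Fintype.card Ξ)
    (h1 : ∀ t : ℝ, ∑ ξ, ‖(g0 ξ : ℂ) + ∑ i ∈ s, ((a i : ℂ) ^ ((1 + t * Complex.I) / 2)) *
      (g i ξ : ℂ)‖ ≤ C * Fintype.card Ξ) :
    |∑ ξ, ((∑ i ∈ s, Real.log (a i) / 2 * g i ξ) - f ξ * Real.log |f ξ|) * h ξ| ≤
      2 * (C + 1) * Fintype.card Ξ := by
  have main : ∀ ε : ℝ, 0 < ε →
      |∑ ξ, ((∑ i ∈ s, Real.log (a i) / 2 * g i ξ) - f ξ * Real.log |f ξ|) * h ξ| ≤
        2 * (C + ε + 1) * Fintype.card Ξ := by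
    intro ε hε
    have hD : (0 : ℝ) ≤ Fintype.card Ξ := Nat.cast_nonneg _
    have hst := strip_bd s f h g0 g a ha (C + ε) (by linarith) hf2 hh2
      (fun t => (h4 t).trans (by gcongr; linarith)) (fun t => (h1 t).trans (by gcongr; linarith))
    have hc := Complex.norm_deriv_le_of_forall_mem_sphere_norm_le (c := (0 : ℂ)) (R := 1 / 2)
      (C := (C + ε + 1) * Fintype.card Ξ) (by norm_num) (diff_phi s f h g0 g a).diffContOnCl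
      (fun z hz => by
        rw [mem_sphere_zero_iff_norm] at hz
        have h5 := Complex.abs_re_le_norm z
        rw [hz, abs_le] at h5
        exact hst z h5.1 (by linarith [h5.2]))
    rw [deriv_phi s f h g0 g a hf, Complex.norm_real, Real.norm_eq_abs] at hc
    calc _ ≤ (C + ε + 1) * Fintype.card Ξ / (1 / 2) := hc
      _ = _ := by ring
  have hD : (0 : ℝ) < Fintype.card Ξ := Nat.cast_pos.2 Fintype.card_pos
  refine le_of_forall_pos_le_add fun ε hε => ?_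
  have := main (ε / (2 * Fintype.card Ξ)) (by positivity)
  refine this.trans (le_of_eq ?_)
  field_simp
  ring

end KPC
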