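import Pool.Agent.KPC.Basic

/-! Elementary estimates for the Kalton–Peck map in finite dimension (job KPC-B). -/

open Finset BigOperators

namespace KPC

namespace KP_

theorem aux (p q : ℝ) (hp : 0 < p) (hq : 0 < q) (hpq : p ≤ q) :
    |p * q * (Real.log p - Real.log q)| ≤ p ^ 2 + q ^ 2 := by
  have h1 : Real.log (q / p) ≤ q / p - 1 := Real.log_le_sub_one_of_pos (div_pos hq hp)
  rw [Real.log_div hq.ne' hp.ne'] at h1
  have h2 : Real.log p ≤ Real.log q := Real.log_le_log hp hpq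
  have h3 : |p * q * (Real.log p - Real.log q)| = p * q * (Real.log q - Real.log p) := by
    rw [abs_of_nonpos]
    · ring
    · exact mul_nonpos_of_nonneg_of_nonpos (mul_pos hp hq).le (by linarith)
  rw [h3]
  have h4 : p * q * (Real.log q - Real.log p) ≤ p * q * (q / p - 1) :=
    mul_le_mul_of_nonneg_left h1 (mul_pos hp hq).le
  have h5 : p * q * (q / p - 1) = q ^ 2 - p * q := by field_simp
  have h6 := mul_pos hp hq
  nlinarith [sq_nonneg p]

theorem aux2 (p q : ℝ) (hp : 0 < p) (hq : 0 < q) :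
    |p * q * (Real.log p - Real.log q)| ≤ p ^ 2 + q ^ 2 := by
  rcases le_total p q with h | h
  · exact aux p q hp hq h
  · have h1 := aux q p hq hp h
    have h2 : p * q * (Real.log p - Real.log q) = -(q * p * (Real.log q - Real.log p)) := by ring
    rw [h2, abs_neg]
    linarith

theorem term (s a b : ℝ) (hs : 0 < s) :
    |a * Real.log (s * |a|) * b - a * (b * Real.log (s * |b|))| ≤ a ^ 2 + b ^ 2 := by
  by_cases ha : a = 0
  · subst ha; simp; positivity
  by_cases hb : b = 0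
  · subst hb; simp; positivity
  have ha' : 0 < |a| := abs_pos.mpr ha
  have hb' : 0 < |b| := abs_pos.mpr hb
  rw [Real.log_mul hs.ne' ha'.ne', Real.log_mul hs.ne' hb'.ne']
  have h1 := aux2 |a| |b| ha' hb'
  have h2 : a * (Real.log s + Real.log |a|) * b - a * (b * (Real.log s + Real.log |b|)) =
      (a * b) * (Real.log |a| - Real.log |b|) := by ring
  rw [h2, abs_mul, abs_mul]
  rw [abs_mul, abs_mul, abs_abs, abs_abs, sq_abs, sq_abs] at h1
  exact h1

theorem kpf_apply {ι : Type*} [Fintype ι] (x : ι → ℝ) (i : ι) :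
    kpf x i = x i * Real.log (|x i| / nrm x) := rfl

theorem K1_apply {ι : Type*} [Fintype ι] (D : ℝ) (x : ι → ℝ) (i : ι) :
    K1 D x i = x i * Real.log (Real.sqrt D * |x i|) := rfl

theorem log_sqrt' (D : ℝ) (hD : 0 < D) : Real.log (Real.sqrt D) = Real.log D / 2 :=
  Real.log_sqrt hD.le

theorem near {ι : Type*} [Fintype ι] (D : ℝ) (hD : 0 < D) (x : ι → ℝ) (hx : 0 < nrm x) :
    kpf x - K1 D x + (Real.log D / 2) • x = (-Real.log (nrm x)) • x := by
  funext i
  simp only [Pi.add_apply, Pi.sub_apply, Pi.smul_apply, smul_eq_mul, kpf_apply, K1_apply]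
  by_cases h : x i = 0
  · simp [h]
  · have h' : 0 < |x i| := abs_pos.mpr h
    rw [Real.log_div h'.ne' hx.ne', Real.log_mul (Real.sqrt_pos.mpr hD).ne' h'.ne',
      log_sqrt' D hD]
    ring

end KP_

open KP_

theorem K1_symm {ι : Type*} [Fintype ι] (D : ℝ) (hD : 0 < D) (x y : ι → ℝ) :
    |ip (K1 D x) y - ip x (K1 D y)| ≤ nsq x + nsq y := by
  unfold ip nsq
  rw [← Finset.sum_sub_distrib, ← Finset.sum_add_distrib]
  refine (Finset.abs_sum_le_sum_abs _ _).trans (Finset.sum_le_sum fun i _ => ?_)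
  rw [K1_apply, K1_apply]
  exact term (Real.sqrt D) (x i) (y i) (Real.sqrt_pos.mpr hD)

theorem kpf_smul {ι : Type*} [Fintype ι] (c : ℝ) (x : ι → ℝ) : kpf (c • x) = c • kpf x := by
  by_cases hc : c = 0
  · subst hc
    funext i
    simp [kpf_apply]
  · funext i
    simp only [Pi.smul_apply, smul_eq_mul, kpf_apply, nrm_smul, abs_mul]
    rw [mul_div_mul_left _ _ (abs_ne_zero.mpr hc)]
    ring

theorem kpf_eq_K1 {ι : Type*} [Fintype ι] (D : ℝ) (hD : 0 < D) (x : ι → ℝ) (hx : nrm x = 1) :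
    kpf x = K1 D x - (Real.log D / 2) • x := by
  have h := near D hD x (by rw [hx]; norm_num)
  rw [hx, Real.log_one, neg_zero, zero_smul] at h
  have h2 : kpf x - (K1 D x - (Real.log D / 2) • x) = 0 := by rw [← h]; abel
  exact sub_eq_zero.mp h2

theorem kpf_symm {ι : Type*} [Fintype ι] (x y : ι → ℝ) :
    |ip (kpf x) y - ip x (kpf y)| ≤ 2 * nrm x * nrm y := by
  have h0 : kpf (0 : ι → ℝ) = 0 := by funext i; simp [kpf_apply]
  by_cases hx : nrm x = 0
  · have : x = 0 := nrm_eq_zero.mp hx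
    subst this
    rw [h0]; simp
  by_cases hy : nrm y = 0
  · have : y = 0 := nrm_eq_zero.mp hy
    subst this
    rw [h0]; simp
  have hx' : 0 < nrm x := lt_of_le_of_ne (nrm_nonneg x) (Ne.symm hx)
  have hy' : 0 < nrm y := lt_of_le_of_ne (nrm_nonneg y) (Ne.symm hy)
  have hu : nrm ((nrm x)⁻¹ • x) = 1 := by
    rw [nrm_smul, abs_of_pos (inv_pos.mpr hx')]; exact inv_mul_cancel₀ hx
  have hv : nrm ((nrm y)⁻¹ • y) = 1 := by
    rw [nrm_smul, abs_of_pos (inv_pos.mpr hy')]; exact inv_mul_cancel₀ hy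
  have h1 := kpf_eq_K1 1 one_pos _ hu
  have h2 := kpf_eq_K1 1 one_pos _ hv
  rw [Real.log_one, zero_div, zero_smul, sub_zero] at h1 h2
  have h3 := K1_symm 1 one_pos ((nrm x)⁻¹ • x) ((nrm y)⁻¹ • y)
  rw [← h1, ← h2, ← nrm_sq, ← nrm_sq, hu, hv, kpf_smul, kpf_smul, ip_smul_left, ip_smul_left,
    ip_smul_right, ip_smul_right] at h3
  have h4 : (nrm x)⁻¹ * ((nrm y)⁻¹ * ip (kpf x) y) - (nrm x)⁻¹ * ((nrm y)⁻¹ * ip x (kpf y)) =
      (nrm x * nrm y)⁻¹ * (ip (kpf x) y - ip x (kpf y)) := by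
    rw [mul_inv]; ring
  rw [h4, abs_mul, abs_of_pos (inv_pos.mpr (mul_pos hx' hy')),
    inv_mul_le_iff₀ (mul_pos hx' hy')] at h3
  linarith

theorem kpf_near_K1 {ι : Type*} [Fintype ι] (D : ℝ) (hD : 0 < D) (x : ι → ℝ) (hx : nrm x ≤ 1) :
    nrm (kpf x - K1 D x + (Real.log D / 2) • x) ≤ 1 := by
  by_cases h : nrm x = 0
  · have h' : x = 0 := nrm_eq_zero.mp h
    subst h'
    have h0 : kpf (0 : ι → ℝ) - K1 D (0 : ι → ℝ) + (Real.log D / 2) • (0 : ι → ℝ) = 0 := by
      funext i; simp [kpf_apply, K1_apply]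
    rw [h0, nrm_zero]; norm_num
  · have h' : 0 < nrm x := lt_of_le_of_ne (nrm_nonneg x) (Ne.symm h)
    rw [near D hD x h', nrm_smul, abs_neg, abs_of_nonpos (Real.log_nonpos h'.le hx)]
    have h1 : Real.log (nrm x)⁻¹ ≤ (nrm x)⁻¹ - 1 :=
      Real.log_le_sub_one_of_pos (inv_pos.mpr h')
    rw [Real.log_inv] at h1
    have h2 := mul_le_mul_of_nonneg_right h1 h'.le
    have h3 : ((nrm x)⁻¹ - 1) * nrm x = 1 - nrm x := by
      rw [sub_mul, inv_mul_cancel₀ h, one_mul]
    linarith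

end KPC
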