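import Pool.Agent.KPC.LLine
import Pool.Agent.KPC.LBsum

/-! KPC-L7: the norm of `T0` (helper49). -/

open Finset BigOperators

namespace KPC

namespace Lev

variable {K Q : Type} [Fintype K] [DecidableEq K] [Fintype Q] [DecidableEq Q] {s : ℕ}

theorem LT0_eps_sq (Hd : K × Q → K × Q → ℝ) (hH : IsHad Hd) (r : Fin s) (i : Row K Q s) :
    eps Hd r i ^ 2 = 1 := by
  unfold eps
  rw [← Finset.prod_pow]
  refine Finset.prod_eq_one fun r' _ => ?_
  rcases hH.1 (i r) (i r') with h | h <;> rw [h] <;> norm_num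

theorem LT0_qk_sq [Nonempty Q] :
    qk K Q ^ 2 * (Fintype.card Q : ℝ) ^ Fintype.card K = 1 := by
  have h : 0 < (Fintype.card Q : ℝ) ^ Fintype.card K :=
    pow_pos (by exact_mod_cast Fintype.card_pos) _
  unfold qk
  rw [inv_pow, Real.sq_sqrt h.le, inv_mul_cancel₀ h.ne']

/-- variance inequality -/
theorem LT0_var (w : Q → ℝ) :
    ∑ c, ((Fintype.card Q : ℝ) * w c - ∑ c', w c') ^ 2 ≤
      (Fintype.card Q : ℝ) ^ 2 * ∑ c, w c ^ 2 := by
  set κ : ℝ := (Fintype.card Q : ℝ) with hκ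
  set m : ℝ := ∑ c', w c' with hm
  have h1 : ∑ c, (κ * w c - m) ^ 2 = κ ^ 2 * ∑ c, w c ^ 2 - κ * m ^ 2 := by
    have h2 : ∀ c, (κ * w c - m) ^ 2 = κ ^ 2 * w c ^ 2 - 2 * κ * m * w c + m ^ 2 :=
      fun c => by ring
    rw [Finset.sum_congr rfl fun c _ => h2 c, Finset.sum_add_distrib, Finset.sum_sub_distrib,
      ← Finset.mul_sum, ← Finset.mul_sum, Finset.sum_const, Finset.card_univ, nsmul_eq_mul,
      ← hκ, ← hm]
    ring
  rw [h1]
  have h3 : 0 ≤ κ * m ^ 2 := mul_nonneg (Nat.cast_nonneg _) (sq_nonneg _)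
  linarith

theorem LT0_col [Nonempty Q] (Hd : K × Q → K × Q → ℝ) (hH : IsHad Hd) (g0 : K × Q)
    (y : Row K Q s → ℝ) (r : Fin s) (u : Row K Q s) :
    ∑ b : K → Q, (((T0 Hd g0 : Matrix (Row K Q s) (Col K Q s) ℝ).transpose.mulVec y)
        (r, u, b)) ^ 2 ≤
      if u r = g0 then (Fintype.card Q : ℝ) * ∑ γ, y (Function.update u r γ) ^ 2 else 0 := by
  set κ : ℝ := (Fintype.card Q : ℝ) with hκ
  have hκ0 : 0 < κ := by rw [hκ]; exact_mod_cast Fintype.card_pos
  let w : K × Q → ℝ := fun γ => eps Hd r (Function.update u r γ) * y (Function.update u r γ)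
  have hent : ∀ b : K → Q, ((T0 Hd g0 : Matrix (Row K Q s) (Col K Q s) ℝ).transpose.mulVec y)
      (r, u, b) = if u r = g0 then
        qk K Q * ∑ a, (κ * w (a, b a) - ∑ c', w (a, c')) else 0 := by
    intro b
    have e1 : ((T0 Hd g0 : Matrix (Row K Q s) (Col K Q s) ℝ).transpose.mulVec y) (r, u, b) =
        ∑ i : Row K Q s, (if Function.update i r g0 = u then
          (eps Hd r i * qk K Q * (κ * hit (i r) b - 1) * y i) else 0) := by
      unfold Matrix.mulVec dotProduct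
      refine Finset.sum_congr rfl fun i _ => ?_
      show ((κ - 1) * RG Hd g0 i (r, u, b) - RD Hd g0 i (r, u, b)) * y i = _
      unfold RG RD
      by_cases h : Function.update i r g0 = u
      · rw [if_pos h, if_pos h, if_pos h]
        ring
      · rw [if_neg h, if_neg h, if_neg h]
        ring
    rw [e1, line_sum g0 r u]
    refine if_congr Iff.rfl ?_ rfl
    rw [Fintype.sum_prod_type, Finset.mul_sum]
    refine Finset.sum_congr rfl fun a _ => ?_
    have e2 : ∀ c : Q, eps Hd r (Function.update u r (a, c)) * qk K Q *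
        (κ * hit ((Function.update u r (a, c)) r) b - 1) * y (Function.update u r (a, c)) =
        qk K Q * (κ * (if b a = c then w (a, c) else 0) - w (a, c)) := by
      intro c
      rw [Function.update_self]
      unfold hit
      show _ * _ * (κ * (if b a = c then 1 else 0) - 1) * _ = _
      split_ifs <;> simp only [w] <;> ring
    rw [Finset.sum_congr rfl fun c _ => e2 c, ← Finset.mul_sum, Finset.sum_sub_distrib,
      ← Finset.mul_sum, Finset.sum_ite_eq, if_pos (Finset.mem_univ _)]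
  by_cases hu : u r = g0
  · rw [if_pos hu]
    let X : K → Q → ℝ := fun a c => κ * w (a, c) - ∑ c', w (a, c')
    have hX : ∀ a, ∑ c, X a c = 0 := by
      intro a
      simp only [X]
      rw [Finset.sum_sub_distrib, ← Finset.mul_sum, Finset.sum_const, Finset.card_univ,
        nsmul_eq_mul, ← hκ, sub_self]
    have hb := b_sum (0 : ℝ) X hX
    rw [← hκ] at hb
    have e3 : ∑ b : K → Q, (((T0 Hd g0 : Matrix (Row K Q s) (Col K Q s) ℝ).transpose.mulVec y)
        (r, u, b)) ^ 2 = qk K Q ^ 2 * ∑ b : K → Q, (0 + ∑ a, X a (b a)) ^ 2 := by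
      rw [Finset.mul_sum]
      refine Finset.sum_congr rfl fun b _ => ?_
      rw [hent b, if_pos hu, mul_pow, zero_add]
    have hsum : ∑ a, ∑ c, X a c ^ 2 ≤ κ ^ 2 * ∑ γ, y (Function.update u r γ) ^ 2 := by
      have e4 : ∑ a, ∑ c, X a c ^ 2 ≤ ∑ a, κ ^ 2 * ∑ c, w (a, c) ^ 2 :=
        Finset.sum_le_sum fun a _ => LT0_var fun c => w (a, c)
      refine e4.trans (le_of_eq ?_)
      rw [← Finset.mul_sum, Fintype.sum_prod_type]
      congr 1
      refine Finset.sum_congr rfl fun a _ => Finset.sum_congr rfl fun c _ => ?_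
      simp only [w]
      rw [mul_pow, LT0_eps_sq Hd hH, one_mul]
    have h5 : κ * (∑ b : K → Q, (((T0 Hd g0 : Matrix (Row K Q s) (Col K Q s) ℝ).transpose.mulVec
        y) (r, u, b)) ^ 2) ≤ κ * (κ * ∑ γ, y (Function.update u r γ) ^ 2) := by
      rw [e3]
      have h6 : κ * (qk K Q ^ 2 * ∑ b : K → Q, (0 + ∑ a, X a (b a)) ^ 2) =
          (qk K Q ^ 2 * κ ^ Fintype.card K) * ∑ a, ∑ c, X a c ^ 2 := by
        have h7 : κ * (qk K Q ^ 2 * ∑ b : K → Q, (0 + ∑ a, X a (b a)) ^ 2) =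
          qk K Q ^ 2 * (κ * ∑ b : K → Q, (0 + ∑ a, X a (b a)) ^ 2) := by ring
        rw [h7, hb]
        ring
      rw [h6, hκ, LT0_qk_sq, one_mul, ← hκ]
      calc _ ≤ κ ^ 2 * ∑ γ, y (Function.update u r γ) ^ 2 := hsum
        _ = _ := by ring
    exact le_of_mul_le_mul_left h5 hκ0
  · rw [if_neg hu]
    refine le_of_eq (Finset.sum_eq_zero fun b _ => ?_)
    rw [hent b, if_neg hu]
    norm_num

theorem T0_le [Nonempty Q] (Hd : K × Q → K × Q → ℝ) (hH : IsHad Hd) (g0 : K × Q) :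
    OpLe (T0 Hd g0 : Matrix (Row K Q s) (Col K Q s) ℝ) (Real.sqrt (s * Fintype.card Q)) := by
  refine OpLe.of_transpose (Real.sqrt_nonneg _) fun y => ?_
  refine nrm_le_of_nsq_le (mul_nonneg (Real.sqrt_nonneg _) (nrm_nonneg _)) ?_
  rw [mul_pow, nrm_sq, Real.sq_sqrt (by positivity)]
  have h1 : nsq ((T0 Hd g0 : Matrix (Row K Q s) (Col K Q s) ℝ).transpose.mulVec y) =
      ∑ r : Fin s, ∑ u : Row K Q s, ∑ b : K → Q,
        (((T0 Hd g0 : Matrix (Row K Q s) (Col K Q s) ℝ).transpose.mulVec y) (r, u, b)) ^ 2 := by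
    unfold nsq
    rw [Fintype.sum_prod_type]
    refine Finset.sum_congr rfl fun r _ => ?_
    rw [Fintype.sum_prod_type]
  rw [h1]
  calc _ ≤ ∑ r : Fin s, ∑ u : Row K Q s, (if u r = g0 then
        (Fintype.card Q : ℝ) * ∑ γ, y (Function.update u r γ) ^ 2 else 0) :=
        Finset.sum_le_sum fun r _ => Finset.sum_le_sum fun u _ => LT0_col Hd hH g0 y r u
    _ = ∑ r : Fin s, (Fintype.card Q : ℝ) * ∑ i, y i ^ 2 := by
        refine Finset.sum_congr rfl fun r _ => ?_
        rw [← line_total g0 r (fun i => y i ^ 2), Finset.mul_sum]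
        refine Finset.sum_congr rfl fun u _ => ?_
        split_ifs
        · rfl
        · rw [mul_zero]
    _ = _ := by
        rw [Finset.sum_const, Finset.card_univ, Fintype.card_fin, nsmul_eq_mul]
        unfold nsq
        ring

end Lev

end KPC
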