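import Pool.Agent.KPC.Basic

/-!
# The level model: definitions
Rows `Fin s → K × Q`, columns `(r, u, b)`.
-/

open Finset BigOperators

namespace KPC.Lev

variable {K Q : Type} [Fintype K] [DecidableEq K] [Fintype Q] [DecidableEq Q] {s : ℕ}

/-- rows -/
abbrev Row (K Q : Type) (s : ℕ) : Type := Fin s → K × Q

/-- columns `(r, u, b)`; `u` is a row whose `r`-th coordinate is the base point `g0` -/
abbrev Col (K Q : Type) (s : ℕ) : Type := Fin s × (Fin s → K × Q) × (K → Q)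

/-- an abstract Hadamard matrix -/
def IsHad (Hd : K × Q → K × Q → ℝ) : Prop :=
  (∀ g g', Hd g g' = 1 ∨ Hd g g' = -1) ∧
  ∀ g g', ∑ γ, Hd g γ * Hd g' γ = if g = g' then (Fintype.card (K × Q) : ℝ) else 0

/-- the twist `ε_r(i) = ∏_{r' > r} H(i_r, i_{r'})` -/
def eps (Hd : K × Q → K × Q → ℝ) (r : Fin s) (i : Row K Q s) : ℝ :=
  ∏ r' ∈ univ.filter (fun r' => r < r'), Hd (i r) (i r')

/-- `(-1)^0` indicator of `γ ∈ b`, i.e. `b γ.1 = γ.2` -/
def hit (g : K × Q) (b : K → Q) : ℝ := if b g.1 = g.2 then 1 else 0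

/-- `κ^{-k/2}` -/
noncomputable def qk (K Q : Type) [Fintype K] [Fintype Q] : ℝ :=
  (Real.sqrt ((Fintype.card Q : ℝ) ^ Fintype.card K))⁻¹

/-- `R_G` : the good part -/
noncomputable def RG (Hd : K × Q → K × Q → ℝ) (g0 : K × Q) : Matrix (Row K Q s) (Col K Q s) ℝ :=
  fun i c => if Function.update i c.1 g0 = c.2.1 then
    eps Hd c.1 i * qk K Q * hit (i c.1) c.2.2 else 0

/-- `R_D` : the bad part -/
noncomputable def RD (Hd : K × Q → K × Q → ℝ) (g0 : K × Q) : Matrix (Row K Q s) (Col K Q s) ℝ :=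
  fun i c => if Function.update i c.1 g0 = c.2.1 then
    eps Hd c.1 i * qk K Q * (1 - hit (i c.1) c.2.2) else 0

/-- `T = (κ-1) R_G - R_D` -/
noncomputable def T0 (Hd : K × Q → K × Q → ℝ) (g0 : K × Q) : Matrix (Row K Q s) (Col K Q s) ℝ :=
  ((Fintype.card Q : ℝ) - 1) • RG Hd g0 - RD Hd g0

/-- `U = (κ-1) R_G` -/
noncomputable def U0 (Hd : K × Q → K × Q → ℝ) (g0 : K × Q) : Matrix (Row K Q s) (Col K Q s) ℝ :=
  ((Fintype.card Q : ℝ) - 1) • RG Hd g0

/-- the column set `B_j` -/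
def Bset (g0 : K × Q) (j : Row K Q s) : Finset (Col K Q s) :=
  univ.filter fun c => Function.update j c.1 g0 = c.2.1 ∧ c.2.2 (j c.1).1 = (j c.1).2

/-- restriction of a matrix to a set of rows and a set of columns -/
def restr (V : Matrix (Row K Q s) (Col K Q s) ℝ) (P : Row K Q s → Prop) [DecidablePred P]
    (B : Finset (Col K Q s)) : Matrix (Row K Q s) (Col K Q s) ℝ :=
  fun i c => if P i ∧ c ∈ B then V i c else 0

end KPC.Lev
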