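import Pool.Agent.KPC.Basic

/-! # KPC-E5: second moment of the coefficients, labels with two nonzero coordinates -/

open Finset BigOperators

namespace KPC

section Calc

variable {J X Y Ω : Type} [Fintype J] [DecidableEq J] [Fintype X] [Fintype Y] [DecidableEq Y]
  [Fintype Ω] [DecidableEq Ω] {e : ℕ} {δ : ℝ} (w : WeylSys J X Y e δ) (S : J → Finset Ω)

namespace SumMulti_

theorem one_label (G : Ω × Y → ℝ) (c : CC J e) (hc : ∃ j l, j ≠ l ∧ c j ≠ 0 ∧ c l ≠ 0) :
    ∑ x, (Th w S x c G G) ^ 2 ≤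
      Fintype.card X * Fintype.card Ω * max δ 0 * nsq G ^ 2 := by
  have h1 : ∀ x, (Th w S x c G G) ^ 2 ≤ (Fintype.card Ω : ℝ) *
      ∑ ω, (ip (fun y => G (ω, y)) ((w.W x c).mulVec fun y => G (ω, y))) ^ 2 := by
    intro x
    unfold Th
    have h := sq_sum_le_card_mul_sum_sq (s := (univ : Finset Ω))
      (f := fun ω => if c ∈ lab e S ω then
        ip (fun y => G (ω, y)) ((w.W x c).mulVec fun y => G (ω, y)) else 0)
    refine h.trans ?_
    rw [Finset.card_univ]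
    apply mul_le_mul_of_nonneg_left _ (Nat.cast_nonneg _)
    apply Finset.sum_le_sum
    intro ω _
    by_cases h2 : c ∈ lab e S ω
    · simp [h2]
    · simp only [h2, if_false]
      rw [zero_pow two_ne_zero]
      exact sq_nonneg _
  have h2 : ∀ ω, ∑ x, (ip (fun y => G (ω, y)) ((w.W x c).mulVec fun y => G (ω, y))) ^ 2 ≤
      max δ 0 * Fintype.card X * (nsq fun y => G (ω, y)) ^ 2 := by
    intro ω
    refine (w.multi c hc fun y => G (ω, y)).trans ?_
    apply mul_le_mul_of_nonneg_right _ (sq_nonneg _)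
    exact mul_le_mul_of_nonneg_right (le_max_left _ _) (Nat.cast_nonneg _)
  have h3 : ∑ ω, (nsq fun y => G (ω, y)) ^ 2 ≤ nsq G ^ 2 := by
    rw [nsq_prod' G]
    rw [sq (∑ ω, nsq fun y => G (ω, y)), Finset.sum_mul]
    apply Finset.sum_le_sum
    intro ω _
    rw [sq]
    apply mul_le_mul_of_nonneg_left _ (nsq_nonneg _)
    exact Finset.single_le_sum (f := fun ω => nsq fun y => G (ω, y))
      (fun ω _ => nsq_nonneg _) (Finset.mem_univ ω)
  calc ∑ x, (Th w S x c G G) ^ 2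
      ≤ ∑ x, (Fintype.card Ω : ℝ) *
        ∑ ω, (ip (fun y => G (ω, y)) ((w.W x c).mulVec fun y => G (ω, y))) ^ 2 :=
        Finset.sum_le_sum fun x _ => h1 x
    _ = (Fintype.card Ω : ℝ) *
        ∑ ω, ∑ x, (ip (fun y => G (ω, y)) ((w.W x c).mulVec fun y => G (ω, y))) ^ 2 := by
        rw [← Finset.mul_sum, Finset.sum_comm]
    _ ≤ (Fintype.card Ω : ℝ) *
        ∑ ω, max δ 0 * Fintype.card X * (nsq fun y => G (ω, y)) ^ 2 :=
        mul_le_mul_of_nonneg_left (Finset.sum_le_sum fun ω _ => h2 ω) (Nat.cast_nonneg _)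
    _ = (Fintype.card Ω : ℝ) * (max δ 0 * Fintype.card X) * ∑ ω, (nsq fun y => G (ω, y)) ^ 2 := by
        rw [← Finset.mul_sum, ← mul_assoc]
    _ ≤ (Fintype.card Ω : ℝ) * (max δ 0 * Fintype.card X) * nsq G ^ 2 :=
        mul_le_mul_of_nonneg_left h3 (mul_nonneg (Nat.cast_nonneg _)
          (mul_nonneg (le_max_right _ _) (Nat.cast_nonneg _)))
    _ = Fintype.card X * Fintype.card Ω * max δ 0 * nsq G ^ 2 := by ring

end SumMulti_

theorem sum_multi (G : Ω × Y → ℝ) :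
    ∑ x, ∑ c ∈ univ.filter (fun c : CC J e => ∃ j l, j ≠ l ∧ c j ≠ 0 ∧ c l ≠ 0),
      (Th w S x c G G) ^ 2 ≤
      Fintype.card X * Fintype.card (CC J e) * Fintype.card Ω * max δ 0 * nsq G ^ 2 := by
  rw [Finset.sum_comm]
  have h0 : 0 ≤ (Fintype.card X : ℝ) * Fintype.card Ω * max δ 0 * nsq G ^ 2 := by
    have : 0 ≤ max δ 0 := le_max_right _ _
    positivity
  calc ∑ c ∈ univ.filter (fun c : CC J e => ∃ j l, j ≠ l ∧ c j ≠ 0 ∧ c l ≠ 0),
        ∑ x, (Th w S x c G G) ^ 2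
      ≤ ∑ c ∈ univ.filter (fun c : CC J e => ∃ j l, j ≠ l ∧ c j ≠ 0 ∧ c l ≠ 0),
        ((Fintype.card X : ℝ) * Fintype.card Ω * max δ 0 * nsq G ^ 2) := by
        apply Finset.sum_le_sum
        intro c hc
        exact SumMulti_.one_label w S G c (Finset.mem_filter.mp hc).2
    _ = ((univ.filter (fun c : CC J e => ∃ j l, j ≠ l ∧ c j ≠ 0 ∧ c l ≠ 0)).card : ℝ) *
        ((Fintype.card X : ℝ) * Fintype.card Ω * max δ 0 * nsq G ^ 2) := by
        rw [Finset.sum_const, nsmul_eq_mul]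
    _ ≤ (Fintype.card (CC J e) : ℝ) *
        ((Fintype.card X : ℝ) * Fintype.card Ω * max δ 0 * nsq G ^ 2) := by
        apply mul_le_mul_of_nonneg_right _ h0
        exact_mod_cast Finset.card_le_univ _
    _ = _ := by ring

end Calc

end KPC
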