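import Pool.Agent.KPC.Basic

/-!
# Second moment of the randomized measurement: labels supported at one index
-/

open Finset BigOperators

namespace KPC

namespace SumSingle_

section

variable {J X Y Ω : Type} [Fintype J] [DecidableEq J] [Fintype X] [Fintype Y] [DecidableEq Y]
  [Fintype Ω] [DecidableEq Ω] {e : ℕ} {δ : ℝ} (w : WeylSys J X Y e δ) (S : J → Finset Ω)

theorem complete (j : J) (y y' : Y) :
    ∑ τ, w.φ j τ y * w.φ j τ y' = if y = y' then 1 else 0 := by
  have h1 : (Matrix.of (w.φ j)) * (Matrix.of (w.φ j)).transpose = 1 := by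
    ext τ τ'
    rw [Matrix.mul_apply, Matrix.one_apply]
    exact w.φ_on j τ τ'
  have h2 := mul_eq_one_comm.mp h1
  have h3 := congrFun (congrFun h2 y) y'
  rw [Matrix.mul_apply, Matrix.one_apply] at h3
  exact h3

theorem expand (j : J) (f : Y → ℝ) : f = ∑ τ, ip (w.φ j τ) f • w.φ j τ := by
  funext y
  rw [Finset.sum_apply]
  simp only [Pi.smul_apply, smul_eq_mul]
  unfold ip
  simp only [Finset.sum_mul]
  rw [Finset.sum_comm]
  have h : ∀ y', ∑ τ, w.φ j τ y' * f y' * w.φ j τ y = if y' = y then f y' else 0 := by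
    intro y'
    have h1 : ∑ τ, w.φ j τ y' * f y' * w.φ j τ y = f y' * ∑ τ, w.φ j τ y' * w.φ j τ y := by
      rw [Finset.mul_sum]
      exact Finset.sum_congr rfl fun τ _ => by ring
    rw [h1, complete w j y' y]
    split_ifs <;> simp
  simp only [h]
  simp

theorem parseval1 (j : J) (f : Y → ℝ) : ∑ τ, ip (w.φ j τ) f ^ 2 = nsq f := by
  rw [nsq_eq_ip]
  have h : ip f f = ip f (∑ τ, ip (w.φ j τ) f • w.φ j τ) := by
    rw [← expand w j f]
  rw [h, ip_sum_right]
  refine Finset.sum_congr rfl fun τ _ => ?_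
  rw [ip_smul_right, ip_comm f]
  ring

theorem ip_W (x : X) (j : J) (a : Fin e → ZMod 2) (f : Y → ℝ) :
    ip f ((w.W x (Pi.single j a)).mulVec f) =
      ∑ τ, ip (w.φ j τ) f ^ 2 * chi1 a (w.h x j τ) := by
  have h : (w.W x (Pi.single j a)).mulVec f =
      ∑ τ, (ip (w.φ j τ) f * chi1 a (w.h x j τ)) • w.φ j τ := by
    conv_lhs => rw [expand w j f]
    rw [Matrix.mulVec_sum]
    refine Finset.sum_congr rfl fun τ _ => ?_
    rw [Matrix.mulVec_smul, w.W_φ, smul_smul]
  rw [h, ip_sum_right]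
  refine Finset.sum_congr rfl fun τ _ => ?_
  rw [ip_smul_right, ip_comm f]
  ring

omit [Fintype Ω] in
theorem mem_lab (j : J) (a : Fin e → ZMod 2) (ha : a ≠ 0) (ω : Ω) :
    (Pi.single j a : CC J e) ∈ lab e S ω ↔ ω ∈ S j := by
  unfold lab
  rw [Finset.mem_filter]
  constructor
  · rintro ⟨-, h⟩
    by_contra hω
    have := h j hω
    rw [Pi.single_eq_same] at this
    exact ha this
  · intro hω
    refine ⟨Finset.mem_univ _, fun j' hj' => ?_⟩
    have hne : j' ≠ j := by
      rintro rfl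
      exact hj' hω
    simp [Pi.single_eq_of_ne hne]

theorem nsq_Pc (j : J) (τ : Y) (G : Ω × Y → ℝ) :
    nsq (Pc w S (j, τ) G) = ∑ ω, if ω ∈ S j then ip (w.φ j τ) (fun y => G (ω, y)) ^ 2 else 0 := by
  unfold nsq Pc coef
  refine Finset.sum_congr rfl fun ω _ => ?_
  by_cases h : ω ∈ S j <;> simp [h]

theorem Th_single (x : X) (j : J) (a : Fin e → ZMod 2) (ha : a ≠ 0) (G : Ω × Y → ℝ) :
    Th w S x (Pi.single j a) G G = ∑ τ, nsq (Pc w S (j, τ) G) * chi1 a (w.h x j τ) := by
  unfold Th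
  have h : ∀ ω, (if (Pi.single j a : CC J e) ∈ lab e S ω then
      ip (fun y => G (ω, y)) ((w.W x (Pi.single j a)).mulVec fun y => G (ω, y)) else 0) =
      ∑ τ, (if ω ∈ S j then ip (w.φ j τ) (fun y => G (ω, y)) ^ 2 else 0) *
        chi1 a (w.h x j τ) := by
    intro ω
    by_cases hω : ω ∈ S j
    · rw [if_pos ((mem_lab S j a ha ω).2 hω), ip_W]
      exact Finset.sum_congr rfl fun τ _ => by rw [if_pos hω]
    · rw [if_neg (fun h => hω ((mem_lab S j a ha ω).1 h))]
      symm
      refine Finset.sum_eq_zero fun τ _ => ?_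
      rw [if_neg hω, zero_mul]
  simp only [h]
  rw [Finset.sum_comm]
  refine Finset.sum_congr rfl fun τ _ => ?_
  rw [nsq_Pc, Finset.sum_mul]

theorem sum_g_le (j : J) (G : Ω × Y → ℝ) : ∑ τ, nsq (Pc w S (j, τ) G) ≤ nsq G := by
  simp only [nsq_Pc]
  rw [Finset.sum_comm, nsq_prod']
  refine Finset.sum_le_sum fun ω _ => ?_
  by_cases h : ω ∈ S j
  · simp only [if_pos h]
    exact (parseval1 w j _).le
  · simp only [if_neg h, Finset.sum_const_zero]
    exact nsq_nonneg _

end

/-- orthogonality of the characters of `F_2^e` -/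
theorem chi1_orth {e : ℕ} (b b' : Fin e → ZMod 2) :
    ∑ a : Fin e → ZMod 2, chi1 a b * chi1 a b' = if b = b' then 2 ^ e else 0 := by
  have h1 : ∀ a : Fin e → ZMod 2, chi1 a b * chi1 a b' = chi1 a (b + b') := by
    intro a
    unfold chi1
    rw [← sg_add, ← Finset.sum_add_distrib]
    congr 1
    refine Finset.sum_congr rfl fun α _ => ?_
    rw [Pi.add_apply, mul_add]
  simp only [h1]
  by_cases h : b = b'
  · subst h
    rw [if_pos rfl]
    have h2 : b + b = 0 := by
      funext α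
      have : ∀ z : ZMod 2, z + z = 0 := by decide
      exact this _
    rw [h2]
    have h3 : ∀ a : Fin e → ZMod 2, chi1 a 0 = 1 := by
      intro a
      unfold chi1
      simp
    simp [h3, ZMod.card]
  · rw [if_neg h]
    obtain ⟨α, hα⟩ : ∃ α, b α ≠ b' α := by
      by_contra hcon
      push Not at hcon
      exact h (funext hcon)
    have hα' : (b + b') α = 1 := by
      rw [Pi.add_apply]
      have : ∀ u v : ZMod 2, u ≠ v → u + v = 1 := by decide
      exact this _ _ hα
    have h4 : ∑ a : Fin e → ZMod 2, chi1 a (b + b') =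
        ∑ a : Fin e → ZMod 2, chi1 (a + Pi.single α 1) (b + b') :=
      (Equiv.sum_comp (Equiv.addRight (Pi.single α (1 : ZMod 2) : Fin e → ZMod 2))
        (fun a => chi1 a (b + b'))).symm
    have h5 : ∀ a : Fin e → ZMod 2,
        chi1 (a + Pi.single α 1) (b + b') = - chi1 a (b + b') := by
      intro a
      unfold chi1
      have : ∑ β, (a + Pi.single α (1 : ZMod 2) : Fin e → ZMod 2) β * (b + b') β =
          (∑ β, a β * (b + b') β) + 1 := by
        have h6 : ∀ β, (a + Pi.single α (1 : ZMod 2) : Fin e → ZMod 2) β * (b + b') β =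
            a β * (b + b') β + (if β = α then (b + b') β else 0) := by
          intro β
          rw [Pi.add_apply, add_mul, Pi.single_apply]
          congr 1
          split_ifs <;> simp
        simp only [h6]
        rw [Finset.sum_add_distrib]
        congr 1
        rw [Finset.sum_ite_eq' Finset.univ α]
        simp only [Finset.mem_univ, if_true]
        exact hα'
      rw [this, sg_add]
      have : sg 1 = -1 := by
        unfold sg
        rw [if_neg (by decide)]
      rw [this]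
      ring
    simp only [h5] at h4
    rw [Finset.sum_neg_distrib] at h4
    linarith

/-- the sum over all labels of the squares -/
theorem sum_sq {e : ℕ} {Y : Type} [Fintype Y] (g : Y → ℝ) (h : Y → Fin e → ZMod 2) :
    ∑ a : Fin e → ZMod 2, (∑ τ, g τ * chi1 a (h τ)) ^ 2 =
      2 ^ e * ∑ τ, ∑ τ', g τ * g τ' * (if h τ = h τ' then 1 else 0) := by
  have h1 : ∀ a : Fin e → ZMod 2, (∑ τ, g τ * chi1 a (h τ)) ^ 2 =
      ∑ τ, ∑ τ', g τ * g τ' * (chi1 a (h τ) * chi1 a (h τ')) := by
    intro a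
    rw [sq, Finset.sum_mul_sum]
    exact Finset.sum_congr rfl fun τ _ => Finset.sum_congr rfl fun τ' _ => by ring
  simp only [h1]
  rw [Finset.sum_comm, Finset.mul_sum]
  refine Finset.sum_congr rfl fun τ _ => ?_
  rw [Finset.sum_comm, Finset.mul_sum]
  refine Finset.sum_congr rfl fun τ' _ => ?_
  rw [← Finset.mul_sum, chi1_orth]
  split_ifs <;> ring

/-- the sum over the nonzero labels -/
theorem sum_sq_ne {e : ℕ} {Y : Type} [Fintype Y] (g : Y → ℝ) (h : Y → Fin e → ZMod 2) :
    ∑ a ∈ univ.filter (fun a : Fin e → ZMod 2 => a ≠ 0), (∑ τ, g τ * chi1 a (h τ)) ^ 2 =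
      2 ^ e * (∑ τ, ∑ τ', g τ * g τ' * (if h τ = h τ' then 1 else 0)) - (∑ τ, g τ) ^ 2 := by
  rw [← sum_sq g h]
  have h0 : univ.filter (fun a : Fin e → ZMod 2 => a ≠ 0) = univ.erase 0 := by
    ext a
    simp
  rw [h0, ← Finset.sum_erase_add _ _ (Finset.mem_univ (0 : Fin e → ZMod 2))]
  have h3 : ∀ τ, chi1 (0 : Fin e → ZMod 2) (h τ) = 1 := by
    intro τ
    unfold chi1
    simp
  simp only [h3, mul_one]
  ring

end SumSingle_

section Calc

variable {J X Y Ω : Type} [Fintype J] [DecidableEq J] [Fintype X] [Fintype Y] [DecidableEq Y]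
  [Fintype Ω] [DecidableEq Ω] {e : ℕ} {δ : ℝ} (w : WeylSys J X Y e δ) (S : J → Finset Ω)

theorem sum_single (j : J) (G : Ω × Y → ℝ) :
    ∑ x, ∑ a ∈ univ.filter (fun a : Fin e → ZMod 2 => a ≠ 0), (Th w S x (Pi.single j a) G G) ^ 2 ≤
      Fintype.card X * (2 ^ e * ∑ τ, nsq (Pc w S (j, τ) G) ^ 2 + 2 ^ e * max δ 0 * nsq G ^ 2) := by
  set g : Y → ℝ := fun τ => nsq (Pc w S (j, τ) G) with hg
  have hg0 : ∀ τ, 0 ≤ g τ := fun τ => nsq_nonneg _
  have h1 : ∀ x, ∑ a ∈ univ.filter (fun a : Fin e → ZMod 2 => a ≠ 0),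
      (Th w S x (Pi.single j a) G G) ^ 2 =
      2 ^ e * (∑ τ, ∑ τ', g τ * g τ' * (if w.h x j τ = w.h x j τ' then 1 else 0)) -
        (∑ τ, g τ) ^ 2 := by
    intro x
    rw [← SumSingle_.sum_sq_ne g (w.h x j)]
    refine Finset.sum_congr rfl fun a ha => ?_
    rw [SumSingle_.Th_single w S x j a (Finset.mem_filter.1 ha).2 G]
  simp only [h1]
  rw [Finset.sum_sub_distrib, ← Finset.mul_sum, Finset.sum_const, Finset.card_univ, nsmul_eq_mul]
  set m : ℝ := max δ 0 with hm
  have hm0 : 0 ≤ m := le_max_right _ _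
  have hmδ : δ ≤ m := le_max_left _ _
  have hX : (0 : ℝ) ≤ Fintype.card X := Nat.cast_nonneg _
  have hcount : ∀ τ τ', ∑ x, (if w.h x j τ = w.h x j τ' then (1 : ℝ) else 0) ≤
      Fintype.card X * ((if τ = τ' then 1 else 0) + (1 / 2 ^ e + m)) := by
    intro τ τ'
    rw [Finset.sum_boole]
    by_cases h : τ = τ'
    · rw [if_pos h]
      have h2 : ((univ.filter fun x => w.h x j τ = w.h x j τ').card : ℝ) ≤ Fintype.card X := by
        exact_mod_cast (Finset.card_filter_le _ _).trans (le_of_eq Finset.card_univ)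
      have h3 : (0 : ℝ) ≤ 1 / 2 ^ e := by positivity
      nlinarith
    · rw [if_neg h, zero_add]
      refine (w.coll j τ τ' h).trans ?_
      rw [mul_comm]
      exact mul_le_mul_of_nonneg_left (by linarith) hX
  have h2 : ∑ x, ∑ τ, ∑ τ', g τ * g τ' * (if w.h x j τ = w.h x j τ' then (1 : ℝ) else 0) ≤
      Fintype.card X * (∑ τ, g τ ^ 2) +
        Fintype.card X * (1 / 2 ^ e + m) * (∑ τ, g τ) ^ 2 := by
    calc ∑ x, ∑ τ, ∑ τ', g τ * g τ' * (if w.h x j τ = w.h x j τ' then (1 : ℝ) else 0)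
        = ∑ τ, ∑ τ', g τ * g τ' * ∑ x, (if w.h x j τ = w.h x j τ' then (1 : ℝ) else 0) := by
          rw [Finset.sum_comm]
          refine Finset.sum_congr rfl fun τ _ => ?_
          rw [Finset.sum_comm]
          refine Finset.sum_congr rfl fun τ' _ => ?_
          rw [Finset.mul_sum]
      _ ≤ ∑ τ, ∑ τ', g τ * g τ' *
            (Fintype.card X * ((if τ = τ' then 1 else 0) + (1 / 2 ^ e + m))) :=
          Finset.sum_le_sum fun τ _ => Finset.sum_le_sum fun τ' _ =>
            mul_le_mul_of_nonneg_left (hcount τ τ') (mul_nonneg (hg0 τ) (hg0 τ'))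
      _ = Fintype.card X * (∑ τ, g τ ^ 2) +
            Fintype.card X * (1 / 2 ^ e + m) * (∑ τ, g τ) ^ 2 := by
          have h3 : ∀ τ τ', g τ * g τ' *
              (Fintype.card X * ((if τ = τ' then (1 : ℝ) else 0) + (1 / 2 ^ e + m))) =
              (if τ = τ' then Fintype.card X * (g τ * g τ') else 0) +
                Fintype.card X * (1 / 2 ^ e + m) * (g τ * g τ') := by
            intro τ τ'
            split_ifs <;> ring
          simp only [h3, Finset.sum_add_distrib]
          congr 1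
          · simp only [Finset.sum_ite_eq, Finset.mem_univ, if_true]
            rw [Finset.mul_sum]
            exact Finset.sum_congr rfl fun τ _ => by ring
          · rw [sq, Finset.sum_mul_sum, Finset.mul_sum]
            exact Finset.sum_congr rfl fun τ _ => by rw [Finset.mul_sum]
  have h3 : (∑ τ, g τ) ^ 2 ≤ nsq G ^ 2 :=
    pow_le_pow_left₀ (Finset.sum_nonneg fun τ _ => hg0 τ) (SumSingle_.sum_g_le w S j G) 2
  have he : (0 : ℝ) < 2 ^ e := by positivity
  have h4 := mul_le_mul_of_nonneg_left h2 he.le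
  have h5 : (2 : ℝ) ^ e * (Fintype.card X * (∑ τ, g τ ^ 2) +
      Fintype.card X * (1 / 2 ^ e + m) * (∑ τ, g τ) ^ 2) - Fintype.card X * (∑ τ, g τ) ^ 2 =
      Fintype.card X * (2 ^ e * (∑ τ, g τ ^ 2) + 2 ^ e * m * (∑ τ, g τ) ^ 2) := by
    field_simp
    ring
  have h6 : Fintype.card X * (2 ^ e * (∑ τ, g τ ^ 2) + 2 ^ e * m * (∑ τ, g τ) ^ 2) ≤
      Fintype.card X * (2 ^ e * (∑ τ, g τ ^ 2) + 2 ^ e * m * nsq G ^ 2) := by
    apply mul_le_mul_of_nonneg_left _ hX
    have := mul_le_mul_of_nonneg_left h3 (mul_nonneg he.le hm0)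
    linarith
  linarith

end Calc

end KPC
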