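import Pool.Agent.KPC.SumQf
import Pool.Agent.KPC.SumSingle
import Pool.Agent.KPC.SumMulti

/-! Job KPC-E8: the second moment of `⟨Π G, Π G⟩`. -/

open Finset BigOperators

namespace KPC

section Calc

variable {J X Y Ω : Type} [Fintype J] [DecidableEq J] [Fintype X] [Fintype Y] [DecidableEq Y]
  [Fintype Ω] [DecidableEq Ω] {e : ℕ} {δ : ℝ} (w : WeylSys J X Y e δ) (S : J → Finset Ω)

namespace Moment_

omit [Fintype X] [Fintype Ω] [DecidableEq Ω] in
theorem split_labels (t : CC J e → ℝ) (ht : ∀ c, 0 ≤ t c) :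
    ∑ c, t c ≤ t 0 + ∑ j : J, ∑ a ∈ univ.filter (fun a : Fin e → ZMod 2 => a ≠ 0),
      t (Pi.single j a) +
      ∑ c ∈ univ.filter (fun c : CC J e => ∃ j l, j ≠ l ∧ c j ≠ 0 ∧ c l ≠ 0), t c := by
  classical
  have hpt : ∀ c : CC J e, t c ≤ (if c = 0 then t c else 0) +
      (∑ j : J, ∑ a ∈ univ.filter (fun a : Fin e → ZMod 2 => a ≠ 0),
        (if c = Pi.single j a then t c else 0)) +
      (if ∃ j l, j ≠ l ∧ c j ≠ 0 ∧ c l ≠ 0 then t c else 0) := by
    intro c
    have h2 : 0 ≤ ∑ j : J, ∑ a ∈ univ.filter (fun a : Fin e → ZMod 2 => a ≠ 0),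
        (if c = Pi.single j a then t c else 0) :=
      Finset.sum_nonneg fun j _ => Finset.sum_nonneg fun a _ => by
        split_ifs
        · exact ht c
        · exact le_refl 0
    have h1 : 0 ≤ (if c = 0 then t c else 0) := by
      split_ifs
      · exact ht c
      · exact le_refl 0
    have h3 : 0 ≤ (if ∃ j l, j ≠ l ∧ c j ≠ 0 ∧ c l ≠ 0 then t c else 0) := by
      split_ifs
      · exact ht c
      · exact le_refl 0
    by_cases hm : ∃ j l, j ≠ l ∧ c j ≠ 0 ∧ c l ≠ 0
    · rw [if_pos hm]; linarith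
    · by_cases h0 : c = 0
      · rw [if_pos h0]; linarith
      · obtain ⟨j, hj⟩ := Function.ne_iff.mp h0
        have hj' : c j ≠ 0 := hj
        have hc : c = Pi.single j (c j) := by
          funext l
          by_cases hl : l = j
          · rw [hl, Pi.single_eq_same]
          · rw [Pi.single_eq_of_ne hl]
            by_contra hcl
            exact hm ⟨j, l, fun h => hl h.symm, hj', hcl⟩
        have h4 : t c ≤ ∑ j : J, ∑ a ∈ univ.filter (fun a : Fin e → ZMod 2 => a ≠ 0),
            (if c = Pi.single j a then t c else 0) := by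
          have h5 : (∑ a ∈ univ.filter (fun a : Fin e → ZMod 2 => a ≠ 0),
              (if c = Pi.single j a then t c else 0)) ≤
              ∑ j : J, ∑ a ∈ univ.filter (fun a : Fin e → ZMod 2 => a ≠ 0),
              (if c = Pi.single j a then t c else 0) :=
            Finset.single_le_sum (f := fun j => ∑ a ∈ univ.filter (fun a : Fin e → ZMod 2 => a ≠ 0),
              (if c = Pi.single j a then t c else 0))
              (fun j _ => Finset.sum_nonneg fun a _ => by
                split_ifs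
                · exact ht c
                · exact le_refl 0) (Finset.mem_univ j)
          have h6 : (if c = Pi.single j (c j) then t c else 0) ≤
              ∑ a ∈ univ.filter (fun a : Fin e → ZMod 2 => a ≠ 0),
              (if c = Pi.single j a then t c else 0) :=
            Finset.single_le_sum (f := fun a => (if c = Pi.single j a then t c else 0))
              (fun a _ => by
                split_ifs
                · exact ht c
                · exact le_refl 0) (Finset.mem_filter.mpr ⟨Finset.mem_univ _, hj'⟩)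
          rw [if_pos hc] at h6
          exact h6.trans h5
        linarith
  calc ∑ c, t c ≤ ∑ c : CC J e, ((if c = 0 then t c else 0) +
      (∑ j : J, ∑ a ∈ univ.filter (fun a : Fin e → ZMod 2 => a ≠ 0),
        (if c = Pi.single j a then t c else 0)) +
      (if ∃ j l, j ≠ l ∧ c j ≠ 0 ∧ c l ≠ 0 then t c else 0)) :=
        Finset.sum_le_sum fun c _ => hpt c
    _ = _ := by
        rw [Finset.sum_add_distrib, Finset.sum_add_distrib]
        congr 1
        · congr 1
          · simp
          · rw [Finset.sum_comm]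
            refine Finset.sum_congr rfl fun j _ => ?_
            rw [Finset.sum_comm]
            refine Finset.sum_congr rfl fun a _ => ?_
            simp
        · rw [Finset.sum_filter]

theorem Th_zero (x : X) (G : Ω × Y → ℝ) : Th w S x 0 G G = nsq G := by
  unfold Th
  rw [nsq_prod']
  refine Finset.sum_congr rfl fun ω _ => ?_
  have h : (0 : CC J e) ∈ lab e S ω := by
    unfold lab
    rw [Finset.mem_filter]
    exact ⟨Finset.mem_univ _, fun j _ => rfl⟩
  rw [if_pos h, w.W_zero, Matrix.one_mulVec, nsq_eq_ip]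

end Moment_

theorem second_moment (G : Ω × Y → ℝ) :
    ∑ x, ∑ σ, (qf w S x σ G G) ^ 2 ≤
      Fintype.card X * Fintype.card (CC J e) *
        ((1 + (Fintype.card J * 2 ^ e + Fintype.card Ω * Fintype.card (CC J e)) * max δ 0) *
          nsq G ^ 2 + 2 ^ e * ∑ i : J × Y, nsq (Pc w S i G) ^ 2) := by
  have h1 : ∀ x, ∑ σ, (qf w S x σ G G) ^ 2 ≤ (Fintype.card (CC J e) : ℝ) *
      (nsq G ^ 2 + ∑ j : J, ∑ a ∈ univ.filter (fun a : Fin e → ZMod 2 => a ≠ 0),
        (Th w S x (Pi.single j a) G G) ^ 2 +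
      ∑ c ∈ univ.filter (fun c : CC J e => ∃ j l, j ≠ l ∧ c j ≠ 0 ∧ c l ≠ 0),
        (Th w S x c G G) ^ 2) := by
    intro x
    rw [sum_qf_sq]
    refine mul_le_mul_of_nonneg_left ?_ (Nat.cast_nonneg _)
    have h := Moment_.split_labels (fun c => (Th w S x c G G) ^ 2) (fun c => sq_nonneg _)
    simp only [Moment_.Th_zero] at h
    exact h
  have h2 : ∑ x : X, ∑ j : J, ∑ a ∈ univ.filter (fun a : Fin e → ZMod 2 => a ≠ 0),
        (Th w S x (Pi.single j a) G G) ^ 2 ≤
      ∑ j : J, (Fintype.card X * (2 ^ e * ∑ τ, nsq (Pc w S (j, τ) G) ^ 2 +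
        2 ^ e * max δ 0 * nsq G ^ 2) : ℝ) := by
    rw [Finset.sum_comm]
    exact Finset.sum_le_sum fun j _ => sum_single w S j G
  have h3 := sum_multi w S G
  calc ∑ x, ∑ σ, (qf w S x σ G G) ^ 2
      ≤ ∑ x : X, (Fintype.card (CC J e) : ℝ) *
      (nsq G ^ 2 + ∑ j : J, ∑ a ∈ univ.filter (fun a : Fin e → ZMod 2 => a ≠ 0),
        (Th w S x (Pi.single j a) G G) ^ 2 +
      ∑ c ∈ univ.filter (fun c : CC J e => ∃ j l, j ≠ l ∧ c j ≠ 0 ∧ c l ≠ 0),
        (Th w S x c G G) ^ 2) := Finset.sum_le_sum fun x _ => h1 x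
    _ = (Fintype.card (CC J e) : ℝ) * (Fintype.card X * nsq G ^ 2 +
        ∑ x : X, ∑ j : J, ∑ a ∈ univ.filter (fun a : Fin e → ZMod 2 => a ≠ 0),
        (Th w S x (Pi.single j a) G G) ^ 2 +
        ∑ x : X, ∑ c ∈ univ.filter (fun c : CC J e => ∃ j l, j ≠ l ∧ c j ≠ 0 ∧ c l ≠ 0),
        (Th w S x c G G) ^ 2) := by
        rw [← Finset.mul_sum, Finset.sum_add_distrib, Finset.sum_add_distrib, Finset.sum_const,
          nsmul_eq_mul, Finset.card_univ]
    _ ≤ (Fintype.card (CC J e) : ℝ) * (Fintype.card X * nsq G ^ 2 +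
        ∑ j : J, (Fintype.card X * (2 ^ e * ∑ τ, nsq (Pc w S (j, τ) G) ^ 2 +
          2 ^ e * max δ 0 * nsq G ^ 2) : ℝ) +
        Fintype.card X * Fintype.card (CC J e) * Fintype.card Ω * max δ 0 * nsq G ^ 2) := by
        refine mul_le_mul_of_nonneg_left ?_ (Nat.cast_nonneg _)
        linarith
    _ = _ := by
        rw [← Finset.mul_sum, Finset.sum_add_distrib, Finset.sum_const, nsmul_eq_mul,
          Finset.card_univ, ← Finset.mul_sum, Fintype.sum_prod_type]
        ring

end Calc

end KPC
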