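import Pool.Agent.KPC.Basic

/-!
# The map `psi` almost intertwines (KPC-H1)
-/

open Finset BigOperators

namespace KPC

variable {Ω : Type} [Fintype Ω] [DecidableEq Ω] {e : ℕ}

private theorem PsiT_M_nonneg (e : ℕ) : 0 ≤ Mlog e := by
  unfold Mlog; positivity

private theorem PsiT_M_bound (he : 1 ≤ e) (r : ℝ) (hr0 : 0 ≤ r) : Mlog e * (r / e) ≤ 35 / 100 * r := by
  have he' : (0 : ℝ) < e := by exact_mod_cast he
  unfold Mlog
  have h1 : (e : ℝ) / 2 * Real.log 2 * (r / e) = Real.log 2 / 2 * r := by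
    field_simp
  rw [h1]
  have h2 := Real.log_two_lt_d9
  nlinarith

private theorem PsiT_m_le (x : ℝ) (h0 : 0 ≤ x) (h1 : x ≤ 1) :
    max 0 (Mlog e + Real.log x) ≤ Mlog e := by
  have := Real.log_nonpos h0 h1
  exact max_le (PsiT_M_nonneg e) (by linarith)

private theorem PsiT_m_lip (x y : ℝ) :
    |max 0 (Mlog e + Real.log x) - max 0 (Mlog e + Real.log y)| ≤ |Real.log x - Real.log y| := by
  have h := abs_max_sub_max_le_abs (Mlog e + Real.log x) (Mlog e + Real.log y) 0
  rw [max_comm 0, max_comm 0]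
  refine h.trans (le_of_eq ?_)
  congr 1; ring

private theorem PsiT_log {x y : ℝ} (hx : 0 < x) (hxy : x ≤ y) :
    x * |Real.log x - Real.log y| ≤ y - x := by
  have hy : 0 < y := hx.trans_le hxy
  have h1 : Real.log x ≤ Real.log y := Real.log_le_log hx hxy
  rw [abs_sub_comm, abs_of_nonneg (by linarith), ← Real.log_div hy.ne' hx.ne']
  have h2 := Real.log_le_sub_one_of_pos (div_pos hy hx)
  have h3 : x * (y / x - 1) = y - x := by field_simp
  calc x * Real.log (y / x) ≤ x * (y / x - 1) := mul_le_mul_of_nonneg_left h2 hx.le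
    _ = y - x := h3

private theorem PsiT_second (he : 1 ≤ e) (β π q r : ℝ) (hβ0 : 0 ≤ β) (hπ0 : 0 ≤ π) (hq0 : 0 ≤ q)
    (hr : r ≤ 1) (hβ : β ≤ r) (hπ : π ≤ r) (hqπ : q ≤ π) (hqβ : q ≤ β + r / e) :
    |max 0 (Mlog e + Real.log β) - max 0 (Mlog e + Real.log π)| * q ≤ 135 / 100 * r := by
  have hr0 : 0 ≤ r := hβ0.trans hβ
  have hM := PsiT_M_nonneg e
  have hMb := PsiT_M_bound he r hr0
  have h1 : max 0 (Mlog e + Real.log β) ≤ Mlog e := PsiT_m_le β hβ0 (hβ.trans hr)
  have h2 : max 0 (Mlog e + Real.log π) ≤ Mlog e := PsiT_m_le π hπ0 (hπ.trans hr)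
  have h1' : 0 ≤ max 0 (Mlog e + Real.log β) := le_max_left _ _
  have h2' : 0 ≤ max 0 (Mlog e + Real.log π) := le_max_left _ _
  have habs : |max 0 (Mlog e + Real.log β) - max 0 (Mlog e + Real.log π)| ≤ Mlog e := by
    rw [abs_le]; constructor <;> linarith
  have hre : 0 ≤ r / e := div_nonneg hr0 (Nat.cast_nonneg e)
  have hlip := PsiT_m_lip (e := e) β π
  rcases eq_or_lt_of_le hβ0 with hb | hb
  · have hq : q ≤ r / e := by rw [← hb] at hqβ; linarith
    calc _ ≤ Mlog e * (r / e) := mul_le_mul habs hq hq0 hM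
      _ ≤ _ := by linarith
  · rcases le_total β π with hle | hle
    · have h3 := PsiT_log hb hle
      calc |max 0 (Mlog e + Real.log β) - max 0 (Mlog e + Real.log π)| * q
          ≤ |max 0 (Mlog e + Real.log β) - max 0 (Mlog e + Real.log π)| * (β + r / e) :=
            mul_le_mul_of_nonneg_left hqβ (abs_nonneg _)
        _ = β * |max 0 (Mlog e + Real.log β) - max 0 (Mlog e + Real.log π)| +
            |max 0 (Mlog e + Real.log β) - max 0 (Mlog e + Real.log π)| * (r / e) := by ring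
        _ ≤ β * |Real.log β - Real.log π| + Mlog e * (r / e) :=
            add_le_add (mul_le_mul_of_nonneg_left hlip hβ0) (mul_le_mul_of_nonneg_right habs hre)
        _ ≤ _ := by linarith
    · rcases eq_or_lt_of_le hπ0 with hp | hp
      · have hq : q = 0 := le_antisymm (hqπ.trans hp.symm.le) hq0
        rw [hq, mul_zero]; positivity
      · have h3 := PsiT_log hp hle
        rw [abs_sub_comm (Real.log π)] at h3
        calc |max 0 (Mlog e + Real.log β) - max 0 (Mlog e + Real.log π)| * q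
            ≤ |Real.log β - Real.log π| * π := mul_le_mul hlip hqπ hq0 (abs_nonneg _)
          _ ≤ _ := by linarith

omit [DecidableEq Ω] in
private theorem PsiT_zero (b : Ω → ℝ) (r : ℝ) (hb : nrm b ≤ r) (h : 2 ^ e * r ^ 2 < 1) :
    psi e b = 0 := by
  rcases eq_or_lt_of_le (nrm_nonneg b) with h0 | h0
  · have : b = 0 := nrm_eq_zero.mp h0.symm
    subst this
    unfold psi; simp
  · have hr0 : 0 < r := h0.trans_le hb
    have h1 : Real.log (nrm b) ≤ Real.log r := Real.log_le_log h0 hb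
    have h2 : Real.log (2 ^ e * r ^ 2) < 0 := Real.log_neg (by positivity) h
    rw [Real.log_mul (by positivity) (by positivity), Real.log_pow, Real.log_pow] at h2
    have h3 : Mlog e + Real.log (nrm b) ≤ 0 := by
      unfold Mlog
      push_cast at h2
      linarith
    unfold psi
    rw [max_eq_left h3, zero_smul]

/-- the vector estimate behind `Phi_transfer` -/
theorem psi_transfer (he : 1 ≤ e) (u' : Matrix Ω Ω ℝ) (hu : OpLe u' 1) (p b : Ω → ℝ) (r : ℝ)
    (hr : r ≤ 1) (hp : nrm p ≤ r) (hb : nrm b ≤ r) (hd : nrm (b - u'.mulVec p) ≤ r / e) :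
    nrm (psi e b - u'.mulVec (psi e p)) ≤ 2 * r ∧
      (2 ^ e * r ^ 2 < 1 → psi e b - u'.mulVec (psi e p) = 0) := by
  have hr0 : 0 ≤ r := (nrm_nonneg b).trans hb
  have hre : 0 ≤ r / e := div_nonneg hr0 (Nat.cast_nonneg e)
  constructor
  · have hdec : psi e b - u'.mulVec (psi e p) =
        max 0 (Mlog e + Real.log (nrm b)) • (b - u'.mulVec p) +
        (max 0 (Mlog e + Real.log (nrm b)) - max 0 (Mlog e + Real.log (nrm p))) •
          u'.mulVec p := by
      unfold psi
      rw [Matrix.mulVec_smul, smul_sub, sub_smul]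
      abel
    rw [hdec]
    refine (nrm_add_le _ _).trans ?_
    rw [nrm_smul, nrm_smul, abs_of_nonneg (le_max_left _ _)]
    have h1 : max 0 (Mlog e + Real.log (nrm b)) ≤ Mlog e :=
      PsiT_m_le _ (nrm_nonneg b) (hb.trans hr)
    have hqp : nrm (u'.mulVec p) ≤ nrm p := by
      have := hu p; rwa [one_mul] at this
    have hqb : nrm (u'.mulVec p) ≤ nrm b + r / e := by
      have h3 : u'.mulVec p = b - (b - u'.mulVec p) := by abel
      rw [h3]
      exact (nrm_sub_le _ _).trans (by linarith)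
    have h2 := PsiT_second he (nrm b) (nrm p) (nrm (u'.mulVec p)) r (nrm_nonneg _) (nrm_nonneg _)
      (nrm_nonneg _) hr hb hp hqp hqb
    have h4 : max 0 (Mlog e + Real.log (nrm b)) * nrm (b - u'.mulVec p) ≤ Mlog e * (r / e) :=
      mul_le_mul h1 hd (nrm_nonneg _) (PsiT_M_nonneg e)
    have h5 := PsiT_M_bound he r hr0
    linarith
  · intro h
    rw [PsiT_zero b r hb h, PsiT_zero p r hp h, Matrix.mulVec_zero, sub_zero]

end KPC
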