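import Pool.Agent.KPC.Basic

/-! The normalised partial trace of `Aᵀ V A` over `Y`. -/

open Finset BigOperators

namespace KPC

variable {J X Y Ω : Type} [Fintype J] [DecidableEq J] [Fintype X] [Fintype Y] [DecidableEq Y]
  [Fintype Ω] [DecidableEq Ω] {e : ℕ} {δ : ℝ}

/-- normalised partial trace of `Aᵀ V A` -/
noncomputable def ptr (w : WeylSys J X Y e δ) (S : J → Finset Ω)
    (V : Matrix (Xi J X Y Ω e) (Xi J X Y Ω e) ℝ) : Matrix Ω Ω ℝ := fun ω ω' =>
  (Fintype.card Y : ℝ)⁻¹ * ∑ y : Y,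
    ip (Aop w S (ten (Pi.single ω 1) (Pi.single y 1)))
      (V.mulVec (Aop w S (ten (Pi.single ω' 1) (Pi.single y 1))))

end KPC
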