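import Pool.Agent.KPC.Basic

/-! KPC-E3: the expansion of `⟨Π F, Π G⟩` in the characters of `σ` (helper49). -/

open Finset BigOperators

namespace KPC

section Calc

variable {J X Y Ω : Type} [Fintype J] [DecidableEq J] [Fintype X] [Fintype Y] [DecidableEq Y]
  [Fintype Ω] [DecidableEq Ω] {e : ℕ} {δ : ℝ} (w : WeylSys J X Y e δ) (S : J → Finset Ω)

omit [DecidableEq J] in
theorem QfEq_chi_add (c d σ : CC J e) : chi (c + d) σ = chi c σ * chi d σ := by
  unfold chi
  rw [← sg_add, ← Finset.sum_add_distrib]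
  congr 1
  refine Finset.sum_congr rfl fun j _ => ?_
  rw [← Finset.sum_add_distrib]
  exact Finset.sum_congr rfl fun α _ => by simp [add_mul]

omit [Fintype Ω] in
theorem QfEq_mem_add {ω : Ω} {c d : CC J e} (hc : c ∈ lab e S ω) (hd : d ∈ lab e S ω) :
    c + d ∈ lab e S ω := by
  unfold lab at *
  rw [Finset.mem_filter] at *
  refine ⟨Finset.mem_univ _, fun j hj => ?_⟩
  rw [Pi.add_apply, hc.2 j hj, hd.2 j hj, add_zero]

omit [Fintype J] [DecidableEq J] in
theorem QfEq_add_self (c : CC J e) : c + c = 0 := by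
  funext j α
  have h : ∀ a : ZMod 2, a + a = 0 := by decide
  exact h _

omit [Fintype Ω] in
theorem QfEq_card_pos (ω : Ω) : 0 < ((lab e S ω).card : ℝ) := by
  have h : (0 : CC J e) ∈ lab e S ω := by
    unfold lab
    rw [Finset.mem_filter]
    exact ⟨Finset.mem_univ _, fun j _ => rfl⟩
  exact_mod_cast Finset.card_pos.2 ⟨_, h⟩

omit [Fintype Ω] in
theorem QfEq_shift (ω : Ω) (c : CC J e) (hc : c ∈ lab e S ω) (g : CC J e → ℝ) :
    ∑ d ∈ lab e S ω, g (c + d) = ∑ b ∈ lab e S ω, g b := by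
  refine Finset.sum_bij' (fun d _ => c + d) (fun b _ => c + b)
    (fun d hd => QfEq_mem_add S hc hd) (fun b hb => QfEq_mem_add S hc hb)
    (fun d _ => ?_) (fun b _ => ?_) (fun d _ => rfl)
  · rw [← add_assoc, QfEq_add_self, zero_add]
  · rw [← add_assoc, QfEq_add_self, zero_add]

theorem QfEq_point (x : X) (σ : CC J e) (F G : Ω × Y → ℝ) (ω : Ω) :
    ∑ y, PiOp w S x σ F (ω, y) * PiOp w S x σ G (ω, y) =
      ∑ b ∈ lab e S ω, chi b σ *
        ip (fun y => F (ω, y)) ((w.W x b).mulVec fun y => G (ω, y)) := by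
  have hpos := QfEq_card_pos (e := e) S ω
  have hsq : (Real.sqrt ((lab e S ω).card : ℝ))⁻¹ * (Real.sqrt ((lab e S ω).card : ℝ))⁻¹ =
      ((lab e S ω).card : ℝ)⁻¹ := by
    rw [← mul_inv, Real.mul_self_sqrt hpos.le]
  have hip : ∀ c d : CC J e, ∑ y, ((w.W x c).mulVec fun y => F (ω, y)) y *
      ((w.W x d).mulVec fun y => G (ω, y)) y =
      ip (fun y => F (ω, y)) ((w.W x (c + d)).mulVec fun y => G (ω, y)) := by
    intro c d
    have h1 : ∑ y, ((w.W x c).mulVec fun y => F (ω, y)) y *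
      ((w.W x d).mulVec fun y => G (ω, y)) y = ip ((w.W x c).mulVec fun y => F (ω, y))
        ((w.W x d).mulVec fun y => G (ω, y)) := rfl
    rw [h1, ip_comm, ip_mulVec, w.W_symm, Matrix.mulVec_mulVec, ← w.W_add, ip_comm]
  calc ∑ y, PiOp w S x σ F (ω, y) * PiOp w S x σ G (ω, y)
      = ∑ y, ((lab e S ω).card : ℝ)⁻¹ * ∑ c ∈ lab e S ω, ∑ d ∈ lab e S ω,
          (chi c σ * chi d σ) * (((w.W x c).mulVec fun y => F (ω, y)) y *
            ((w.W x d).mulVec fun y => G (ω, y)) y) := by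
        refine Finset.sum_congr rfl fun y _ => ?_
        unfold PiOp
        rw [← hsq, mul_mul_mul_comm, Finset.sum_mul_sum]
        congr 1
        refine Finset.sum_congr rfl fun c _ => Finset.sum_congr rfl fun d _ => ?_
        ring
    _ = ((lab e S ω).card : ℝ)⁻¹ * ∑ c ∈ lab e S ω, ∑ d ∈ lab e S ω,
          (chi c σ * chi d σ) * ip (fun y => F (ω, y))
            ((w.W x (c + d)).mulVec fun y => G (ω, y)) := by
        rw [← Finset.mul_sum, Finset.sum_comm]
        congr 1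
        refine Finset.sum_congr rfl fun c _ => ?_
        rw [Finset.sum_comm]
        refine Finset.sum_congr rfl fun d _ => ?_
        rw [← Finset.mul_sum, hip]
    _ = ((lab e S ω).card : ℝ)⁻¹ * ∑ c ∈ lab e S ω, ∑ b ∈ lab e S ω,
          chi b σ * ip (fun y => F (ω, y)) ((w.W x b).mulVec fun y => G (ω, y)) := by
        congr 1
        refine Finset.sum_congr rfl fun c hc => ?_
        rw [← QfEq_shift S ω c hc fun b => chi b σ * ip (fun y => F (ω, y))
          ((w.W x b).mulVec fun y => G (ω, y))]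
        exact Finset.sum_congr rfl fun d _ => by rw [QfEq_chi_add]
    _ = _ := by
        rw [Finset.sum_const, nsmul_eq_mul, ← mul_assoc, inv_mul_cancel₀ hpos.ne', one_mul]

theorem qf_eq (x : X) (σ : CC J e) (F G : Ω × Y → ℝ) :
    qf w S x σ F G = ∑ c, chi c σ * Th w S x c F G := by
  have h1 : qf w S x σ F G =
      ∑ ω, ∑ y, PiOp w S x σ F (ω, y) * PiOp w S x σ G (ω, y) := by
    unfold qf ip
    rw [Fintype.sum_prod_type]
  rw [h1]
  have h2 : ∀ c : CC J e, chi c σ * Th w S x c F G = ∑ ω, if c ∈ lab e S ω then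
      chi c σ * ip (fun y => F (ω, y)) ((w.W x c).mulVec fun y => G (ω, y)) else 0 := by
    intro c
    unfold Th
    rw [Finset.mul_sum]
    refine Finset.sum_congr rfl fun ω _ => ?_
    split_ifs
    · rfl
    · rw [mul_zero]
  have h3 : ∑ c : CC J e, chi c σ * Th w S x c F G = ∑ c : CC J e, ∑ ω, if c ∈ lab e S ω then
      chi c σ * ip (fun y => F (ω, y)) ((w.W x c).mulVec fun y => G (ω, y)) else 0 :=
    Finset.sum_congr rfl fun c _ => h2 c
  rw [h3]
  refine Eq.trans ?_ Finset.sum_comm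
  refine Finset.sum_congr rfl fun ω _ => ?_
  rw [QfEq_point, ← Finset.sum_filter, Finset.filter_mem_eq_inter, Finset.univ_inter]

end Calc

end KPC
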