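import Pool.Agent.KPC.Basic

/-!
# KPC-M1: reindexing
-/

open Finset BigOperators

namespace KPC

namespace Reindex_

variable {Ξ Ξ' : Type} [Fintype Ξ] [Fintype Ξ'] (f : Ξ ≃ Ξ')

theorem nrm_comp (x : Ξ → ℝ) : nrm (x ∘ f.symm) = nrm x := by
  unfold nrm nsq
  congr 1
  exact Equiv.sum_comp f.symm fun i => x i ^ 2

theorem mulVec_comp (M : Matrix Ξ Ξ ℝ) (x : Ξ → ℝ) :
    (M.reindex f f).mulVec (x ∘ f.symm) = (M.mulVec x) ∘ f.symm := by
  funext i
  exact Equiv.sum_comp f.symm fun j => M (f.symm i) j * x j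

theorem kpf_comp (x : Ξ → ℝ) : kpf (x ∘ f.symm) = kpf x ∘ f.symm := by
  funext i
  unfold kpf
  rw [nrm_comp]
  rfl

theorem forall_comp {p : (Ξ' → ℝ) → Prop} : (∀ x, p x) ↔ ∀ x : Ξ → ℝ, p (x ∘ f.symm) := by
  constructor
  · intro h x
    exact h _
  · intro h x
    have := h (x ∘ f)
    have h2 : (x ∘ f) ∘ f.symm = x := by
      funext i
      simp
    rwa [h2] at this

end Reindex_

open Reindex_ in
theorem triv_reindex {Ξ Ξ' : Type} [Fintype Ξ] [Fintype Ξ'] (f : Ξ ≃ Ξ') (T U L : Matrix Ξ Ξ ℝ)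
    (C : ℝ) :
    Triv (T.reindex f f) (U.reindex f f) (L.reindex f f) C ↔ Triv T U L C := by
  unfold Triv
  rw [forall_comp f]
  refine forall_congr' fun x => ?_
  have h : (T.reindex f f).mulVec (kpf (x ∘ f.symm)) - kpf ((U.reindex f f).mulVec (x ∘ f.symm)) -
      (L.reindex f f).mulVec (x ∘ f.symm) =
      (T.mulVec (kpf x) - kpf (U.mulVec x) - L.mulVec x) ∘ f.symm := by
    rw [kpf_comp, mulVec_comp, mulVec_comp, mulVec_comp, kpf_comp]
    rfl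
  rw [h, nrm_comp, nrm_comp]

open Reindex_ in
theorem opLe_reindex {Ξ Ξ' : Type} [Fintype Ξ] [Fintype Ξ'] (f : Ξ ≃ Ξ') (T : Matrix Ξ Ξ ℝ)
    (C : ℝ) : OpLe (T.reindex f f) C ↔ OpLe T C := by
  unfold OpLe
  rw [forall_comp f]
  refine forall_congr' fun x => ?_
  rw [mulVec_comp, nrm_comp, nrm_comp]

end KPC
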