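import Pool.Agent.KPC.InfDefs

/-!
# Compatible pairs of operators for the Kalton–Peck map: definitions of the statement

The types `L2` and `Z` are plain definitions with named instances, so that the statement stays
short when it is printed; everything is definitionally equal to the objects of `InfDefs`.
-/

namespace KalPeck

/-- the real Hilbert space `ℓ₂` -/
def L2 : Type := lp (fun _ : ℕ => ℝ) 2

noncomputable instance instNL2 : NormedAddCommGroup L2 :=
  (lp.normedAddCommGroup : NormedAddCommGroup (lp (fun _ : ℕ => ℝ) 2))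

noncomputable instance instSL2 : NormedSpace ℝ L2 :=
  (inferInstance : NormedSpace ℝ (lp (fun _ : ℕ => ℝ) 2))

/-- the coordinates of an element of `ℓ₂` -/
def seq (z : L2) : ℕ → ℝ := z.1

/-- the Kalton–Peck map `z ↦ (z_i log (|z_i| / ‖z‖))_i`, with values in the real sequences -/
noncomputable def kp (z : L2) : ℕ → ℝ := fun i => seq z i * Real.log (|seq z i| / ‖z‖)

/-- `y - 𝒦 z` is square summable -/
def Mem (w : (ℕ → ℝ) × L2) : Prop := Memℓp (w.1 - kp w.2) 2

theorem mem_add {a b : (ℕ → ℝ) × L2} (ha : Mem a) (hb : Mem b) : Mem (a + b) :=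
  KPC.Z2_add_mem ha hb

theorem mem_zero : Mem 0 := KPC.Z2_zero_mem

theorem mem_smul (c : ℝ) {a : (ℕ → ℝ) × L2} (ha : Mem a) : Mem (c • a) :=
  KPC.Z2_smul_mem c ha

/-- the set of pairs `(y, z)` with `y - 𝒦 z ∈ ℓ₂`, as a linear subspace -/
def Zsub : Submodule ℝ ((ℕ → ℝ) × L2) where
  carrier := {w | Mem w}
  add_mem' := mem_add
  zero_mem' := mem_zero
  smul_mem' := fun c _ ha => mem_smul c ha

/-- the Kalton–Peck space `Z₂` -/
def Z : Type := Zsub

noncomputable instance instAZ : AddCommGroup Z := (Zsub.addCommGroup : AddCommGroup Zsub)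

noncomputable instance instMZ : Module ℝ Z := (Zsub.module : Module ℝ Zsub)

/-- the quotient map `q (y, z) = z` -/
def snd (w : Z) : L2 := w.1.2

/-- the element `y - 𝒦 z` of `ℓ₂` -/
noncomputable def dif (w : Z) : L2 := ⟨w.1.1 - kp w.1.2, w.2⟩

/-- the quasi-norm `‖(y, z)‖ = ‖y - 𝒦 z‖ + ‖z‖` -/
noncomputable def qn (w : Z) : ℝ := ‖dif w‖ + ‖snd w‖

theorem mem_incl (y : L2) : Mem (seq y, 0) := KPC.incl_mem y

/-- the inclusion `y ↦ (y, 0)` of `ℓ₂` into `Z₂` -/
noncomputable def incl (y : L2) : Z := ⟨(seq y, 0), mem_incl y⟩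

/-- bounded linear operators on `ℓ₂` -/
def Op : Type := L2 →L[ℝ] L2

/-- `T` as a continuous linear map -/
noncomputable def lin (T : Op) : L2 →L[ℝ] L2 := T

/-- the value `T x` -/
noncomputable def app (T : Op) (x : L2) : L2 := lin T x

/-- the sum `T + K` of two operators -/
noncomputable def add (T K : Op) : Op := lin T + lin K

/-- `K` is a compact operator -/
def Compact (K : Op) : Prop := IsCompactOperator (app K)

/-- The pair `(T, U)` is compatible with `𝒦`: there is a bounded operator `β` on `Z₂` with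
`β (y, 0) = (T y, 0)` for all `y ∈ ℓ₂` and `q β = U q`. -/
def Compatible (T U : Op) : Prop :=
  ∃ β : Z →ₗ[ℝ] Z, (∃ C : ℝ, ∀ w, qn (β w) ≤ C * qn w) ∧
    (∀ y : L2, β (incl y) = incl (app T y)) ∧ (∀ w : Z, snd (β w) = app U (snd w))

theorem compatible_iff (T U : Op) :
    Compatible T U ↔ KPC.Compatible (show KPC.H →L[ℝ] KPC.H from T)
      (show KPC.H →L[ℝ] KPC.H from U) := Iff.rfl

end KalPeck
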