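import Pool.Agent.KPC.QfEq
import Pool.Agent.KPC.Orth

/-! KPC-E7: averages of `qf` and `qf ^ 2` over `σ` (helper14). -/

open Finset BigOperators

namespace KPC

section Calc

variable {J X Y Ω : Type} [Fintype J] [DecidableEq J] [Fintype X] [Fintype Y] [DecidableEq Y]
  [Fintype Ω] [DecidableEq Ω] {e : ℕ} {δ : ℝ} (w : WeylSys J X Y e δ) (S : J → Finset Ω)

omit [DecidableEq J] in
theorem SumQf_chi_zero (σ : CC J e) : chi (0 : CC J e) σ = 1 := by
  unfold chi
  simp [sg]

theorem SumQf_sum_chi (c : CC J e) :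
    ∑ σ : CC J e, chi c σ = if c = 0 then (Fintype.card (CC J e) : ℝ) else 0 := by
  rw [← chi_orth c 0]
  refine Finset.sum_congr rfl fun σ _ => ?_
  rw [SumQf_chi_zero, mul_one]

theorem SumQf_Th_zero (x : X) (F G : Ω × Y → ℝ) : Th w S x 0 F G = ip F G := by
  unfold Th
  have h0 : ∀ ω : Ω, (0 : CC J e) ∈ lab e S ω := by
    intro ω
    unfold lab
    rw [Finset.mem_filter]
    exact ⟨Finset.mem_univ _, fun j _ => rfl⟩
  have h1 : ip F G = ∑ ω, ∑ y, F (ω, y) * G (ω, y) := by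
    unfold ip
    rw [Fintype.sum_prod_type]
  rw [h1]
  refine Finset.sum_congr rfl fun ω _ => ?_
  rw [if_pos (h0 ω), w.W_zero, Matrix.one_mulVec]
  rfl

theorem sum_qf (x : X) (F G : Ω × Y → ℝ) :
    ∑ σ, qf w S x σ F G = Fintype.card (CC J e) * ip F G := by
  have h : ∀ σ : CC J e, qf w S x σ F G = ∑ c, chi c σ * Th w S x c F G :=
    fun σ => qf_eq w S x σ F G
  rw [Finset.sum_congr rfl fun σ _ => h σ, Finset.sum_comm]
  have h2 : ∀ c : CC J e, ∑ σ : CC J e, chi c σ * Th w S x c F G =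
      if c = 0 then (Fintype.card (CC J e) : ℝ) * Th w S x 0 F G else 0 := by
    intro c
    rw [← Finset.sum_mul, SumQf_sum_chi]
    split_ifs with hc
    · rw [hc]
    · rw [zero_mul]
  rw [Finset.sum_congr rfl fun c _ => h2 c, Finset.sum_ite_eq' Finset.univ (0 : CC J e),
    if_pos (Finset.mem_univ _), SumQf_Th_zero]

theorem sum_qf_sq (x : X) (F G : Ω × Y → ℝ) :
    ∑ σ, (qf w S x σ F G) ^ 2 = Fintype.card (CC J e) * ∑ c, (Th w S x c F G) ^ 2 := by
  have h : ∀ σ : CC J e, (qf w S x σ F G) ^ 2 =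
      ∑ c, ∑ d, (chi c σ * chi d σ) * (Th w S x c F G * Th w S x d F G) := by
    intro σ
    rw [qf_eq, sq, Finset.sum_mul_sum]
    refine Finset.sum_congr rfl fun c _ => Finset.sum_congr rfl fun d _ => ?_
    ring
  rw [Finset.sum_congr rfl fun σ _ => h σ, Finset.sum_comm, Finset.mul_sum]
  refine Finset.sum_congr rfl fun c _ => ?_
  rw [Finset.sum_comm]
  have h2 : ∀ d : CC J e, ∑ σ : CC J e, (chi c σ * chi d σ) *
      (Th w S x c F G * Th w S x d F G) =
      if c = d then (Fintype.card (CC J e) : ℝ) * (Th w S x c F G * Th w S x d F G) else 0 := by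
    intro d
    rw [← Finset.sum_mul, chi_orth]
    split_ifs
    · rfl
    · rw [zero_mul]
  rw [Finset.sum_congr rfl fun d _ => h2 d, Finset.sum_ite_eq Finset.univ c,
    if_pos (Finset.mem_univ _), sq]

end Calc

end KPC
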