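import Pool.Agent.KPC.WeylDefs
import Pool.Agent.KPC.LevelDefs

/-! Targets of project KPC, level 1 (all independent of each other).  Statements only. -/

open Finset BigOperators

namespace KPC

/-! ### Group B : the Kalton–Peck map in finite dimension -/

theorem K1_symm {ι : Type*} [Fintype ι] (D : ℝ) (hD : 0 < D) (x y : ι → ℝ) :
    |ip (K1 D x) y - ip x (K1 D y)| ≤ nsq x + nsq y := by
  sorry

theorem kpf_smul {ι : Type*} [Fintype ι] (c : ℝ) (x : ι → ℝ) : kpf (c • x) = c • kpf x := by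
  sorry

theorem kpf_symm {ι : Type*} [Fintype ι] (x y : ι → ℝ) :
    |ip (kpf x) y - ip x (kpf y)| ≤ 2 * nrm x * nrm y := by
  sorry

theorem kpf_eq_K1 {ι : Type*} [Fintype ι] (D : ℝ) (hD : 0 < D) (x : ι → ℝ) (hx : nrm x = 1) :
    kpf x = K1 D x - (Real.log D / 2) • x := by
  sorry

theorem kpf_near_K1 {ι : Type*} [Fintype ι] (D : ℝ) (hD : 0 < D) (x : ι → ℝ) (hx : nrm x ≤ 1) :
    nrm (kpf x - K1 D x + (Real.log D / 2) • x) ≤ 1 := by
  sorry

/-! ### Group C : the interpolation lemma -/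

theorem interp {Ξ I : Type*} [Fintype Ξ] [Nonempty Ξ] (s : Finset I) (f h g0 : Ξ → ℝ)
    (g : I → Ξ → ℝ) (a : I → ℝ) (ha : ∀ i ∈ s, 0 < a i) (C : ℝ) (hC : 0 ≤ C)
    (hf : ∀ ξ, f ξ = g0 ξ + ∑ i ∈ s, g i ξ)
    (hf2 : ∑ ξ, f ξ ^ 2 ≤ Fintype.card Ξ) (hh2 : ∑ ξ, h ξ ^ 2 ≤ Fintype.card Ξ)
    (h4 : ∀ t : ℝ, ∑ ξ, ‖(g0 ξ : ℂ) + ∑ i ∈ s, ((a i : ℂ) ^ ((-(1 / 2 : ℂ) + t * Complex.I) / 2)) *
      (g i ξ : ℂ)‖ ^ 4 ≤ C ^ 4 * Fintype.card Ξ)
    (h1 : ∀ t : ℝ, ∑ ξ, ‖(g0 ξ : ℂ) + ∑ i ∈ s, ((a i : ℂ) ^ ((1 + t * Complex.I) / 2)) *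
      (g i ξ : ℂ)‖ ≤ C * Fintype.card Ξ) :
    |∑ ξ, ((∑ i ∈ s, Real.log (a i) / 2 * g i ξ) - f ξ * Real.log |f ξ|) * h ξ| ≤
      2 * (C + 1) * Fintype.card Ξ := by
  sorry

/-! ### Group D : the explicit Weyl system -/

namespace WD

variable {J : Type} [Fintype J] [DecidableEq J] {e m : ℕ}

theorem Wm_zero (x : XX J e m) : Wm x 0 = 1 := by
  sorry

theorem Wm_add (x : XX J e m) (c d : CC J e) : Wm x (c + d) = Wm x c * Wm x d := by
  sorry

theorem Wm_symm (x : XX J e m) (c : CC J e) : (Wm x c).transpose = Wm x c := by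
  sorry

theorem phi_on (j : J) (τ τ' : YY J e m) : ip (phi j τ) (phi j τ') = if τ = τ' then 1 else 0 := by
  sorry

theorem Wm_phi (x : XX J e m) (j : J) (a : Fin e → ZMod 2) (τ : YY J e m) :
    (Wm x (Pi.single j a)).mulVec (phi j τ) = chi1 a (hh x j τ) • phi j τ := by
  sorry

theorem hh_coll (j : J) (τ τ' : YY J e m) (h : τ ≠ τ') :
    ((univ.filter fun x : XX J e m => hh x j τ = hh x j τ').card : ℝ) ≤
      (1 / 2 ^ e + 1 / 2 ^ m) * Fintype.card (XX J e m) := by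
  sorry

theorem moyal (f : YY J e m → ℝ) :
    ∑ a : YY J e m, ∑ b : YY J e m, (∑ y, sg (pr a y) * f y * f (y + b)) ^ 2 =
      Fintype.card (YY J e m) * nsq f ^ 2 := by
  sorry

theorem fiber_card (c : CC J e) (j l : J) (hjl : j ≠ l) (hj : c j ≠ 0) (hl : c l ≠ 0)
    (a b : YY J e m) :
    ((univ.filter fun x : XX J e m => av x c = a ∧ bv x c = b).card : ℝ) *
      ((2 : ℝ) ^ m) ^ (Fintype.card J + 2) ≤ Fintype.card (XX J e m) := by
  sorry

theorem phi_mub (x : XX J e m) (c : CC J e) (j l : J) (hjl : j ≠ l) (τ τ' : YY J e m) :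
    |ip (phi j τ) ((Wm x c).mulVec (phi l τ'))| ≤ 1 / 2 ^ (e + m) := by
  sorry

end WD

/-! ### Group E : calculus of the randomized measurement -/

section Calc

theorem khintchine_two {P : Type*} [Fintype P] [DecidableEq P] (v w : P → ℝ) :
    ∑ ε : P → ZMod 2, (∑ p, sg (ε p) * v p) * (∑ p, sg (ε p) * w p) =
      Fintype.card (P → ZMod 2) * ip v w := by
  sorry

theorem khintchine_four {P : Type*} [Fintype P] [DecidableEq P] (w : P → ℝ) :
    ∑ ε : P → ZMod 2, (∑ p, sg (ε p) * w p) ^ 4 ≤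
      3 * Fintype.card (P → ZMod 2) * nsq w ^ 2 := by
  sorry

variable {J X Y Ω : Type} [Fintype J] [DecidableEq J] [Fintype X] [Fintype Y] [DecidableEq Y]
  [Fintype Ω] [DecidableEq Ω] {e : ℕ} {δ : ℝ} (w : WeylSys J X Y e δ) (S : J → Finset Ω)

/-- orthogonality of characters -/
theorem chi_orth (c d : CC J e) :
    ∑ σ : CC J e, chi c σ * chi d σ = if c = d then (Fintype.card (CC J e) : ℝ) else 0 := by
  sorry

/-- completeness of the bases -/
theorem phi_complete (j : J) (y y' : Y) :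
    ∑ τ, w.φ j τ y * w.φ j τ y' = if y = y' then 1 else 0 := by
  sorry

/-- Parseval, vector valued -/
theorem parseval (j : J) (F : Ω × Y → ℝ) : ∑ τ, nsq (coef w j τ F) = nsq F := by
  sorry

theorem qf_eq (x : X) (σ : CC J e) (F G : Ω × Y → ℝ) :
    qf w S x σ F G = ∑ c, chi c σ * Th w S x c F G := by
  sorry

theorem sum_single (j : J) (G : Ω × Y → ℝ) :
    ∑ x, ∑ a ∈ univ.filter (fun a : Fin e → ZMod 2 => a ≠ 0), (Th w S x (Pi.single j a) G G) ^ 2 ≤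
      Fintype.card X * (2 ^ e * ∑ τ, nsq (Pc w S (j, τ) G) ^ 2 + 2 ^ e * max δ 0 * nsq G ^ 2) := by
  sorry

theorem sum_multi (G : Ω × Y → ℝ) :
    ∑ x, ∑ c ∈ univ.filter (fun c : CC J e => ∃ j l, j ≠ l ∧ c j ≠ 0 ∧ c l ≠ 0),
      (Th w S x c G G) ^ 2 ≤
      Fintype.card X * Fintype.card (CC J e) * Fintype.card Ω * max δ 0 * nsq G ^ 2 := by
  sorry

theorem PiOp_vanish (x : X) (σ : CC J e) (j : J) (τ : Y) (a : Ω → ℝ) (ha : ∀ ω, ω ∉ S j → a ω = 0)
    (hne : w.h x j τ ≠ σ j) : PiOp w S x σ (ten a (w.φ j τ)) = 0 := by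
  sorry

/-- synthesis for nearly orthonormal families -/
theorem synth [Nonempty X] (hδ : 0 ≤ δ) (I : Finset (J × Y)) (d : J × Y → Ω → ℝ) :
    nsq (∑ i ∈ I, ten (d i) (w.φ i.1 i.2)) ≤ (1 + I.card * δ) * ∑ i ∈ I, nsq (d i) := by
  sorry

end Calc

/-! ### Group L : the level model -/

namespace Lev

variable {K Q : Type} [Fintype K] [DecidableEq K] [Fintype Q] [DecidableEq Q] {s : ℕ}

theorem line_sum (g0 : K × Q) (r : Fin s) (u : Row K Q s) (f : Row K Q s → ℝ) :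
    ∑ i : Row K Q s, (if Function.update i r g0 = u then f i else 0) =
      if u r = g0 then ∑ γ, f (Function.update u r γ) else 0 := by
  sorry

theorem line_total (g0 : K × Q) (r : Fin s) (f : Row K Q s → ℝ) :
    ∑ u : Row K Q s, (if u r = g0 then ∑ γ, f (Function.update u r γ) else 0) = ∑ i, f i := by
  sorry

theorem b_sum [Nonempty Q] (α : ℝ) (X : K → Q → ℝ) (hX : ∀ a, ∑ c, X a c = 0) :
    (Fintype.card Q : ℝ) * ∑ b : K → Q, (α + ∑ a, X a (b a)) ^ 2 =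
      (Fintype.card Q : ℝ) ^ Fintype.card K *
        ((Fintype.card Q : ℝ) * α ^ 2 + ∑ a, ∑ c, X a c ^ 2) := by
  sorry

/-- quasi-orthogonality of the twisted averages in the `s` directions -/
theorem twisted_avg (Hd : K × Q → K × Q → ℝ) (hH : IsHad Hd) (g0 : K × Q) (y : Row K Q s → ℝ) :
    ∑ r : Fin s, ∑ u : Row K Q s, (if u r = g0 then
      (∑ γ, eps Hd r (Function.update u r γ) * y (Function.update u r γ)) ^ 2 else 0) ≤
      ((Fintype.card (K × Q) : ℝ) + s * Real.sqrt (Fintype.card (K × Q))) * nsq y := by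
  sorry

theorem row_sums [Nonempty Q] (Hd : K × Q → K × Q → ℝ) (hH : IsHad Hd) (g0 : K × Q)
    (i : Row K Q s) :
    (∑ c : Col K Q s, RG Hd g0 i c ^ 2 = s / Fintype.card Q) ∧
    (∑ c : Col K Q s, RD Hd g0 i c ^ 2 = s * (1 - 1 / Fintype.card Q)) ∧
    (∑ c : Col K Q s, RG Hd g0 i c * RD Hd g0 i c = 0) := by
  sorry

/-- the rows `j` of the intertwining defect vanish -/
theorem row_j (Hd : K × Q → K × Q → ℝ) (g0 : K × Q) (j : Row K Q s) (c : Col K Q s) :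
    (c ∈ Bset g0 j → T0 Hd g0 j c = U0 Hd g0 j c) ∧ (c ∉ Bset g0 j → U0 Hd g0 j c = 0) := by
  sorry

/-- double counting -/
theorem double_count (Hd : K × Q → K × Q → ℝ) (g0 : K × Q) (V : Matrix (Row K Q s) (Col K Q s) ℝ) :
    ∑ j : Row K Q s, ∑ r : Fin s,
      ip (fun i => if Function.update i r g0 = Function.update j r g0 then eps Hd r i else 0)
        ((restr V (fun i => i ≠ j) (Bset g0 j)).mulVec
          fun c => if c.1 = r ∧ c ∈ Bset g0 j then qk K Q else 0) =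
      ((Fintype.card K : ℝ) - 1) * ∑ i, ∑ c, V i c * RG Hd g0 i c +
        (Fintype.card K : ℝ) * ∑ i, ∑ c, V i c * RD Hd g0 i c := by
  sorry

theorem hadamard_exists (a b : ℕ) :
    ∃ Hd : (Fin a → ZMod 2) × (Fin b → ZMod 2) → (Fin a → ZMod 2) × (Fin b → ZMod 2) → ℝ,
      IsHad Hd := by
  sorry

end Lev

end KPC
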