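import Pool.Agent.KPC.Targets1

/-! Targets of project KPC, level 2 (use level 1).  Statements only. -/

open Finset BigOperators

namespace KPC

/-! ### Group D : the explicit Weyl system -/

namespace WD

variable {J : Type} [Fintype J] [DecidableEq J] {e m : ℕ}

/-- from `moyal` and `fiber_card` -/
theorem Wm_multi (c : CC J e) (j l : J) (hjl : j ≠ l) (hj : c j ≠ 0) (hl : c l ≠ 0)
    (f : YY J e m → ℝ) :
    ∑ x : XX J e m, (ip f ((Wm x c).mulVec f)) ^ 2 ≤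
      (((2 : ℝ) ^ e) ^ Fintype.card J / ((2 : ℝ) ^ m) ^ 2) * Fintype.card (XX J e m) *
        nsq f ^ 2 := by
  sorry

end WD

/-- existence of Weyl systems with arbitrarily small error -/
theorem exists_weylSys (J : Type) [Fintype J] [DecidableEq J] (e : ℕ) (δ : ℝ) (hδ : 0 < δ) :
    ∃ (X Y : Type) (_ : Fintype X) (_ : Nonempty X) (_ : DecidableEq X) (_ : Fintype Y)
      (_ : Nonempty Y) (_ : DecidableEq Y), Nonempty (WeylSys J X Y e δ) := by
  sorry

/-! ### Group E : calculus of the randomized measurement -/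

section Calc

variable {J X Y Ω : Type} [Fintype J] [DecidableEq J] [Fintype X] [Fintype Y] [DecidableEq Y]
  [Fintype Ω] [DecidableEq Ω] {e : ℕ} {δ : ℝ} (w : WeylSys J X Y e δ) (S : J → Finset Ω)

theorem sum_qf (x : X) (F G : Ω × Y → ℝ) :
    ∑ σ, qf w S x σ F G = Fintype.card (CC J e) * ip F G := by
  sorry

theorem sum_qf_sq (x : X) (F G : Ω × Y → ℝ) :
    ∑ σ, (qf w S x σ F G) ^ 2 = Fintype.card (CC J e) * ∑ c, (Th w S x c F G) ^ 2 := by
  sorry

theorem second_moment (G : Ω × Y → ℝ) :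
    ∑ x, ∑ σ, (qf w S x σ G G) ^ 2 ≤
      Fintype.card X * Fintype.card (CC J e) *
        ((1 + (Fintype.card J * 2 ^ e + Fintype.card Ω * Fintype.card (CC J e)) * max δ 0) *
          nsq G ^ 2 + 2 ^ e * ∑ i : J × Y, nsq (Pc w S i G) ^ 2) := by
  sorry

theorem sum_nrm_PiOp (j : J) (τ : Y) (a : Ω → ℝ) (ha : ∀ ω, ω ∉ S j → a ω = 0) :
    ∑ x, ∑ σ, nrm (PiOp w S x σ (ten a (w.φ j τ))) ≤
      Fintype.card X * Fintype.card (CC J e) * (Real.sqrt (2 ^ e))⁻¹ * nrm a := by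
  sorry

theorem Bop_ip (F G : Ω × Y → ℝ) :
    ∑ ξ, Bop w S F ξ * Bop w S G ξ = Fintype.card (Xi J X Y Ω e) * ip F G := by
  sorry

theorem Bop_abs (F : Ω × Y → ℝ) :
    ∑ ξ, |Bop w S F ξ| ≤
      Fintype.card (Ω × Y → ZMod 2) * ∑ x, ∑ σ, nrm (PiOp w S x σ F) := by
  sorry

theorem Bop_four (F : Ω × Y → ℝ) :
    ∑ ξ, (Bop w S F ξ) ^ 4 ≤
      3 * Fintype.card (Ω × Y → ZMod 2) * ∑ x, ∑ σ, (qf w S x σ F F) ^ 2 := by
  sorry

/-- Bessel inequality for nearly orthonormal families -/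
theorem bessel [Nonempty X] (hδ : 0 ≤ δ) (I : Finset (J × Y)) (F : Ω × Y → ℝ) :
    ∑ i ∈ I, nsq (coef w i.1 i.2 F) ≤ (1 + I.card * δ) * nsq F := by
  sorry

open Classical in
theorem card_large (c : ℝ) (hc : 0 ≤ c) (F : Ω × Y → ℝ) (hF : nsq F ≤ 1) :
    ((univ.filter fun i : J × Y => 1 ≤ c * nsq (coef w i.1 i.2 F)).card : ℝ) ≤
      Fintype.card J * c := by
  sorry

/-- linear structure of `Aop` and `Amat` -/
theorem Amat_mulVec (F : Ω × Y → ℝ) : (Amat w S).mulVec F = Aop w S F := by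
  sorry

theorem Aop_ip [Nonempty X] (F G : Ω × Y → ℝ) : ip (Aop w S F) (Aop w S G) = ip F G := by
  sorry

/-- the slices of a combination of `F` and the `F^i` -/
theorem Pc_comb (F : Ω × Y → ℝ) (I : Finset (J × Y)) (κ : ℝ) (μ : J × Y → ℝ) (i : J × Y) :
    Pc w S i (κ • F + ∑ k ∈ I, μ k • Fi w S F k) =
      (κ + if i ∈ I then μ i else 0) • Pc w S i F +
        Pc w S i (∑ k ∈ I.filter (fun k => k.1 ≠ i.1), μ k • Fi w S F k) := by
  sorry

end Calc

/-! ### Group L : the level model -/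

namespace Lev

variable {K Q : Type} [Fintype K] [DecidableEq K] [Fintype Q] [DecidableEq Q] {s : ℕ}

theorem T0_le [Nonempty Q] (Hd : K × Q → K × Q → ℝ) (hH : IsHad Hd) (g0 : K × Q) :
    OpLe (T0 Hd g0 : Matrix (Row K Q s) (Col K Q s) ℝ) (Real.sqrt (s * Fintype.card Q)) := by
  sorry

theorem RD_le [Nonempty Q] (Hd : K × Q → K × Q → ℝ) (hH : IsHad Hd) (g0 : K × Q) :
    OpLe (RD Hd g0 : Matrix (Row K Q s) (Col K Q s) ℝ)
      (Real.sqrt (Fintype.card (K × Q) + s * Real.sqrt (Fintype.card (K × Q)) +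
        s / Fintype.card Q)) := by
  sorry

theorem cross_le [Nonempty Q] (Hd : K × Q → K × Q → ℝ) (hH : IsHad Hd) (g0 : K × Q)
    (j : Row K Q s) :
    OpLe (restr (T0 Hd g0) (fun i => i ≠ j) (Bset g0 j)) 1 := by
  sorry

/-- lower bound: no matrix near `T0` almost commutes with all the systems -/
theorem lower [Nonempty Q] (Hd : K × Q → K × Q → ℝ) (hH : IsHad Hd) (g0 : K × Q)
    (hs : 1 ≤ s) (V : Matrix (Row K Q s) (Col K Q s) ℝ) (R : ℝ) (hR : 0 ≤ R)
    (h1 : OpLe (V - T0 Hd g0) (Real.sqrt (s * Fintype.card Q) / 4))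
    (h2 : ∀ j, OpLe (restr V (fun i => i ≠ j) (Bset g0 j)) R)
    (h3 : ∀ j, OpLe (restr V (fun i => i = j) (univ \ Bset g0 j)) R) :
    ((Fintype.card K : ℝ) - 1) * (3 / 4 - 1 / Fintype.card Q) ≤
      R * (Real.sqrt (Fintype.card K) + Fintype.card K / Real.sqrt s) := by
  sorry

end Lev

end KPC
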