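import Pool.Agent.KPC.Targets2
import Pool.Agent.KPC.Ptr

/-! Targets of project KPC, level 3 and higher.  Statements only. -/

open Finset BigOperators

namespace KPC

section Main

variable {J X Y Ω : Type} [Fintype J] [DecidableEq J] [Fintype X] [Fintype Y] [DecidableEq Y]
  [Fintype Ω] [DecidableEq Ω] {e : ℕ} {δ : ℝ} (w : WeylSys J X Y e δ) (S : J → Finset Ω)

/-- energy of the large part -/
theorem large_energy [Nonempty X] (hs : Small J Ω e δ) (F : Ω × Y → ℝ) (hF : nrm F ≤ 1) :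
    ∑ i ∈ LL w S F, nsq (Fi w S F i) ≤ 3 / 2 ∧
      nrm (∑ i ∈ LL w S F, Fi w S F i) ≤ 3 / 2 := by
  sorry

/-- fourth moment bound for the end point `-1/2` of the strip -/
theorem four_bound [Nonempty X] (hs : Small J Ω e δ) (F : Ω × Y → ℝ) (hF : nrm F ≤ 1)
    (κ : ℝ) (hκ : 0 ≤ κ) (hκ1 : κ ≤ 1) (μ : J × Y → ℝ)
    (hμ : ∀ i ∈ LL w S F, (κ + μ i) ^ 4 * aw w S F i ≤ 1)
    (G : Ω × Y → ℝ) (hG : G = κ • F + ∑ i ∈ LL w S F, μ i • Fi w S F i) :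
    ∑ x, ∑ σ, (qf w S x σ G G) ^ 2 ≤ 600 * (Fintype.card X * Fintype.card (CC J e)) := by
  sorry

theorem Phi_eq (F : Ω × Y → ℝ) :
    Phi w S F = ∑ i ∈ LL w S F, (Real.log (aw w S F i) / 2) • Fi w S F i := by
  sorry

/-- `L⁴` bound on the line `Re = -1/2` -/
theorem line_four [Nonempty X] (hs : Small J Ω e δ) (F : Ω × Y → ℝ) (hF : nrm F ≤ 1) (z : ℂ)
    (hz : z.re = -(1 / 4)) :
    ∑ ξ, ‖(Bop w S (F - ∑ i ∈ LL w S F, Fi w S F i) ξ : ℂ) +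
      ∑ i ∈ LL w S F, (aw w S F i : ℂ) ^ z * (Bop w S (Fi w S F i) ξ : ℂ)‖ ^ 4 ≤
      10 ^ 4 * Fintype.card (Xi J X Y Ω e) := by
  sorry

/-- `L¹` bound on the line `Re = 1` -/
theorem line_one [Nonempty X] (hs : Small J Ω e δ) (F : Ω × Y → ℝ) (hF : nrm F ≤ 1) (z : ℂ)
    (hz : z.re = 1 / 2) :
    ∑ ξ, ‖(Bop w S (F - ∑ i ∈ LL w S F, Fi w S F i) ξ : ℂ) +
      ∑ i ∈ LL w S F, (aw w S F i : ℂ) ^ z * (Bop w S (Fi w S F i) ξ : ℂ)‖ ≤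
      10 * Fintype.card (Xi J X Y Ω e) := by
  sorry

/-- the key estimate -/
theorem key_estimate [Nonempty X] (hs : Small J Ω e δ) (F : Ω × Y → ℝ) (hF : nrm F ≤ 1) :
    nrm (K1 (Fintype.card (Xi J X Y Ω e)) (Aop w S F) - Aop w S (Phi w S F)) ≤ 22 := by
  sorry

/-- the vector estimate behind `Phi_transfer` -/
theorem psi_transfer (he : 1 ≤ e) (u' : Matrix Ω Ω ℝ) (hu : OpLe u' 1) (p b : Ω → ℝ) (r : ℝ)
    (hr : r ≤ 1) (hp : nrm p ≤ r) (hb : nrm b ≤ r) (hd : nrm (b - u'.mulVec p) ≤ r / e) :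
    nrm (psi e b - u'.mulVec (psi e p)) ≤ 2 * r ∧
      (2 ^ e * r ^ 2 < 1 → psi e b - u'.mulVec (psi e p) = 0) := by
  sorry

theorem Phi_transfer [Nonempty X] (hs : Small J Ω e δ) (he : 1 ≤ e) (t u : Matrix Ω Ω ℝ)
    (ht : OpLe t 1) (hu : OpLe u 1)
    (htu : ∀ j, OpLe (t * dproj (S j) - dproj (S j) * u) (1 / e))
    (F : Ω × Y → ℝ) (hF : nrm F ≤ 1) :
    nrm (Phi w S ((tm Y t.transpose).mulVec F) - (tm Y u.transpose).mulVec (Phi w S F)) ≤ 3 := by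
  sorry

theorem Phi_ten [Nonempty X] (hs : Small J Ω e δ) (a : Ω → ℝ) (ha : nrm a ≤ 1) (j : J) (τ : Y) :
    nrm (Phi w S (ten a (w.φ j τ)) - Mlog e • ten ((dproj (S j)).mulVec a) (w.φ j τ)) ≤ 1 := by
  sorry

/-- the pair is compatible, with an absolute constant -/
theorem upper [Nonempty X] (hs : Small J Ω e δ) (he : 1 ≤ e) (t u : Matrix Ω Ω ℝ)
    (ht : OpLe t 1) (hu : OpLe u 1)
    (htu : ∀ j, OpLe (t * dproj (S j) - dproj (S j) * u) (1 / e))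
    (T U : Matrix (Xi J X Y Ω e) (Xi J X Y Ω e) ℝ)
    (hT : T = Amat w S * tm Y t * (Amat w S).transpose)
    (hU : U = Amat w S * tm Y u * (Amat w S).transpose) :
    Triv T U ((-(Real.log (Fintype.card (Xi J X Y Ω e)) / 2)) • (T - U)) 100 := by
  sorry

/-- partial trace in the basis `φ_j` -/
theorem ptr_eq (V : Matrix (Xi J X Y Ω e) (Xi J X Y Ω e) ℝ) (j : J) (a c : Ω → ℝ) :
    ip c ((ptr w S V).mulVec a) = (Fintype.card Y : ℝ)⁻¹ * ∑ τ,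
      ip (Aop w S (ten c (w.φ j τ))) (V.mulVec (Aop w S (ten a (w.φ j τ)))) := by
  sorry

theorem ptr_near [Nonempty X] [Nonempty Y] (j0 : J) (t : Matrix Ω Ω ℝ)
    (V : Matrix (Xi J X Y Ω e) (Xi J X Y Ω e) ℝ) (r : ℝ) (hr : 0 ≤ r)
    (h : OpLe (V - Amat w S * tm Y t * (Amat w S).transpose) r) : OpLe (ptr w S V - t) r := by
  sorry

/-- the test vectors -/
theorem ptr_test [Nonempty X] (hs : Small J Ω e δ)
    (V L' : Matrix (Xi J X Y Ω e) (Xi J X Y Ω e) ℝ) (B C : ℝ) (hB : 0 ≤ B) (hC : 0 ≤ C)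
    (hV : OpLe V B) (hL : Triv V V L' C) (j : J) (τ : Y) (a c : Ω → ℝ) (ha : nrm a = 1)
    (hc : nrm c = 1) :
    |Mlog e * (ip (Aop w S (ten c (w.φ j τ)))
        (V.mulVec (Aop w S (ten ((dproj (S j)).mulVec a) (w.φ j τ)))) -
      ip (Aop w S (ten ((dproj (S j)).mulVec c) (w.φ j τ)))
        (V.mulVec (Aop w S (ten a (w.φ j τ))))) -
      ip (Aop w S (ten c (w.φ j τ))) (L'.mulVec (Aop w S (ten a (w.φ j τ))))| ≤
      C + 48 * B := by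
  sorry

/-- a compatible `V` near `T` gives a `v` near `t` almost commuting with the `P_j` -/
theorem lower_bd [Nonempty X] [Nonempty Y] (hs : Small J Ω e δ) (he : 1 ≤ e) (j0 : J)
    (h0 : S j0 = ∅)
    (V L' : Matrix (Xi J X Y Ω e) (Xi J X Y Ω e) ℝ) (B C : ℝ) (hB : 0 ≤ B) (hC : 0 ≤ C)
    (hV : OpLe V B) (hL : Triv V V L' C) (j : J) :
    OpLe (ptr w S V * dproj (S j) - dproj (S j) * ptr w S V) ((6 * C + 300 * B) / e) := by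
  sorry

end Main

theorem realize {Ω J : Type} [Fintype Ω] [DecidableEq Ω] [Fintype J] [DecidableEq J]
    (S : J → Finset Ω) (j0 : J) (h0 : S j0 = ∅) (t u : Matrix Ω Ω ℝ) (e : ℕ) (he : 1 ≤ e)
    (ht : OpLe t 1) (hu : OpLe u 1)
    (htu : ∀ j, OpLe (t * dproj (S j) - dproj (S j) * u) (1 / e)) :
    ∃ (Ξ : Type) (_ : Fintype Ξ) (_ : Nonempty Ξ) (_ : DecidableEq Ξ) (T U L : Matrix Ξ Ξ ℝ),
      OpLe T 1 ∧ OpLe U 1 ∧ (∀ η, 0 ≤ η → OpLe (t - u) η → OpLe (T - U) η) ∧ Triv T U L 100 ∧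
      ∀ (V L' : Matrix Ξ Ξ ℝ) (B C : ℝ), 0 ≤ B → 0 ≤ C → OpLe V B → Triv V V L' C →
        ∃ v : Matrix Ω Ω ℝ, (∀ r, 0 ≤ r → OpLe (V - T) r → OpLe (v - t) r) ∧
          ∀ j, OpLe (v * dproj (S j) - dproj (S j) * v) ((6 * C + 300 * B) / e) := by
  sorry

theorem level_model (R η : ℝ) (hη : 0 < η) :
    ∃ (Ω J : Type) (_ : Fintype Ω) (_ : DecidableEq Ω) (_ : Fintype J) (_ : DecidableEq J)
      (S : J → Finset Ω) (j0 : J) (t u : Matrix Ω Ω ℝ) (e : ℕ), 1 ≤ e ∧ S j0 = ∅ ∧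
      OpLe t 1 ∧ OpLe u 1 ∧ OpLe (t - u) η ∧
      (∀ j, OpLe (t * dproj (S j) - dproj (S j) * u) (1 / e)) ∧
      ∀ v : Matrix Ω Ω ℝ, OpLe (v - t) (1 / 8) →
        ∃ j, ¬ OpLe (v * dproj (S j) - dproj (S j) * v) (R / e) := by
  sorry

/-- transport to `Fin D` -/
theorem triv_reindex {Ξ Ξ' : Type} [Fintype Ξ] [Fintype Ξ'] (f : Ξ ≃ Ξ') (T U L : Matrix Ξ Ξ ℝ)
    (C : ℝ) :
    Triv (T.reindex f f) (U.reindex f f) (L.reindex f f) C ↔ Triv T U L C := by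
  sorry

theorem opLe_reindex {Ξ Ξ' : Type} [Fintype Ξ] [Fintype Ξ'] (f : Ξ ≃ Ξ') (T : Matrix Ξ Ξ ℝ)
    (C : ℝ) : OpLe (T.reindex f f) C ↔ OpLe T C := by
  sorry

/-- the finite block theorem -/
theorem finite_block (R η : ℝ) (hη : 0 < η) :
    ∃ (D : ℕ) (T U L : Matrix (Fin D) (Fin D) ℝ), 0 < D ∧
      OpLe T 1 ∧ OpLe U 1 ∧ OpLe (T - U) η ∧ Triv T U L 100 ∧
      ∀ V L' : Matrix (Fin D) (Fin D) ℝ, OpLe (V - T) (1 / 8) → ¬ Triv V V L' R := by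
  sorry

end KPC
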