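import Pool.Agent.KPC.InfDefs

/-! Targets of project KPC, infinite dimensional part.  Statements only. -/

open Finset BigOperators

namespace KPC

section Blocks

variable {D : ℕ → ℕ} (E : ℕ ≃ Σ h, Fin (D h))

theorem memlp_iff_blk (f : ℕ → ℝ) : Memℓp f 2 ↔ Summable fun h => nsq (blk E f h) := by
  sorry

theorem norm_sq_blk (z : H) : ‖z‖ ^ 2 = ∑' h, nsq (blk E z h) := by
  sorry

theorem blk_bdiag (T : ∀ h, Matrix (Fin (D h)) (Fin (D h)) ℝ) (z : ℕ → ℝ) (h : ℕ) :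
    blk E (bdiag E T z) h = (T h).mulVec (blk E z h) := by
  sorry

/-- block diagonal contraction as an operator on `ℓ₂` -/
theorem bdiag_op (T : ∀ h, Matrix (Fin (D h)) (Fin (D h)) ℝ) (hT : ∀ h, OpLe (T h) 1) :
    ∃ T' : H →L[ℝ] H, (∀ z : H, ((T' z : H) : ℕ → ℝ) = bdiag E T z) ∧ ∀ z, ‖T' z‖ ≤ ‖z‖ := by
  sorry

theorem blk_kp (z : H) (h : ℕ) :
    blk E (kp z) h = kpf (blk E z h) + Real.log (nrm (blk E z h) / ‖z‖) • blk E z h := by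
  sorry

/-- the estimate in one block -/
theorem block_est {d : ℕ} (T U L : Matrix (Fin d) (Fin d) ℝ) (C η : ℝ) (hη : 0 ≤ η)
    (hU : OpLe U 1) (hTU : OpLe (T - U) η) (hC : Triv T U L C) (x : Fin d → ℝ)
    (N N' : ℝ) (hN : nrm x ≤ N) (hN' : nrm (U.mulVec x) ≤ N') (hNN : N' ≤ N) :
    nrm (T.mulVec (kpf x + Real.log (nrm x / N) • x) -
        (kpf (U.mulVec x) + Real.log (nrm (U.mulVec x) / N') • U.mulVec x) - L.mulVec x) ≤
      (C + 1) * nrm x + η * N + N / N' * nrm (U.mulVec x) := by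
  sorry

/-- the global estimate -/
theorem main_est (T U L : ∀ h, Matrix (Fin (D h)) (Fin (D h)) ℝ) (C : ℝ) (hC : 0 ≤ C)
    (hT : ∀ h, OpLe (T h) 1) (hU : ∀ h, OpLe (U h) 1)
    (hTU : ∀ h, OpLe (T h - U h) ((1 / 2) ^ h)) (hL : ∀ h, Triv (T h) (U h) (L h) C)
    (U' : H →L[ℝ] H) (hU' : ∀ z : H, ((U' z : H) : ℕ → ℝ) = bdiag E U z)
    (hU1 : ∀ z, ‖U' z‖ ≤ ‖z‖) (z : H) :
    ∃ hw : Memℓp (bdiag E T (kp z) - kp (U' z) - bdiag E L z) 2,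
      ‖(⟨bdiag E T (kp z) - kp (U' z) - bdiag E L z, hw⟩ : H)‖ ≤ 2 * (C + 3) * ‖z‖ := by
  sorry

/-- sufficient condition for compatibility -/
theorem compatible_of_est (T' U' : H →L[ℝ] H) (T1 L1 : (ℕ → ℝ) →ₗ[ℝ] (ℕ → ℝ))
    (hT : ∀ z : H, ((T' z : H) : ℕ → ℝ) = T1 z) (C : ℝ)
    (h : ∀ z : H, ∃ hw : Memℓp (T1 (kp z) - kp (U' z) - L1 z) 2,
      ‖(⟨T1 (kp z) - kp (U' z) - L1 z, hw⟩ : H)‖ ≤ C * ‖z‖) :
    Compatible T' U' := by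
  sorry

theorem blk_emb (h : ℕ) (x : Fin (D h) → ℝ) : blk E (emb E h x) h = x := by
  sorry

theorem norm_emb (h : ℕ) (x : Fin (D h) → ℝ) : ‖emb E h x‖ = nrm x := by
  sorry

theorem cmp_mulVec (V : H →L[ℝ] H) (h : ℕ) (x : Fin (D h) → ℝ) :
    (cmp E V h).mulVec x = blk E (V (emb E h x)) h := by
  sorry

theorem kp_emb (h : ℕ) (x : Fin (D h) → ℝ) : kp (emb E h x) = (emb E h (kpf x) : H) := by
  sorry

theorem compress_compact (K : H →L[ℝ] H) (hK : IsCompactOperator K) (ε : ℝ) (hε : 0 < ε) :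
    ∃ h0, ∀ h, h0 ≤ h → OpLe (cmp E K h) ε := by
  sorry

theorem triv_of_compatible (V : H →L[ℝ] H) (hV : Compatible V V) :
    ∃ C : ℝ, ∀ h, ∃ L' : Matrix (Fin (D h)) (Fin (D h)) ℝ, Triv (cmp E V h) (cmp E V h) L' C := by
  sorry

end Blocks

/-- the final assembly, from the finite block theorem -/
theorem final_of_blocks
    (hfin : ∃ C0 : ℝ, 0 ≤ C0 ∧ ∀ (R η : ℝ), 0 < η →
      ∃ (D : ℕ) (T U L : Matrix (Fin D) (Fin D) ℝ), 0 < D ∧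
      OpLe T 1 ∧ OpLe U 1 ∧ OpLe (T - U) η ∧ Triv T U L C0 ∧
      ∀ V L' : Matrix (Fin D) (Fin D) ℝ, OpLe (V - T) (1 / 8) → ¬ Triv V V L' R) :
    ∃ T U : H →L[ℝ] H, Compatible T U ∧
      ∀ K : H →L[ℝ] H, IsCompactOperator K → ¬ Compatible (T + K) (T + K) := by
  sorry

/-! ### sanity: `Z2` is the completion of `c₀₀ × c₀₀` -/

/-- finitely supported pairs are dense -/
theorem Z2_dense (w : Z2) (ε : ℝ) (hε : 0 < ε) :
    ∃ v : Z2, (Function.support v.1.1).Finite ∧ (Function.support (v.1.2 : ℕ → ℝ)).Finite ∧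
      qn (w - v) ≤ ε := by
  sorry

/-- `Z2` is complete for its quasi-norm -/
theorem Z2_complete (u : ℕ → Z2)
    (hu : ∀ ε : ℝ, 0 < ε → ∃ N, ∀ m n, N ≤ m → N ≤ n → qn (u m - u n) ≤ ε) :
    ∃ v : Z2, ∀ ε : ℝ, 0 < ε → ∃ N, ∀ n, N ≤ n → qn (u n - v) ≤ ε := by
  sorry

end KPC
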