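import Pool.Agent.KPC.WeylDefs

/-!
# The explicit Weyl system: `W 0 = 1`, `W (c + d) = W c * W d`, symmetry
-/

open Finset BigOperators

namespace KPC

namespace WBasic_

open WD

theorem dt_add_left {k : ℕ} (u v w : Fin k → ZMod 2) : dt (u + v) w = dt u w + dt v w := by
  unfold dt
  rw [← Finset.sum_add_distrib]
  exact Finset.sum_congr rfl fun i _ => by simp [add_mul]

theorem dt_add_right {k : ℕ} (u v w : Fin k → ZMod 2) : dt u (v + w) = dt u v + dt u w := by
  unfold dt
  rw [← Finset.sum_add_distrib]
  exact Finset.sum_congr rfl fun i _ => by simp [mul_add]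

theorem cmb_add {e m : ℕ} (c d : Fin e → ZMod 2) (z : Fin e → Fin m → ZMod 2) :
    cmb (c + d) z = cmb c z + cmb d z := by
  funext β
  unfold cmb
  rw [Pi.add_apply, ← Finset.sum_add_distrib]
  exact Finset.sum_congr rfl fun i _ => by simp [add_mul]

theorem app_add {e m : ℕ} (z : Fin e → Fin m → ZMod 2) (q r : Fin m → ZMod 2) :
    app z (q + r) = app z q + app z r := by
  funext α
  unfold app
  rw [Pi.add_apply, dt_add_right]

theorem dt_cmb {e m : ℕ} (c : Fin e → ZMod 2) (z : Fin e → Fin m → ZMod 2)
    (q : Fin m → ZMod 2) : dt (cmb c z) q = dt c (app z q) := by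
  unfold dt cmb app dt
  simp only [Finset.sum_mul, Finset.mul_sum]
  rw [Finset.sum_comm]
  exact Finset.sum_congr rfl fun i _ => Finset.sum_congr rfl fun j _ => by ring

section

variable {J : Type} [Fintype J] [DecidableEq J] {e m : ℕ}

theorem Qv_add (x : XX J e m) (c d : CC J e) (l : J) :
    Qv x (c + d) l = Qv x c l + Qv x d l := by
  unfold Qv
  rw [← Finset.sum_add_distrib]
  exact Finset.sum_congr rfl fun i _ => by rw [Pi.add_apply, cmb_add]

theorem bv_add (x : XX J e m) (c d : CC J e) : bv x (c + d) = bv x c + bv x d := by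
  funext l
  simp only [bv, Pi.add_apply, Prod.mk_add_mk]
  rw [Qv_add, app_add]

omit [Fintype J] [DecidableEq J] in
theorem av_add (x : XX J e m) (c d : CC J e) : av x (c + d) = av x c + av x d := by
  funext l
  simp only [av, Pi.add_apply, Prod.mk_add_mk]
  rw [cmb_add]

omit [DecidableEq J] in
theorem pr_add_left (a b y : YY J e m) : pr (a + b) y = pr a y + pr b y := by
  unfold pr
  rw [← Finset.sum_add_distrib]
  refine Finset.sum_congr rfl fun l _ => ?_
  simp only [Pi.add_apply, Prod.fst_add, Prod.snd_add]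
  rw [dt_add_left, dt_add_left]
  ring

omit [DecidableEq J] in
theorem pr_add_right (a y z : YY J e m) : pr a (y + z) = pr a y + pr a z := by
  unfold pr
  rw [← Finset.sum_add_distrib]
  refine Finset.sum_congr rfl fun l _ => ?_
  simp only [Pi.add_apply, Prod.fst_add, Prod.snd_add]
  rw [dt_add_right, dt_add_right]
  ring

theorem pr_av_bv (x : XX J e m) (c d : CC J e) : pr (av x d) (bv x c) = 0 := by
  unfold pr av bv
  refine Finset.sum_eq_zero fun l _ => ?_
  simp only
  rw [dt_cmb]
  exact CharTwo.add_self_eq_zero _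

theorem Qv_zero (x : XX J e m) (l : J) : Qv x (0 : CC J e) l = 0 := by
  have h := Qv_add x 0 0 l
  rw [add_zero] at h
  exact (add_eq_left.mp h.symm)

theorem bv_zero (x : XX J e m) : bv x (0 : CC J e) = 0 := by
  have h := bv_add x 0 0
  rw [add_zero] at h
  exact (add_eq_left.mp h.symm)

omit [Fintype J] [DecidableEq J] in
theorem av_zero (x : XX J e m) : av x (0 : CC J e) = 0 := by
  have h := av_add x 0 0
  rw [add_zero] at h
  exact (add_eq_left.mp h.symm)

omit [DecidableEq J] in
theorem pr_zero_left (y : YY J e m) : pr 0 y = 0 := by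
  have h := pr_add_left 0 0 y
  rw [add_zero] at h
  exact (add_eq_left.mp h.symm)

omit [Fintype J] [DecidableEq J] in
theorem YY_add_self (b : YY J e m) : b + b = 0 := by
  funext l
  refine Prod.ext ?_ ?_
  · funext i
    exact CharTwo.add_self_eq_zero _
  · funext i
    exact CharTwo.add_self_eq_zero _

end

end WBasic_

namespace WD

variable {J : Type} [Fintype J] [DecidableEq J] {e m : ℕ}

theorem Wm_zero (x : XX J e m) : Wm x 0 = 1 := by
  ext y y'
  unfold Wm
  rw [WBasic_.bv_zero, WBasic_.av_zero, WBasic_.pr_zero_left, sg_zero, add_zero, Matrix.one_apply]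
  by_cases h : y = y'
  · rw [if_pos h.symm, if_pos h]
  · rw [if_neg (fun h' => h h'.symm), if_neg h]

theorem Wm_add (x : XX J e m) (c d : CC J e) : Wm x (c + d) = Wm x c * Wm x d := by
  ext y y''
  rw [Matrix.mul_apply, Finset.sum_eq_single (y + bv x c)]
  · unfold Wm
    rw [if_pos rfl, WBasic_.bv_add, WBasic_.av_add, ← add_assoc]
    by_cases h : y'' = y + bv x c + bv x d
    · rw [if_pos h, if_pos h, WBasic_.pr_add_left, sg_add, WBasic_.pr_add_right,
        WBasic_.pr_av_bv, add_zero]
    · rw [if_neg h, if_neg h, mul_zero]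
  · intro y' _ h
    unfold Wm
    rw [if_neg h, zero_mul]
  · intro h
    exact absurd (Finset.mem_univ _) h

theorem Wm_symm (x : XX J e m) (c : CC J e) : (Wm x c).transpose = Wm x c := by
  ext y y'
  rw [Matrix.transpose_apply]
  unfold Wm
  by_cases h : y' = y + bv x c
  · have h' : y = y' + bv x c := by
      rw [h, add_assoc, WBasic_.YY_add_self, add_zero]
    rw [if_pos h, if_pos h']
    rw [h, WBasic_.pr_add_right, WBasic_.pr_av_bv, add_zero]
  · have h' : ¬ y = y' + bv x c := by
      intro h'
      apply h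
      rw [h', add_assoc, WBasic_.YY_add_self, add_zero]
    rw [if_neg h, if_neg h']

end WD

end KPC
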