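import Pool.Agent.KPC.WeylDefs

/-!
# KPC: collision probability of the labels (job KPC-D4, helper79)
-/

set_option autoImplicit false

open Finset BigOperators

namespace KPC.WColl_

open KPC.WD

variable {J : Type} [Fintype J] [DecidableEq J] {e m : ℕ}

theorem cnt {X G : Type} [Fintype X] [Fintype G] (E : Finset X) (T : G → X → X)
    (h : ∀ g g' : G, ∀ x ∈ E, ∀ x' ∈ E, T g x = T g' x' → g = g' ∧ x = x') :
    Fintype.card G * E.card ≤ Fintype.card X := by
  classical
  have h1 : (univ ×ˢ E : Finset (G × X)).card ≤ (univ : Finset X).card := by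
    refine Finset.card_le_card_of_injOn (fun p => T p.1 p.2) (fun _ _ => mem_univ _) ?_
    rintro ⟨g, x⟩ hx ⟨g', x'⟩ hx' hT
    have hx1 := (Finset.mem_product.1 (Finset.mem_coe.1 hx)).2
    have hx2 := (Finset.mem_product.1 (Finset.mem_coe.1 hx')).2
    obtain ⟨h3, h4⟩ := h g g' x hx1 x' hx2 hT
    rw [h3, h4]
  rw [Finset.card_product] at h1
  exact h1

theorem dt_add_left {k : ℕ} (u u' v : Fin k → ZMod 2) : dt (u + u') v = dt u v + dt u' v := by
  simp only [dt, Pi.add_apply, add_mul, Finset.sum_add_distrib]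

theorem dt_add_right {k : ℕ} (u v v' : Fin k → ZMod 2) : dt u (v + v') = dt u v + dt u v' := by
  simp only [dt, Pi.add_apply, mul_add, Finset.sum_add_distrib]

theorem dt_mul {k : ℕ} (c : ZMod 2) (u v : Fin k → ZMod 2) :
    dt (fun β => c * u β) v = c * dt u v := by
  simp only [dt, mul_assoc, Finset.mul_sum]

theorem exists_dt {k : ℕ} {v : Fin k → ZMod 2} (hv : v ≠ 0) : ∃ u, dt u v = 1 := by
  obtain ⟨β, hβ⟩ := Function.ne_iff.1 hv
  refine ⟨Pi.single β 1, ?_⟩
  have h1 : v β = 1 := by
    have h2 : ∀ z : ZMod 2, z ≠ 0 → z = 1 := by decide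
    exact h2 _ hβ
  unfold dt
  rw [Finset.sum_eq_single β]
  · rw [Pi.single_eq_same, one_mul, h1]
  · intro b _ hb
    rw [Pi.single_eq_of_ne hb, zero_mul]
  · intro h
    exact absurd (mem_univ β) h

/-- a vector with product one, if there is one -/
noncomputable def us {k : ℕ} (v : Fin k → ZMod 2) : Fin k → ZMod 2 :=
  Classical.epsilon fun u => dt u v = 1

theorem us_spec {k : ℕ} {v : Fin k → ZMod 2} (hv : v ≠ 0) : dt (us v) v = 1 :=
  Classical.epsilon_spec (p := fun u => dt u v = 1) (exists_dt hv)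

/-- change of the parameter at the position `(j, l)` -/
def sft (j l : J) (z : Fin e → Fin m → ZMod 2) (x : XX J e m) : XX J e m :=
  fun j' l' => if j' = j ∧ l' = l then x j' l' + z else x j' l'

theorem sft_same (j l : J) (z : Fin e → Fin m → ZMod 2) (x : XX J e m) :
    sft j l z x j l = x j l + z := if_pos ⟨rfl, rfl⟩

theorem sft_ne (j l : J) (z : Fin e → Fin m → ZMod 2) (x : XX J e m) {j' l' : J}
    (h : ¬ (j' = j ∧ l' = l)) : sft j l z x j' l' = x j' l' := if_neg h

theorem sft_inj {j l : J} {z : Fin e → Fin m → ZMod 2} {x x' : XX J e m}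
    (h : sft j l z x = sft j l z x') : x = x' := by
  funext j' l'
  have h1 := congrFun (congrFun h j') l'
  by_cases hjl : j' = j ∧ l' = l
  · obtain ⟨rfl, rfl⟩ := hjl
    rw [sft_same, sft_same] at h1
    exact add_right_cancel h1
  · rwa [sft_ne j l z x hjl, sft_ne j l z x' hjl] at h1

theorem cmb_add (c c' : Fin e → ZMod 2) (z : Fin e → Fin m → ZMod 2) :
    cmb (c + c') z = cmb c z + cmb c' z := by
  funext β
  simp only [cmb, Pi.add_apply, add_mul, Finset.sum_add_distrib]

theorem hh_add (x : XX J e m) (j : J) (τ τ' : YY J e m) :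
    hh x j (τ + τ') = hh x j τ + hh x j τ' := by
  funext α
  have h : ∀ l, dt (x j l α) (cmb ((τ + τ') l).1 (x l l) + ((τ + τ') l).2) =
      dt (x j l α) (cmb (τ l).1 (x l l) + (τ l).2) +
        dt (x j l α) (cmb (τ' l).1 (x l l) + (τ' l).2) := by
    intro l
    rw [← dt_add_right, Pi.add_apply, Prod.fst_add, Prod.snd_add, cmb_add]
    congr 1
    abel
  show ((τ + τ') j).1 α + dt (x j j α) ((τ + τ') j).2 +
    ∑ l ∈ univ.erase j, dt (x j l α) (cmb ((τ + τ') l).1 (x l l) + ((τ + τ') l).2) =
    ((τ j).1 α + dt (x j j α) (τ j).2 +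
      ∑ l ∈ univ.erase j, dt (x j l α) (cmb (τ l).1 (x l l) + (τ l).2)) +
    ((τ' j).1 α + dt (x j j α) (τ' j).2 +
      ∑ l ∈ univ.erase j, dt (x j l α) (cmb (τ' l).1 (x l l) + (τ' l).2))
  rw [Finset.sum_congr rfl fun l _ => h l, Finset.sum_add_distrib, Pi.add_apply, Prod.fst_add,
    Prod.snd_add, dt_add_right, Pi.add_apply]
  abel

theorem z2_eq {a b : ZMod 2} : a + b = 0 ↔ a = b := by
  revert a b
  decide

theorem eq_iff (x : XX J e m) (j : J) (τ τ' : YY J e m) :
    hh x j τ = hh x j τ' ↔ hh x j (τ + τ') = 0 := by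
  rw [hh_add, funext_iff, funext_iff]
  exact forall_congr' fun α => z2_eq.symm

theorem add_ne {τ τ' : YY J e m} (h : τ ≠ τ') : τ + τ' ≠ 0 := by
  intro h0
  apply h
  funext l
  have h1 := congrFun h0 l
  rw [Pi.add_apply] at h1
  apply Prod.ext
  · funext α
    have h2 := congrFun (congrArg Prod.fst h1) α
    exact z2_eq.1 h2
  · funext β
    have h2 := congrFun (congrArg Prod.snd h1) β
    exact z2_eq.1 h2

/-- first case -/
theorem case1 (j : J) {d : YY J e m} (hd : (d j).2 ≠ 0) :
    2 ^ e * (univ.filter fun x : XX J e m => hh x j d = 0).card ≤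
      Fintype.card (XX J e m) := by
  have hc : Fintype.card (Fin e → ZMod 2) = 2 ^ e := by simp [ZMod.card]
  rw [← hc]
  have key : ∀ (g : Fin e → ZMod 2) (x : XX J e m),
      hh (sft j j (fun α β => g α * us (d j).2 β) x) j d = hh x j d + g := by
    intro g x
    funext α
    show (d j).1 α + dt (sft j j (fun α β => g α * us (d j).2 β) x j j α) (d j).2 +
      ∑ l ∈ univ.erase j, dt (sft j j (fun α β => g α * us (d j).2 β) x j l α)
        (cmb (d l).1 (sft j j (fun α β => g α * us (d j).2 β) x l l) + (d l).2) =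
      ((d j).1 α + dt (x j j α) (d j).2 +
      ∑ l ∈ univ.erase j, dt (x j l α) (cmb (d l).1 (x l l) + (d l).2)) + g α
    have h1 : ∀ l ∈ univ.erase j, dt (sft j j (fun α β => g α * us (d j).2 β) x j l α)
        (cmb (d l).1 (sft j j (fun α β => g α * us (d j).2 β) x l l) + (d l).2) =
        dt (x j l α) (cmb (d l).1 (x l l) + (d l).2) := by
      intro l hl
      have hlj : l ≠ j := (Finset.mem_erase.1 hl).1
      rw [sft_ne _ _ _ _ (fun h => hlj h.2), sft_ne _ _ _ _ (fun h => hlj h.2)]
    rw [Finset.sum_congr rfl h1, sft_same, Pi.add_apply, dt_add_left]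
    have h2 : dt ((fun α β => g α * us (d j).2 β : Fin e → Fin m → ZMod 2) α) (d j).2 = g α := by
      show dt (fun β => g α * us (d j).2 β) (d j).2 = g α
      rw [dt_mul, us_spec hd, mul_one]
    rw [h2]
    abel
  refine cnt _ (fun g x => sft j j (fun α β => g α * us (d j).2 β) x) ?_
  intro g g' x hx x' hx' hT
  have hx1 := (Finset.mem_filter.1 hx).2
  have hx2 := (Finset.mem_filter.1 hx').2
  have h3 := congrArg (fun y => hh y j d) hT
  simp only [key, hx1, hx2, zero_add] at h3
  subst h3
  exact ⟨rfl, sft_inj hT⟩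

/-- second case: the label changes -/
theorem case2 (j l : J) (hlj : l ≠ j) {d : YY J e m} :
    2 ^ e * (univ.filter fun x : XX J e m =>
      hh x j d = 0 ∧ cmb (d l).1 (x l l) + (d l).2 ≠ 0).card ≤ Fintype.card (XX J e m) := by
  have hc : Fintype.card (Fin e → ZMod 2) = 2 ^ e := by simp [ZMod.card]
  rw [← hc]
  obtain ⟨vv, hvv⟩ : ∃ vv : XX J e m → (Fin m → ZMod 2),
    vv = fun x => cmb (d l).1 (x l l) + (d l).2 := ⟨_, rfl⟩
  have hv0 : ∀ x : XX J e m, cmb (d l).1 (x l l) + (d l).2 = vv x := fun x => by rw [hvv]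
  have hvs : ∀ z (x : XX J e m), vv (sft j l z x) = vv x := by
    intro z x
    rw [hvv]
    show cmb (d l).1 (sft j l z x l l) + (d l).2 = _
    rw [sft_ne _ _ _ _ (fun h => hlj h.1)]
  have key : ∀ (g : Fin e → ZMod 2) (x : XX J e m), vv x ≠ 0 →
      hh (sft j l (fun α β => g α * us (vv x) β) x) j d = hh x j d + g := by
    intro g x hx
    funext α
    show (d j).1 α + dt (sft j l (fun α β => g α * us (vv x) β) x j j α) (d j).2 +
      ∑ l' ∈ univ.erase j, dt (sft j l (fun α β => g α * us (vv x) β) x j l' α)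
        (cmb (d l').1 (sft j l (fun α β => g α * us (vv x) β) x l' l') + (d l').2) =
      ((d j).1 α + dt (x j j α) (d j).2 +
      ∑ l' ∈ univ.erase j, dt (x j l' α) (cmb (d l').1 (x l' l') + (d l').2)) + g α
    have h0 : l ∈ univ.erase j := Finset.mem_erase.2 ⟨hlj, mem_univ l⟩
    rw [← Finset.add_sum_erase _ _ h0, ← Finset.add_sum_erase _ _ h0]
    have h1 : ∀ l' ∈ (univ.erase j).erase l,
        dt (sft j l (fun α β => g α * us (vv x) β) x j l' α)
        (cmb (d l').1 (sft j l (fun α β => g α * us (vv x) β) x l' l') + (d l').2) =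
        dt (x j l' α) (cmb (d l').1 (x l' l') + (d l').2) := by
      intro l' hl'
      have hl1 : l' ≠ l := (Finset.mem_erase.1 hl').1
      rw [sft_ne _ _ _ _ (fun h => hl1 h.2), sft_ne _ _ _ _ (fun h => hl1 h.2)]
    rw [Finset.sum_congr rfl h1, sft_same, sft_ne j l _ x (fun h => hlj h.2.symm),
      sft_ne j l _ x (fun h => hlj h.1), Pi.add_apply, dt_add_left, hv0]
    have h2 : dt ((fun α β => g α * us (vv x) β : Fin e → Fin m → ZMod 2) α) (vv x) = g α := by
      show dt (fun β => g α * us (vv x) β) (vv x) = g α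
      rw [dt_mul, us_spec hx, mul_one]
    rw [h2]
    abel
  refine cnt _ (fun g x => sft j l (fun α β => g α * us (vv x) β) x) ?_
  intro g g' x hx x' hx' hT
  obtain ⟨hx1, hx3⟩ := (Finset.mem_filter.1 hx).2
  obtain ⟨hx2, hx4⟩ := (Finset.mem_filter.1 hx').2
  rw [hv0] at hx3 hx4
  have h3 := congrArg (fun y => hh y j d) hT
  simp only [key _ _ hx3, key _ _ hx4, hx1, hx2, zero_add] at h3
  have h4 := congrArg vv hT
  simp only [hvs] at h4
  subst h3
  refine ⟨rfl, ?_⟩
  simp only [h4] at hT
  exact sft_inj hT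

/-- second case: the exceptional set -/
theorem case3 (l : J) {d : YY J e m} (hd : d l ≠ 0) :
    2 ^ m * (univ.filter fun x : XX J e m => cmb (d l).1 (x l l) + (d l).2 = 0).card ≤
      Fintype.card (XX J e m) := by
  by_cases h0 : (d l).1 = 0
  · have h1 : (univ.filter fun x : XX J e m => cmb (d l).1 (x l l) + (d l).2 = 0) = ∅ := by
      rw [Finset.filter_eq_empty_iff]
      intro x _ hx
      rw [h0] at hx
      have h2 : cmb (0 : Fin e → ZMod 2) (x l l) = 0 := by
        funext β
        simp [cmb]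
      rw [h2, zero_add] at hx
      exact hd (Prod.ext h0 hx)
    rw [h1]
    simp
  · have hc : Fintype.card (Fin m → ZMod 2) = 2 ^ m := by simp [ZMod.card]
    rw [← hc]
    obtain ⟨u, hu⟩ := exists_dt h0
    have key : ∀ (g : Fin m → ZMod 2) (x : XX J e m),
        cmb (d l).1 (sft l l (fun α β => u α * g β) x l l) + (d l).2 =
          cmb (d l).1 (x l l) + (d l).2 + g := by
      intro g x
      rw [sft_same]
      have h1 : cmb (d l).1 (x l l + fun α β => u α * g β) = cmb (d l).1 (x l l) + g := by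
        funext β
        have h2 : ∑ α, (d l).1 α * (u α * g β) = g β := by
          have h3 : ∑ α, u α * (d l).1 α = 1 := hu
          calc ∑ α, (d l).1 α * (u α * g β) = (∑ α, u α * (d l).1 α) * g β := by
                rw [Finset.sum_mul]
                exact Finset.sum_congr rfl fun α _ => by ring
            _ = g β := by rw [h3, one_mul]
        simp only [cmb, Pi.add_apply, mul_add, Finset.sum_add_distrib, h2]
      rw [h1]
      abel
    refine cnt _ (fun g x => sft l l (fun α β => u α * g β) x) ?_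
    intro g g' x hx x' hx' hT
    have hx1 := (Finset.mem_filter.1 hx).2
    have hx2 := (Finset.mem_filter.1 hx').2
    have h3 := congrArg (fun y : XX J e m => cmb (d l).1 (y l l) + (d l).2) hT
    simp only [key, hx1, hx2, zero_add] at h3
    subst h3
    exact ⟨rfl, sft_inj hT⟩

end KPC.WColl_

namespace KPC

namespace WD

variable {J : Type} [Fintype J] [DecidableEq J] {e m : ℕ}

open KPC.WColl_ in
theorem hh_coll (j : J) (τ τ' : YY J e m) (h : τ ≠ τ') :
    ((univ.filter fun x : XX J e m => hh x j τ = hh x j τ').card : ℝ) ≤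
      (1 / 2 ^ e + 1 / 2 ^ m) * Fintype.card (XX J e m) := by
  obtain ⟨d, hd⟩ : ∃ d, d = τ + τ' := ⟨_, rfl⟩
  have hd0 : d ≠ 0 := hd ▸ add_ne h
  have hE : (univ.filter fun x : XX J e m => hh x j τ = hh x j τ') =
      univ.filter fun x : XX J e m => hh x j d = 0 := by
    ext x
    simp only [Finset.mem_filter, Finset.mem_univ, true_and]
    rw [eq_iff, hd]
  rw [hE]
  have hpe : (0 : ℝ) < 2 ^ e := by positivity
  have hpm : (0 : ℝ) < 2 ^ m := by positivity
  have hX : (0 : ℝ) ≤ Fintype.card (XX J e m) := Nat.cast_nonneg _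
  have toR : ∀ (k c : ℕ), 2 ^ k * c ≤ Fintype.card (XX J e m) →
      (c : ℝ) ≤ 1 / 2 ^ k * Fintype.card (XX J e m) := by
    intro k c hc
    have h1 : (2 : ℝ) ^ k * c ≤ Fintype.card (XX J e m) := by exact_mod_cast hc
    have h2 : (0 : ℝ) < 2 ^ k := by positivity
    rw [one_div, ← div_eq_inv_mul, le_div_iff₀ h2]
    linarith
  by_cases h1 : (d j).2 = 0
  · by_cases h2 : ∃ l, l ≠ j ∧ d l ≠ 0
    · obtain ⟨l, hlj, hl⟩ := h2
      have h3 := toR e _ (case2 (e := e) (m := m) j l hlj (d := d))
      have h4 := toR m _ (case3 (e := e) (m := m) l hl)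
      have h5 : (univ.filter fun x : XX J e m => hh x j d = 0).card ≤
          (univ.filter fun x : XX J e m =>
            hh x j d = 0 ∧ cmb (d l).1 (x l l) + (d l).2 ≠ 0).card +
          (univ.filter fun x : XX J e m => cmb (d l).1 (x l l) + (d l).2 = 0).card := by
        refine (Finset.card_le_card ?_).trans (Finset.card_union_le _ _)
        intro x hx
        rw [Finset.mem_union, Finset.mem_filter, Finset.mem_filter]
        by_cases h6 : cmb (d l).1 (x l l) + (d l).2 = 0
        · exact Or.inr ⟨mem_univ _, h6⟩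
        · exact Or.inl ⟨mem_univ _, (Finset.mem_filter.1 hx).2, h6⟩
      have h6 : ((univ.filter fun x : XX J e m => hh x j d = 0).card : ℝ) ≤
          ((univ.filter fun x : XX J e m =>
            hh x j d = 0 ∧ cmb (d l).1 (x l l) + (d l).2 ≠ 0).card : ℝ) +
          ((univ.filter fun x : XX J e m => cmb (d l).1 (x l l) + (d l).2 = 0).card : ℝ) := by
        exact_mod_cast h5
      rw [add_mul]
      linarith
    · push Not at h2
      have h3 : (univ.filter fun x : XX J e m => hh x j d = 0) = ∅ := by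
        rw [Finset.filter_eq_empty_iff]
        intro x _ hx
        apply hd0
        funext l
        by_cases hlj : l = j
        · subst hlj
          refine Prod.ext ?_ h1
          funext α
          have h4 := congrFun hx α
          have h5 : hh x l d α = (d l).1 α := by
            show (d l).1 α + dt (x l l α) (d l).2 +
              ∑ l' ∈ univ.erase l, dt (x l l' α) (cmb (d l').1 (x l' l') + (d l').2) = (d l).1 α
            rw [h1]
            have h6 : ∀ l' ∈ univ.erase l,
                dt (x l l' α) (cmb (d l').1 (x l' l') + (d l').2) = 0 := by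
              intro l' hl'
              rw [h2 l' (Finset.mem_erase.1 hl').1]
              simp [dt, cmb]
            rw [Finset.sum_eq_zero h6]
            simp [dt]
          rw [← h5]
          exact h4
        · exact h2 l hlj
      rw [h3]
      simp only [Finset.card_empty, Nat.cast_zero]
      positivity
  · have h3 := toR e _ (case1 (e := e) (m := m) j h1)
    rw [add_mul]
    have h4 : (0 : ℝ) ≤ 1 / 2 ^ m * Fintype.card (XX J e m) := by positivity
    linarith

end WD

end KPC
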