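import Pool.Agent.KPC.WeylDefs

/-! # Project KPC: the bases `φ j` are nearly mutually unbiased -/

open Finset BigOperators

namespace KPC

namespace WD

variable {J : Type} [Fintype J] [DecidableEq J] {e m : ℕ}

namespace WMub_

/-- prescribing two different coordinates divides the number of points by `|E|²` -/
private theorem card_two (j l : J) (hjl : j ≠ l)
    (s t : (Fin e → ZMod 2) × (Fin m → ZMod 2)) :
    (univ.filter fun y : YY J e m => y j = s ∧ y l = t).card *
      (Fintype.card ((Fin e → ZMod 2) × (Fin m → ZMod 2)) *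
        Fintype.card ((Fin e → ZMod 2) × (Fin m → ZMod 2))) ≤ Fintype.card (YY J e m) := by
  have h1 : (univ.filter fun y : YY J e m => y j = s ∧ y l = t).card *
      (Fintype.card ((Fin e → ZMod 2) × (Fin m → ZMod 2)) *
        Fintype.card ((Fin e → ZMod 2) × (Fin m → ZMod 2))) =
      ((univ.filter fun y : YY J e m => y j = s ∧ y l = t) ×ˢ
        ((univ : Finset ((Fin e → ZMod 2) × (Fin m → ZMod 2))) ×ˢ
          (univ : Finset ((Fin e → ZMod 2) × (Fin m → ZMod 2))))).card := by
    rw [Finset.card_product, Finset.card_product]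
    rfl
  rw [h1, ← Finset.card_univ]
  refine Finset.card_le_card_of_injOn
    (fun p => Function.update (Function.update p.1 j p.2.1) l p.2.2) (fun _ _ => mem_univ _) ?_
  rintro ⟨y, u, v⟩ hy ⟨y', u', v'⟩ hy' heq
  simp only [Finset.coe_product, Set.mem_prod, Finset.mem_coe, Finset.mem_filter,
    Finset.mem_univ, true_and, and_true] at hy hy'
  simp only at heq
  have hl := congrFun heq l
  have hj := congrFun heq j
  simp only [Function.update_self] at hl
  rw [Function.update_of_ne hjl, Function.update_of_ne hjl, Function.update_self,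
    Function.update_self] at hj
  have hyy : y = y' := by
    funext i
    by_cases hil : i = l
    · subst hil
      rw [hy.2, hy'.2]
    by_cases hij : i = j
    · subst hij
      rw [hy.1, hy'.1]
    have := congrFun heq i
    simpa [Function.update_of_ne hil, Function.update_of_ne hij] using this
  rw [hyy, hj, hl]

private theorem card_E :
    (Fintype.card ((Fin e → ZMod 2) × (Fin m → ZMod 2)) : ℝ) = 2 ^ (e + m) := by
  rw [Fintype.card_prod, Fintype.card_fun, Fintype.card_fun, ZMod.card, Fintype.card_fin,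
    Fintype.card_fin, pow_add]
  push_cast
  ring

private theorem card_YY : (Fintype.card (YY J e m) : ℝ) = (2 ^ (e + m)) ^ Fintype.card J := by
  rw [Fintype.card_fun, Nat.cast_pow, card_E]

private theorem abs_sg (a : ZMod 2) : |sg a| = 1 := by
  unfold sg
  split_ifs <;> simp

private theorem abs_phi (j : J) (τ y : YY J e m) :
    |phi j τ y| = if y j = τ j then
      (Real.sqrt (((2 : ℝ) ^ (e + m)) ^ (Fintype.card J - 1)))⁻¹ else 0 := by
  unfold phi
  split_ifs with h
  · rw [abs_mul, abs_sg, mul_one, abs_of_nonneg (by positivity)]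
  · simp

end WMub_

theorem phi_mub (x : XX J e m) (c : CC J e) (j l : J) (hjl : j ≠ l) (τ τ' : YY J e m) :
    |ip (phi j τ) ((Wm x c).mulVec (phi l τ'))| ≤ 1 / 2 ^ (e + m) := by
  have hW : ∀ y, (Wm x c).mulVec (phi l τ') y =
      sg (pr (av x c) y) * phi l τ' (y + bv x c) := by
    intro y
    simp only [Matrix.mulVec, dotProduct, Wm, ite_mul, zero_mul]
    rw [Finset.sum_ite_eq' univ (y + bv x c)]
    simp
  set r : ℝ := (Real.sqrt (((2 : ℝ) ^ (e + m)) ^ (Fintype.card J - 1)))⁻¹ with hr
  have hrr : r * r = (((2 : ℝ) ^ (e + m)) ^ (Fintype.card J - 1))⁻¹ := by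
    rw [hr, ← mul_inv, Real.mul_self_sqrt (by positivity)]
  have hterm : ∀ y, |phi j τ y * ((Wm x c).mulVec (phi l τ')) y| =
      if y j = τ j ∧ y l = τ' l - bv x c l then r * r else 0 := by
    intro y
    rw [hW, abs_mul, abs_mul, WMub_.abs_sg, one_mul, WMub_.abs_phi, WMub_.abs_phi, ← hr]
    have hiff : (y + bv x c) l = τ' l ↔ y l = τ' l - bv x c l := by
      rw [Pi.add_apply, eq_sub_iff_add_eq]
    by_cases h1 : y j = τ j
    · by_cases h2 : y l = τ' l - bv x c l
      · rw [if_pos h1, if_pos (hiff.2 h2), if_pos ⟨h1, h2⟩]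
      · have hn : ¬ (y j = τ j ∧ y l = τ' l - bv x c l) := fun h => h2 h.2
        have hn' : ¬ (y + bv x c) l = τ' l := fun h => h2 (hiff.1 h)
        rw [if_neg hn, if_neg hn', mul_zero]
    · have hn : ¬ (y j = τ j ∧ y l = τ' l - bv x c l) := fun h => h1 h.1
      rw [if_neg hn, if_neg h1, zero_mul]
  have hsum : |ip (phi j τ) ((Wm x c).mulVec (phi l τ'))| ≤
      ((univ.filter fun y : YY J e m => y j = τ j ∧ y l = τ' l - bv x c l).card : ℝ) *
        (r * r) := by
    unfold ip
    refine (Finset.abs_sum_le_sum_abs _ _).trans ?_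
    rw [Finset.sum_congr rfl (fun y _ => hterm y), ← Finset.sum_filter, Finset.sum_const,
      nsmul_eq_mul]
  refine hsum.trans ?_
  have hcard := WMub_.card_two (e := e) (m := m) j l hjl (τ j) (τ' l - bv x c l)
  have hcard' : ((univ.filter fun y : YY J e m => y j = τ j ∧ y l = τ' l - bv x c l).card : ℝ) *
      ((2 : ℝ) ^ (e + m) * 2 ^ (e + m)) ≤ (2 ^ (e + m)) ^ Fintype.card J := by
    rw [← WMub_.card_YY, ← WMub_.card_E]
    exact_mod_cast hcard
  have hJ : 1 ≤ Fintype.card J := Fintype.card_pos_iff.2 ⟨j⟩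
  have hpow : ((2 : ℝ) ^ (e + m)) ^ Fintype.card J =
      (2 ^ (e + m)) ^ (Fintype.card J - 1) * 2 ^ (e + m) := by
    rw [← pow_succ, Nat.sub_add_cancel hJ]
  rw [hpow, ← mul_assoc] at hcard'
  have hq : (0 : ℝ) < 2 ^ (e + m) := by positivity
  have hcard2 := le_of_mul_le_mul_right hcard' hq
  have hP : (0 : ℝ) < (2 ^ (e + m)) ^ (Fintype.card J - 1) := by positivity
  rw [hrr, ← div_eq_mul_inv, div_le_div_iff₀ hP hq, one_mul]
  exact hcard2

end WD

end KPC
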