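import Pool.Agent.KPC.WeylDefs

/-!
# KPC: cardinality of the fibres of `x ↦ (a, b)`
-/

set_option linter.unusedSectionVars false

open Finset BigOperators

namespace KPC.WFiber_

open KPC KPC.WD

variable {J : Type} [Fintype J] [DecidableEq J] {e m : ℕ}

/-- the row used for the column `i` -/
def sel (j l i : J) : J := if i = j then l else j

/-- the position in the row -/
def al (αj αl : Fin e) (j j' : J) : Fin e := if j' = j then αj else αl

/-- the translation -/
def DD (j l : J) (αj αl : Fin e) (w : (J → Fin m → ZMod 2) × (Fin m → ZMod 2) × (Fin m → ZMod 2)) :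
    XX J e m := fun j' i α β =>
  (if j' = sel j l i ∧ α = al αj αl j j' then w.1 i β else 0) +
    (if j' = j ∧ i = j ∧ α = αj then w.2.1 β else 0) +
    (if j' = l ∧ i = l ∧ α = αl then w.2.2 β else 0)

lemma cmb_add (c : Fin e → ZMod 2) (z z' : Fin e → Fin m → ZMod 2) :
    cmb c (z + z') = cmb c z + cmb c z' := by
  funext β
  simp only [cmb, Pi.add_apply, mul_add, Finset.sum_add_distrib]

lemma Qv_add (x x' : XX J e m) (c : CC J e) (i : J) : Qv (x + x') c i = Qv x c i + Qv x' c i := by
  simp only [Qv, Pi.add_apply, cmb_add, Finset.sum_add_distrib]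

lemma cmb_one (c : Fin e → ZMod 2) (α₀ : Fin e) (h : c α₀ = 1) (q : Fin m → ZMod 2) :
    cmb c (fun α β => if α = α₀ then q β else 0) = q := by
  funext β
  simp [cmb, h]

lemma cmb_zero (c : Fin e → ZMod 2) : cmb c (0 : Fin e → Fin m → ZMod 2) = 0 := by
  funext β
  simp [cmb]

lemma sel_ne (j l i : J) (hjl : j ≠ l) : sel j l i ≠ i := by
  unfold sel
  split_ifs with h
  · subst h
    exact hjl.symm
  · exact fun h' => h h'.symm

lemma Qv_DD (j l : J) (hjl : j ≠ l) (αj αl : Fin e) (c : CC J e) (hj : c j αj = 1)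
    (hl : c l αl = 1) (w : (J → Fin m → ZMod 2) × (Fin m → ZMod 2) × (Fin m → ZMod 2)) (i : J) :
    Qv (DD j l αj αl w) c i = w.1 i := by
  unfold Qv
  rw [Finset.sum_eq_single_of_mem (sel j l i)
    (Finset.mem_erase.2 ⟨sel_ne j l i hjl, Finset.mem_univ _⟩)]
  · have h1 : DD j l αj αl w (sel j l i) i =
        fun α β => if α = al αj αl j (sel j l i) then w.1 i β else 0 := by
      funext α β
      have h2 : ¬ (sel j l i = j ∧ i = j ∧ α = αj) := by
        rintro ⟨h3, h4, -⟩
        exact sel_ne j l i hjl (h3.trans h4.symm)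
      have h3 : ¬ (sel j l i = l ∧ i = l ∧ α = αl) := by
        rintro ⟨h3, h4, -⟩
        exact sel_ne j l i hjl (h3.trans h4.symm)
      simp only [DD, if_neg h2, if_neg h3, add_zero, true_and]
    rw [h1]
    apply cmb_one
    unfold al sel
    by_cases h : i = j
    · rw [if_pos h, if_neg hjl.symm]
      exact hl
    · rw [if_neg h, if_pos rfl]
      exact hj
  · intro j' hj' hne
    have h0 : j' ≠ i := (Finset.mem_erase.1 hj').1
    have h1 : DD j l αj αl w j' i = 0 := by
      funext α β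
      have h2 : ¬ (j' = j ∧ i = j ∧ α = αj) := by
        rintro ⟨h3, h4, -⟩
        exact h0 (h3.trans h4.symm)
      have h3 : ¬ (j' = l ∧ i = l ∧ α = αl) := by
        rintro ⟨h3, h4, -⟩
        exact h0 (h3.trans h4.symm)
      have h4 : ¬ (j' = sel j l i ∧ α = al αj αl j j') := fun h => hne h.1
      simp only [DD, if_neg h2, if_neg h3, if_neg h4, add_zero, Pi.zero_apply]
    rw [h1, cmb_zero]

lemma cmb_DD_j (j l : J) (hjl : j ≠ l) (αj αl : Fin e) (c : CC J e) (hj : c j αj = 1)
    (w : (J → Fin m → ZMod 2) × (Fin m → ZMod 2) × (Fin m → ZMod 2)) :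
    cmb (c j) (DD j l αj αl w j j) = w.2.1 := by
  have h1 : DD j l αj αl w j j = fun α β => if α = αj then w.2.1 β else 0 := by
    funext α β
    have h2 : ¬ (j = sel j l j ∧ α = al αj αl j j) := fun h => sel_ne j l j hjl h.1.symm
    have h3 : ¬ (j = l ∧ j = l ∧ α = αl) := fun h => hjl h.1
    simp only [DD, if_neg h2, if_neg h3, add_zero, zero_add, true_and]
  rw [h1]
  exact cmb_one _ _ hj _

lemma cmb_DD_l (j l : J) (hjl : j ≠ l) (αj αl : Fin e) (c : CC J e) (hl : c l αl = 1)
    (w : (J → Fin m → ZMod 2) × (Fin m → ZMod 2) × (Fin m → ZMod 2)) :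
    cmb (c l) (DD j l αj αl w l l) = w.2.2 := by
  have h1 : DD j l αj αl w l l = fun α β => if α = αl then w.2.2 β else 0 := by
    funext α β
    have h2 : ¬ (l = sel j l l ∧ α = al αj αl j l) := fun h => sel_ne j l l hjl h.1.symm
    have h3 : ¬ (l = j ∧ l = j ∧ α = αj) := fun h => hjl h.1.symm
    simp only [DD, if_neg h2, if_neg h3, add_zero, zero_add, true_and]
  rw [h1]
  exact cmb_one _ _ hl _

lemma one_of_ne (a : ZMod 2) (h : a ≠ 0) : a = 1 := by
  fin_cases a
  · exact absurd rfl h
  · rfl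

end KPC.WFiber_

namespace KPC.WD

open KPC.WFiber_

variable {J : Type} [Fintype J] [DecidableEq J] {e m : ℕ}

theorem fiber_card (c : CC J e) (j l : J) (hjl : j ≠ l) (hj : c j ≠ 0) (hl : c l ≠ 0)
    (a b : YY J e m) :
    ((univ.filter fun x : XX J e m => av x c = a ∧ bv x c = b).card : ℝ) *
      ((2 : ℝ) ^ m) ^ (Fintype.card J + 2) ≤ Fintype.card (XX J e m) := by
  obtain ⟨αj, hαj⟩ := Function.ne_iff.1 hj
  obtain ⟨αl, hαl⟩ := Function.ne_iff.1 hl
  have hj1 : c j αj = 1 := one_of_ne _ hαj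
  have hl1 : c l αl = 1 := one_of_ne _ hαl
  have key : ((univ.filter fun x : XX J e m => av x c = a ∧ bv x c = b) ×ˢ
      (univ : Finset ((J → Fin m → ZMod 2) × (Fin m → ZMod 2) × (Fin m → ZMod 2)))).card ≤
      (univ : Finset (XX J e m)).card := by
    refine Finset.card_le_card_of_injOn (fun p => p.1 + DD j l αj αl p.2)
      (fun _ _ => Finset.mem_coe.2 (Finset.mem_univ _)) ?_
    rintro ⟨x, w⟩ hx ⟨x', w'⟩ hx' h
    have hx1 : av x c = a ∧ bv x c = b :=
      (Finset.mem_filter.1 (Finset.mem_product.1 (Finset.mem_coe.1 hx)).1).2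
    have hx2 : av x' c = a ∧ bv x' c = b :=
      (Finset.mem_filter.1 (Finset.mem_product.1 (Finset.mem_coe.1 hx')).1).2
    have h' : x + DD j l αj αl w = x' + DD j l αj αl w' := h
    have hQ : ∀ i, Qv x c i = Qv x' c i := fun i =>
      congrArg Prod.snd ((congrFun hx1.2 i).trans (congrFun hx2.2 i).symm)
    have hC : ∀ i, cmb (c i) (x i i) = cmb (c i) (x' i i) := fun i =>
      congrArg Prod.snd ((congrFun hx1.1 i).trans (congrFun hx2.1 i).symm)
    have hw1 : w.1 = w'.1 := by
      funext i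
      have h1 := congrArg (fun z => Qv z c i) h'
      simp only [Qv_add, Qv_DD j l hjl αj αl c hj1 hl1] at h1
      rw [hQ i] at h1
      exact add_left_cancel h1
    have hw2 : w.2.1 = w'.2.1 := by
      have h1 : cmb (c j) (x j j + DD j l αj αl w j j) =
          cmb (c j) (x' j j + DD j l αj αl w' j j) :=
        congrArg (fun z : XX J e m => cmb (c j) (z j j)) h'
      rw [cmb_add, cmb_add, cmb_DD_j j l hjl αj αl c hj1, cmb_DD_j j l hjl αj αl c hj1, hC j] at h1
      exact add_left_cancel h1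
    have hw3 : w.2.2 = w'.2.2 := by
      have h1 : cmb (c l) (x l l + DD j l αj αl w l l) =
          cmb (c l) (x' l l + DD j l αj αl w' l l) :=
        congrArg (fun z : XX J e m => cmb (c l) (z l l)) h'
      rw [cmb_add, cmb_add, cmb_DD_l j l hjl αj αl c hl1, cmb_DD_l j l hjl αj αl c hl1, hC l] at h1
      exact add_left_cancel h1
    have hw : w = w' := Prod.ext hw1 (Prod.ext hw2 hw3)
    subst hw
    exact Prod.ext (add_right_cancel h') rfl
  rw [Finset.card_product, Finset.card_univ, Finset.card_univ] at key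
  have hB : Fintype.card (Fin m → ZMod 2) = 2 ^ m := by simp
  have hc : Fintype.card ((J → Fin m → ZMod 2) × (Fin m → ZMod 2) × (Fin m → ZMod 2)) =
      (2 ^ m) ^ (Fintype.card J + 2) := by
    rw [Fintype.card_prod, Fintype.card_prod, Fintype.card_fun, hB]
    ring
  rw [hc] at key
  exact_mod_cast key

end KPC.WD
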