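import Pool.Agent.KPC.WMoyal
import Pool.Agent.KPC.WFiber

/-! KPC-D8: the second moment of `<f, W(c) f>` over the random parameter. -/

open Finset BigOperators

namespace KPC

namespace WMulti_

variable {J : Type} [Fintype J] [DecidableEq J] {e m : ℕ}

/-- the ambiguity function -/
def g (f : WD.YY J e m → ℝ) (a b : WD.YY J e m) : ℝ := ∑ y, sg (WD.pr a y) * f y * f (y + b)

theorem ip_Wm (x : WD.XX J e m) (c : CC J e) (f : WD.YY J e m → ℝ) :
    ip f ((WD.Wm x c).mulVec f) = g f (WD.av x c) (WD.bv x c) := by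
  unfold ip g
  refine Finset.sum_congr rfl fun y _ => ?_
  have h : (WD.Wm x c).mulVec f y = sg (WD.pr (WD.av x c) y) * f (y + WD.bv x c) := by
    unfold Matrix.mulVec dotProduct WD.Wm
    rw [Finset.sum_eq_single (y + WD.bv x c)]
    · simp
    · intro b _ hb
      simp [hb]
    · intro h
      exact absurd (Finset.mem_univ _) h
  rw [h]
  ring

theorem card_YY : (Fintype.card (WD.YY J e m) : ℝ) =
    ((2 : ℝ) ^ e) ^ Fintype.card J * ((2 : ℝ) ^ m) ^ Fintype.card J := by
  have : Fintype.card (WD.YY J e m) = (2 ^ e * 2 ^ m) ^ Fintype.card J := by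
    simp [WD.YY, ZMod.card]
  rw [this]
  push_cast
  rw [mul_pow]

end WMulti_

namespace WD

variable {J : Type} [Fintype J] [DecidableEq J] {e m : ℕ}

/-- from `moyal` and `fiber_card` -/
theorem Wm_multi (c : CC J e) (j l : J) (hjl : j ≠ l) (hj : c j ≠ 0) (hl : c l ≠ 0)
    (f : YY J e m → ℝ) :
    ∑ x : XX J e m, (ip f ((Wm x c).mulVec f)) ^ 2 ≤
      (((2 : ℝ) ^ e) ^ Fintype.card J / ((2 : ℝ) ^ m) ^ 2) * Fintype.card (XX J e m) *
        nsq f ^ 2 := by
  have h1 : ∑ x : XX J e m, (ip f ((Wm x c).mulVec f)) ^ 2 =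
      ∑ a : YY J e m, ∑ b : YY J e m,
        ((univ.filter fun x : XX J e m => av x c = a ∧ bv x c = b).card : ℝ) *
          (WMulti_.g f a b) ^ 2 := by
    simp_rw [WMulti_.ip_Wm]
    have h2 : ∀ x : XX J e m, (WMulti_.g f (av x c) (bv x c)) ^ 2 =
        ∑ a : YY J e m, ∑ b : YY J e m,
          if av x c = a ∧ bv x c = b then (WMulti_.g f a b) ^ 2 else 0 := by
      intro x
      rw [Finset.sum_eq_single (av x c), Finset.sum_eq_single (bv x c)]
      · simp
      · intro b _ hb
        rw [if_neg]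
        rintro ⟨-, h⟩
        exact hb h.symm
      · intro h
        exact absurd (Finset.mem_univ _) h
      · intro a _ ha
        refine Finset.sum_eq_zero fun b _ => ?_
        rw [if_neg]
        rintro ⟨h, -⟩
        exact ha h.symm
      · intro h
        exact absurd (Finset.mem_univ _) h
    rw [Finset.sum_congr rfl fun x _ => h2 x, Finset.sum_comm]
    refine Finset.sum_congr rfl fun a _ => ?_
    rw [Finset.sum_comm]
    refine Finset.sum_congr rfl fun b _ => ?_
    rw [← Finset.sum_filter, Finset.sum_const, nsmul_eq_mul]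
  have hP : (0 : ℝ) < ((2 : ℝ) ^ m) ^ (Fintype.card J + 2) := by positivity
  have h3 : ∀ a b : YY J e m,
      ((univ.filter fun x : XX J e m => av x c = a ∧ bv x c = b).card : ℝ) ≤
        Fintype.card (XX J e m) / ((2 : ℝ) ^ m) ^ (Fintype.card J + 2) := by
    intro a b
    rw [le_div_iff₀ hP]
    exact fiber_card c j l hjl hj hl a b
  rw [h1]
  calc ∑ a : YY J e m, ∑ b : YY J e m,
        ((univ.filter fun x : XX J e m => av x c = a ∧ bv x c = b).card : ℝ) *
          (WMulti_.g f a b) ^ 2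
      ≤ ∑ a : YY J e m, ∑ b : YY J e m,
        (Fintype.card (XX J e m) / ((2 : ℝ) ^ m) ^ (Fintype.card J + 2)) *
          (WMulti_.g f a b) ^ 2 := by
        refine Finset.sum_le_sum fun a _ => Finset.sum_le_sum fun b _ => ?_
        exact mul_le_mul_of_nonneg_right (h3 a b) (sq_nonneg _)
    _ = (Fintype.card (XX J e m) / ((2 : ℝ) ^ m) ^ (Fintype.card J + 2)) *
          ∑ a : YY J e m, ∑ b : YY J e m, (WMulti_.g f a b) ^ 2 := by
        rw [Finset.mul_sum]
        refine Finset.sum_congr rfl fun a _ => ?_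
        rw [Finset.mul_sum]
    _ = (Fintype.card (XX J e m) / ((2 : ℝ) ^ m) ^ (Fintype.card J + 2)) *
          (Fintype.card (YY J e m) * nsq f ^ 2) := by
        have := moyal f
        unfold WMulti_.g
        rw [this]
    _ = (((2 : ℝ) ^ e) ^ Fintype.card J / ((2 : ℝ) ^ m) ^ 2) * Fintype.card (XX J e m) *
        nsq f ^ 2 := by
        rw [WMulti_.card_YY, pow_add]
        have h4 : ((2 : ℝ) ^ m) ^ Fintype.card J ≠ 0 := by positivity
        have h5 : ((2 : ℝ) ^ m) ^ 2 ≠ 0 := by positivity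
        field_simp
    _ ≤ _ := le_refl _

end WD

end KPC
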