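import Pool.Agent.KPC.WeylDefs

/-! Job KPC-D3: the Weyl operator `W(c at j)` is diagonal in the basis `φ j`. -/

open Finset BigOperators

namespace KPC

namespace WPhi_

open WD

variable {J : Type} [Fintype J] [DecidableEq J] {e m : ℕ}

theorem dt_comm {k : ℕ} (u v : Fin k → ZMod 2) : dt u v = dt v u := by
  unfold dt
  exact Finset.sum_congr rfl fun i _ => mul_comm _ _

theorem dt_add_right {k : ℕ} (u v w : Fin k → ZMod 2) : dt u (v + w) = dt u v + dt u w := by
  unfold dt
  rw [← Finset.sum_add_distrib]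
  exact Finset.sum_congr rfl fun i _ => by simp [mul_add]

theorem dt_zero_right {k : ℕ} (u : Fin k → ZMod 2) : dt u 0 = 0 := by
  simp [dt]

theorem dt_zero_left {k : ℕ} (u : Fin k → ZMod 2) : dt 0 u = 0 := by
  simp [dt]

theorem cmb_zero (z : Fin e → Fin m → ZMod 2) : cmb 0 z = 0 := by
  funext β; simp [cmb]

theorem app_zero (z : Fin e → Fin m → ZMod 2) : app z 0 = 0 := by
  funext α; simp [app, dt_zero_right]

/-- `v · (c · z) = ∑_α c_α (z^α · v)` -/
theorem dt_cmb (v : Fin m → ZMod 2) (c : Fin e → ZMod 2) (z : Fin e → Fin m → ZMod 2) :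
    dt v (cmb c z) = ∑ α, c α * dt (z α) v := by
  unfold dt cmb
  simp_rw [Finset.mul_sum]
  rw [Finset.sum_comm]
  refine Finset.sum_congr rfl fun α _ => Finset.sum_congr rfl fun β _ => by ring

theorem dt_app (t : Fin e → ZMod 2) (z : Fin e → Fin m → ZMod 2) (q : Fin m → ZMod 2) :
    dt t (app z q) = dt (cmb t z) q := by
  rw [dt_comm (cmb t z) q, dt_cmb]
  unfold dt app
  rfl

theorem Qv_self (x : XX J e m) (j : J) (a : Fin e → ZMod 2) : Qv x (Pi.single j a) j = 0 := by
  unfold Qv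
  refine Finset.sum_eq_zero fun i hi => ?_
  rw [Pi.single_eq_of_ne (Finset.ne_of_mem_erase hi), cmb_zero]

theorem Qv_ne (x : XX J e m) (j l : J) (h : l ≠ j) (a : Fin e → ZMod 2) :
    Qv x (Pi.single j a) l = cmb a (x j l) := by
  unfold Qv
  rw [Finset.sum_eq_single j]
  · rw [Pi.single_eq_same]
  · intro i _ hi
    rw [Pi.single_eq_of_ne hi, cmb_zero]
  · intro hj
    exact absurd (Finset.mem_erase.mpr ⟨h.symm, Finset.mem_univ _⟩) hj

theorem Wm_apply (x : XX J e m) (c : CC J e) (f : YY J e m → ℝ) (y : YY J e m) :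
    (Wm x c).mulVec f y = sg (pr (av x c) y) * f (y + bv x c) := by
  unfold Matrix.mulVec dotProduct Wm
  simp

theorem pr_single (x : XX J e m) (j : J) (a : Fin e → ZMod 2) (y : YY J e m) :
    pr (av x (Pi.single j a)) y = dt a (y j).1 + dt (cmb a (x j j)) (y j).2 := by
  unfold pr av
  rw [Finset.sum_eq_single j]
  · simp only [Pi.single_eq_same]
  · intro i _ hi
    simp only [Pi.single_eq_of_ne hi, cmb_zero, dt_zero_left, add_zero]
  · intro h; exact absurd (Finset.mem_univ _) h

theorem bv_self (x : XX J e m) (j : J) (a : Fin e → ZMod 2) : bv x (Pi.single j a) j = 0 := by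
  unfold bv
  rw [Qv_self, app_zero]
  rfl

/-- the label identity -/
theorem label (x : XX J e m) (j : J) (a : Fin e → ZMod 2) (τ : YY J e m) :
    dt a (τ j).1 + dt (cmb a (x j j)) (τ j).2 +
      ∑ l ∈ univ.erase j, (dt (τ l).1 (bv x (Pi.single j a) l).1 +
        dt (τ l).2 (bv x (Pi.single j a) l).2) = ∑ α, a α * hh x j τ α := by
  have h1 : ∀ l ∈ univ.erase j, (dt (τ l).1 (bv x (Pi.single j a) l).1 +
        dt (τ l).2 (bv x (Pi.single j a) l).2) =
        ∑ α, a α * dt (x j l α) (cmb (τ l).1 (x l l) + (τ l).2) := by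
    intro l hl
    have hne : l ≠ j := Finset.ne_of_mem_erase hl
    have hb : bv x (Pi.single j a) l = (app (x l l) (cmb a (x j l)), cmb a (x j l)) := by
      unfold bv
      rw [Qv_ne x j l hne]
    rw [hb]
    simp only [dt_app, dt_cmb, dt_add_right, mul_add, Finset.sum_add_distrib]
  rw [Finset.sum_congr rfl h1, Finset.sum_comm]
  have h2 : dt (cmb a (x j j)) (τ j).2 = ∑ α, a α * dt (x j j α) (τ j).2 := by
    rw [dt_comm, dt_cmb]
  rw [h2]
  have h3 : dt a (τ j).1 = ∑ α, a α * (τ j).1 α := rfl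
  rw [h3, ← Finset.sum_add_distrib, ← Finset.sum_add_distrib]
  refine Finset.sum_congr rfl fun α _ => ?_
  unfold hh
  rw [mul_add, mul_add, Finset.mul_sum]

end WPhi_

namespace WD

variable {J : Type} [Fintype J] [DecidableEq J] {e m : ℕ}

open WPhi_ in
theorem Wm_phi (x : XX J e m) (j : J) (a : Fin e → ZMod 2) (τ : YY J e m) :
    (Wm x (Pi.single j a)).mulVec (phi j τ) = chi1 a (hh x j τ) • phi j τ := by
  funext y
  rw [Wm_apply, pr_single, Pi.smul_apply, smul_eq_mul]
  unfold chi1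
  rw [← label x j a τ]
  have hbj : (y + bv x (Pi.single j a)) j = y j := by
    rw [Pi.add_apply, bv_self, add_zero]
  unfold phi
  rw [hbj]
  by_cases h : y j = τ j
  · rw [if_pos h, if_pos h]
    have h4 : ∑ l ∈ univ.erase j, (dt (τ l).1 ((y + bv x (Pi.single j a)) l).1 +
        dt (τ l).2 ((y + bv x (Pi.single j a)) l).2) =
        ∑ l ∈ univ.erase j, (dt (τ l).1 (y l).1 + dt (τ l).2 (y l).2) +
        ∑ l ∈ univ.erase j, (dt (τ l).1 (bv x (Pi.single j a) l).1 +
          dt (τ l).2 (bv x (Pi.single j a) l).2) := by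
      rw [← Finset.sum_add_distrib]
      refine Finset.sum_congr rfl fun l _ => ?_
      rw [Pi.add_apply, Prod.fst_add, Prod.snd_add, dt_add_right, dt_add_right]
      ring
    rw [h4, h, sg_add, sg_add, sg_add, sg_add]
    ring
  · rw [if_neg h, if_neg h, mul_zero, mul_zero]

end WD

end KPC
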