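import Pool.Agent.KPC.WeylDefs

/-! Job KPC-D2: the vectors `φ j τ` are orthonormal. -/

open Finset BigOperators

namespace KPC

namespace WPhiOn_

open WD

variable {J : Type} [Fintype J] [DecidableEq J] {e m : ℕ}

/-- the pairing on one coordinate -/
def pg (u v : (Fin e → ZMod 2) × (Fin m → ZMod 2)) : ZMod 2 := dt u.1 v.1 + dt u.2 v.2

theorem dt_add_right {k : ℕ} (u v w : Fin k → ZMod 2) : dt u (v + w) = dt u v + dt u w := by
  unfold dt
  rw [← Finset.sum_add_distrib]
  exact Finset.sum_congr rfl fun i _ => by simp [mul_add]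

theorem dt_add_left {k : ℕ} (u v w : Fin k → ZMod 2) : dt (u + v) w = dt u w + dt v w := by
  unfold dt
  rw [← Finset.sum_add_distrib]
  exact Finset.sum_congr rfl fun i _ => by simp [add_mul]

theorem pg_add_right (u v w : (Fin e → ZMod 2) × (Fin m → ZMod 2)) :
    pg u (v + w) = pg u v + pg u w := by
  unfold pg
  rw [Prod.fst_add, Prod.snd_add, dt_add_right, dt_add_right]
  ring

theorem pg_add_left (u v w : (Fin e → ZMod 2) × (Fin m → ZMod 2)) :
    pg (u + v) w = pg u w + pg v w := by
  unfold pg
  rw [Prod.fst_add, Prod.snd_add, dt_add_left, dt_add_left]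
  ring

theorem dt_single {k : ℕ} (u : Fin k → ZMod 2) (i : Fin k) : dt u (Pi.single i 1) = u i := by
  unfold dt
  rw [Finset.sum_eq_single i]
  · rw [Pi.single_eq_same, mul_one]
  · intro l _ hl
    rw [Pi.single_eq_of_ne hl, mul_zero]
  · intro h; exact absurd (Finset.mem_univ _) h

theorem dt_zero {k : ℕ} (u : Fin k → ZMod 2) : dt u 0 = 0 := by simp [dt]

theorem exists_dt {k : ℕ} (u : Fin k → ZMod 2) (hu : u ≠ 0) : ∃ v, dt u v = 1 := by
  obtain ⟨i, hi⟩ := Function.ne_iff.mp hu
  refine ⟨Pi.single i 1, ?_⟩
  rw [dt_single]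
  have key : ∀ a : ZMod 2, a ≠ 0 → a = 1 := by decide
  exact key _ hi

theorem exists_pg (u : (Fin e → ZMod 2) × (Fin m → ZMod 2)) (hu : u ≠ 0) : ∃ v, pg u v = 1 := by
  by_cases h : u.1 = 0
  · have h2 : u.2 ≠ 0 := fun h2 => hu (Prod.ext h h2)
    obtain ⟨v, hv⟩ := exists_dt u.2 h2
    refine ⟨(0, v), ?_⟩
    unfold pg
    rw [hv, dt_zero, zero_add]
  · obtain ⟨v, hv⟩ := exists_dt u.1 h
    refine ⟨(v, 0), ?_⟩
    unfold pg
    rw [hv, dt_zero, add_zero]

/-- number of points with a given `j`-th coordinate -/
theorem card_fix (j : J) (a : (Fin e → ZMod 2) × (Fin m → ZMod 2)) :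
    ((univ.filter fun y : YY J e m => y j = a).card : ℝ) =
      ((2 : ℝ) ^ (e + m)) ^ (Fintype.card J - 1) := by
  have h1 : (univ.filter fun y : YY J e m => y j = a) =
      Fintype.piFinset (fun l => if l = j then {a} else univ) := by
    ext y
    simp only [Finset.mem_filter, Finset.mem_univ, true_and, Fintype.mem_piFinset]
    constructor
    · intro h l
      by_cases hl : l = j
      · subst hl; simp [h]
      · simp [hl]
    · intro h
      have := h j
      simpa using this
  rw [h1, Fintype.card_piFinset, ← Finset.mul_prod_erase univ _ (Finset.mem_univ j)]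
  have h2 : ∀ l ∈ univ.erase j, (if l = j then
      ({a} : Finset ((Fin e → ZMod 2) × (Fin m → ZMod 2))) else univ).card = 2 ^ (e + m) := by
    intro l hl
    rw [if_neg (Finset.ne_of_mem_erase hl)]
    simp [pow_add]
  rw [Finset.prod_congr rfl h2, Finset.prod_const, Finset.card_erase_of_mem (Finset.mem_univ j),
    Finset.card_univ]
  simp

end WPhiOn_

namespace WD

variable {J : Type} [Fintype J] [DecidableEq J] {e m : ℕ}

open WPhiOn_ in
theorem phi_on (j : J) (τ τ' : YY J e m) : ip (phi j τ) (phi j τ') = if τ = τ' then 1 else 0 := by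
  unfold ip
  by_cases h : τ = τ'
  · subst h
    rw [if_pos rfl]
    have h1 : ∀ y : YY J e m, phi j τ y * phi j τ y =
        if y j = τ j then (((2 : ℝ) ^ (e + m)) ^ (Fintype.card J - 1))⁻¹ else 0 := by
      intro y
      unfold phi
      by_cases hy : y j = τ j
      · rw [if_pos hy, if_pos hy]
        rw [mul_mul_mul_comm, sg_mul_self, mul_one, ← mul_inv, Real.mul_self_sqrt (by positivity)]
      · rw [if_neg hy, if_neg hy, mul_zero]
    rw [Finset.sum_congr rfl fun y _ => h1 y, ← Finset.sum_filter, Finset.sum_const, nsmul_eq_mul,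
      card_fix]
    exact mul_inv_cancel₀ (by positivity)
  · rw [if_neg h]
    by_cases hj : τ j = τ' j
    · have hex : ∃ l, τ l ≠ τ' l := Function.ne_iff.mp h
      obtain ⟨l0, hl0⟩ := hex
      have hlj : l0 ≠ j := by
        rintro rfl
        exact hl0 hj
      have hne : τ l0 + τ' l0 ≠ 0 := by
        intro h0
        apply hl0
        have h5 : ∀ u v : (Fin e → ZMod 2) × (Fin m → ZMod 2), u + v = 0 → u = v := by
          intro u v huv
          have h6 : v + v = 0 := by
            have key : ∀ a : ZMod 2, a + a = 0 := by decide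
            refine Prod.ext ?_ ?_
            · funext i; exact key _
            · funext i; exact key _
          calc u = u + (v + v) := by rw [h6, add_zero]
            _ = (u + v) + v := by rw [add_assoc]
            _ = v := by rw [huv, zero_add]
        exact h5 _ _ h0
      obtain ⟨v, hv⟩ := exists_pg _ hne
      set s : YY J e m := Pi.single l0 v with hs
      have hsj : s j = 0 := by rw [hs, Pi.single_eq_of_ne hlj.symm]
      have hphi : ∀ (t y : YY J e m), phi j t (y + s) = phi j t y * sg (pg (t l0) v) := by
        intro t y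
        unfold phi
        rw [Pi.add_apply, hsj, add_zero]
        by_cases hy : y j = t j
        · rw [if_pos hy, if_pos hy, mul_assoc, ← sg_add]
          congr 2
          have h7 : ∀ l ∈ univ.erase j, (dt (t l).1 ((y + s) l).1 + dt (t l).2 ((y + s) l).2) =
              (dt (t l).1 (y l).1 + dt (t l).2 (y l).2) + pg (t l) (s l) := by
            intro l _
            exact pg_add_right (t l) (y l) (s l)
          rw [Finset.sum_congr rfl h7, Finset.sum_add_distrib]
          congr 1
          rw [Finset.sum_eq_single l0]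
          · rw [hs, Pi.single_eq_same]
          · intro l _ hl
            rw [hs, Pi.single_eq_of_ne hl]
            unfold pg
            rw [Prod.fst_zero, Prod.snd_zero, dt_zero, dt_zero, add_zero]
          · intro hn
            exact absurd (Finset.mem_erase.mpr ⟨hlj, Finset.mem_univ _⟩) hn
        · rw [if_neg hy, if_neg hy, zero_mul]
      have h8 : ∑ y : YY J e m, phi j τ y * phi j τ' y =
          ∑ y : YY J e m, phi j τ (y + s) * phi j τ' (y + s) :=
        (Equiv.sum_comp (Equiv.addRight s) (fun y => phi j τ y * phi j τ' y)).symm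
      have h9 : sg (pg (τ l0) v) * sg (pg (τ' l0) v) = -1 := by
        rw [← sg_add, ← pg_add_left, hv]
        simp [sg]
      have h10 : ∑ y : YY J e m, phi j τ (y + s) * phi j τ' (y + s) =
          - ∑ y : YY J e m, phi j τ y * phi j τ' y := by
        rw [← Finset.sum_neg_distrib]
        refine Finset.sum_congr rfl fun y _ => ?_
        rw [hphi, hphi, mul_mul_mul_comm, h9]
        ring
      linarith
    · refine Finset.sum_eq_zero fun y _ => ?_
      unfold phi
      by_cases hy : y j = τ j
      · rw [if_neg (fun h2 : y j = τ' j => hj (hy.symm.trans h2)), mul_zero]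
      · rw [if_neg hy, zero_mul]

end WD

end KPC
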