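import Pool.Agent.KPC.WBasic
import Pool.Agent.KPC.WPhiOn
import Pool.Agent.KPC.WPhi
import Pool.Agent.KPC.WColl
import Pool.Agent.KPC.WMulti
import Pool.Agent.KPC.WMub

/-! Job KPC-D9: existence of Weyl systems with arbitrarily small error. -/

open Finset BigOperators

namespace KPC

namespace WExists_

theorem exists_m (C δ : ℝ) (hC : 1 ≤ C) (hδ : 0 < δ) :
    ∃ m : ℕ, 1 / (2 : ℝ) ^ m ≤ δ ∧ C / ((2 : ℝ) ^ m) ^ 2 ≤ δ := by
  have hC0 : 0 < C := lt_of_lt_of_le one_pos hC
  obtain ⟨m, hm⟩ := exists_pow_lt_of_lt_one (div_pos hδ hC0) (by norm_num : (1 / 2 : ℝ) < 1)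
  have h1 : 1 / (2 : ℝ) ^ m < δ / C := by
    rw [one_div_pow] at hm
    exact hm
  have h2 : C * (1 / (2 : ℝ) ^ m) ≤ δ := by
    have h3 := (lt_div_iff₀ hC0).mp h1
    rw [mul_comm]
    exact h3.le
  have h4 : 0 < 1 / (2 : ℝ) ^ m := by positivity
  have h5 : 1 / (2 : ℝ) ^ m ≤ 1 := by
    rw [div_le_one (by positivity)]
    exact one_le_pow₀ (by norm_num)
  refine ⟨m, le_trans ?_ h2, le_trans ?_ h2⟩
  · nlinarith
  · have h6 : C / ((2 : ℝ) ^ m) ^ 2 = C * ((1 / (2 : ℝ) ^ m) * (1 / (2 : ℝ) ^ m)) := by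
      field_simp
    rw [h6]
    exact mul_le_mul_of_nonneg_left (by nlinarith) hC0.le

end WExists_

open WExists_ in
/-- existence of Weyl systems with arbitrarily small error -/
theorem exists_weylSys (J : Type) [Fintype J] [DecidableEq J] (e : ℕ) (δ : ℝ) (hδ : 0 < δ) :
    ∃ (X Y : Type) (_ : Fintype X) (_ : Nonempty X) (_ : DecidableEq X) (_ : Fintype Y)
      (_ : Nonempty Y) (_ : DecidableEq Y), Nonempty (WeylSys J X Y e δ) := by
  obtain ⟨m, hm1, hm2⟩ := exists_m (((2 : ℝ) ^ e) ^ Fintype.card J) δ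
    (one_le_pow₀ (one_le_pow₀ (by norm_num))) hδ
  refine ⟨WD.XX J e m, WD.YY J e m, inferInstance, inferInstance, inferInstance, inferInstance,
    inferInstance, inferInstance, ⟨?_⟩⟩
  exact
    { W := fun x c => WD.Wm x c
      φ := fun j τ => WD.phi j τ
      h := fun x j τ => WD.hh x j τ
      W_zero := fun x => WD.Wm_zero x
      W_add := fun x c d => WD.Wm_add x c d
      W_symm := fun x c => WD.Wm_symm x c
      φ_on := fun j τ τ' => WD.phi_on j τ τ'
      W_φ := fun x j a τ => WD.Wm_phi x j a τ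
      coll := fun j τ τ' hne => by
        refine (WD.hh_coll j τ τ' hne).trans ?_
        exact mul_le_mul_of_nonneg_right (by linarith) (Nat.cast_nonneg _)
      multi := fun c hc f => by
        obtain ⟨j, l, hjl, hj, hl⟩ := hc
        refine (WD.Wm_multi c j l hjl hj hl f).trans ?_
        refine mul_le_mul_of_nonneg_right ?_ (sq_nonneg _)
        exact mul_le_mul_of_nonneg_right hm2 (Nat.cast_nonneg _)
      mub := fun x c j l τ τ' hjl => by
        refine (WD.phi_mub x c j l hjl τ τ').trans (le_trans ?_ hm1)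
        refine one_div_le_one_div_of_le (by positivity) ?_
        exact pow_le_pow_right₀ (by norm_num) (Nat.le_add_left m e) }

end KPC
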