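import Pool.Agent.KPC.WeylDefs

/-!
# Moyal identity over `F_2` (project KPC)
-/

open Finset BigOperators

namespace KPC.WMoyal_

open KPC.WD

variable {J : Type} [Fintype J] [DecidableEq J] {e m : ℕ}

theorem dt_add_left {k : ℕ} (u u' v : Fin k → ZMod 2) : dt (u + u') v = dt u v + dt u' v := by
  simp only [dt, Pi.add_apply, add_mul, Finset.sum_add_distrib]

theorem dt_add_right {k : ℕ} (u v v' : Fin k → ZMod 2) : dt u (v + v') = dt u v + dt u v' := by
  simp only [dt, Pi.add_apply, mul_add, Finset.sum_add_distrib]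

theorem dt_zero_left {k : ℕ} (v : Fin k → ZMod 2) : dt 0 v = 0 := by
  simp [dt]

theorem dt_single {k : ℕ} (α : Fin k) (v : Fin k → ZMod 2) : dt (Pi.single α 1) v = v α := by
  simp [dt, Pi.single_apply]

theorem pr_add_left (a a' y : YY J e m) : pr (a + a') y = pr a y + pr a' y := by
  simp only [pr, Pi.add_apply, Prod.fst_add, Prod.snd_add, dt_add_left]
  rw [← Finset.sum_add_distrib]
  exact Finset.sum_congr rfl fun l _ => by ring

theorem pr_add_right (a y y' : YY J e m) : pr a (y + y') = pr a y + pr a y' := by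
  simp only [pr, Pi.add_apply, Prod.fst_add, Prod.snd_add, dt_add_right]
  rw [← Finset.sum_add_distrib]
  exact Finset.sum_congr rfl fun l _ => by ring

theorem pr_zero_right (a : YY J e m) : pr a 0 = 0 := by
  have h := pr_add_right a 0 0
  rw [add_zero] at h
  exact left_eq_add.mp h

theorem eq_one_of_ne {z : ZMod 2} (h : z ≠ 0) : z = 1 := by
  revert h; revert z; decide

theorem exists_pr_eq_one {z : YY J e m} (hz : z ≠ 0) : ∃ a : YY J e m, pr a z = 1 := by
  obtain ⟨l, hl⟩ := Function.ne_iff.mp hz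
  have hcase : (z l).1 ≠ 0 ∨ (z l).2 ≠ 0 := by
    by_contra hcon
    push Not at hcon
    exact hl (Prod.ext hcon.1 hcon.2)
  rcases hcase with h | h
  · obtain ⟨α, hα⟩ := Function.ne_iff.mp h
    refine ⟨Pi.single l (Pi.single α 1, 0), ?_⟩
    unfold pr
    rw [Finset.sum_eq_single l]
    · rw [Pi.single_eq_same, dt_single, dt_zero_left, add_zero]
      exact eq_one_of_ne hα
    · intro b _ hb
      rw [Pi.single_eq_of_ne hb]
      simp [dt_zero_left]
    · intro h; exact absurd (mem_univ l) h
  · obtain ⟨α, hα⟩ := Function.ne_iff.mp h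
    refine ⟨Pi.single l (0, Pi.single α 1), ?_⟩
    unfold pr
    rw [Finset.sum_eq_single l]
    · rw [Pi.single_eq_same, dt_single, dt_zero_left, zero_add]
      exact eq_one_of_ne hα
    · intro b _ hb
      rw [Pi.single_eq_of_ne hb]
      simp [dt_zero_left]
    · intro h; exact absurd (mem_univ l) h

theorem sum_sg_pr (z : YY J e m) :
    ∑ a : YY J e m, sg (pr a z) = if z = 0 then (Fintype.card (YY J e m) : ℝ) else 0 := by
  split_ifs with hz
  · subst hz
    simp [pr_zero_right]
  · obtain ⟨a0, ha0⟩ := exists_pr_eq_one hz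
    have h1 : ∑ a : YY J e m, sg (pr a z) = ∑ a : YY J e m, sg (pr (a0 + a) z) :=
      (Equiv.sum_comp (Equiv.addLeft a0) fun a => sg (pr a z)).symm
    have h2 : ∀ a : YY J e m, sg (pr (a0 + a) z) = -sg (pr a z) := by
      intro a
      have h3 : sg (1 : ZMod 2) = -1 := by simp [sg]
      rw [pr_add_left, sg_add, ha0, h3]
      ring
    rw [Finset.sum_congr rfl fun a _ => h2 a, Finset.sum_neg_distrib] at h1
    linarith

theorem add_self_eq (y : YY J e m) : y + y = 0 := by
  have hc : ∀ t : ZMod 2, t + t = 0 := by decide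
  funext l
  exact Prod.ext (funext fun i => hc _) (funext fun i => hc _)

theorem add_eq_zero_iff' (y y' : YY J e m) : y + y' = 0 ↔ y = y' := by
  constructor
  · intro h
    have : y + y' + y' = y' := by rw [h, zero_add]
    rwa [add_assoc, add_self_eq, add_zero] at this
  · rintro rfl
    exact add_self_eq y

theorem sum_sq_fourier (g : YY J e m → ℝ) :
    ∑ a : YY J e m, (∑ y, sg (pr a y) * g y) ^ 2 = Fintype.card (YY J e m) * ∑ y, g y ^ 2 := by
  have h1 : ∀ a : YY J e m, (∑ y, sg (pr a y) * g y) ^ 2 =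
      ∑ y, ∑ y', sg (pr a (y + y')) * (g y * g y') := by
    intro a
    rw [sq, Finset.sum_mul_sum]
    refine Finset.sum_congr rfl fun y _ => Finset.sum_congr rfl fun y' _ => ?_
    rw [pr_add_right, sg_add]
    ring
  rw [Finset.sum_congr rfl fun a _ => h1 a, Finset.sum_comm, Finset.mul_sum]
  refine Finset.sum_congr rfl fun y _ => ?_
  rw [Finset.sum_comm]
  have h2 : ∀ y' : YY J e m, ∑ a : YY J e m, sg (pr a (y + y')) * (g y * g y') =
      if y = y' then Fintype.card (YY J e m) * (g y * g y') else 0 := by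
    intro y'
    rw [← Finset.sum_mul, sum_sg_pr]
    by_cases h : y = y'
    · rw [if_pos h, if_pos ((add_eq_zero_iff' y y').mpr h)]
    · rw [if_neg h, if_neg (fun hh => h ((add_eq_zero_iff' y y').mp hh)), zero_mul]
  rw [Finset.sum_congr rfl fun y' _ => h2 y', Finset.sum_ite_eq]
  simp [sq]

end KPC.WMoyal_

namespace KPC.WD

open KPC.WMoyal_

variable {J : Type} [Fintype J] [DecidableEq J] {e m : ℕ}

theorem moyal (f : YY J e m → ℝ) :
    ∑ a : YY J e m, ∑ b : YY J e m, (∑ y, sg (pr a y) * f y * f (y + b)) ^ 2 =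
      Fintype.card (YY J e m) * nsq f ^ 2 := by
  rw [Finset.sum_comm]
  have h1 : ∀ b : YY J e m, ∑ a : YY J e m, (∑ y, sg (pr a y) * f y * f (y + b)) ^ 2 =
      Fintype.card (YY J e m) * ∑ y, (f y * f (y + b)) ^ 2 := by
    intro b
    rw [← sum_sq_fourier fun y => f y * f (y + b)]
    refine Finset.sum_congr rfl fun a _ => ?_
    congr 1
    exact Finset.sum_congr rfl fun y _ => by ring
  rw [Finset.sum_congr rfl fun b _ => h1 b, ← Finset.mul_sum, Finset.sum_comm]
  congr 1
  have h2 : ∀ y : YY J e m, ∑ b : YY J e m, (f y * f (y + b)) ^ 2 = f y ^ 2 * nsq f := by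
    intro y
    unfold nsq
    rw [← Equiv.sum_comp (Equiv.addLeft y) fun b => f b ^ 2, Finset.mul_sum]
    refine Finset.sum_congr rfl fun b _ => ?_
    simp only [Equiv.coe_addLeft]
    ring
  rw [Finset.sum_congr rfl fun y _ => h2 y, ← Finset.sum_mul, sq]
  rfl

end KPC.WD
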