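import Pool.Agent.KPC.Basic

/-!
# The explicit Weyl system: definitions
`Y = J → F_2^e × F_2^m`, random parameter `x : J → J → Fin e → F_2^m`.
-/

open Finset BigOperators

namespace KPC.WD

variable {J : Type} [Fintype J] [DecidableEq J] {e m : ℕ}

/-- dot product over `F_2` -/
def dt {k : ℕ} (u v : Fin k → ZMod 2) : ZMod 2 := ∑ i, u i * v i

/-- the points -/
abbrev YY (J : Type) (e m : ℕ) : Type := J → (Fin e → ZMod 2) × (Fin m → ZMod 2)

/-- the random parameter -/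
abbrev XX (J : Type) (e m : ℕ) : Type := J → J → Fin e → Fin m → ZMod 2

/-- `c · z = ∑_α c_α z^α` -/
def cmb (c : Fin e → ZMod 2) (z : Fin e → Fin m → ZMod 2) : Fin m → ZMod 2 :=
  fun β => ∑ α, c α * z α β

/-- `z q ∈ F_2^e` -/
def app (z : Fin e → Fin m → ZMod 2) (q : Fin m → ZMod 2) : Fin e → ZMod 2 := fun α => dt (z α) q

/-- `Q_l = ∑_{j ≠ l} c_j · x_{jl}` -/
def Qv (x : XX J e m) (c : CC J e) (l : J) : Fin m → ZMod 2 :=
  ∑ j ∈ univ.erase l, cmb (c j) (x j l)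

/-- the shift `b` -/
def bv (x : XX J e m) (c : CC J e) : YY J e m := fun l => (app (x l l) (Qv x c l), Qv x c l)

/-- the frequency `a` -/
def av (x : XX J e m) (c : CC J e) : YY J e m := fun l => (c l, cmb (c l) (x l l))

/-- pairing on `Y` -/
def pr (a y : YY J e m) : ZMod 2 := ∑ l, (dt (a l).1 (y l).1 + dt (a l).2 (y l).2)

/-- the Weyl operators `W(c) f (y) = (-1)^{a·y} f (y + b)` -/
def Wm (x : XX J e m) (c : CC J e) : Matrix (YY J e m) (YY J e m) ℝ :=
  fun y y' => if y' = y + bv x c then sg (pr (av x c) y) else 0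

/-- the vectors `φ_{jτ}` -/
noncomputable def phi (j : J) (τ y : YY J e m) : ℝ :=
  if y j = τ j then (Real.sqrt (((2 : ℝ) ^ (e + m)) ^ (Fintype.card J - 1)))⁻¹ *
    sg (∑ l ∈ univ.erase j, (dt (τ l).1 (y l).1 + dt (τ l).2 (y l).2)) else 0

/-- the labels `h_j(τ)` -/
def hh (x : XX J e m) (j : J) (τ : YY J e m) : Fin e → ZMod 2 := fun α =>
  (τ j).1 α + dt (x j j α) (τ j).2 +
    ∑ l ∈ univ.erase j, dt (x j l α) (cmb (τ l).1 (x l l) + (τ l).2)

end KPC.WD
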